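import Mathlib
import Pool.Agent.Lib.MP_42948a_nt.OM.C1
import Pool.Agent.Lib.MP_42948a_nt.OM.C2
import Pool.Agent.Lib.MP_42948a_nt.OA.SD

/-!
# JOB SvA: an upper bound sieve

`OM` = `Pool.Agent.Lib.MP_42948a_nt.OM`, `OA` = `..OA`.  `FF_near` (`OM/C2.lean`) gives `ν` with `ν b * b^0 ≤ 1`... : take `A = 1`: for large `b`, `ν b * b ≤ 1`, so there is `b₀` (`≥ 2`) with `ν b₀ ≤ 1/2`, and
`(1/2) BP z b₀ g ≤ FF z b₀ g ≤ ∏_{p ∈ PP z} (1 - g p)` (`OA/SD.lean: FF_le`) for `g p = 1/p`.  `mert`: `∏_{p ≤ z} (1 - 1/p) ≤ 1/log z` for `z ≥ 2`: `∏_{p ≤ z} (1 - 1/p)^(-1) ≥ ∑_{n ≤ z} 1/n ≥ log z`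
(Euler product over the `z`-smooth numbers, Mathlib `Nat.smoothNumbers`, `EulerProduct.prod_primesBelow_tsum_eq_tsum_smoothNumbers` / `EulerProduct.summable_and_hasSum_smoothNumbers_prod_primesBelow_geometric`; `log_add_one_le_harmonic`
for `∑ 1/n ≥ log`; or elementary: `log n ≤ ∑_{p ≤ ..}`...).
`K₁ = 4 b₀ + 6`.  For each `i ∈ A`: `[Rough z (n i)] ≤ wp z b₀ (n i)` (`wp_rough`, `wp_nonneg` in `OM/C1.lean`), so the number is `≤ ∑_{i ∈ A} wp z b₀ (n i) = ∑_{T ⊆ PP z} lp z b₀ T #{i ∈ A : ∏ T ∣ n i}` (`wp_expand`).  For `lp T ≠ 0`: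
`∏ T ≤ z^K₁` (`lp_level`), `d = ∏ T` is squarefree (product of distinct primes), so `#{..} = X/d + O(R)`; `|lp T| ≤ 1` (`lp_abs_le`).  So the sum is `≤ X ∑_T lp T ∏_{p ∈ T} 1/p + R #{T : ∏ T ≤ z^K₁} ≤ X BP z b₀ (1/p) + z^K₁ R`
(`BP_expand`; `T ↦ ∏ T` is injective on sets of primes (`Nat.primeFactors_prod`) with values in `Icc 1 (z^K₁)`), and `X BP ≤ 2 X ∏ (1 - 1/p) ≤ 2 X/log z`.  So `C = 2`.
`Rough z n` (`OA/Defs.lean`): `0 < n` and all prime factors are `> z`.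
-/

open Finset

namespace Pool.Agent.Lib.MP_d57abb_nt.KT

open Pool.Agent.Lib.MP_42948a_nt
open Pool.Agent.Lib.MP_42948a_nt.OA (Rough)

theorem mert (z : ℕ) (hz : 2 ≤ z) :
    ∏ p ∈ (Icc 1 z).filter Nat.Prime, (1 - 1 / (p : ℝ)) ≤ 1 / Real.log z := by
  have hz' : (2 : ℝ) ≤ z := by exact_mod_cast hz
  have hlog : 0 < Real.log z := Real.log_pos (by linarith)
  let f : ℕ →* ℝ := ⟨⟨fun n => (n : ℝ)⁻¹, by simp⟩, by intro a b; push_cast; rw [mul_inv]⟩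
  have hf : ∀ n : ℕ, f n = (n : ℝ)⁻¹ := fun n => rfl
  have hp1 : ∀ {p : ℕ}, p.Prime → ‖f p‖ < 1 := by
    intro p hp
    rw [hf, norm_inv, Real.norm_natCast]
    have : (1 : ℝ) < p := by exact_mod_cast hp.one_lt
    exact inv_lt_one_of_one_lt₀ this
  obtain ⟨hs1, hs2⟩ := EulerProduct.summable_and_hasSum_smoothNumbers_prod_primesBelow_geometric hp1 (z + 1)
  have hset : (z + 1).primesBelow = (Icc 1 z).filter Nat.Prime := by
    ext p
    rw [Nat.mem_primesBelow, mem_filter, mem_Icc]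
    constructor
    · rintro ⟨h1, h2⟩
      exact ⟨⟨h2.one_lt.le, by omega⟩, h2⟩
    · rintro ⟨⟨h1, h2⟩, h3⟩
      exact ⟨by omega, h3⟩
  rw [hset] at hs2
  have hmem : ∀ n ∈ Icc 1 z, n ∈ (z + 1).smoothNumbers := by
    intro n hn
    rw [mem_Icc] at hn
    exact Nat.mem_smoothNumbers_of_lt (by omega) (by omega)
  have hle : ∑ n ∈ Icc 1 z, (n : ℝ)⁻¹ ≤ ∏ p ∈ (Icc 1 z).filter Nat.Prime, (1 - f p)⁻¹ := by
    have hinj : Function.Injective (fun n : {x // x ∈ Icc 1 z} => (⟨n.1, hmem n.1 n.2⟩ : (z + 1).smoothNumbers)) := by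
      intro a b h
      exact Subtype.ext (congrArg (fun x : (z + 1).smoothNumbers => x.1) h)
    have h1 := sum_le_hasSum (((Icc 1 z).attach).map ⟨_, hinj⟩) (fun i _ => by
          rw [hf]; positivity) hs2
    rw [sum_map] at h1
    rw [← sum_attach (Icc 1 z) (fun n => (n : ℝ)⁻¹)]
    exact h1
  have hharm : Real.log z ≤ ∑ n ∈ Icc 1 z, (n : ℝ)⁻¹ := by
    have h1 := log_add_one_le_harmonic z
    rw [harmonic_eq_sum_Icc] at h1
    push_cast at h1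
    refine le_trans ?_ h1
    exact Real.log_le_log (by linarith) (by linarith)
  have hprod : (∏ p ∈ (Icc 1 z).filter Nat.Prime, (1 - f p)⁻¹) =
      (∏ p ∈ (Icc 1 z).filter Nat.Prime, (1 - 1 / (p : ℝ)))⁻¹ := by
    rw [← prod_inv_distrib]
    refine prod_congr rfl fun p _ => ?_
    rw [hf, one_div]
  rw [hprod] at hle
  have h3 := hharm.trans hle
  rw [one_div]
  rw [← inv_inv (∏ p ∈ (Icc 1 z).filter Nat.Prime, (1 - 1 / (p : ℝ)))]
  exact inv_anti₀ hlog h3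

open Classical in
theorem upper_sieve : ∃ (C : ℝ) (K₁ : ℕ), 0 < C ∧ 1 ≤ K₁ ∧ ∀ z : ℕ, 2 ≤ z →
    ∀ (A : Finset (ℤ × ℤ)) (n : ℤ × ℤ → ℕ) (X R : ℝ), 0 ≤ X → 0 ≤ R →
    (∀ d : ℕ, Squarefree d → d ≤ z ^ K₁ → |((A.filter (fun i => d ∣ n i)).card : ℝ) - X / d| ≤ R) →
    ((A.filter (fun i => Rough z (n i))).card : ℝ) ≤ C * X / Real.log z + (z : ℝ) ^ K₁ * R := by
  classical
  obtain ⟨ν, hν0, hνd, hFF⟩ := OM.FF_near
  obtain ⟨B, hB⟩ := hνd 1
  set b₀ : ℕ := max B 2 with hb₀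
  have hb2 : (2 : ℝ) ≤ (b₀ : ℝ) := by exact_mod_cast le_max_right B 2
  have hνh : ν b₀ ≤ 1 / 2 := by
    have h1 := hB b₀ (le_max_left B 2)
    rw [pow_one] at h1
    have h2 : ν b₀ * 2 ≤ ν b₀ * (b₀ : ℝ) := mul_le_mul_of_nonneg_left hb2 (hν0 b₀)
    linarith
  refine ⟨2, 4 * b₀ + 6, by norm_num, by omega, ?_⟩
  intro z hz A n X R hX hR hA
  have hz' : (2 : ℝ) ≤ z := by exact_mod_cast hz
  have hlog : 0 < Real.log z := Real.log_pos (by linarith)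
  set K₁ : ℕ := 4 * b₀ + 6 with hK₁
  set P : Finset ℕ := OA.PP z with hP
  have hPeq : P = (Icc 1 z).filter Nat.Prime := rfl
  have hPp : ∀ p ∈ P, p.Prime := fun p hp => (mem_filter.1 (hPeq ▸ hp)).2
  have hTp : ∀ T ∈ P.powerset, ∀ p ∈ T, p.Prime := fun T hT p hp => hPp p (mem_powerset.1 hT hp)
  have hg : ∀ p ∈ P, 0 ≤ 1 / (p : ℝ) ∧ 1 / (p : ℝ) ≤ 1 / (p : ℝ) := fun p _ => ⟨by positivity, le_rfl⟩
  have hg1 : ∀ p ∈ P, 1 / (p : ℝ) ≤ 1 := by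
    intro p hp
    have h1 : (1 : ℝ) ≤ p := by exact_mod_cast (hPp p hp).one_lt.le
    rw [div_le_one (by linarith)]
    exact h1
  have hprod0 : 0 ≤ ∏ p ∈ P, (1 - 1 / (p : ℝ)) := prod_nonneg fun p hp => sub_nonneg.2 (hg1 p hp)
  have hBP0 : 0 ≤ OM.BP z b₀ (fun p => 1 / (p : ℝ)) :=
    hprod0.trans (OM.BP_ge z b₀ (fun p => 1 / (p : ℝ)) (fun p hp => (hg p hp).1) hg1)
  have hBP : OM.BP z b₀ (fun p => 1 / (p : ℝ)) ≤ 2 / Real.log z := by
    have h1 := hFF z b₀ (fun p => 1 / (p : ℝ)) hg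
    have h2 := OA.FF_le z b₀ (fun p => 1 / (p : ℝ)) (fun p hp => (hg p hp).1) hg1
    have h3 := mert z hz
    have h4 : (1 / 2 : ℝ) * OM.BP z b₀ (fun p => 1 / (p : ℝ)) ≤ (1 - ν b₀) * OM.BP z b₀ (fun p => 1 / (p : ℝ)) :=
      mul_le_mul_of_nonneg_right (by linarith) hBP0
    have h5 : (1 / 2 : ℝ) * OM.BP z b₀ (fun p => 1 / (p : ℝ)) ≤ 1 / Real.log z :=
      h4.trans (h1.trans (h2.trans h3))
    have h6 : 2 / Real.log z = 2 * (1 / Real.log z) := by ring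
    rw [h6]
    linarith
  -- the number is at most the sum of the weights
  have hstep1 : ((A.filter (fun i => Rough z (n i))).card : ℝ) ≤ ∑ i ∈ A, OM.wp z b₀ (n i) := by
    rw [card_eq_sum_ones, Nat.cast_sum, sum_filter]
    refine sum_le_sum fun i _ => ?_
    by_cases h : Rough z (n i)
    · rw [if_pos h, Nat.cast_one]
      exact OM.wp_rough z b₀ (n i) h
    · rw [if_neg h]
      exact OM.wp_nonneg z b₀ (n i)
  have hstep2 : ∑ i ∈ A, OM.wp z b₀ (n i) =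
      ∑ T ∈ P.powerset, OM.lp z b₀ T * ((A.filter (fun i => (∏ p ∈ T, p) ∣ n i)).card : ℝ) := by
    have h1 : ∀ i ∈ A, OM.wp z b₀ (n i) =
        ∑ T ∈ P.powerset, OM.lp z b₀ T * (if (∏ p ∈ T, p) ∣ n i then (1 : ℝ) else 0) :=
      fun i _ => OM.wp_expand z b₀ (n i)
    rw [sum_congr rfl h1, sum_comm]
    refine sum_congr rfl fun T _ => ?_
    rw [← mul_sum, card_eq_sum_ones, Nat.cast_sum, sum_filter]
    refine congrArg _ (sum_congr rfl fun i _ => ?_)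
    split_ifs <;> simp
  -- termwise
  have hterm : ∀ T ∈ P.powerset, OM.lp z b₀ T * ((A.filter (fun i => (∏ p ∈ T, p) ∣ n i)).card : ℝ) ≤
      X * (OM.lp z b₀ T * ∏ p ∈ T, 1 / (p : ℝ)) + (if OM.lp z b₀ T ≠ 0 then R else 0) := by
    intro T hT
    by_cases h0 : OM.lp z b₀ T = 0
    · rw [h0, if_neg (by simp)]
      simp
    · rw [if_pos h0]
      have hle : ∏ p ∈ T, p ≤ z ^ K₁ := OM.lp_level z b₀ (by omega) T (mem_powerset.1 hT) h0
      have hsq : Squarefree (∏ p ∈ T, p) := by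
        refine Finset.squarefree_prod_of_pairwise_isCoprime ?_ ?_
        · intro p hp q hq hpq
          exact Nat.coprime_iff_isRelPrime.1 ((Nat.coprime_primes (hTp T hT p hp) (hTp T hT q hq)).2 hpq)
        · intro p hp
          exact (hTp T hT p hp).prime.squarefree
      have h1 := hA (∏ p ∈ T, p) hsq hle
      have h2 : ∏ p ∈ T, 1 / (p : ℝ) = 1 / ((∏ p ∈ T, p : ℕ) : ℝ) := by
        rw [prod_div_distrib, prod_const_one, Nat.cast_prod]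
      rw [h2]
      have h3 : |OM.lp z b₀ T * (((A.filter (fun i => (∏ p ∈ T, p) ∣ n i)).card : ℝ) - X / ((∏ p ∈ T, p : ℕ) : ℝ))| ≤ R := by
        rw [abs_mul]
        calc _ ≤ 1 * R := mul_le_mul (OM.lp_abs_le z b₀ T) h1 (abs_nonneg _) zero_le_one
          _ = R := one_mul R
      have h4 := (abs_le.1 h3).2
      have h5 : X * (OM.lp z b₀ T * (1 / ((∏ p ∈ T, p : ℕ) : ℝ))) = OM.lp z b₀ T * (X / ((∏ p ∈ T, p : ℕ) : ℝ)) := by
        ring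
      rw [h5]
      rw [mul_sub] at h4
      linarith
  have hcount : ∑ T ∈ P.powerset, (if OM.lp z b₀ T ≠ 0 then R else 0) ≤ (z : ℝ) ^ K₁ * R := by
    rw [← sum_filter, sum_const, nsmul_eq_mul]
    refine mul_le_mul_of_nonneg_right ?_ hR
    have h1 : (P.powerset.filter (fun T => OM.lp z b₀ T ≠ 0)).card ≤ (Icc 1 (z ^ K₁)).card := by
      refine card_le_card_of_injOn (fun T => ∏ p ∈ T, p) ?_ ?_
      · intro T hT
        have hT' := mem_filter.1 (mem_coe.1 hT)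
        have hle : ∏ p ∈ T, p ≤ z ^ K₁ := OM.lp_level z b₀ (by omega) T (mem_powerset.1 hT'.1) hT'.2
        exact mem_coe.2 (mem_Icc.2 ⟨prod_pos fun p hp => (hTp T hT'.1 p hp).pos, hle⟩)
      · intro T hT S hS hTS
        have hT' := mem_filter.1 (mem_coe.1 hT)
        have hS' := mem_filter.1 (mem_coe.1 hS)
        have e1 := Nat.primeFactors_prod (hTp T hT'.1)
        have e2 := Nat.primeFactors_prod (hTp S hS'.1)
        rw [← e1, ← e2]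
        exact congrArg Nat.primeFactors hTS
    rw [Nat.card_Icc, Nat.add_sub_cancel] at h1
    exact_mod_cast h1
  have hBPe : OM.BP z b₀ (fun p => 1 / (p : ℝ)) = ∑ T ∈ P.powerset, OM.lp z b₀ T * ∏ p ∈ T, 1 / (p : ℝ) :=
    OM.BP_expand z b₀ (fun p => 1 / (p : ℝ))
  calc ((A.filter (fun i => Rough z (n i))).card : ℝ)
      ≤ ∑ T ∈ P.powerset, OM.lp z b₀ T * ((A.filter (fun i => (∏ p ∈ T, p) ∣ n i)).card : ℝ) :=
        hstep1.trans hstep2.le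
    _ ≤ ∑ T ∈ P.powerset, (X * (OM.lp z b₀ T * ∏ p ∈ T, 1 / (p : ℝ)) + (if OM.lp z b₀ T ≠ 0 then R else 0)) :=
        sum_le_sum hterm
    _ = X * OM.BP z b₀ (fun p => 1 / (p : ℝ)) + ∑ T ∈ P.powerset, (if OM.lp z b₀ T ≠ 0 then R else 0) := by
        rw [sum_add_distrib, ← mul_sum, hBPe]
    _ ≤ X * (2 / Real.log z) + (z : ℝ) ^ K₁ * R :=
        add_le_add (mul_le_mul_of_nonneg_left hBP hX) hcount
    _ = 2 * X / Real.log z + (z : ℝ) ^ K₁ * R := by ring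

end Pool.Agent.Lib.MP_d57abb_nt.KT
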