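import Mathlib
import Pool.Agent.Lib.MP_d57abb_nt.Basic

/-!
# Stream KT (kernel theorem): definitions

`P` is a natural number with `P ≤ N² ≤ K P`; `PP P` are the primes in `(P/2, P]` that are `1` or `4` modulo `5`, `NN W P` the integers in `(P/2, P]` prime to
`W` that are `1` or `4` modulo `5`.  The kernel theorem says that the kernel `ff W P (dt s t)` on primitive vectors in `[0, N]²` has small bilinear norm.
RULE for all files of this stream: never use the tactics `convert`, `congr!` (their proof terms are refused by the grader).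
-/

namespace Pool.Agent.Lib.MP_d57abb_nt.KT

open Finset

/-- the residues `1, 4` modulo `5` -/
def R5 (n : ℕ) : Prop := n % 5 = 1 ∨ n % 5 = 4

instance : DecidablePred R5 := fun n => by unfold R5; infer_instance

/-- the primes of `(P/2, P]` that are `1, 4` modulo `5` -/
def PP (P : ℕ) : Finset ℕ := (Ioc (P / 2) P).filter (fun n => n.Prime ∧ R5 n)

/-- the integers of `(P/2, P]` prime to `W` that are `1, 4` modulo `5` -/
def NN (W P : ℕ) : Finset ℕ := (Ioc (P / 2) P).filter (fun n => n.Coprime W ∧ R5 n)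

/-- primes minus model, as a function on `ℕ` -/
noncomputable def fN (W P n : ℕ) : ℝ :=
  (if n ∈ PP P then 1 / ((PP P).card : ℝ) else 0) - (if n ∈ NN W P then 1 / ((NN W P).card : ℝ) else 0)

/-- primes minus model, as a function on `ℤ` (it vanishes on the nonpositive integers) -/
noncomputable def ff (W P : ℕ) (x : ℤ) : ℝ := fN W P x.toNat

/-- the primitive vectors of `[0, N]²` -/
noncomputable def box (N : ℕ) : Finset (ℤ × ℤ) :=
  ((Icc (0 : ℤ) N) ×ˢ (Icc (0 : ℤ) N)).filter (fun v => Int.gcd v.1 v.2 = 1)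

/-- the vectors of `[-R, R]²` -/
noncomputable def Bx (R : ℕ) : Finset (ℤ × ℤ) := (Icc (-(R : ℤ)) R) ×ˢ (Icc (-(R : ℤ)) R)

/-- the Gaussian weight, `≥ 1` on `box N` -/
noncomputable def Ph (N : ℕ) (s : ℤ × ℤ) : ℝ :=
  Real.exp (2 - ((s.1 : ℝ) ^ 2 + (s.2 : ℝ) ^ 2) / (N : ℝ) ^ 2)

/-- the correlation of two columns of the kernel, with the Gaussian weight -/
noncomputable def TT (W P N R : ℕ) (t t' : ℤ × ℤ) : ℝ :=
  ∑ s ∈ Bx R, Ph N s * (ff W P (dt s t) * ff W P (dt s t'))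

/-- Bezout multiplier: `t' ≡ lam t t' • t` modulo `det (t, t')` -/
def lam (t t' : ℤ × ℤ) : ℕ :=
  ((Int.gcdA t.1 t.2 * t'.1 + Int.gcdB t.1 t.2 * t'.2) % ((dt t t').natAbs : ℤ)).toNat

/-- the units modulo `D`, as natural numbers -/
def un (D : ℕ) : Finset ℕ := (range D).filter (fun l => l.Coprime D)

/-- the pairs `(m, m') ∈ [1, P]²` with `m' ≡ l m` modulo `D` -/
def Sq (P D l : ℕ) : Finset (ℕ × ℕ) := ((Icc 1 P) ×ˢ (Icc 1 P)).filter (fun q => q.2 ≡ l * q.1 [MOD D])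

/-- the square with side `L` and lower left corner `a` -/
noncomputable def sq (L : ℕ) (a : ℤ × ℤ) : Finset (ℤ × ℤ) := (Ico a.1 (a.1 + L)) ×ˢ (Ico a.2 (a.2 + L))

/-- the grid `[0, J)²` -/
noncomputable def gr (J : ℕ) : Finset (ℤ × ℤ) := (Ico (0 : ℤ) J) ×ˢ (Ico (0 : ℤ) J)

/-- `f` with the weight `(m / P)^i` -/
noncomputable def gi (W P i m : ℕ) : ℝ := fN W P m * ((m : ℝ) / P) ^ i

open Classical in
/-- all Dirichlet characters modulo `r` (empty for `r = 0`) -/
noncomputable def allc (r : ℕ) : Finset (DirichletCharacter ℂ r) :=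
  if h : r = 0 then ∅ else (haveI : NeZero r := ⟨h⟩; (Finset.univ : Finset (DirichletCharacter ℂ r)))

open Classical in
/-- the primitive Dirichlet characters modulo `r` -/
noncomputable def prim (r : ℕ) : Finset (DirichletCharacter ℂ r) :=
  (allc r).filter (fun ψ => ψ.IsPrimitive)

/-- character sum over `[1, P]` -/
noncomputable def SS (P : ℕ) (g : ℕ → ℝ) {D : ℕ} (χ : DirichletCharacter ℂ D) : ℂ :=
  ∑ m ∈ Icc 1 P, (g m : ℂ) * χ (m : ZMod D)

/-- character sum over the integers of `[1, P]` prime to `k` -/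
noncomputable def SC (P : ℕ) (g : ℕ → ℝ) {r : ℕ} (ψ : DirichletCharacter ℂ r) (k : ℕ) : ℂ :=
  ∑ m ∈ (Icc 1 P).filter (fun m => m.Coprime k), (g m : ℂ) * ψ (m : ZMod r)

/-- generic characters: the sums over a period with `c e ≡ 1, 4` modulo `5` vanish -/
def Gnr {r : ℕ} (ψ : DirichletCharacter ℂ r) : Prop :=
  ∀ c : ℕ, c.Coprime 5 → ∑ e ∈ (range (5 * r)).filter (fun e => R5 (c * e)), ψ (e : ZMod r) = 0

theorem allc_eq (r : ℕ) [NeZero r] : allc r = Finset.univ := by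
  unfold allc
  rw [dif_neg (NeZero.ne r)]

theorem mem_allc {r : ℕ} (hr : 0 < r) (χ : DirichletCharacter ℂ r) : χ ∈ allc r := by
  have : NeZero r := ⟨hr.ne'⟩
  rw [allc_eq]
  exact Finset.mem_univ _

theorem mem_prim {r : ℕ} (hr : 0 < r) (χ : DirichletCharacter ℂ r) : χ ∈ prim r ↔ χ.IsPrimitive := by
  simp only [prim, Finset.mem_filter]
  exact ⟨fun h => h.2, fun h => ⟨mem_allc hr χ, h⟩⟩

theorem card_allc_le (r : ℕ) : (allc r).card ≤ r := by
  rcases Nat.eq_zero_or_pos r with h | h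
  · subst h
    unfold allc
    rw [dif_pos rfl]
    simp
  · have : NeZero r := ⟨h.ne'⟩
    rw [allc_eq, Finset.card_univ, ← Nat.card_eq_fintype_card,
      DirichletCharacter.card_eq_totient_of_hasEnoughRootsOfUnity ℂ r]
    exact Nat.totient_le r

theorem fN_zero (W P : ℕ) : fN W P 0 = 0 := by
  unfold fN PP NN
  simp

theorem ff_nonpos (W P : ℕ) (x : ℤ) (hx : x ≤ 0) : ff W P x = 0 := by
  unfold ff
  rw [Int.toNat_of_nonpos hx, fN_zero]

theorem fN_support (W P n : ℕ) (h : n ∉ Ioc (P / 2) P) : fN W P n = 0 := by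
  have h1 : n ∉ PP P := fun h' => h (Finset.mem_filter.1 h').1
  have h2 : n ∉ NN W P := fun h' => h (Finset.mem_filter.1 h').1
  unfold fN
  rw [if_neg h1, if_neg h2, sub_zero]

theorem abs_fN_le (W P n : ℕ) :
    |fN W P n| ≤ (if n ∈ PP P then 1 / ((PP P).card : ℝ) else 0) + (if n ∈ NN W P then 1 / ((NN W P).card : ℝ) else 0) := by
  unfold fN
  refine (abs_sub _ _).trans (le_of_eq ?_)
  rw [abs_of_nonneg, abs_of_nonneg]
  · split_ifs <;> positivity
  · split_ifs <;> positivity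

theorem mem_PP {P n : ℕ} : n ∈ PP P ↔ (P / 2 < n ∧ n ≤ P) ∧ n.Prime ∧ R5 n := by
  unfold PP
  rw [Finset.mem_filter, Finset.mem_Ioc]

theorem mem_NN {W P n : ℕ} : n ∈ NN W P ↔ (P / 2 < n ∧ n ≤ P) ∧ n.Coprime W ∧ R5 n := by
  unfold NN
  rw [Finset.mem_filter, Finset.mem_Ioc]

theorem mem_box {N : ℕ} {v : ℤ × ℤ} :
    v ∈ box N ↔ ((0 ≤ v.1 ∧ v.1 ≤ N) ∧ (0 ≤ v.2 ∧ v.2 ≤ N)) ∧ Int.gcd v.1 v.2 = 1 := by
  unfold box
  rw [Finset.mem_filter, Finset.mem_product, Finset.mem_Icc, Finset.mem_Icc]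

end Pool.Agent.Lib.MP_d57abb_nt.KT
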