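import Mathlib
import Pool.Agent.Lib.MP_d57abb_nt.KT.Defs

/-!
# JOB Bad: the number of pairs of grid points with small determinant, the Gaussian weight

`bad_count`: the number of `(a, b) ∈ [0,J)² × [0,J)²` with `|dt a b| ≤ 4 J` is at most `60 J³`.  `a = 0`: `J²` values of `b`.  `a ≠ 0`, `m = max (a₁, a₂) ≥ 1`.  If `a₁ = m`: for every `b₁` (`J` values) the integer `b₂` satisfies
`|a₁ b₂ - b₁ a₂| ≤ 4 J`, so `b₂` lies in an interval of length `8 J/m` and has at most `8 J/m + 1` values; the same if `a₂ = m`.  The number of `a` with `max = m` is `2 m + 1 ≤ 3 m`.  Total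
`≤ J² + ∑_{m=1}^{J-1} 3 m · J (8 J/m + 1) ≤ J² + 24 J³ + 3 J · J²/2·.. ≤ 60 J³`.
(A convenient form: for `a ≠ 0`, `#{b} ≤ J (8 J/m + 1) ≤ 9 J²/m`, since `m ≤ J`; `∑_{a ≠ 0} 1/max(a₁,a₂) ≤ ∑_{a : a₁ ≥ a₂, a₁ ≥ 1} 1/a₁ + ∑_{a : a₂ ≥ a₁, a₂ ≥ 1} 1/a₂ ≤ 2 ∑_{m=1}^{J-1} (m+1)/m ≤ 4 J`, total `≤ J² + 36 J³`.)
`Ph_sum`: `exp (-x²) ≤ exp (1/4 - |x|)` (`(|x| - 1/2)² ≥ 0`), so `∑_{|a| ≤ R} exp (-a²/N²) ≤ exp (1/4) (1 + 2 ∑_{a ≥ 1} exp (-a/N)) ≤ exp (1/4) (1 + 2 N)` (geometric sum: `∑_{a ≥ 1} q^a = q/(1-q) = 1/(exp (1/N) - 1) ≤ N`) `≤ 4 N`; the product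
structure gives `∑_{s ∈ Bx R} Ph N s = exp 2 (∑_a exp (-a²/N²))² ≤ 16 exp 2 N² ≤ 200 N²`.
`Ph_ge`: on `box N`: `s₁² + s₂² ≤ 2 N²`, so the exponent is `≥ 0`.
`box_sub`: `box N ⊆ Bx R` for `N ≤ R`.
-/

open Finset

namespace Pool.Agent.Lib.MP_d57abb_nt.KT

open Pool.Agent.Lib.MP_d57abb_nt

private theorem Bad_line (J m : ℕ) (hm : 1 ≤ m) (c : ℤ) :
    ((Ico (0 : ℤ) J).filter (fun y => ((m : ℤ) * y - c).natAbs ≤ 4 * J)).card ≤ 8 * J / m + 1 := by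
  rcases ((Ico (0 : ℤ) J).filter (fun y => ((m : ℤ) * y - c).natAbs ≤ 4 * J)).eq_empty_or_nonempty with h | h
  · rw [h, card_empty]
    exact Nat.zero_le _
  · set S := (Ico (0 : ℤ) J).filter (fun y => ((m : ℤ) * y - c).natAbs ≤ 4 * J) with hS
    have hx : S.min' h ∈ S := S.min'_mem h
    set x := S.min' h with hxdef
    have hm0 : (0 : ℤ) < m := by exact_mod_cast hm
    have hsub : S ⊆ Icc x (x + ((8 * J / m : ℕ) : ℤ)) := by
      intro y hy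
      have h1 : x ≤ y := S.min'_le y hy
      rw [mem_Icc]
      refine ⟨h1, ?_⟩
      have hx2 := (mem_filter.1 hx).2
      have hy2 := (mem_filter.1 hy).2
      have h3 : (y - x) * (m : ℤ) ≤ 8 * J := by
        have e1 : (m : ℤ) * y - c ≤ 4 * J := by omega
        have e2 : -(4 * (J : ℤ)) ≤ (m : ℤ) * x - c := by omega
        linarith
      have h4 : y - x ≤ (8 * (J : ℤ)) / m := Int.le_ediv_of_mul_le hm0 h3
      push_cast
      linarith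
    refine (card_le_card hsub).trans ?_
    have h7 : x + ((8 * J / m : ℕ) : ℤ) + 1 - x = ((8 * J / m + 1 : ℕ) : ℤ) := by
      rw [Nat.cast_add, Nat.cast_one]
      ring
    rw [Int.card_Icc, h7, Int.toNat_natCast]

private theorem Bad_cnt1 (J : ℕ) (a : ℤ × ℤ) (m : ℕ) (hm : 1 ≤ m) (ha : a.1 = m) :
    ((gr J).filter (fun b => (dt a b).natAbs ≤ 4 * J)).card ≤ J * (8 * J / m + 1) := by
  unfold gr
  rw [card_filter, sum_product]
  have h1 : ∀ x ∈ Ico (0 : ℤ) J, (∑ y ∈ Ico (0 : ℤ) J, if (dt a (x, y)).natAbs ≤ 4 * J then 1 else 0)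
      ≤ 8 * J / m + 1 := by
    intro x _
    rw [← card_filter]
    have h2 := Bad_line J m hm (x * a.2)
    have h3 : (Ico (0 : ℤ) J).filter (fun y => (dt a (x, y)).natAbs ≤ 4 * J)
        = (Ico (0 : ℤ) J).filter (fun y => ((m : ℤ) * y - x * a.2).natAbs ≤ 4 * J) := by
      apply filter_congr
      intro y _
      unfold dt
      rw [ha]
    rw [h3]
    exact h2
  refine (sum_le_sum h1).trans ?_
  rw [sum_const, Int.card_Ico, smul_eq_mul]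
  simp

private theorem Bad_cnt2 (J : ℕ) (a : ℤ × ℤ) (m : ℕ) (hm : 1 ≤ m) (ha : a.2 = m) :
    ((gr J).filter (fun b => (dt a b).natAbs ≤ 4 * J)).card ≤ J * (8 * J / m + 1) := by
  refine le_trans ?_ (Bad_cnt1 J (a.2, a.1) m hm ha)
  refine card_le_card_of_injOn (fun b => (b.2, b.1)) ?_ ?_
  · intro b hb
    rw [mem_coe, mem_filter] at hb ⊢
    unfold gr at hb ⊢
    rw [mem_product] at hb ⊢
    refine ⟨⟨hb.1.2, hb.1.1⟩, ?_⟩
    have h1 : dt (a.2, a.1) (b.2, b.1) = -dt a b := by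
      unfold dt
      ring
    show (dt (a.2, a.1) (b.2, b.1)).natAbs ≤ 4 * J
    rw [h1, Int.natAbs_neg]
    exact hb.2
  · intro b _ b' _ h
    have h1 : b.2 = b'.2 := congrArg Prod.fst h
    have h2 : b.1 = b'.1 := congrArg Prod.snd h
    exact Prod.ext h2 h1

private theorem Bad_arith (J m : ℕ) (hm : 1 ≤ m) (hmJ : m < J) : (m + 1) * (J * (8 * J / m + 1)) ≤ 17 * J ^ 2 := by
  have h1 : m * (8 * J / m) ≤ 8 * J := Nat.mul_div_le _ _
  have h2 : (m + 1) * (8 * J / m) ≤ 16 * J := by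
    calc (m + 1) * (8 * J / m) ≤ (2 * m) * (8 * J / m) := Nat.mul_le_mul_right _ (by omega)
      _ = 2 * (m * (8 * J / m)) := by ring
      _ ≤ 16 * J := by omega
  calc (m + 1) * (J * (8 * J / m + 1)) = J * ((m + 1) * (8 * J / m) + (m + 1)) := by ring
    _ ≤ J * (16 * J + J) := Nat.mul_le_mul_left _ (by omega)
    _ = 17 * J ^ 2 := by ring

private theorem Bad_in (J : ℕ) (x : ℤ) (hx : x ∈ Ico (0 : ℤ) J) :
    (∑ y ∈ Ico (0 : ℤ) J, if 1 ≤ x ∧ y ≤ x then J * (8 * J / x.toNat + 1) else 0) ≤ 17 * J ^ 2 := by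
  rw [mem_Ico] at hx
  by_cases h1 : 1 ≤ x
  · obtain ⟨m, hm⟩ : ∃ m : ℕ, x = m := ⟨x.toNat, by omega⟩
    rw [← sum_filter, sum_const, smul_eq_mul]
    have hc : ((Ico (0 : ℤ) J).filter (fun y => 1 ≤ x ∧ y ≤ x)).card ≤ m + 1 := by
      have hsub : (Ico (0 : ℤ) J).filter (fun y => 1 ≤ x ∧ y ≤ x) ⊆ Icc (0 : ℤ) m := by
        intro y hy
        rw [mem_filter, mem_Ico] at hy
        rw [mem_Icc]
        omega
      refine (card_le_card hsub).trans ?_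
      rw [Int.card_Icc]
      omega
    have hm' : x.toNat = m := by omega
    rw [hm']
    refine (Nat.mul_le_mul_right _ hc).trans ?_
    exact Bad_arith J m (by omega) (by omega)
  · have h2 : ∀ y ∈ Ico (0 : ℤ) J, (if 1 ≤ x ∧ y ≤ x then J * (8 * J / x.toNat + 1) else 0) = 0 := by
      intro y _
      rw [if_neg]
      exact fun h => h1 h.1
    rw [sum_congr rfl h2, sum_const_zero]
    exact Nat.zero_le _

private theorem Bad_nat (J : ℕ) (hJ : 1 ≤ J) :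
    ((gr J ×ˢ gr J).filter (fun q => (dt q.1 q.2).natAbs ≤ 4 * J)).card ≤ 60 * J ^ 3 := by
  rw [card_filter, sum_product]
  have hcg : (gr J).card = J ^ 2 := by
    unfold gr
    rw [card_product, Int.card_Ico]
    simp only [sub_zero, Int.toNat_natCast]
    ring
  have h1 : ∀ a ∈ gr J, (∑ b ∈ gr J, if (dt a b).natAbs ≤ 4 * J then 1 else 0) ≤
      (if a = (0, 0) then J ^ 2 else 0) + ((if 1 ≤ a.1 ∧ a.2 ≤ a.1 then J * (8 * J / a.1.toNat + 1) else 0) +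
        (if 1 ≤ a.2 ∧ a.1 ≤ a.2 then J * (8 * J / a.2.toNat + 1) else 0)) := by
    intro a ha
    unfold gr at ha
    rw [mem_product, mem_Ico, mem_Ico] at ha
    obtain ⟨⟨ha1, ha2⟩, ha3, ha4⟩ := ha
    rw [← card_filter]
    by_cases h0 : a = (0, 0)
    · rw [if_pos h0]
      have h2 : ((gr J).filter (fun b => (dt a b).natAbs ≤ 4 * J)).card ≤ J ^ 2 := by
        rw [← hcg]
        exact card_filter_le _ _
      omega
    · by_cases h3 : 1 ≤ a.1 ∧ a.2 ≤ a.1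
      · rw [if_pos h3]
        have h4 := Bad_cnt1 J a a.1.toNat (by omega) (by omega)
        omega
      · have h5 : 1 ≤ a.2 ∧ a.1 ≤ a.2 := by
          by_contra h6
          apply h0
          apply Prod.ext
          · show a.1 = 0
            omega
          · show a.2 = 0
            omega
        rw [if_pos h5]
        have h4 := Bad_cnt2 J a a.2.toNat (by omega) (by omega)
        omega
  refine (sum_le_sum h1).trans ?_
  rw [sum_add_distrib, sum_add_distrib]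
  have s1 : (∑ a ∈ gr J, if a = (0, 0) then J ^ 2 else 0) ≤ J ^ 2 := by
    rw [sum_ite_eq']
    split_ifs
    · exact le_rfl
    · exact Nat.zero_le _
  have s2 : (∑ a ∈ gr J, if 1 ≤ a.1 ∧ a.2 ≤ a.1 then J * (8 * J / a.1.toNat + 1) else 0) ≤ J * (17 * J ^ 2) := by
    unfold gr
    rw [sum_product]
    refine (sum_le_sum (fun x hx => Bad_in J x hx)).trans ?_
    rw [sum_const, Int.card_Ico, smul_eq_mul]
    simp
  have s3 : (∑ a ∈ gr J, if 1 ≤ a.2 ∧ a.1 ≤ a.2 then J * (8 * J / a.2.toNat + 1) else 0) ≤ J * (17 * J ^ 2) := by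
    unfold gr
    rw [sum_product_right]
    refine (sum_le_sum (fun x hx => Bad_in J x hx)).trans ?_
    rw [sum_const, Int.card_Ico, smul_eq_mul]
    simp
  have s4 : J ^ 2 ≤ J ^ 3 := Nat.pow_le_pow_right hJ (by norm_num)
  have s5 : J * (17 * J ^ 2) = 17 * J ^ 3 := by ring
  rw [s5] at s2 s3
  omega

private theorem Bad_geo (N n : ℕ) (hN : 1 ≤ N) :
    ∑ k ∈ range n, Real.exp (-(k : ℝ) / N) ≤ N + 1 ∧ ∑ k ∈ range n, Real.exp (-((k : ℝ) + 1) / N) ≤ N := by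
  have hN0 : (0 : ℝ) < N := by exact_mod_cast hN
  set q := Real.exp (-1 / (N : ℝ)) with hq
  have hq0 : 0 < q := Real.exp_pos _
  have hq1 : q * ((N : ℝ) + 1) ≤ N := by
    have h1 : 1 / (N : ℝ) + 1 ≤ Real.exp (1 / (N : ℝ)) := Real.add_one_le_exp _
    have h2 : q * Real.exp (1 / (N : ℝ)) = 1 := by
      rw [hq, ← Real.exp_add]
      have : -1 / (N : ℝ) + 1 / (N : ℝ) = 0 := by ring
      rw [this, Real.exp_zero]
    have h3 : q * (1 / (N : ℝ) + 1) ≤ 1 := by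
      calc q * (1 / (N : ℝ) + 1) ≤ q * Real.exp (1 / (N : ℝ)) := mul_le_mul_of_nonneg_left h1 hq0.le
        _ = 1 := h2
    calc q * ((N : ℝ) + 1) = N * (q * (1 / (N : ℝ) + 1)) := by field_simp; ring
      _ ≤ N * 1 := mul_le_mul_of_nonneg_left h3 hN0.le
      _ = N := mul_one _
  have hgeo : ∑ k ∈ range n, q ^ k ≤ N + 1 := by
    have h1 : (1 - q) * ∑ i ∈ range n, q ^ i = 1 - q ^ n := mul_neg_geom_sum q n
    have h2 : 0 ≤ q ^ n := pow_nonneg hq0.le n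
    have h3 : 0 ≤ ∑ i ∈ range n, q ^ i := sum_nonneg (fun i _ => pow_nonneg hq0.le i)
    have h4 : (1 : ℝ) ≤ ((N : ℝ) + 1) * (1 - q) := by linarith
    calc ∑ k ∈ range n, q ^ k ≤ (((N : ℝ) + 1) * (1 - q)) * ∑ k ∈ range n, q ^ k := le_mul_of_one_le_left h3 h4
      _ = ((N : ℝ) + 1) * ((1 - q) * ∑ i ∈ range n, q ^ i) := by ring
      _ = ((N : ℝ) + 1) * (1 - q ^ n) := by rw [h1]
      _ ≤ ((N : ℝ) + 1) * 1 := mul_le_mul_of_nonneg_left (by linarith) (by linarith)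
      _ = N + 1 := mul_one _
  have e1 : ∀ k : ℕ, Real.exp (-(k : ℝ) / N) = q ^ k := by
    intro k
    rw [hq, ← Real.exp_nat_mul]
    congr 1
    ring
  have e2 : ∀ k : ℕ, Real.exp (-((k : ℝ) + 1) / N) = q * q ^ k := by
    intro k
    rw [← e1 k, hq, ← Real.exp_add]
    congr 1
    ring
  constructor
  · rw [sum_congr rfl (fun k _ => e1 k)]
    exact hgeo
  · rw [sum_congr rfl (fun k _ => e2 k), ← mul_sum]
    exact (mul_le_mul_of_nonneg_left hgeo hq0.le).trans hq1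

private theorem Bad_exp14 : Real.exp (1 / 4) ≤ 4 / 3 := by
  by_contra h
  rw [not_le] at h
  have h1 : (4 / 3 : ℝ) ^ 4 < Real.exp (1 / 4) ^ 4 := pow_lt_pow_left₀ h (by norm_num) (by norm_num)
  rw [← Real.exp_nat_mul] at h1
  have h2 := Real.exp_one_lt_d9
  norm_num at h1
  linarith

private theorem Bad_gauss (N R : ℕ) (hN : 1 ≤ N) :
    ∑ a ∈ Icc (-(R : ℤ)) R, Real.exp (-((a : ℝ) ^ 2) / (N : ℝ) ^ 2) ≤ 4 * N := by
  have hN0 : (0 : ℝ) < N := by exact_mod_cast hN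
  have hN1 : (1 : ℝ) ≤ N := by exact_mod_cast hN
  have hb : ∀ x : ℝ, 0 ≤ x → Real.exp (-(x ^ 2) / (N : ℝ) ^ 2) ≤ Real.exp (1 / 4) * Real.exp (-x / N) := by
    intro x _
    rw [← Real.exp_add]
    apply Real.exp_le_exp.mpr
    have h1 : 0 ≤ (x / N - 1 / 2) ^ 2 := sq_nonneg _
    have h2 : -(x ^ 2) / (N : ℝ) ^ 2 = -(x / N) ^ 2 := by
      rw [div_pow]
      ring
    have h3 : -x / (N : ℝ) = -(x / N) := by ring
    rw [h2, h3]
    nlinarith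
  have hsub : Icc (-(R : ℤ)) R ⊆ (range (R + 1)).image (fun k : ℕ => (k : ℤ)) ∪
      (range R).image (fun k : ℕ => -((k : ℤ) + 1)) := by
    intro a ha
    rw [mem_Icc] at ha
    rw [mem_union, mem_image, mem_image]
    by_cases h0 : 0 ≤ a
    · left
      exact ⟨a.toNat, by rw [mem_range]; omega, by omega⟩
    · right
      exact ⟨(-a - 1).toNat, by rw [mem_range]; omega, by omega⟩
  have h1 : ∑ a ∈ Icc (-(R : ℤ)) R, Real.exp (-((a : ℝ) ^ 2) / (N : ℝ) ^ 2) ≤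
      ∑ a ∈ (range (R + 1)).image (fun k : ℕ => (k : ℤ)) ∪ (range R).image (fun k : ℕ => -((k : ℤ) + 1)),
        Real.exp (-((a : ℝ) ^ 2) / (N : ℝ) ^ 2) :=
    sum_le_sum_of_subset_of_nonneg hsub (fun _ _ _ => (Real.exp_pos _).le)
  have h2 : ∑ a ∈ (range (R + 1)).image (fun k : ℕ => (k : ℤ)) ∪ (range R).image (fun k : ℕ => -((k : ℤ) + 1)),
        Real.exp (-((a : ℝ) ^ 2) / (N : ℝ) ^ 2) ≤
      ∑ a ∈ (range (R + 1)).image (fun k : ℕ => (k : ℤ)), Real.exp (-((a : ℝ) ^ 2) / (N : ℝ) ^ 2) +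
      ∑ a ∈ (range R).image (fun k : ℕ => -((k : ℤ) + 1)), Real.exp (-((a : ℝ) ^ 2) / (N : ℝ) ^ 2) := by
    rw [← sum_union_inter]
    have h3 : 0 ≤ ∑ a ∈ (range (R + 1)).image (fun k : ℕ => (k : ℤ)) ∩ (range R).image (fun k : ℕ => -((k : ℤ) + 1)),
        Real.exp (-((a : ℝ) ^ 2) / (N : ℝ) ^ 2) := sum_nonneg (fun _ _ => (Real.exp_pos _).le)
    linarith
  have h3 : ∑ a ∈ (range (R + 1)).image (fun k : ℕ => (k : ℤ)), Real.exp (-((a : ℝ) ^ 2) / (N : ℝ) ^ 2)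
      ≤ Real.exp (1 / 4) * (N + 1) := by
    rw [sum_image (fun _ _ _ _ h => by exact_mod_cast h)]
    calc ∑ k ∈ range (R + 1), Real.exp (-((((k : ℕ) : ℤ) : ℝ) ^ 2) / (N : ℝ) ^ 2)
        ≤ ∑ k ∈ range (R + 1), Real.exp (1 / 4) * Real.exp (-(k : ℝ) / N) := by
          apply sum_le_sum
          intro k _
          have h4 := hb (k : ℝ) (Nat.cast_nonneg _)
          rw [Int.cast_natCast]
          exact h4
      _ = Real.exp (1 / 4) * ∑ k ∈ range (R + 1), Real.exp (-(k : ℝ) / N) := by rw [mul_sum]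
      _ ≤ Real.exp (1 / 4) * (N + 1) := mul_le_mul_of_nonneg_left (Bad_geo N (R + 1) hN).1 (Real.exp_pos _).le
  have h4 : ∑ a ∈ (range R).image (fun k : ℕ => -((k : ℤ) + 1)), Real.exp (-((a : ℝ) ^ 2) / (N : ℝ) ^ 2)
      ≤ Real.exp (1 / 4) * N := by
    rw [sum_image (fun _ _ _ _ h => by
      have h5 := neg_injective h
      have h6 := add_right_cancel h5
      exact_mod_cast h6)]
    calc ∑ k ∈ range R, Real.exp (-(((-((k : ℤ) + 1) : ℤ) : ℝ) ^ 2) / (N : ℝ) ^ 2)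
        ≤ ∑ k ∈ range R, Real.exp (1 / 4) * Real.exp (-((k : ℝ) + 1) / N) := by
          apply sum_le_sum
          intro k _
          have h4 := hb ((k : ℝ) + 1) (by positivity)
          have h5 : (((-((k : ℤ) + 1) : ℤ) : ℝ)) ^ 2 = ((k : ℝ) + 1) ^ 2 := by
            push_cast
            ring
          rw [h5]
          exact h4
      _ = Real.exp (1 / 4) * ∑ k ∈ range R, Real.exp (-((k : ℝ) + 1) / N) := by rw [mul_sum]
      _ ≤ Real.exp (1 / 4) * N := mul_le_mul_of_nonneg_left (Bad_geo N R hN).2 (Real.exp_pos _).le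
  have h5 : Real.exp (1 / 4) * (N + 1) + Real.exp (1 / 4) * N ≤ 4 * N := by
    have h6 : Real.exp (1 / 4) * (2 * N + 1) ≤ 4 / 3 * (3 * N) :=
      mul_le_mul Bad_exp14 (by linarith) (by positivity) (by norm_num)
    linarith
  linarith

theorem bad_count (J : ℕ) (hJ : 1 ≤ J) :
    (((gr J ×ˢ gr J).filter (fun q => (dt q.1 q.2).natAbs ≤ 4 * J)).card : ℝ) ≤ 60 * (J : ℝ) ^ 3 := by
  have h := Bad_nat J hJ
  exact_mod_cast h

theorem Ph_sum (N R : ℕ) (hN : 1 ≤ N) : ∑ s ∈ Bx R, Ph N s ≤ 200 * (N : ℝ) ^ 2 := by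
  have hN0 : (0 : ℝ) < N := by exact_mod_cast hN
  have e1 : ∀ s : ℤ × ℤ, Ph N s = Real.exp 2 * (Real.exp (-((s.1 : ℝ) ^ 2) / (N : ℝ) ^ 2) *
      Real.exp (-((s.2 : ℝ) ^ 2) / (N : ℝ) ^ 2)) := by
    intro s
    unfold Ph
    rw [← Real.exp_add, ← Real.exp_add]
    congr 1
    ring
  have e2 : ∑ s ∈ Bx R, Ph N s = Real.exp 2 * ((∑ a ∈ Icc (-(R : ℤ)) R, Real.exp (-((a : ℝ) ^ 2) / (N : ℝ) ^ 2)) *
      (∑ a ∈ Icc (-(R : ℤ)) R, Real.exp (-((a : ℝ) ^ 2) / (N : ℝ) ^ 2))) := by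
    rw [sum_congr rfl (fun s _ => e1 s), ← mul_sum, sum_mul_sum]
    unfold Bx
    rw [sum_product]
  rw [e2]
  have h1 := Bad_gauss N R hN
  have h0 : 0 ≤ ∑ a ∈ Icc (-(R : ℤ)) R, Real.exp (-((a : ℝ) ^ 2) / (N : ℝ) ^ 2) :=
    sum_nonneg (fun _ _ => (Real.exp_pos _).le)
  have h2 : (∑ a ∈ Icc (-(R : ℤ)) R, Real.exp (-((a : ℝ) ^ 2) / (N : ℝ) ^ 2)) *
      (∑ a ∈ Icc (-(R : ℤ)) R, Real.exp (-((a : ℝ) ^ 2) / (N : ℝ) ^ 2)) ≤ (4 * N) * (4 * N) :=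
    mul_le_mul h1 h1 h0 (by positivity)
  have h3 : Real.exp 2 ≤ 12 := by
    have h4 : Real.exp 2 = Real.exp 1 * Real.exp 1 := by
      rw [← Real.exp_add]
      norm_num
    have h5 := Real.exp_one_lt_d9
    have h6 := Real.exp_pos 1
    rw [h4]
    nlinarith
  calc Real.exp 2 * ((∑ a ∈ Icc (-(R : ℤ)) R, Real.exp (-((a : ℝ) ^ 2) / (N : ℝ) ^ 2)) *
      (∑ a ∈ Icc (-(R : ℤ)) R, Real.exp (-((a : ℝ) ^ 2) / (N : ℝ) ^ 2))) ≤ 12 * ((4 * N) * (4 * N)) :=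
        mul_le_mul h3 h2 (mul_nonneg h0 h0) (by norm_num)
    _ ≤ 200 * (N : ℝ) ^ 2 := by nlinarith

theorem Ph_pos (N : ℕ) (s : ℤ × ℤ) : 0 < Ph N s := Real.exp_pos _

theorem Ph_ge (N : ℕ) (s : ℤ × ℤ) (hs : s ∈ box N) : 1 ≤ Ph N s := by
  rw [mem_box] at hs
  obtain ⟨⟨⟨h1, h2⟩, h3, h4⟩, -⟩ := hs
  unfold Ph
  apply Real.one_le_exp
  have h1' : (0 : ℝ) ≤ (s.1 : ℝ) := by exact_mod_cast h1
  have h2' : (s.1 : ℝ) ≤ (N : ℝ) := by exact_mod_cast h2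
  have h3' : (0 : ℝ) ≤ (s.2 : ℝ) := by exact_mod_cast h3
  have h4' : (s.2 : ℝ) ≤ (N : ℝ) := by exact_mod_cast h4
  have h5 : ((s.1 : ℝ) ^ 2 + (s.2 : ℝ) ^ 2) / (N : ℝ) ^ 2 ≤ 2 := by
    apply div_le_of_le_mul₀ (by positivity) (by norm_num)
    have h6 : (s.1 : ℝ) ^ 2 ≤ (N : ℝ) ^ 2 := pow_le_pow_left₀ h1' h2' 2
    have h7 : (s.2 : ℝ) ^ 2 ≤ (N : ℝ) ^ 2 := pow_le_pow_left₀ h3' h4' 2
    linarith
  linarith

theorem box_sub (N R : ℕ) (h : N ≤ R) : box N ⊆ Bx R := by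
  intro s hs
  rw [mem_box] at hs
  obtain ⟨⟨⟨h1, h2⟩, h3, h4⟩, -⟩ := hs
  unfold Bx
  rw [mem_product, mem_Icc, mem_Icc]
  have h5 : (N : ℤ) ≤ R := by exact_mod_cast h
  refine ⟨⟨by linarith, by linarith⟩, by linarith, by linarith⟩

end Pool.Agent.Lib.MP_d57abb_nt.KT
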