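import Mathlib
import Pool.Agent.Lib.MP_d57abb_nt.KT.Defs

/-!
# JOB CntN: the number of integers prime to `W` and `1, 4` modulo `5`

`W > 0`, `5 ∣ W`, `G = {r < W : r prime to W, r % 5 ∈ {1, 4}}`, `ρ = #G`.
(1) `ρ = φ(W)/2`: there is `u` prime to `W` with `u ≡ 2 (mod 5)` (`ZMod.unitsMap_surjective`, or: the Chinese remainder theorem; or `u = 2 + 5 j`: choose `j` with `Nat.exists_coprime..`; e.g.
for `W = 5^a W'`, `u ≡ 2 mod 5`, `u ≡ 1 mod W'`).  Multiplication by `u` modulo `W` maps `{r : r % 5 ∈ {1, 4}}` to `{r : r % 5 ∈ {2, 3}}` and conversely, among the residues prime to `W`; it is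
injective (a unit), so both sets have the same number of elements; their union is the set of the residues prime to `W` (`5 ∣ W`, so `r % 5 ≠ 0`), with `φ(W)` elements
(`Nat.totient_eq_card_coprime`-like: `Nat.totient` is the card of `(range W).filter W.Coprime`).
(2) The predicate has period `W`; with `y = a W + b`, `b < W`: the count in `Ioc 0 y` is `a ρ + (count of the residues in Ioc 0 b)`, and the last is in `[0, ρ]` (`Nat.filter_Ico_card_eq_of_periodic`,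
`Nat.count_modEq_card`-like; or induction on `a`).  So `|count - y ρ/W| ≤ ρ ≤ W`.
`NN_lower`: `#NN W P = count P - count (P/2) ≥ (P - P/2) φ/(2W) - 2 W ≥ (P/2) φ/(2 W) - 2 W ≥ P φ/(8 W)` for `P ≥ 16 W² / φ(W)`, e.g. `P ≥ 16 W²`.
`NN_dist`: for `P/2 ≤ y ≤ P` (naturals, `P / 2 ≤ y`): `#{m ∈ NN W P : m ≤ y} = count y - count (P/2)`, so `|#{..} - (y - P/2) φ(W)/(2W)| ≤ 2 W + 1` and the same for `y = P`: dividing,
`|#{..}/#NN - (2y/P - 1)| ≤ 4 (2W+1)/#NN`-like; state with `P ≥ P₀(W, δ)`.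
-/

open Finset

namespace Pool.Agent.Lib.MP_d57abb_nt.KT

private theorem CntN_unit (W : ℕ) (hW : 0 < W) (h5 : 5 ∣ W) :
    ∃ u : ℕ, u.Coprime W ∧ u % 5 = 2 := by
  have : NeZero W := ⟨hW.ne'⟩
  obtain ⟨v, hv⟩ := ZMod.unitsMap_surjective h5 (ZMod.unitOfCoprime 2 (by norm_num : Nat.Coprime 2 5))
  refine ⟨(v : ZMod W).val, ZMod.val_coe_unit_coprime v, ?_⟩
  have h1 : ((ZMod.unitsMap h5 v : (ZMod 5)ˣ) : ZMod 5) = ((2 : ℕ) : ZMod 5) := by
    rw [hv]
    exact ZMod.coe_unitOfCoprime 2 _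
  have h2 : (((v : ZMod W).val : ℕ) : ZMod 5) = ((2 : ℕ) : ZMod 5) := by
    rw [← h1, ZMod.natCast_val]
    rfl
  have h3 := (ZMod.natCast_eq_natCast_iff _ _ _).1 h2
  exact h3

private theorem CntN_five {W r : ℕ} (h5 : 5 ∣ W) (h : r.Coprime W) : r % 5 ≠ 0 := by
  intro h0
  have h1 : 5 ∣ r := Nat.dvd_of_mod_eq_zero h0
  have h2 := Nat.dvd_gcd h1 h5
  rw [Nat.Coprime] at h
  rw [h] at h2
  omega

private theorem CntN_map {W u r : ℕ} (hW : 0 < W) (h5 : 5 ∣ W) (hu : u.Coprime W) (hu5 : u % 5 = 2)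
    (hr : r.Coprime W) : (u * r) % W < W ∧ ((u * r) % W).Coprime W ∧
      (R5 ((u * r) % W) ↔ ¬ R5 r) := by
  refine ⟨Nat.mod_lt _ hW, ?_, ?_⟩
  · have h1 := (Nat.mod_modEq (u * r) W).gcd_eq
    rw [Nat.Coprime, h1]
    exact Nat.Coprime.mul_left hu hr
  · have h1 : (u * r) % W % 5 = (2 * (r % 5)) % 5 := by
      rw [Nat.mod_mod_of_dvd _ h5, Nat.mul_mod, hu5]
    have h2 := CntN_five h5 hr
    unfold R5
    rw [h1]
    have h3 : r % 5 = 1 ∨ r % 5 = 2 ∨ r % 5 = 3 ∨ r % 5 = 4 := by omega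
    rcases h3 with h3 | h3 | h3 | h3 <;> simp [h3]

private theorem CntN_half (W : ℕ) (hW : 0 < W) (h5 : 5 ∣ W) :
    2 * ((range W).filter (fun n => n.Coprime W ∧ R5 n)).card = W.totient := by
  obtain ⟨u, hu, hu5⟩ := CntN_unit W hW h5
  have hinj : ∀ r < W, ∀ s < W, (u * r) % W = (u * s) % W → r = s := by
    intro r hr s hs h
    have h1 : u * r ≡ u * s [MOD W] := h
    exact (Nat.ModEq.cancel_left_of_coprime hu.symm h1).eq_of_lt_of_lt hr hs
  have h1 : ((range W).filter (fun n => n.Coprime W ∧ R5 n)).card ≤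
      ((range W).filter (fun n => n.Coprime W ∧ ¬ R5 n)).card := by
    refine Finset.card_le_card_of_injOn (fun r => (u * r) % W) ?_ ?_
    · intro r hr
      rw [Finset.mem_coe, Finset.mem_filter, Finset.mem_range] at hr
      rw [Finset.mem_coe, Finset.mem_filter, Finset.mem_range]
      obtain ⟨h2, h3, h4⟩ := CntN_map hW h5 hu hu5 hr.2.1
      exact ⟨h2, h3, fun h => (h4.1 h) hr.2.2⟩
    · intro r hr s hs h
      rw [Finset.mem_coe, Finset.mem_filter, Finset.mem_range] at hr hs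
      exact hinj r hr.1 s hs.1 h
  have h2 : ((range W).filter (fun n => n.Coprime W ∧ ¬ R5 n)).card ≤
      ((range W).filter (fun n => n.Coprime W ∧ R5 n)).card := by
    refine Finset.card_le_card_of_injOn (fun r => (u * r) % W) ?_ ?_
    · intro r hr
      rw [Finset.mem_coe, Finset.mem_filter, Finset.mem_range] at hr
      rw [Finset.mem_coe, Finset.mem_filter, Finset.mem_range]
      obtain ⟨h2, h3, h4⟩ := CntN_map hW h5 hu hu5 hr.2.1
      exact ⟨h2, h3, h4.2 hr.2.2⟩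
    · intro r hr s hs h
      rw [Finset.mem_coe, Finset.mem_filter, Finset.mem_range] at hr hs
      exact hinj r hr.1 s hs.1 h
  have h3 : W.totient = ((range W).filter (fun n => n.Coprime W ∧ R5 n)).card +
      ((range W).filter (fun n => n.Coprime W ∧ ¬ R5 n)).card := by
    rw [← Finset.card_union_of_disjoint]
    · rw [Nat.totient_eq_card_coprime]
      congr 1
      ext n
      simp only [Finset.mem_filter, Finset.mem_union, Nat.coprime_comm (n := W)]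
      tauto
    · rw [Finset.disjoint_left]
      intro n hn hn'
      rw [Finset.mem_filter] at hn hn'
      exact hn'.2.2 hn.2.2
  omega

private theorem CntN_per (W : ℕ) (h5 : 5 ∣ W) :
    Function.Periodic (fun n : ℕ => n.Coprime W ∧ R5 n) W := by
  intro n
  obtain ⟨k, rfl⟩ := h5
  have h1 : (n + 5 * k) % 5 = n % 5 := by omega
  have h2 : (n + 5 * k).Coprime (5 * k) ↔ n.Coprime (5 * k) := Nat.coprime_add_self_left
  simp only [R5, h1, h2]

private theorem CntN_step (W : ℕ) (h5 : 5 ∣ W) (y : ℕ) :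
    ((Ioc 0 (y + W)).filter (fun n => n.Coprime W ∧ R5 n)).card =
      ((Ioc 0 y).filter (fun n => n.Coprime W ∧ R5 n)).card +
      ((range W).filter (fun n => n.Coprime W ∧ R5 n)).card := by
  have h1 := Nat.filter_Ico_card_eq_of_periodic (y + 1) W (fun n : ℕ => n.Coprime W ∧ R5 n)
    (CntN_per W h5)
  rw [Nat.count_eq_card_filter_range] at h1
  rw [← h1, ← Finset.card_union_of_disjoint]
  · congr 1
    ext n
    simp only [Finset.mem_filter, Finset.mem_union, Finset.mem_Ioc, Finset.mem_Ico]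
    constructor
    · rintro ⟨h2, h3⟩
      rcases le_or_gt n y with h4 | h4
      · exact Or.inl ⟨⟨h2.1, h4⟩, h3⟩
      · exact Or.inr ⟨⟨by omega, by omega⟩, h3⟩
    · rintro (⟨h2, h3⟩ | ⟨h2, h3⟩)
      · exact ⟨⟨h2.1, by omega⟩, h3⟩
      · exact ⟨⟨by omega, by omega⟩, h3⟩
  · rw [Finset.disjoint_left]
    intro n hn hn'
    rw [Finset.mem_filter, Finset.mem_Ioc] at hn
    rw [Finset.mem_filter, Finset.mem_Ico] at hn'
    omega

private theorem CntN_small (W : ℕ) (h5 : 5 ∣ W) {y : ℕ} (hy : y ≤ W) :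
    ((Ioc 0 y).filter (fun n => n.Coprime W ∧ R5 n)).card ≤
      ((range W).filter (fun n => n.Coprime W ∧ R5 n)).card := by
  have h1 := CntN_step W h5 0
  rw [zero_add, Finset.Ioc_self, Finset.filter_empty, Finset.card_empty, zero_add] at h1
  rw [← h1]
  refine Finset.card_le_card ?_
  intro n hn
  rw [Finset.mem_filter, Finset.mem_Ioc] at hn ⊢
  exact ⟨⟨hn.1.1, hn.1.2.trans hy⟩, hn.2⟩

theorem NN_count (W : ℕ) (hW : 0 < W) (h5 : 5 ∣ W) (y : ℕ) :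
    |(((Ioc 0 y).filter (fun n => n.Coprime W ∧ R5 n)).card : ℝ) - y * ((W.totient : ℝ) / (2 * W))| ≤ W := by
  obtain ⟨ρ, hρ⟩ : ∃ ρ, ρ = ((range W).filter (fun n => n.Coprime W ∧ R5 n)).card := ⟨_, rfl⟩
  have hW0 : (0 : ℝ) < W := by exact_mod_cast hW
  have h1 : (W.totient : ℝ) / (2 * W) = (ρ : ℝ) / W := by
    rw [← CntN_half W hW h5, ← hρ, Nat.cast_mul, Nat.cast_ofNat]
    field_simp
  have hρW : (ρ : ℝ) ≤ W := by
    have h2 : ρ ≤ W := by
      rw [hρ]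
      exact (Finset.card_filter_le _ _).trans (le_of_eq (Finset.card_range W))
    exact_mod_cast h2
  rw [h1]
  induction y using Nat.strong_induction_on with
  | _ y ih =>
    rcases le_or_gt y W with hy | hy
    · have h2 : (((Ioc 0 y).filter (fun n => n.Coprime W ∧ R5 n)).card : ℝ) ≤ ρ := by
        rw [hρ]
        exact_mod_cast CntN_small W h5 hy
      have h3 : (y : ℝ) * ((ρ : ℝ) / W) ≤ ρ := by
        have h4 : (y : ℝ) ≤ W := by exact_mod_cast hy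
        rw [mul_div_assoc', div_le_iff₀ hW0, mul_comm]
        exact mul_le_mul_of_nonneg_left h4 (Nat.cast_nonneg ρ)
      have h4 : (0 : ℝ) ≤ (y : ℝ) * ((ρ : ℝ) / W) := by positivity
      have h5 : (0 : ℝ) ≤ (((Ioc 0 y).filter (fun n => n.Coprime W ∧ R5 n)).card : ℝ) :=
        Nat.cast_nonneg _
      rw [abs_le]
      constructor <;> linarith
    · obtain ⟨z, rfl⟩ : ∃ z, y = z + W := ⟨y - W, by omega⟩
      have h2 := ih z (by omega)
      rw [CntN_step W h5, ← hρ, Nat.cast_add, Nat.cast_add]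
      have h3 : (((Ioc 0 z).filter (fun n => n.Coprime W ∧ R5 n)).card : ℝ) + ρ -
          ((z : ℝ) + W) * ((ρ : ℝ) / W) =
          (((Ioc 0 z).filter (fun n => n.Coprime W ∧ R5 n)).card : ℝ) - z * ((ρ : ℝ) / W) := by
        field_simp
        ring
      rw [h3]
      exact h2

private theorem CntN_card (W P y : ℕ) (h1 : P / 2 ≤ y) (h2 : y ≤ P) :
    (((NN W P).filter (fun n => n ≤ y)).card : ℝ) =
      (((Ioc 0 y).filter (fun n => n.Coprime W ∧ R5 n)).card : ℝ) -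
      (((Ioc 0 (P / 2)).filter (fun n => n.Coprime W ∧ R5 n)).card : ℝ) := by
  have h3 : ((Ioc 0 y).filter (fun n => n.Coprime W ∧ R5 n)).card =
      ((NN W P).filter (fun n => n ≤ y)).card +
      ((Ioc 0 (P / 2)).filter (fun n => n.Coprime W ∧ R5 n)).card := by
    rw [← Finset.card_union_of_disjoint]
    · congr 1
      ext n
      simp only [Finset.mem_filter, Finset.mem_union, Finset.mem_Ioc, mem_NN]
      constructor
      · rintro ⟨h4, h5⟩
        rcases le_or_gt n (P / 2) with h6 | h6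
        · exact Or.inr ⟨⟨h4.1, h6⟩, h5⟩
        · exact Or.inl ⟨⟨⟨h6, by omega⟩, h5⟩, h4.2⟩
      · rintro (⟨⟨h4, h5⟩, h6⟩ | ⟨h4, h5⟩)
        · exact ⟨⟨by omega, h6⟩, h5⟩
        · exact ⟨⟨h4.1, by omega⟩, h5⟩
    · rw [Finset.disjoint_left]
      intro n hn hn'
      rw [Finset.mem_filter, mem_NN] at hn
      rw [Finset.mem_filter, Finset.mem_Ioc] at hn'
      omega
  rw [h3, Nat.cast_add]
  ring

private theorem CntN_all (W P : ℕ) : (NN W P).filter (fun n => n ≤ P) = NN W P := by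
  refine Finset.filter_true_of_mem fun n hn => ?_
  exact (mem_NN.1 hn).1.2

theorem NN_lower (W : ℕ) (hW : 0 < W) (h5 : 5 ∣ W) : ∃ P₀ : ℕ, ∀ P : ℕ, P₀ ≤ P →
    (P : ℝ) * (W.totient : ℝ) / (8 * W) ≤ ((NN W P).card : ℝ) := by
  refine ⟨16 * W ^ 2, fun P hP => ?_⟩
  have hW0 : (0 : ℝ) < W := by exact_mod_cast hW
  have hφ : (1 : ℝ) ≤ W.totient := by exact_mod_cast Nat.totient_pos.2 hW
  have hP' : 16 * (W : ℝ) ^ 2 ≤ P := by exact_mod_cast hP
  have h1 := NN_count W hW h5 P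
  have h2 := NN_count W hW h5 (P / 2)
  rw [abs_le] at h1 h2
  have h3 := CntN_card W P P (Nat.div_le_self P 2) le_rfl
  rw [CntN_all] at h3
  obtain ⟨κ, hκ⟩ : ∃ κ : ℝ, κ = (W.totient : ℝ) / (2 * W) := ⟨_, rfl⟩
  rw [← hκ] at h1 h2
  have hκ0 : 0 ≤ κ := by
    rw [hκ]
    positivity
  have h4 : ((P / 2 : ℕ) : ℝ) ≤ (P : ℝ) / 2 := by
    have h := Nat.cast_div_le (α := ℝ) (m := P) (n := 2)
    rwa [Nat.cast_ofNat] at h
  have h5 : ((P / 2 : ℕ) : ℝ) * κ ≤ (P : ℝ) / 2 * κ := mul_le_mul_of_nonneg_right h4 hκ0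
  have h6 : (P : ℝ) * (W.totient : ℝ) / (8 * W) = (P : ℝ) * κ / 4 := by
    rw [hκ]
    field_simp
    ring
  have h7 : 2 * (W : ℝ) ≤ (P : ℝ) * κ / 4 := by
    rw [← h6, le_div_iff₀ (by positivity)]
    have h8 : (P : ℝ) ≤ P * (W.totient : ℝ) := le_mul_of_one_le_right (Nat.cast_nonneg P) hφ
    linarith
  rw [h3, h6]
  linarith [h1.1, h2.2]

theorem NN_dist (W : ℕ) (hW : 0 < W) (h5 : 5 ∣ W) (δ : ℝ) (hδ : 0 < δ) : ∃ P₀ : ℕ, ∀ P : ℕ, P₀ ≤ P → ∀ y : ℕ, P / 2 ≤ y → y ≤ P →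
    |(((NN W P).filter (fun n => n ≤ y)).card : ℝ) / ((NN W P).card : ℝ) - (2 * (y : ℝ) / P - 1)| ≤ δ := by
  obtain ⟨P₁, hP₁⟩ := NN_lower W hW h5
  obtain ⟨P₂, hP₂⟩ := exists_nat_gt (8 * W * (4 * W + 1) / δ)
  refine ⟨P₁ + P₂ + 1, fun P hP y hy1 hy2 => ?_⟩
  have hW0 : (0 : ℝ) < W := by exact_mod_cast hW
  have hφ : (1 : ℝ) ≤ W.totient := by exact_mod_cast Nat.totient_pos.2 hW
  have hP0 : (0 : ℝ) < P := by
    have : 0 < P := by omega
    exact_mod_cast this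
  have hPb : 8 * W * (4 * W + 1) / δ < P := by
    have h1 : (P₂ : ℝ) ≤ P := by
      have : P₂ ≤ P := by omega
      exact_mod_cast this
    linarith
  have hlow := hP₁ P (by omega)
  have h1 := NN_count W hW h5 P
  have h2 := NN_count W hW h5 (P / 2)
  have h3 := NN_count W hW h5 y
  rw [abs_le] at h1 h2 h3
  have h4 := CntN_card W P P (Nat.div_le_self P 2) le_rfl
  rw [CntN_all] at h4
  have h5' := CntN_card W P y hy1 hy2
  obtain ⟨κ, hκ⟩ : ∃ κ : ℝ, κ = (W.totient : ℝ) / (2 * W) := ⟨_, rfl⟩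
  rw [← hκ] at h1 h2 h3
  have hκ0 : 0 ≤ κ := by
    rw [hκ]
    positivity
  have hκ1 : κ ≤ 1 / 2 := by
    rw [hκ, div_le_iff₀ (by positivity)]
    have : (W.totient : ℝ) ≤ W := by exact_mod_cast Nat.totient_le W
    linarith
  obtain ⟨n1, hn1⟩ : ∃ n1 : ℝ, n1 = (((NN W P).filter (fun n => n ≤ y)).card : ℝ) := ⟨_, rfl⟩
  obtain ⟨n2, hn2⟩ : ∃ n2 : ℝ, n2 = ((NN W P).card : ℝ) := ⟨_, rfl⟩
  obtain ⟨c1, hc1⟩ : ∃ c : ℝ, c = (((Ioc 0 P).filter (fun n => n.Coprime W ∧ R5 n)).card : ℝ) :=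
    ⟨_, rfl⟩
  obtain ⟨c2, hc2⟩ : ∃ c : ℝ, c =
    (((Ioc 0 (P / 2)).filter (fun n => n.Coprime W ∧ R5 n)).card : ℝ) := ⟨_, rfl⟩
  obtain ⟨c3, hc3⟩ : ∃ c : ℝ, c = (((Ioc 0 y).filter (fun n => n.Coprime W ∧ R5 n)).card : ℝ) :=
    ⟨_, rfl⟩
  rw [← hn1, ← hn2]
  rw [← hn2] at h4 hlow
  rw [← hn1] at h5'
  rw [← hc1] at h1 h4
  rw [← hc2] at h2 h4 h5'
  rw [← hc3] at h3 h5'
  obtain ⟨H, hH⟩ : ∃ H : ℝ, H = ((P / 2 : ℕ) : ℝ) := ⟨_, rfl⟩
  rw [← hH] at h2
  obtain ⟨Y, hY⟩ : ∃ Y : ℝ, Y = (y : ℝ) := ⟨_, rfl⟩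
  rw [← hY] at h3 ⊢
  have hH1 : H ≤ (P : ℝ) / 2 := by
    have h := Nat.cast_div_le (α := ℝ) (m := P) (n := 2)
    rw [hH]
    rwa [Nat.cast_ofNat] at h
  have hH2 : (P : ℝ) / 2 - 1 / 2 ≤ H := by
    have h6 : P ≤ 2 * (P / 2) + 1 := by omega
    have h7 : (P : ℝ) ≤ 2 * ((P / 2 : ℕ) : ℝ) + 1 := by exact_mod_cast h6
    rw [hH]
    linarith
  have hYP : Y ≤ P := by
    rw [hY]
    exact_mod_cast hy2
  have hYH : H ≤ Y := by
    rw [hY, hH]
    exact_mod_cast hy1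
  obtain ⟨τ, hτ⟩ : ∃ τ : ℝ, τ = 2 * Y / P - 1 := ⟨_, rfl⟩
  have hτP : τ * P = 2 * Y - P := by
    rw [hτ]
    field_simp
  have hτ1 : τ ≤ 1 := by
    have h : 2 * Y / P ≤ 2 := by
      rw [div_le_iff₀ hP0]
      linarith
    rw [hτ]
    linarith
  have hτ2 : -1 ≤ τ := by
    have h : 0 ≤ 2 * Y / P := by
      rw [hY]
      positivity
    rw [hτ]
    linarith
  rw [← hτ]
  have hn2pos : 0 < n2 := lt_of_lt_of_le (by positivity) hlow
  have hdiff : |n1 - τ * n2| ≤ 4 * W + 1 := by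
    -- `c3 = Y κ + e3` and so on
    obtain ⟨e1, he1⟩ : ∃ e : ℝ, e = c1 - P * κ := ⟨_, rfl⟩
    obtain ⟨e2, he2⟩ : ∃ e : ℝ, e = c2 - H * κ := ⟨_, rfl⟩
    obtain ⟨e3, he3⟩ : ∃ e : ℝ, e = c3 - Y * κ := ⟨_, rfl⟩
    rw [← he1] at h1
    rw [← he2] at h2
    rw [← he3] at h3
    have hkey : n1 - τ * n2 = (1 - τ) * ((P : ℝ) / 2 - H) * κ + e3 - e2 - τ * (e1 - e2) := by
      rw [h5', h4, he1, he2, he3]
      have h8 : τ * (P : ℝ) * κ = (2 * Y - P) * κ := by rw [hτP]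
      linear_combination (-1 / 2 : ℝ) * h8
    have ha : |(1 - τ) * ((P : ℝ) / 2 - H) * κ| ≤ 1 := by
      rw [abs_of_nonneg (mul_nonneg (mul_nonneg (by linarith) (by linarith)) hκ0)]
      have h9 : (1 - τ) * ((P : ℝ) / 2 - H) ≤ 2 * (1 / 2) :=
        mul_le_mul (by linarith) (by linarith) (by linarith) (by norm_num)
      have h10 : (1 - τ) * ((P : ℝ) / 2 - H) * κ ≤ 2 * (1 / 2) * (1 / 2) :=
        mul_le_mul h9 hκ1 hκ0 (by norm_num)
      linarith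
    have hb : |τ * (e1 - e2)| ≤ 2 * W := by
      rw [abs_mul]
      have h9 : |τ| ≤ 1 := abs_le.2 ⟨hτ2, hτ1⟩
      have h10 : |e1 - e2| ≤ 2 * W := by
        rw [abs_le]
        constructor <;> linarith [h1.1, h1.2, h2.1, h2.2]
      calc |τ| * |e1 - e2| ≤ 1 * (2 * W) :=
            mul_le_mul h9 h10 (abs_nonneg _) (by norm_num)
        _ = 2 * W := one_mul _
    rw [hkey]
    rw [abs_le] at ha hb ⊢
    constructor <;> linarith [h2.1, h2.2, h3.1, h3.2, ha.1, ha.2, hb.1, hb.2]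
  have hfin : n1 / n2 - τ = (n1 - τ * n2) / n2 := by
    field_simp
  rw [hfin, abs_div, abs_of_pos hn2pos, div_le_iff₀ hn2pos]
  refine hdiff.trans ?_
  have h11 : 4 * (W : ℝ) + 1 ≤ δ * (P / (8 * W)) := by
    rw [div_lt_iff₀ hδ] at hPb
    rw [mul_div_assoc', le_div_iff₀ (by positivity)]
    linarith
  have h12 : (P : ℝ) / (8 * W) ≤ n2 := by
    refine le_trans ?_ hlow
    refine div_le_div_of_nonneg_right ?_ (by positivity)
    exact le_mul_of_one_le_right hP0.le hφ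
  exact h11.trans (mul_le_mul_of_nonneg_left h12 hδ.le)

end Pool.Agent.Lib.MP_d57abb_nt.KT
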