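import Mathlib
import Pool.Agent.Lib.MP_d57abb_nt.KT.Defs
import Pool.Agent.Lib.MP_d57abb_nt.All.SW

/-!
# JOB CntP: the number of primes of `(P/2, y]` that are `1, 4` modulo `5`

`All.sw 2 1` (file `Pool/Agent/Lib/MP_d57abb_nt/All/SW.lean`): for `y ≥ y₀`, `5 ≤ log y`, `c ∈ {1, 4}`: `|∑_{n ≤ y, n ≡ c (5)} lp n - y/4| ≤ y/(log y)²` (`φ(5) = 4`, `lp n = log n` for primes, `0`
otherwise).  So `θ(y) = ∑_{n ≤ y, R5 n} lp n` satisfies `|θ(y) - y/2| ≤ 2 y/(log y)²`.  Let `Λ = log P`, `P` large, `P/2 ≤ y ≤ P` (`log y ≥ log (P/2 - 1) ≥ Λ/2`): `S(y) = ∑_{p ∈ PP P, p ≤ y} log p = θ(y) - θ(P/2)`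
satisfies `|S(y) - (y - P/2)/2| ≤ 16 P/Λ² + 1` (the `1` for the integer part of `P/2`).  As `Λ - log 2 - 1/P.. ≤ log p ≤ Λ` for `p ∈ (P/2, P]` (`p ≥ P/2`, so `log p ≥ Λ - log 2 ≥ Λ - 1`):
`(Λ - 1) #{..} ≤ S(y) ≤ Λ #{..}`, in particular `#{..} ≤ 2 P/Λ` and `|Λ #{..} - S(y)| ≤ #{..} ≤ 2 P/Λ`.  So `|Λ #{p ∈ PP P : p ≤ y} - (y - P/2)/2| ≤ C P/Λ`, `C = 20`, for `P ≥ P₀`.
`PP_lower`: `y = P`: `#PP ≥ P/(5 Λ)`.
`PP_dist`: `#{p ∈ PP : p ≤ y}/#PP = ((y - P/2)/2 + O(P/Λ))/(P/4 + O(P/Λ)) = 2 y/P - 1 + O(1/Λ)`: with `n_y = Λ #{..}`: `|n_y/n_P - (2y/P - 1)| = |n_y - (2y/P-1) n_P|/n_P ≤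
(|n_y - (y-P/2)/2| + |(2y/P-1)| |P/4 - n_P|)/n_P ≤ 2 (C P/Λ)/(P/5) = 10 C/Λ ≤ δ` for `P` large.
-/

open Finset

namespace Pool.Agent.Lib.MP_d57abb_nt.KT

theorem CntP_log : Filter.Tendsto (fun y : ℕ => Real.log (y : ℝ)) Filter.atTop Filter.atTop :=
  Real.tendsto_log_atTop.comp tendsto_natCast_atTop_atTop

theorem CntP_theta : ∃ y₀ : ℕ, ∀ z : ℕ, y₀ ≤ z →
    |∑ n ∈ (Ioc 0 z).filter R5, All.lp n - (z : ℝ) / 2| ≤ 2 * (z / Real.log z ^ 2) := by
  obtain ⟨y1, h1⟩ := All.sw 2 1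
  obtain ⟨y2, h2⟩ := Filter.eventually_atTop.1 (CntP_log.eventually_ge_atTop 5)
  refine ⟨max y1 y2, fun z hz => ?_⟩
  have hz1 : y1 ≤ z := (le_max_left _ _).trans hz
  have hz2 : (5 : ℝ) ≤ Real.log z := h2 z ((le_max_right _ _).trans hz)
  have hM : ((5 : ℕ) : ℝ) ≤ Real.log z ^ 1 := by
    rw [pow_one]
    exact_mod_cast hz2
  have ht : (Nat.totient 5 : ℝ) = 4 := by
    rw [Nat.totient_prime (by norm_num : Nat.Prime 5)]
    norm_num
  have e1 := h1 z hz1 5 (by norm_num) hM 1 (by norm_num)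
  have e4 := h1 z hz1 5 (by norm_num) hM 4 (by norm_num)
  rw [ht] at e1 e4
  have hs : (Ioc 0 z).filter R5 = (Ioc 0 z).filter (fun n => n ≡ 1 [MOD 5]) ∪
      (Ioc 0 z).filter (fun n => n ≡ 4 [MOD 5]) := by
    ext n
    rw [Finset.mem_union, Finset.mem_filter, Finset.mem_filter, Finset.mem_filter]
    constructor
    · rintro ⟨h, h' | h'⟩
      · exact Or.inl ⟨h, by rw [Nat.ModEq]; omega⟩
      · exact Or.inr ⟨h, by rw [Nat.ModEq]; omega⟩
    · rintro (⟨h, h'⟩ | ⟨h, h'⟩)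
      · exact ⟨h, Or.inl (by rw [Nat.ModEq] at h'; omega)⟩
      · exact ⟨h, Or.inr (by rw [Nat.ModEq] at h'; omega)⟩
  have hd : Disjoint ((Ioc 0 z).filter (fun n => n ≡ 1 [MOD 5]))
      ((Ioc 0 z).filter (fun n => n ≡ 4 [MOD 5])) := by
    rw [Finset.disjoint_left]
    intro n ha hb
    have ha' := (Finset.mem_filter.1 ha).2
    have hb' := (Finset.mem_filter.1 hb).2
    simp only [Nat.ModEq] at ha' hb'
    omega
  rw [hs, Finset.sum_union hd]
  rw [abs_le] at e1 e4 ⊢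
  constructor <;> linarith [e1.1, e1.2, e4.1, e4.2]

theorem CntP_S (P y : ℕ) (h1 : P / 2 ≤ y) (h2 : y ≤ P) :
    ∑ n ∈ (PP P).filter (fun n => n ≤ y), Real.log n =
      ∑ n ∈ (Ioc 0 y).filter R5, All.lp n - ∑ n ∈ (Ioc 0 (P / 2)).filter R5, All.lp n := by
  rw [Finset.sum_filter (s := Ioc 0 y), Finset.sum_filter (s := Ioc 0 (P / 2)),
    ← Finset.sum_Ioc_consecutive _ (Nat.zero_le (P / 2)) h1, add_sub_cancel_left]
  have hs : (PP P).filter (fun n => n ≤ y) = (Ioc (P / 2) y).filter (fun n => n.Prime ∧ R5 n) := by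
    ext n
    rw [Finset.mem_filter, mem_PP, Finset.mem_filter, Finset.mem_Ioc]
    constructor
    · rintro ⟨⟨⟨a, b⟩, c⟩, d⟩
      exact ⟨⟨a, d⟩, c⟩
    · rintro ⟨⟨a, d⟩, c⟩
      exact ⟨⟨⟨a, d.trans h2⟩, c⟩, d⟩
  rw [hs, Finset.sum_filter]
  refine Finset.sum_congr rfl fun n _ => ?_
  by_cases hp : n.Prime
  · by_cases h5 : R5 n
    · rw [if_pos ⟨hp, h5⟩, if_pos h5, All.lp, if_pos hp]
    · rw [if_neg (fun h => h5 h.2), if_neg h5]
  · rw [if_neg (fun h => hp h.1)]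
    by_cases h5 : R5 n
    · rw [if_pos h5, All.lp, if_neg hp]
    · rw [if_neg h5]

/-- the error term of `CntP_theta` in terms of `P` -/
theorem CntP_err {P z : ℕ} {L : ℝ} (hL : L = Real.log P) (hL8 : 8 ≤ L) (hP : 4 ≤ P) (h1 : P / 2 ≤ z)
    (h2 : z ≤ P) : (z : ℝ) / Real.log z ^ 2 ≤ 4 * (P / L ^ 2) := by
  have hPR : (0 : ℝ) < P := by
    have : (4 : ℝ) ≤ P := by exact_mod_cast hP
    linarith
  have hz : (P : ℝ) / 4 ≤ z := by
    have h3 : P ≤ 4 * z := by omega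
    have h4 : (P : ℝ) ≤ 4 * z := by exact_mod_cast h3
    linarith
  have hlz : L / 2 ≤ Real.log z := by
    have h3 : Real.log ((P : ℝ) / 4) ≤ Real.log z := Real.log_le_log (by linarith) hz
    rw [Real.log_div hPR.ne' (by norm_num), ← hL] at h3
    have h4 : Real.log 4 ≤ 3 := by
      have := Real.log_le_sub_one_of_pos (show (0 : ℝ) < 4 by norm_num)
      linarith
    linarith
  have hL0 : 0 < L := by linarith
  have h5 : (L / 2) ^ 2 ≤ Real.log z ^ 2 := pow_le_pow_left₀ (by linarith) hlz 2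
  calc (z : ℝ) / Real.log z ^ 2 ≤ P / (L / 2) ^ 2 := by
        have h6 : (z : ℝ) ≤ P := by exact_mod_cast h2
        exact div_le_div₀ hPR.le h6 (by positivity) h5
    _ = 4 * (P / L ^ 2) := by
        field_simp
        norm_num

theorem PP_count : ∃ P₀ : ℕ, ∀ P : ℕ, P₀ ≤ P → ∀ y : ℕ, P / 2 ≤ y → y ≤ P →
    |(((PP P).filter (fun n => n ≤ y)).card : ℝ) * Real.log P - ((y : ℝ) - P / 2) / 2| ≤ 20 * P / Real.log P := by
  obtain ⟨y0, h0⟩ := CntP_theta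
  obtain ⟨P1, hP1⟩ := Filter.eventually_atTop.1 (CntP_log.eventually_ge_atTop 8)
  refine ⟨max (max (2 * y0 + 2) P1) 4, fun P hP y hy1 hy2 => ?_⟩
  have hPa : 2 * y0 + 2 ≤ P := ((le_max_left _ _).trans (le_max_left _ _)).trans hP
  have hPb : P1 ≤ P := ((le_max_right _ _).trans (le_max_left _ _)).trans hP
  have hPc : 4 ≤ P := (le_max_right _ _).trans hP
  obtain ⟨L, hL⟩ : ∃ L, L = Real.log P := ⟨_, rfl⟩
  have hL8 : 8 ≤ L := by
    rw [hL]
    exact hP1 P hPb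
  have hL0 : 0 < L := by linarith
  have hPR : (4 : ℝ) ≤ P := by exact_mod_cast hPc
  have hP0 : (0 : ℝ) < P := by linarith
  have hLP : L ≤ P := by
    rw [hL]
    have := Real.log_le_sub_one_of_pos hP0
    linarith
  have hq : (P : ℝ) / L ^ 2 ≤ P / L / 8 := by
    rw [div_div]
    apply div_le_div_of_nonneg_left hP0.le (by positivity)
    nlinarith
  have hPL : (1 : ℝ) ≤ P / L := by
    rw [le_div_iff₀ hL0, one_mul]
    exact hLP
  have e1 := h0 y (by omega)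
  have e2 := h0 (P / 2) (by omega)
  have f1 := CntP_err hL hL8 hPc hy1 hy2
  have f2 := CntP_err hL hL8 hPc le_rfl (Nat.div_le_self P 2)
  have hS := CntP_S P y hy1 hy2
  set S := ∑ n ∈ (PP P).filter (fun n => n ≤ y), Real.log n with hSdef
  set c : ℝ := (((PP P).filter (fun n => n ≤ y)).card : ℝ) with hc
  have hhalf1 : ((P / 2 : ℕ) : ℝ) ≤ P / 2 := by
    have h3 : 2 * (P / 2) ≤ P := by omega
    have h4 : 2 * ((P / 2 : ℕ) : ℝ) ≤ P := by exact_mod_cast h3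
    linarith
  have hhalf2 : (P : ℝ) / 2 - 1 / 2 ≤ ((P / 2 : ℕ) : ℝ) := by
    have h3 : P ≤ 2 * (P / 2) + 1 := by omega
    have h4 : (P : ℝ) ≤ 2 * ((P / 2 : ℕ) : ℝ) + 1 := by exact_mod_cast h3
    linarith
  have hc0 : 0 ≤ c := Nat.cast_nonneg _
  have hSu : S ≤ L * c := by
    rw [mul_comm, hSdef, hc, ← nsmul_eq_mul]
    refine Finset.sum_le_card_nsmul _ _ _ fun n hn => ?_
    obtain ⟨hn1, hn2⟩ := Finset.mem_filter.1 hn
    have h3 := (mem_PP.1 hn1).1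
    rw [hL]
    refine Real.log_le_log ?_ ?_
    · have : 0 < n := by omega
      exact_mod_cast this
    · exact_mod_cast h3.2
  have hSl : (L - 1) * c ≤ S := by
    rw [mul_comm, hSdef, hc, ← nsmul_eq_mul]
    refine Finset.card_nsmul_le_sum _ _ _ fun n hn => ?_
    obtain ⟨hn1, hn2⟩ := Finset.mem_filter.1 hn
    have h3 := (mem_PP.1 hn1).1
    have h4 : P ≤ 2 * n := by omega
    have h5 : (P : ℝ) ≤ 2 * n := by exact_mod_cast h4
    have h6 : Real.log P ≤ Real.log (2 * n) := Real.log_le_log hP0 h5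
    have hn0 : (0 : ℝ) < n := by linarith
    rw [Real.log_mul (by norm_num) hn0.ne', ← hL] at h6
    have h7 : Real.log 2 ≤ 1 := by
      have := Real.log_le_sub_one_of_pos (show (0 : ℝ) < 2 by norm_num)
      linarith
    linarith
  have hyP : (y : ℝ) ≤ P := by exact_mod_cast hy2
  rw [← hL]
  rw [abs_le] at e1 e2
  have hS1 : S - ((y : ℝ) - P / 2) / 2 ≤ 16 * (P / L ^ 2) + 1 := by
    rw [hS]
    linarith [e1.1, e1.2, e2.1, e2.2]
  have hS2 : -(16 * (P / L ^ 2) + 1) ≤ S - ((y : ℝ) - P / 2) / 2 := by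
    rw [hS]
    linarith [e1.1, e1.2, e2.1, e2.2]
  -- the bound for the number of primes
  have hcb : c ≤ 8 * (P / L) := by
    have h3 : S ≤ P / 4 + (16 * (P / L ^ 2) + 1) := by linarith
    have h4 : 16 * (P / L ^ 2) ≤ 2 * (P / L) := by linarith
    have h5 : P / L ≤ P / 8 := div_le_div_of_nonneg_left hP0.le (by norm_num) hL8
    have h6 : (L - 1) * c ≤ P / 4 + 3 * (P / 8) := by linarith
    have h7 : L / 2 * c ≤ (L - 1) * c := mul_le_mul_of_nonneg_right (by linarith) hc0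
    have h8 : L / 2 * c ≤ P := by linarith
    have h9 : c * L ≤ 2 * P := by linarith
    have h10 : c ≤ 2 * P / L := by
      rw [le_div_iff₀ hL0]
      exact h9
    have h11 : 2 * (P : ℝ) / L = 2 * (P / L) := by ring
    rw [h11] at h10
    linarith
  have hfin : 20 * (P : ℝ) / L = 20 * (P / L) := by ring
  rw [hfin, abs_le]
  constructor
  · have : c * L = L * c := mul_comm _ _
    linarith
  · have : c * L = (L - 1) * c + c := by ring
    linarith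

theorem CntP_all (P : ℕ) : (PP P).filter (fun n => n ≤ P) = PP P := by
  rw [Finset.filter_eq_self]
  intro n hn
  exact (mem_PP.1 hn).1.2

theorem PP_lower : ∃ P₀ : ℕ, ∀ P : ℕ, P₀ ≤ P → (P : ℝ) / (5 * Real.log P) ≤ ((PP P).card : ℝ) := by
  obtain ⟨P0, h0⟩ := PP_count
  obtain ⟨P1, hP1⟩ := Filter.eventually_atTop.1 (CntP_log.eventually_ge_atTop 400)
  refine ⟨max (max P0 P1) 1, fun P hP => ?_⟩
  have hPa : P0 ≤ P := ((le_max_left _ _).trans (le_max_left _ _)).trans hP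
  have hPb : P1 ≤ P := ((le_max_right _ _).trans (le_max_left _ _)).trans hP
  have hPc : 1 ≤ P := (le_max_right _ _).trans hP
  have hL := hP1 P hPb
  have hP0 : (0 : ℝ) < P := by exact_mod_cast hPc
  have h1 := h0 P hPa P (Nat.div_le_self P 2) le_rfl
  rw [CntP_all] at h1
  have h2 := (abs_le.1 h1).1
  have hL0 : 0 < Real.log P := by linarith
  have h3 : 20 * (P : ℝ) / Real.log P ≤ P / 20 := by
    rw [div_le_div_iff₀ hL0 (by norm_num)]
    nlinarith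
  have h4 : (P : ℝ) / 5 ≤ ((PP P).card : ℝ) * Real.log P := by linarith
  rw [div_le_iff₀ (by positivity)]
  linarith

theorem PP_dist (δ : ℝ) (hδ : 0 < δ) : ∃ P₀ : ℕ, ∀ P : ℕ, P₀ ≤ P → ∀ y : ℕ, P / 2 ≤ y → y ≤ P →
    |(((PP P).filter (fun n => n ≤ y)).card : ℝ) / ((PP P).card : ℝ) - (2 * (y : ℝ) / P - 1)| ≤ δ := by
  obtain ⟨P0, h0⟩ := PP_count
  obtain ⟨P1, hP1⟩ := Filter.eventually_atTop.1 (CntP_log.eventually_ge_atTop (200 / δ))
  obtain ⟨P2, hP2⟩ := PP_lower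
  obtain ⟨P3, hP3⟩ := Filter.eventually_atTop.1 (CntP_log.eventually_ge_atTop 1)
  refine ⟨max (max (max P0 P1) (max P2 P3)) 1, fun P hP y hy1 hy2 => ?_⟩
  have hPa : P0 ≤ P := (((le_max_left _ _).trans (le_max_left _ _)).trans (le_max_left _ _)).trans hP
  have hPb : P1 ≤ P := (((le_max_right _ _).trans (le_max_left _ _)).trans (le_max_left _ _)).trans hP
  have hPd : P2 ≤ P := (((le_max_left _ _).trans (le_max_right _ _)).trans (le_max_left _ _)).trans hP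
  have hPe : P3 ≤ P := (((le_max_right _ _).trans (le_max_right _ _)).trans (le_max_left _ _)).trans hP
  have hPc : 1 ≤ P := (le_max_right _ _).trans hP
  have hL := hP1 P hPb
  have hL1 := hP3 P hPe
  have hlow := hP2 P hPd
  have hP0 : (0 : ℝ) < P := by exact_mod_cast hPc
  have e1 := h0 P hPa y hy1 hy2
  have e2 := h0 P hPa P (Nat.div_le_self P 2) le_rfl
  rw [CntP_all] at e2
  obtain ⟨L, hLd⟩ : ∃ L, L = Real.log P := ⟨_, rfl⟩
  rw [← hLd] at hL hL1 hlow e1 e2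
  have hL0 : 0 < L := by linarith
  set a : ℝ := (((PP P).filter (fun n => n ≤ y)).card : ℝ) with ha
  set c : ℝ := ((PP P).card : ℝ) with hc
  have hcL : (P : ℝ) / 5 ≤ c * L := by
    rw [div_le_iff₀ (by positivity)] at hlow
    linarith
  have hc0 : 0 < c := by
    have h3 : 0 < c * L := lt_of_lt_of_le (by positivity) hcL
    exact pos_of_mul_pos_left h3 hL0.le
  obtain ⟨t, ht⟩ : ∃ t, t = 2 * (y : ℝ) / P - 1 := ⟨_, rfl⟩
  rw [← ht]
  have htP : t * P = 2 * y - P := by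
    rw [ht]
    field_simp
  have hyP : (y : ℝ) ≤ P := by exact_mod_cast hy2
  have ht1 : t ≤ 1 := by
    by_contra hcon
    push Not at hcon
    nlinarith
  have ht2 : -1 ≤ t := by
    by_contra hcon
    push Not at hcon
    have h3 : t * P < -1 * P := mul_lt_mul_of_pos_right hcon hP0
    have h4 : (0 : ℝ) ≤ y := Nat.cast_nonneg _
    linarith
  have hE : |(a - t * c) * L| ≤ 2 * (20 * P / L) := by
    have h3 : (a - t * c) * L = (a * L - ((y : ℝ) - P / 2) / 2) - t * (c * L - ((P : ℝ) - P / 2) / 2) := by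
      have h4 : ((y : ℝ) - P / 2) / 2 = t * (((P : ℝ) - P / 2) / 2) := by
        linear_combination (-1 / 4 : ℝ) * htP
      rw [h4]
      ring
    rw [h3]
    have h5 : |t * (c * L - ((P : ℝ) - P / 2) / 2)| ≤ 20 * P / L := by
      rw [abs_mul]
      calc |t| * |c * L - ((P : ℝ) - P / 2) / 2| ≤ 1 * (20 * P / L) :=
            mul_le_mul (abs_le.2 ⟨ht2, ht1⟩) e2 (abs_nonneg _) zero_le_one
        _ = 20 * P / L := one_mul _
    calc |(a * L - ((y : ℝ) - P / 2) / 2) - t * (c * L - ((P : ℝ) - P / 2) / 2)|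
        ≤ |a * L - ((y : ℝ) - P / 2) / 2| + |t * (c * L - ((P : ℝ) - P / 2) / 2)| := abs_sub _ _
      _ ≤ 2 * (20 * P / L) := by linarith
  have hr : a / c - t = (a - t * c) * L / (c * L) := by
    field_simp
  rw [hr, abs_div, abs_of_pos (by positivity : 0 < c * L), div_le_iff₀ (by positivity)]
  have h6 : 200 ≤ δ * L := by
    rw [div_le_iff₀ hδ] at hL
    linarith
  have h7 : 2 * (20 * (P : ℝ) / L) ≤ δ * (P / 5) := by
    have h8 : 2 * (20 * (P : ℝ) / L) = 40 * P / L := by ring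
    rw [h8, div_le_iff₀ hL0]
    nlinarith
  calc |(a - t * c) * L| ≤ 2 * (20 * P / L) := hE
    _ ≤ δ * (P / 5) := h7
    _ ≤ δ * (c * L) := mul_le_mul_of_nonneg_left hcL hδ.le

end Pool.Agent.Lib.MP_d57abb_nt.KT
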