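import Mathlib
import Pool.Agent.Lib.MP_d57abb_nt.KT.Defs

/-!
# JOB SqC: vectors of a square on which a primitive linear form is divisible by `d`

Let `q = L / d ≥ 1` (integer part).  For a residue class `u` modulo `d` the number of the `x ∈ Ico a₁ (a₁ + L)` in the class is `q` or `q + 1` (`Int.Ico_filter_modEq_card`-like or
`Int.card_Ico_filter_modEq`..; or: `q d ≤ L < (q+1) d`, every interval of `d` consecutive integers has exactly one, so an interval of length `q d` has `q` and the interval of length `L` is between the intervals of length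
`q d` and `(q+1) d`).  `dt s t = s₁ t₂ - t₁ s₂`; it is divisible by `d` iff the residues `(u, v)` of `(t₁, t₂)` satisfy `s₁ v = u s₂` in `ZMod d`.  So
`#{t ∈ sq L a : d ∣ dt s t} = ∑_{(u, v) ∈ (ZMod d)², s₁ v = s₂ u} n₁(u) n₂(v)` is between `q² ρ` and `(q+1)² ρ`, `ρ = #{(u, v) : s₁ v = s₂ u} = d`: with `x s₁ + y s₂ = 1` (Bezout, `s` primitive) the map
`k ↦ (k s₁, k s₂)` is a bijection from `ZMod d` to the solutions (`k = x u + y v`; check `u = k s₁`: `k s₁ = x s₁ u + y s₁ v = x s₁ u + y s₂ u = u`).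
Finally `(q+1)² d ≤ (L/d + 1)² d = L²/d + 2 L + d ≤ L²/d + 3 L` and `q² d ≥ (L/d - 1)² d ≥ L²/d - 2 L` (`L ≥ d`).
-/

open Finset

namespace Pool.Agent.Lib.MP_d57abb_nt.KT

open Pool.Agent.Lib.MP_d57abb_nt

private theorem SqC_class (L d : ℕ) (hd : 0 < d) (a : ℤ) (c : ZMod d) :
    L / d ≤ ((Ico a (a + L)).filter (fun x : ℤ => (x : ZMod d) = c)).card ∧
      ((Ico a (a + L)).filter (fun x : ℤ => (x : ZMod d) = c)).card ≤ L / d + 1 := by
  have : NeZero d := ⟨hd.ne'⟩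
  have hc : ((c.val : ℤ) : ZMod d) = c := by
    rw [Int.cast_natCast, ZMod.natCast_zmod_val]
  have h1 : (Ico a (a + L)).filter (fun x : ℤ => (x : ZMod d) = c)
      = (Ico a (a + L)).filter (fun x : ℤ => x ≡ (c.val : ℤ) [ZMOD (d : ℤ)]) := by
    refine Finset.filter_congr fun x _ => ?_
    rw [← ZMod.intCast_eq_intCast_iff, hc]
  have hd' : (0 : ℤ) < (d : ℤ) := by exact_mod_cast hd
  have h2 := Int.Ico_filter_modEq_card a (a + L) hd' (c.val : ℤ)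
  rw [← h1] at h2
  have hdq : (0 : ℚ) < ((d : ℤ) : ℚ) := by exact_mod_cast hd
  set v : ℤ := (c.val : ℤ) with hv
  set n : ℕ := ((Ico a (a + L)).filter (fun x : ℤ => (x : ZMod d) = c)).card with hn
  have hq1 : (((L / d : ℕ)) : ℚ) * ((d : ℤ) : ℚ) ≤ (L : ℚ) := by
    have h3 : (((L / d * d : ℕ)) : ℚ) ≤ (L : ℚ) := Nat.cast_le.2 (Nat.div_mul_le_self L d)
    rw [Nat.cast_mul] at h3
    rw [Int.cast_natCast]
    exact h3
  have hq2 : (L : ℚ) < (((L / d : ℕ)) + 1 : ℚ) * ((d : ℤ) : ℚ) := by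
    have : L < (L / d + 1) * d := by
      have h3 := Nat.div_add_mod L d
      have h4 := Nat.mod_lt L hd
      nlinarith
    have h5 : (L : ℚ) < (((L / d + 1) * d : ℕ) : ℚ) := Nat.cast_lt.2 this
    rw [Nat.cast_mul, Nat.cast_add, Nat.cast_one] at h5
    rw [Int.cast_natCast]
    exact h5
  set t : ℚ := ((a : ℚ) - (v : ℚ)) / ((d : ℤ) : ℚ) with ht
  have hL : (((a + (L : ℤ) : ℤ)) : ℚ) - (v : ℚ) = ((a : ℚ) - (v : ℚ)) + (L : ℚ) := by
    push_cast; ring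
  have hb : ((((a + (L : ℤ) : ℤ)) : ℚ) - (v : ℚ)) / ((d : ℤ) : ℚ) = t + (L : ℚ) / ((d : ℤ) : ℚ) := by
    rw [hL, add_div]
  rw [hb] at h2
  have hl1 : (((L / d : ℕ)) : ℚ) ≤ (L : ℚ) / ((d : ℤ) : ℚ) := by
    rw [le_div_iff₀ hdq]; exact hq1
  have hl2 : (L : ℚ) / ((d : ℤ) : ℚ) < (((L / d : ℕ)) : ℚ) + 1 := by
    rw [div_lt_iff₀ hdq]; exact hq2
  have hlow : ⌈t⌉ + ((L / d : ℕ) : ℤ) ≤ ⌈t + (L : ℚ) / ((d : ℤ) : ℚ)⌉ := by
    have h5 : ⌈t + (((L / d : ℕ) : ℤ) : ℚ)⌉ = ⌈t⌉ + ((L / d : ℕ) : ℤ) := Int.ceil_add_intCast _ _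
    rw [← h5]
    apply Int.ceil_le_ceil
    have h6 : (((L / d : ℕ) : ℤ) : ℚ) = (((L / d : ℕ)) : ℚ) := by push_cast; rfl
    rw [h6]
    linarith
  have hup : ⌈t + (L : ℚ) / ((d : ℤ) : ℚ)⌉ ≤ ⌈t⌉ + (((L / d : ℕ) : ℤ) + 1) := by
    have h5 : ⌈t + ((((L / d : ℕ) : ℤ) + 1 : ℤ) : ℚ)⌉ = ⌈t⌉ + (((L / d : ℕ) : ℤ) + 1) :=
      Int.ceil_add_intCast _ _
    rw [← h5]
    apply Int.ceil_le_ceil
    have h6 : ((((L / d : ℕ) : ℤ) + 1 : ℤ) : ℚ) = (((L / d : ℕ)) : ℚ) + 1 := by push_cast; rfl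
    rw [h6]
    linarith
  have h7 : (0 : ℤ) ≤ ⌈t + (L : ℚ) / ((d : ℤ) : ℚ)⌉ - ⌈t⌉ := by
    have : (0 : ℤ) ≤ ((L / d : ℕ) : ℤ) := Int.natCast_nonneg _
    linarith
  rw [max_eq_left h7] at h2
  constructor
  · have : ((L / d : ℕ) : ℤ) ≤ (n : ℤ) := by rw [h2]; linarith
    exact_mod_cast this
  · have : (n : ℤ) ≤ ((L / d + 1 : ℕ) : ℤ) := by rw [h2]; push_cast at hup ⊢; linarith
    exact_mod_cast this

private theorem SqC_fiber (L d : ℕ) (a s : ℤ × ℤ) (X Y : ℤ) (h : s.1 * X + s.2 * Y = 1)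
    (k : ZMod d) :
    ((sq L a).filter (fun t => ((d : ℕ) : ℤ) ∣ dt s t)).filter
        (fun t => ((X * t.1 + Y * t.2 : ℤ) : ZMod d) = k)
      = ((Ico a.1 (a.1 + L)).filter (fun x : ℤ => (x : ZMod d) = k * (s.1 : ZMod d))) ×ˢ
        ((Ico a.2 (a.2 + L)).filter (fun x : ℤ => (x : ZMod d) = k * (s.2 : ZMod d))) := by
  ext t
  have hz : ((s.1 : ℤ) : ZMod d) * (X : ZMod d) + ((s.2 : ℤ) : ZMod d) * (Y : ZMod d) = 1 := by
    have := congrArg (fun z : ℤ => (z : ZMod d)) h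
    push_cast at this
    exact this
  have hdvd : (((d : ℕ) : ℤ) ∣ dt s t) ↔
      ((s.1 : ℤ) : ZMod d) * (t.2 : ZMod d) = (t.1 : ZMod d) * (s.2 : ZMod d) := by
    rw [← ZMod.intCast_zmod_eq_zero_iff_dvd]
    unfold dt
    push_cast
    rw [sub_eq_zero]
  simp only [sq, Finset.mem_filter, Finset.mem_product]
  rw [hdvd]
  push_cast
  constructor
  · rintro ⟨⟨⟨h1, h2⟩, h3⟩, h4⟩
    refine ⟨⟨h1, ?_⟩, ⟨h2, ?_⟩⟩
    · rw [← h4]
      linear_combination (-(t.1 : ZMod d)) * hz - (Y : ZMod d) * h3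
    · rw [← h4]
      linear_combination (-(t.2 : ZMod d)) * hz + (X : ZMod d) * h3
  · rintro ⟨⟨h1, h3⟩, ⟨h2, h4⟩⟩
    refine ⟨⟨⟨h1, h2⟩, ?_⟩, ?_⟩
    · rw [h3, h4]; ring
    · rw [h3, h4]
      linear_combination k * hz

theorem sq_count (L d : ℕ) (hd : 0 < d) (hdL : d ≤ L) (a s : ℤ × ℤ) (hs : Int.gcd s.1 s.2 = 1) :
    |(((sq L a).filter (fun t => ((d : ℕ) : ℤ) ∣ dt s t)).card : ℝ) - (L : ℝ) ^ 2 / d| ≤ 3 * L := by
  classical
  have : NeZero d := ⟨hd.ne'⟩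
  have hb : s.1 * Int.gcdA s.1 s.2 + s.2 * Int.gcdB s.1 s.2 = 1 := by
    have := Int.gcd_eq_gcd_ab s.1 s.2
    rw [hs] at this
    push_cast at this
    exact this.symm
  set X := Int.gcdA s.1 s.2
  set Y := Int.gcdB s.1 s.2
  set T := (sq L a).filter (fun t => ((d : ℕ) : ℤ) ∣ dt s t) with hT
  have hcard : T.card = ∑ k : ZMod d, (T.filter (fun t => ((X * t.1 + Y * t.2 : ℤ) : ZMod d) = k)).card :=
    Finset.card_eq_sum_card_fiberwise (fun _ _ => Finset.mem_coe.2 (Finset.mem_univ _))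
  have hk : ∀ k : ZMod d,
      (L / d) ^ 2 ≤ (T.filter (fun t => ((X * t.1 + Y * t.2 : ℤ) : ZMod d) = k)).card ∧
      (T.filter (fun t => ((X * t.1 + Y * t.2 : ℤ) : ZMod d) = k)).card ≤ (L / d + 1) ^ 2 := by
    intro k
    rw [hT, SqC_fiber L d a s X Y hb k, Finset.card_product]
    obtain ⟨a1, a2⟩ := SqC_class L d hd a.1 (k * (s.1 : ZMod d))
    obtain ⟨b1, b2⟩ := SqC_class L d hd a.2 (k * (s.2 : ZMod d))
    rw [pow_two, pow_two]
    exact ⟨Nat.mul_le_mul a1 b1, Nat.mul_le_mul a2 b2⟩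
  have hZ : Fintype.card (ZMod d) = d := ZMod.card d
  have hlo : d * (L / d) ^ 2 ≤ T.card := by
    rw [hcard]
    calc d * (L / d) ^ 2 = ∑ _k : ZMod d, (L / d) ^ 2 := by
          rw [Finset.sum_const, Finset.card_univ, hZ, smul_eq_mul]
      _ ≤ _ := Finset.sum_le_sum fun k _ => (hk k).1
  have hhi : T.card ≤ d * (L / d + 1) ^ 2 := by
    rw [hcard]
    calc _ ≤ ∑ _k : ZMod d, (L / d + 1) ^ 2 := Finset.sum_le_sum fun k _ => (hk k).2
      _ = d * (L / d + 1) ^ 2 := by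
          rw [Finset.sum_const, Finset.card_univ, hZ, smul_eq_mul]
  have hloR : (d : ℝ) * (((L / d : ℕ)) : ℝ) ^ 2 ≤ (T.card : ℝ) := by exact_mod_cast hlo
  have hhiR : (T.card : ℝ) ≤ (d : ℝ) * ((((L / d : ℕ)) : ℝ) + 1) ^ 2 := by exact_mod_cast hhi
  have hd0 : (0 : ℝ) < (d : ℝ) := by exact_mod_cast hd
  have hdL' : (d : ℝ) ≤ (L : ℝ) := by exact_mod_cast hdL
  set q : ℝ := (((L / d : ℕ)) : ℝ) with hq
  set l : ℝ := (L : ℝ) / (d : ℝ) with hl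
  have hLl : (L : ℝ) = l * d := by rw [hl]; field_simp
  have hl1 : 1 ≤ l := by rw [hl, one_le_div hd0]; exact hdL'
  have hq1 : q ≤ l := by
    rw [hl, le_div_iff₀ hd0]
    have : (((L / d * d : ℕ)) : ℝ) ≤ (L : ℝ) := by exact_mod_cast Nat.div_mul_le_self L d
    push_cast at this
    exact this
  have hq2 : l < q + 1 := by
    rw [hl, div_lt_iff₀ hd0]
    have h3 : L < (L / d + 1) * d := by
      have h3 := Nat.div_add_mod L d
      have h4 := Nat.mod_lt L hd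
      nlinarith
    have : (L : ℝ) < (((L / d + 1) * d : ℕ) : ℝ) := by exact_mod_cast h3
    push_cast at this
    exact this
  have hsq : (L : ℝ) ^ 2 / d = l ^ 2 * d := by rw [hLl]; field_simp
  rw [hsq, abs_le]
  have e1 : (l - 1) ^ 2 ≤ q ^ 2 := by
    have : l - 1 ≤ q := by linarith
    have h0 : 0 ≤ l - 1 := by linarith
    exact pow_le_pow_left₀ h0 this 2
  have e2 : (q + 1) ^ 2 ≤ (l + 1) ^ 2 := by
    have : q + 1 ≤ l + 1 := by linarith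
    have h0 : 0 ≤ q + 1 := by linarith
    exact pow_le_pow_left₀ h0 this 2
  have e3 : (d : ℝ) * (l - 1) ^ 2 ≤ (d : ℝ) * q ^ 2 := mul_le_mul_of_nonneg_left e1 hd0.le
  have e4 : (d : ℝ) * (q + 1) ^ 2 ≤ (d : ℝ) * (l + 1) ^ 2 := mul_le_mul_of_nonneg_left e2 hd0.le
  have e5 : (d : ℝ) ≤ l * d := by nlinarith
  rw [hLl]
  constructor
  · nlinarith
  · nlinarith

end Pool.Agent.Lib.MP_d57abb_nt.KT
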