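import Mathlib
import Pool.Agent.Lib.MP_d57abb_nt.KT.SqC

/-!
# JOB SqN: values of a linear form prime to `W` on a square

Let `s ≠ 0`, `c = gcd (s₁, s₂) ≥ 1`, `s = c s'` with `s'` primitive (`Int.gcd_div_gcd_div_gcd`-like, `Int.exists_gcd_one`), `dt s t = c dt s' t`.  If `(dt s t).toNat` is prime to `W` and `dt s t > 0`, then `(dt s' t).natAbs` is
prime to `W` (`natAbs (dt s' t)` divides `natAbs (dt s t) = toNat`).  So the number is at most
`#{t ∈ sq L a : (dt s' t, W) = 1} = ∑_{d ∣ W} μ(d) #{t : d ∣ dt s' t}` (Möbius: `∑_{d ∣ gcd (n, W)} μ(d) = [gcd = 1]`, see `HH_moebius` in `Pool/Agent/Lib/MP_42948a_nt/BU/HH.lean`)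
`≤ ∑_{d ∣ W} μ(d) L²/d + τ(W) 3 L` (`sq_count`, `L ≥ W`) `= L² φ(W)/W + 3 L τ(W)` (`∑_{d ∣ W} μ(d)/d = φ(W)/W`: `ArithmeticFunction`: `Nat.totient` `= ∑_{d ∣ n} μ(d) (n/d)`, e.g. from `Nat.sum_totient` by Möbius inversion
`ArithmeticFunction.sum_eq_iff_sum_mul_moebius_eq`; look for `totient_eq_..moebius`) `≤ 2 L² φ(W)/W` for `L ≥ 3 W τ(W)`, e.g. `L ≥ 3 W²` (`φ(W) ≥ 1`, `τ(W) ≤ W`).
-/

open Finset

namespace Pool.Agent.Lib.MP_d57abb_nt.KT

open Pool.Agent.Lib.MP_d57abb_nt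

private theorem SqN_ind (n W : ℕ) (hW : 0 < W) :
    (if n.Coprime W then (1 : ℝ) else 0) =
      ∑ d ∈ W.divisors, (if d ∣ n then ((ArithmeticFunction.moebius d : ℤ) : ℝ) else 0) := by
  have h1 : (n.gcd W).divisors = W.divisors.filter (fun d => d ∣ n) := by
    ext d
    rw [Nat.mem_divisors, Finset.mem_filter, Nat.mem_divisors, Nat.dvd_gcd_iff]
    have h2 : n.gcd W ≠ 0 := (Nat.gcd_pos_of_pos_right n hW).ne'
    constructor
    · rintro ⟨⟨h3, h4⟩, -⟩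
      exact ⟨⟨h4, hW.ne'⟩, h3⟩
    · rintro ⟨⟨h3, -⟩, h4⟩
      exact ⟨⟨h4, h3⟩, h2⟩
  rw [← Finset.sum_filter, ← h1]
  have h3 : ∑ d ∈ (n.gcd W).divisors, ArithmeticFunction.moebius d =
      if n.gcd W = 1 then 1 else 0 := by
    rw [← ArithmeticFunction.coe_mul_zeta_apply, ArithmeticFunction.moebius_mul_coe_zeta,
      ArithmeticFunction.one_apply]
  have h4 : (∑ d ∈ (n.gcd W).divisors, ((ArithmeticFunction.moebius d : ℤ) : ℝ)) =
      ((∑ d ∈ (n.gcd W).divisors, ArithmeticFunction.moebius d : ℤ) : ℝ) := by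
    push_cast
    rfl
  rw [h4, h3]
  by_cases h : n.gcd W = 1
  · rw [if_pos h, if_pos h]
    norm_num
  · rw [if_neg h, if_neg h]
    norm_num

private theorem SqN_tot (W : ℕ) (hW : 0 < W) :
    ∑ d ∈ W.divisors, ((ArithmeticFunction.moebius d : ℤ) : ℝ) / d = (W.totient : ℝ) / W := by
  have h1 := (ArithmeticFunction.sum_eq_iff_sum_mul_moebius_eq (R := ℝ)
    (f := fun n => (n.totient : ℝ)) (g := fun n => (n : ℝ))).1 (by
      intro n _
      have h2 := Nat.sum_totient n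
      have h3 : ((∑ d ∈ n.divisors, d.totient : ℕ) : ℝ) = (n : ℝ) := by rw [h2]
      push_cast at h3
      exact h3) W hW
  rw [Nat.sum_divisorsAntidiagonal (fun a b => ((ArithmeticFunction.moebius a : ℤ) : ℝ) * (b : ℝ))] at h1
  rw [← h1, Finset.sum_div]
  refine Finset.sum_congr rfl fun d hd => ?_
  have hd1 := Nat.dvd_of_mem_divisors hd
  have hd0 : (d : ℝ) ≠ 0 := by
    have := Nat.pos_of_mem_divisors hd
    positivity
  have hW0 : (W : ℝ) ≠ 0 := by positivity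
  rw [Nat.cast_div hd1 hd0]
  field_simp

private theorem SqN_cop (L W : ℕ) (hW : 0 < W) (hL : 3 * W ^ 2 ≤ L) (a s : ℤ × ℤ)
    (hs : Int.gcd s.1 s.2 = 1) :
    (((sq L a).filter (fun t => (dt s t).natAbs.Coprime W)).card : ℝ) ≤
      2 * (L : ℝ) ^ 2 * (W.totient : ℝ) / W := by
  classical
  have hWL : W ≤ L := by nlinarith
  have h1 : (((sq L a).filter (fun t => (dt s t).natAbs.Coprime W)).card : ℝ) =
      ∑ d ∈ W.divisors, ((ArithmeticFunction.moebius d : ℤ) : ℝ) *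
        (((sq L a).filter (fun t => ((d : ℕ) : ℤ) ∣ dt s t)).card : ℝ) := by
    rw [Finset.card_filter]
    push_cast
    rw [Finset.sum_congr rfl fun t _ => SqN_ind (dt s t).natAbs W hW, Finset.sum_comm]
    refine Finset.sum_congr rfl fun d _ => ?_
    rw [Finset.card_filter]
    push_cast
    rw [Finset.mul_sum]
    refine Finset.sum_congr rfl fun t _ => ?_
    have h2 : (((d : ℕ) : ℤ) ∣ dt s t) ↔ d ∣ (dt s t).natAbs := Int.natCast_dvd
    by_cases h : d ∣ (dt s t).natAbs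
    · rw [if_pos h, if_pos (h2.2 h), mul_one]
    · rw [if_neg h, if_neg (fun h' => h (h2.1 h')), mul_zero]
  rw [h1]
  have h2 : ∀ d ∈ W.divisors, ((ArithmeticFunction.moebius d : ℤ) : ℝ) *
        (((sq L a).filter (fun t => ((d : ℕ) : ℤ) ∣ dt s t)).card : ℝ) ≤
      (L : ℝ) ^ 2 * (((ArithmeticFunction.moebius d : ℤ) : ℝ) / d) + 3 * L := by
    intro d hd
    have hd0 : 0 < d := Nat.pos_of_mem_divisors hd
    have hdL : d ≤ L := (Nat.divisor_le hd).trans hWL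
    have h3 := sq_count L d hd0 hdL a s hs
    have h4 : |((ArithmeticFunction.moebius d : ℤ) : ℝ)| ≤ 1 := by
      have := ArithmeticFunction.abs_moebius_le_one (n := d)
      exact_mod_cast this
    have h5 : ((ArithmeticFunction.moebius d : ℤ) : ℝ) *
        (((sq L a).filter (fun t => ((d : ℕ) : ℤ) ∣ dt s t)).card : ℝ) =
      (L : ℝ) ^ 2 * (((ArithmeticFunction.moebius d : ℤ) : ℝ) / d) +
      ((ArithmeticFunction.moebius d : ℤ) : ℝ) *
        ((((sq L a).filter (fun t => ((d : ℕ) : ℤ) ∣ dt s t)).card : ℝ) - (L : ℝ) ^ 2 / d) := by ring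
    rw [h5]
    refine add_le_add le_rfl ?_
    refine (le_abs_self _).trans ?_
    rw [abs_mul]
    calc |((ArithmeticFunction.moebius d : ℤ) : ℝ)| *
        |(((sq L a).filter (fun t => ((d : ℕ) : ℤ) ∣ dt s t)).card : ℝ) - (L : ℝ) ^ 2 / d|
        ≤ 1 * (3 * L) := mul_le_mul h4 h3 (abs_nonneg _) zero_le_one
      _ = 3 * L := one_mul _
  refine (Finset.sum_le_sum h2).trans ?_
  rw [Finset.sum_add_distrib, ← Finset.mul_sum, SqN_tot W hW, Finset.sum_const, nsmul_eq_mul]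
  have hW1 : (1 : ℝ) ≤ W := by exact_mod_cast hW
  have hW0 : (0 : ℝ) < W := by linarith
  have hφ : (1 : ℝ) ≤ (W.totient : ℝ) := by exact_mod_cast Nat.totient_pos.2 hW
  have hL' : 3 * (W : ℝ) ^ 2 ≤ L := by exact_mod_cast hL
  have hL0 : (0 : ℝ) ≤ L := Nat.cast_nonneg L
  have hc : (W.divisors.card : ℝ) ≤ W := by exact_mod_cast Nat.card_divisors_le_self W
  have h6 : (W.divisors.card : ℝ) * (3 * L) ≤ (L : ℝ) ^ 2 * (W.totient : ℝ) / W := by
    rw [le_div_iff₀ hW0]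
    calc (W.divisors.card : ℝ) * (3 * L) * W ≤ W * (3 * L) * W := by
          refine mul_le_mul_of_nonneg_right ?_ hW0.le
          exact mul_le_mul_of_nonneg_right hc (by positivity)
      _ = L * (3 * (W : ℝ) ^ 2) := by ring
      _ ≤ L * L := mul_le_mul_of_nonneg_left hL' hL0
      _ = (L : ℝ) ^ 2 * 1 := by ring
      _ ≤ (L : ℝ) ^ 2 * (W.totient : ℝ) := mul_le_mul_of_nonneg_left hφ (by positivity)
  have h7 : 2 * (L : ℝ) ^ 2 * (W.totient : ℝ) / W =
      (L : ℝ) ^ 2 * ((W.totient : ℝ) / W) + (L : ℝ) ^ 2 * (W.totient : ℝ) / W := by ring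
  rw [h7]
  exact add_le_add le_rfl h6

theorem sq_model (W : ℕ) (hW : 0 < W) : ∃ L₀ : ℕ, ∀ L : ℕ, L₀ ≤ L → ∀ a s : ℤ × ℤ, s ≠ 0 →
    (((sq L a).filter (fun t => 0 < dt s t ∧ (dt s t).toNat.Coprime W)).card : ℝ) ≤
      2 * (L : ℝ) ^ 2 * (W.totient : ℝ) / W := by
  classical
  refine ⟨3 * W ^ 2, fun L hL a s hs => ?_⟩
  have hg : 0 < Int.gcd s.1 s.2 := by
    rw [Nat.pos_iff_ne_zero]
    intro h
    rw [Int.gcd_eq_zero_iff] at h
    exact hs (Prod.ext h.1 h.2)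
  obtain ⟨m, n, hmn, h1, h2⟩ := Int.exists_gcd_one hg
  have hdt : ∀ t, dt s t = dt (m, n) t * (Int.gcd s.1 s.2 : ℤ) := by
    intro t
    have e1 : dt s t = s.1 * t.2 - t.1 * s.2 := rfl
    have e2 : dt (m, n) t = m * t.2 - t.1 * n := rfl
    rw [e1, e2]
    calc s.1 * t.2 - t.1 * s.2 = (m * (Int.gcd s.1 s.2 : ℤ)) * t.2 - t.1 * (n * (Int.gcd s.1 s.2 : ℤ)) := by
          rw [← h1, ← h2]
      _ = (m * t.2 - t.1 * n) * (Int.gcd s.1 s.2 : ℤ) := by ring
  refine le_trans ?_ (SqN_cop L W hW hL a (m, n) hmn)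
  have hsub : (sq L a).filter (fun t => 0 < dt s t ∧ (dt s t).toNat.Coprime W) ⊆
      (sq L a).filter (fun t => (dt (m, n) t).natAbs.Coprime W) := by
    intro t ht
    rw [Finset.mem_filter] at ht ⊢
    refine ⟨ht.1, ?_⟩
    have h3 : (dt s t).toNat = (dt s t).natAbs := by
      have := ht.2.1
      omega
    have h4 : (dt (m, n) t).natAbs ∣ (dt s t).toNat := by
      rw [h3, hdt t, Int.natAbs_mul]
      exact Dvd.intro _ rfl
    exact Nat.Coprime.coprime_dvd_left h4 ht.2.2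
  exact_mod_cast Finset.card_le_card hsub

end Pool.Agent.Lib.MP_d57abb_nt.KT
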