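import Mathlib
import Pool.Agent.Lib.MP_d57abb_nt.KT.SqC
import Pool.Agent.Lib.MP_d57abb_nt.KT.SvA

/-!
# Prime values of a primitive linear form on a square

`C, K₁` from `upper_sieve`.  Let `z` be the largest number with `z^(2 K₁) ≤ L`, so `z^K₁ ≤ √L ≤ L` and, as `z ≥ 2`, `L < (z + 1)^(2 K₁) ≤ z^(4 K₁)`, so `log L ≤ 4 K₁ log z`.  Also `2 z ≤ z² ≤ L`.
Take `A = sq L a`, `n t = (dt s t).natAbs`, `X = L²`, `R = 3 L` (`sq_count`).  If `(dt s t).toNat ∈ PP P` then `dt s t > 0`, `natAbs = toNat = p` is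
a prime `> P/2` (integer part) and `P/2 ≥ L/2 ≥ z`, so `Rough z (natAbs)`.  So the number is `≤ C L²/log z + z^K₁ · 3 L ≤ 4 K₁ C L²/log L + 3 L^(3/2) ≤ (4 K₁ C + 6) L²/log L` (`log L ≤ 2 √L`).
-/

open Finset

namespace Pool.Agent.Lib.MP_d57abb_nt.KT

open Pool.Agent.Lib.MP_d57abb_nt

private theorem SqP_root (k L : ℕ) (hk : 1 ≤ k) : ∃ z : ℕ, z ^ k ≤ L ∧ L < (z + 1) ^ k := by
  have hex : ∃ m : ℕ, L < m ^ k := ⟨L + 1, lt_of_lt_of_le (Nat.lt_succ_self L) (Nat.le_self_pow (by omega) (L + 1))⟩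
  classical
  have h1 := Nat.find_spec hex
  have h0 : Nat.find hex ≠ 0 := by
    intro h
    rw [h, zero_pow (by omega)] at h1
    omega
  refine ⟨Nat.find hex - 1, ?_, ?_⟩
  · by_contra hc
    have := Nat.find_min' hex (not_le.mp hc)
    omega
  · rw [Nat.sub_add_cancel (by omega)]
    exact h1

theorem sq_primes : ∃ C : ℝ, 0 < C ∧ ∃ L₀ : ℕ, ∀ L : ℕ, L₀ ≤ L → ∀ P : ℕ, L ≤ P → ∀ a s : ℤ × ℤ,
    Int.gcd s.1 s.2 = 1 →
    (((sq L a).filter (fun t => (dt s t).toNat ∈ PP P)).card : ℝ) ≤ C * (L : ℝ) ^ 2 / Real.log L := by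
  classical
  obtain ⟨C, K, hC, hK, hsv⟩ := upper_sieve
  refine ⟨4 * K * C + 6, by positivity, 2 ^ (2 * K), ?_⟩
  intro L hL P hP a s hs
  obtain ⟨z, hz1, hz2⟩ := SqP_root (2 * K) L (by omega)
  have hz : 2 ≤ z := by
    by_contra hc
    have h1 : z + 1 ≤ 2 := by omega
    have h2 := Nat.pow_le_pow_left h1 (2 * K)
    omega
  have hL4 : 4 ≤ L := by
    have : 2 ^ 2 ≤ 2 ^ (2 * K) := Nat.pow_le_pow_right (by norm_num) (by omega)
    omega
  have hzK : z ^ K ≤ L := by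
    have : z ^ K ≤ z ^ (2 * K) := Nat.pow_le_pow_right (by omega) (by omega)
    omega
  have hzL : 2 * z ≤ L := by
    have h1 : z ^ 2 ≤ z ^ (2 * K) := Nat.pow_le_pow_right (by omega) (by omega)
    nlinarith
  have hL4' : (4 : ℝ) ≤ L := by exact_mod_cast hL4
  have hL0 : (0 : ℝ) < L := by linarith
  have hlog : 0 < Real.log L := Real.log_pos (by linarith)
  have hz0 : (1 : ℝ) < z := by exact_mod_cast (by omega : 1 < z)
  have hlogz : 0 < Real.log z := Real.log_pos hz0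
  have hlz : Real.log L ≤ 4 * K * Real.log z := by
    have h1 : L ≤ z ^ (4 * K) := by
      have h2 : (z + 1) ^ (2 * K) ≤ (z ^ 2) ^ (2 * K) := Nat.pow_le_pow_left (by nlinarith) _
      have h3 : (z ^ 2) ^ (2 * K) = z ^ (4 * K) := by
        rw [← pow_mul]
        congr 1
        ring
      omega
    have h2 : (L : ℝ) ≤ (z : ℝ) ^ (4 * K) := by exact_mod_cast h1
    have h3 := Real.log_le_log hL0 h2
    rw [Real.log_pow] at h3
    push_cast at h3
    exact h3
  have hzs : (z : ℝ) ^ K ≤ √(L : ℝ) := by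
    apply Real.le_sqrt_of_sq_le
    have h1 : ((z : ℝ) ^ K) ^ 2 = (z : ℝ) ^ (2 * K) := by
      rw [← pow_mul]
      congr 1
      ring
    rw [h1]
    exact_mod_cast hz1
  have hlogs : Real.log L ≤ 2 * √(L : ℝ) := by
    have h1 : 0 < √(L : ℝ) := Real.sqrt_pos.mpr hL0
    have h2 := Real.log_le_sub_one_of_pos h1
    have h3 : Real.log √(L : ℝ) = Real.log L / 2 := Real.log_sqrt hL0.le
    rw [h3] at h2
    linarith
  have hmain := hsv z hz (sq L a) (fun t => (dt s t).natAbs) ((L : ℝ) ^ 2) (3 * L) (by positivity) (by positivity) (by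
    intro d hd hdz
    have h1 := sq_count L d (Nat.pos_of_ne_zero hd.ne_zero) (hdz.trans hzK) a s hs
    have h2 : (sq L a).filter (fun t => d ∣ (dt s t).natAbs) = (sq L a).filter (fun t => ((d : ℕ) : ℤ) ∣ dt s t) := by
      apply Finset.filter_congr
      intro t _
      exact Int.natCast_dvd.symm
    rw [h2]
    exact h1)
  have hsub : (((sq L a).filter (fun t => (dt s t).toNat ∈ PP P)).card : ℝ) ≤
      (((sq L a).filter (fun t => Pool.Agent.Lib.MP_42948a_nt.OA.Rough z (dt s t).natAbs)).card : ℝ) := by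
    have : ((sq L a).filter (fun t => (dt s t).toNat ∈ PP P)).card ≤
        ((sq L a).filter (fun t => Pool.Agent.Lib.MP_42948a_nt.OA.Rough z (dt s t).natAbs)).card := by
      apply Finset.card_le_card
      intro t ht
      rw [Finset.mem_filter] at ht ⊢
      refine ⟨ht.1, ?_⟩
      obtain ⟨⟨h1, h2⟩, h3, _⟩ := mem_PP.mp ht.2
      have h4 : (dt s t).natAbs = (dt s t).toNat := by
        have := h3.pos
        omega
      rw [h4]
      refine ⟨h3.pos, ?_⟩
      intro p hp hpd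
      have h5 : p = (dt s t).toNat := (Nat.prime_dvd_prime_iff_eq hp h3).mp hpd
      rw [h5]
      omega
    exact_mod_cast this
  refine hsub.trans (hmain.trans ?_)
  have e1 : C * (L : ℝ) ^ 2 / Real.log z ≤ 4 * K * C * (L : ℝ) ^ 2 / Real.log L := by
    rw [div_le_div_iff₀ hlogz hlog]
    have : 0 ≤ C * (L : ℝ) ^ 2 := by positivity
    nlinarith
  have e2 : (z : ℝ) ^ K * (3 * L) ≤ 6 * (L : ℝ) ^ 2 / Real.log L := by
    rw [le_div_iff₀ hlog]
    have h1 : √(L : ℝ) * √(L : ℝ) = L := Real.mul_self_sqrt hL0.le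
    have h2 : 0 ≤ √(L : ℝ) := Real.sqrt_nonneg _
    calc (z : ℝ) ^ K * (3 * L) * Real.log L ≤ √(L : ℝ) * (3 * L) * (2 * √(L : ℝ)) := by
          apply mul_le_mul _ hlogs hlog.le (by positivity)
          exact mul_le_mul_of_nonneg_right hzs (by positivity)
      _ = 6 * L * (√(L : ℝ) * √(L : ℝ)) := by ring
      _ = 6 * (L : ℝ) ^ 2 := by rw [h1]; ring
  calc C * (L : ℝ) ^ 2 / Real.log z + (z : ℝ) ^ K * (3 * L)
      ≤ 4 * K * C * (L : ℝ) ^ 2 / Real.log L + 6 * (L : ℝ) ^ 2 / Real.log L := add_le_add e1 e2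
    _ = (4 * K * C + 6) * (L : ℝ) ^ 2 / Real.log L := by ring

end Pool.Agent.Lib.MP_d57abb_nt.KT
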