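import Mathlib
import Pool.Agent.Lib.MP_d57abb_nt.KT.SqP
import Pool.Agent.Lib.MP_d57abb_nt.KT.SqN
import Pool.Agent.Lib.MP_d57abb_nt.KT.CntN
import Pool.Agent.Lib.MP_d57abb_nt.KT.CntP

/-!
# JOB GQ: the mass of the kernel on a small square

`L = N / J + 1`.  For `N` large: `N/J ≤ L ≤ 2 N/J` (real), `L ≥ √N`-ish so `log P ≤ 2 log N ≤ 4 log L`, `P ≥ N²/K` large, `L ≤ P`.
If `s = 0`: `dt s t = 0`, `ff = 0`.  Let `s ≠ 0`.  `∑_{t ∈ sq L a} |ff (dt s t)| ≤ #{t : (dt s t).toNat ∈ PP}/#PP + #{t : (dt s t).toNat ∈ NN}/#NN` (`abs_fN_le`).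
Primes: if `s` is primitive: `sq_primes` and `PP_lower`: `≤ C (L²/log L) (5 log P/P) ≤ 20 C L²/P ≤ 20 C (4 N²/J²)/P ≤ 80 C K/J²`.  If `s` is not primitive, `c = gcd (s₁, s₂) ≥ 2` divides `dt s t = p` prime, so `c = p > P/2`; but
`c ≤ max |s_i| ≤ J N` and `P/2 ≥ N²/(2K) - 1 ≥ J N` for `N` large: the set is empty.
Model: `(dt s t).toNat ∈ NN` implies `0 < dt s t` and `toNat` prime to `W`: `sq_model`, `NN_lower`: `≤ (2 L² φ(W)/W) (8 W/(φ(W) P)) = 16 L²/P ≤ 64 K/J²`.  So `C₂ = 80 C K + 64 K + 1`.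
-/

open Finset

namespace Pool.Agent.Lib.MP_d57abb_nt.KT

open Pool.Agent.Lib.MP_d57abb_nt

/-- if the coordinates of `s` have a common factor, no value is a large prime -/
private theorem GQ_noprime (P M : ℕ) (hM : M < P / 2) (a s : ℤ × ℤ) (L : ℕ) (hs : s ∈ Bx M) (hs0 : s ≠ 0)
    (hg : Int.gcd s.1 s.2 ≠ 1) : (sq L a).filter (fun t => (dt s t).toNat ∈ PP P) = ∅ := by
  rw [Finset.filter_eq_empty_iff]
  intro t _ hmem
  rw [mem_PP] at hmem
  obtain ⟨⟨h1, h2⟩, hp, -⟩ := hmem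
  have hpos : 0 < dt s t := by
    by_contra hcon
    rw [Int.toNat_of_nonpos (not_lt.1 hcon)] at hp
    exact Nat.not_prime_zero hp
  have hdvd : ((Int.gcd s.1 s.2 : ℕ) : ℤ) ∣ dt s t := by
    unfold dt
    exact dvd_sub (Dvd.dvd.mul_right (Int.gcd_dvd_left s.1 s.2) _) (Dvd.dvd.mul_left (Int.gcd_dvd_right s.1 s.2) _)
  have hdvd' : Int.gcd s.1 s.2 ∣ (dt s t).toNat := by
    have : (((dt s t).toNat : ℕ) : ℤ) = dt s t := Int.toNat_of_nonneg hpos.le
    rw [← this] at hdvd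
    exact_mod_cast hdvd
  have heq : Int.gcd s.1 s.2 = (dt s t).toNat := by
    rcases (Nat.dvd_prime hp).1 hdvd' with h | h
    · exact absurd h hg
    · exact h
  unfold Bx at hs
  rw [Finset.mem_product, Finset.mem_Icc, Finset.mem_Icc] at hs
  have hle : Int.gcd s.1 s.2 ≤ M := by
    by_cases hs1 : s.1 = 0
    · have hs2 : s.2 ≠ 0 := fun h => hs0 (Prod.ext hs1 h)
      have h3 : Int.gcd s.1 s.2 ≤ s.2.natAbs :=
        Nat.le_of_dvd (Int.natAbs_pos.2 hs2) (Int.natCast_dvd.1 (Int.gcd_dvd_right s.1 s.2))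
      have h4 : s.2.natAbs ≤ M := by omega
      exact h3.trans h4
    · have h3 : Int.gcd s.1 s.2 ≤ s.1.natAbs :=
        Nat.le_of_dvd (Int.natAbs_pos.2 hs1) (Int.natCast_dvd.1 (Int.gcd_dvd_left s.1 s.2))
      have h4 : s.1.natAbs ≤ M := by omega
      exact h3.trans h4
  omega

/-- the sum of the values of `ff` on a square, by counting -/
private theorem GQ_count (W P L : ℕ) (a s : ℤ × ℤ) :
    ∑ t ∈ sq L a, |ff W P (dt s t)| ≤
      (((sq L a).filter (fun t => (dt s t).toNat ∈ PP P)).card : ℝ) * (1 / ((PP P).card : ℝ)) +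
      (((sq L a).filter (fun t => 0 < dt s t ∧ (dt s t).toNat.Coprime W)).card : ℝ) * (1 / ((NN W P).card : ℝ)) := by
  have h1 : ∀ t ∈ sq L a, |ff W P (dt s t)| ≤
      (if (dt s t).toNat ∈ PP P then 1 / ((PP P).card : ℝ) else 0) +
      (if 0 < dt s t ∧ (dt s t).toNat.Coprime W then 1 / ((NN W P).card : ℝ) else 0) := by
    intro t _
    unfold ff
    refine (abs_fN_le W P _).trans ?_
    have h2 : (if (dt s t).toNat ∈ NN W P then 1 / ((NN W P).card : ℝ) else 0) ≤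
        (if 0 < dt s t ∧ (dt s t).toNat.Coprime W then 1 / ((NN W P).card : ℝ) else 0) := by
      by_cases h : (dt s t).toNat ∈ NN W P
      · have h3 := mem_NN.1 h
        have h4 : 0 < dt s t := by
          by_contra hcon
          have : (dt s t).toNat = 0 := Int.toNat_of_nonpos (not_lt.1 hcon)
          have h5 := h3.1.1
          rw [this] at h5
          omega
        rw [if_pos h, if_pos ⟨h4, h3.2.1⟩]
      · rw [if_neg h]
        split_ifs <;> positivity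
    linarith
  refine (Finset.sum_le_sum h1).trans (le_of_eq ?_)
  rw [Finset.sum_add_distrib, ← Finset.sum_filter, ← Finset.sum_filter, Finset.sum_const, Finset.sum_const,
    nsmul_eq_mul, nsmul_eq_mul]

theorem GQ_bound (K : ℕ) (hK : 1 ≤ K) : ∃ C₂ : ℝ, 0 < C₂ ∧ ∀ J : ℕ, 1 ≤ J → ∀ W : ℕ, 0 < W → 5 ∣ W → ∃ N₀ : ℕ, ∀ N : ℕ, N₀ ≤ N →
    ∀ P : ℕ, P ≤ N ^ 2 → N ^ 2 ≤ K * P → ∀ a s : ℤ × ℤ, s ∈ Bx (J * N) →
    ∑ t ∈ sq (N / J + 1) a, |ff W P (dt s t)| ≤ C₂ / (J : ℝ) ^ 2 := by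
  obtain ⟨C, hC, L₀, hL₀⟩ := sq_primes
  obtain ⟨P₁, hP₁⟩ := PP_lower
  refine ⟨80 * C * K + 64 * K, by positivity, fun J hJ W hW h5 => ?_⟩
  obtain ⟨L₁, hL₁⟩ := sq_model W hW
  obtain ⟨P₂, hP₂⟩ := NN_lower W hW h5
  refine ⟨J * (L₀ + L₁ + 2) + K * (P₁ + P₂ + 2) + J ^ 2 + (2 * J * K + 4 * K) + 1, fun N hN P hPN hNP a s hs => ?_⟩
  have hJpos : (0 : ℝ) < J := by exact_mod_cast hJ
  have hKpos : (0 : ℝ) < K := by exact_mod_cast hK
  have hN1 : J * (L₀ + L₁ + 2) ≤ N := by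
    have h1 : 0 ≤ K * (P₁ + P₂ + 2) := Nat.zero_le _
    have h2 : 0 ≤ J ^ 2 := Nat.zero_le _
    have h3 : 0 ≤ 2 * J * K + 4 * K := Nat.zero_le _
    linarith
  have hN2 : K * (P₁ + P₂ + 2) ≤ N := by
    have h1 : 0 ≤ J * (L₀ + L₁ + 2) := Nat.zero_le _
    have h2 : 0 ≤ J ^ 2 := Nat.zero_le _
    have h3 : 0 ≤ 2 * J * K + 4 * K := Nat.zero_le _
    linarith
  have hN3 : J ^ 2 ≤ N := by
    have h1 : 0 ≤ J * (L₀ + L₁ + 2) := Nat.zero_le _
    have h2 : 0 ≤ K * (P₁ + P₂ + 2) := Nat.zero_le _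
    have h3 : 0 ≤ 2 * J * K + 4 * K := Nat.zero_le _
    linarith
  have hN4 : 2 * J * K + 4 * K ≤ N := by
    have h1 : 0 ≤ J * (L₀ + L₁ + 2) := Nat.zero_le _
    have h2 : 0 ≤ K * (P₁ + P₂ + 2) := Nat.zero_le _
    have h3 : 0 ≤ J ^ 2 := Nat.zero_le _
    linarith
  have hN5 : 1 ≤ N := by
    have h1 : 0 ≤ J * (L₀ + L₁ + 2) := Nat.zero_le _
    have h2 : 0 ≤ K * (P₁ + P₂ + 2) := Nat.zero_le _
    have h3 : 0 ≤ J ^ 2 := Nat.zero_le _
    have h4 : 0 ≤ 2 * J * K + 4 * K := Nat.zero_le _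
    linarith
  have hdiv : L₀ + L₁ + 2 ≤ N / J := by
    rw [Nat.le_div_iff_mul_le (by omega), mul_comm]
    exact hN1
  obtain ⟨L, hL⟩ : ∃ L, L = N / J + 1 := ⟨_, rfl⟩
  rw [← hL]
  have hLL0 : L₀ ≤ L := by omega
  have hLL1 : L₁ ≤ L := by omega
  have hNJL : N < J * L := by
    rw [hL]
    exact Nat.lt_mul_div_succ N (by omega)
  have hPbig : P₁ + P₂ + 2 ≤ P := by
    by_contra hcon
    have h1 : K * P < K * (P₁ + P₂ + 2) := Nat.mul_lt_mul_of_pos_left (by omega) (by omega)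
    have h2 : N ≤ N ^ 2 := by nlinarith
    omega
  have hPJ : 2 * (J * N) + 4 * N ≤ P := by
    by_contra hcon
    have h1 : K * P < K * (2 * (J * N) + 4 * N) := Nat.mul_lt_mul_of_pos_left (by omega) (by omega)
    have h2 : (2 * J * K + 4 * K) * N ≤ N * N := Nat.mul_le_mul_right N hN4
    nlinarith
  have hLP : L ≤ P := by
    have h1 : N / J ≤ N := Nat.div_le_self N J
    omega
  have hhalf : J * N < P / 2 := by omega
  have hL4 : P ≤ L ^ 4 := by
    have h1 : N ≤ L ^ 2 := by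
      by_contra hcon
      have h2 : J ^ 2 * L ^ 2 < J ^ 2 * N := Nat.mul_lt_mul_of_pos_left (by omega) (by positivity)
      have h3 : N * N < (J * L) * (J * L) := Nat.mul_self_lt_mul_self hNJL
      have h4 : J ^ 2 * N ≤ N * N := Nat.mul_le_mul_right N hN3
      nlinarith
    calc P ≤ N ^ 2 := hPN
      _ ≤ (L ^ 2) ^ 2 := Nat.pow_le_pow_left h1 2
      _ = L ^ 4 := by ring
  have hPpos : (0 : ℝ) < P := by
    have : 0 < P := by omega
    exact_mod_cast this
  have hLpos : (0 : ℝ) < L := by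
    have : 0 < L := by omega
    exact_mod_cast this
  have hlogL : 0 < Real.log L := by
    refine Real.log_pos ?_
    have : 1 < L := by omega
    exact_mod_cast this
  have hlogP : 0 < Real.log P := by
    refine Real.log_pos ?_
    have : 1 < P := by omega
    exact_mod_cast this
  have hlog : Real.log P ≤ 4 * Real.log L := by
    have h1 : (P : ℝ) ≤ (L : ℝ) ^ 4 := by exact_mod_cast hL4
    have h2 := Real.log_le_log hPpos h1
    rw [Real.log_pow] at h2
    exact_mod_cast h2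
  have hL2 : (L : ℝ) ≤ 2 * (N : ℝ) / J := by
    have h1 : ((N / J : ℕ) : ℝ) ≤ (N : ℝ) / J := Nat.cast_div_le
    have h2 : (1 : ℝ) ≤ (N : ℝ) / J := by
      have : (1 : ℝ) ≤ ((N / J : ℕ) : ℝ) := by
        have : 1 ≤ N / J := by omega
        exact_mod_cast this
      linarith
    have h3 : (L : ℝ) = ((N / J : ℕ) : ℝ) + 1 := by
      rw [hL]
      push_cast
      ring
    rw [h3]
    have h4 : 2 * (N : ℝ) / J = (N : ℝ) / J + (N : ℝ) / J := by ring
    rw [h4]
    linarith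
  have hL3 : (L : ℝ) ^ 2 / P ≤ 4 * K / (J : ℝ) ^ 2 := by
    have h1 : (L : ℝ) ^ 2 ≤ (2 * (N : ℝ) / J) ^ 2 := pow_le_pow_left₀ hLpos.le hL2 2
    have h2 : (N : ℝ) ^ 2 ≤ K * P := by exact_mod_cast hNP
    rw [div_le_iff₀ hPpos]
    refine h1.trans ?_
    rw [div_pow, div_mul_eq_mul_div]
    refine div_le_div_of_nonneg_right ?_ (by positivity)
    nlinarith
  by_cases hs0 : s = 0
  · have hz : ∀ t ∈ sq L a, |ff W P (dt s t)| = 0 := by
      intro t _
      have : dt s t = 0 := by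
        rw [hs0]
        unfold dt
        simp
      rw [this, ff_nonpos W P 0 le_rfl, abs_zero]
    rw [Finset.sum_congr rfl hz, Finset.sum_const_zero]
    positivity
  · refine (GQ_count W P L a s).trans ?_
    have hPP := hP₁ P (by omega)
    have hNN := hP₂ P (by omega)
    have hφ : (0 : ℝ) < (W.totient : ℝ) := by
      have := Nat.totient_pos.2 hW
      exact_mod_cast this
    have hWpos : (0 : ℝ) < (W : ℝ) := by exact_mod_cast hW
    have hA : (((sq L a).filter (fun t => (dt s t).toNat ∈ PP P)).card : ℝ) * (1 / ((PP P).card : ℝ)) ≤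
        80 * C * K / (J : ℝ) ^ 2 := by
      by_cases hg : Int.gcd s.1 s.2 = 1
      · have h1 := hL₀ L hLL0 P hLP a s hg
        have h2 : 1 / ((PP P).card : ℝ) ≤ 5 * Real.log P / P := by
          have h3 : (0 : ℝ) < (P : ℝ) / (5 * Real.log P) := by positivity
          have h4 := one_div_le_one_div_of_le h3 hPP
          rwa [one_div_div] at h4
        calc (((sq L a).filter (fun t => (dt s t).toNat ∈ PP P)).card : ℝ) * (1 / ((PP P).card : ℝ))
            ≤ (C * (L : ℝ) ^ 2 / Real.log L) * (5 * Real.log P / P) :=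
              mul_le_mul h1 h2 (by positivity) (by positivity)
          _ = 5 * C * (Real.log P / Real.log L) * ((L : ℝ) ^ 2 / P) := by
              field_simp
          _ ≤ 5 * C * 4 * (4 * K / (J : ℝ) ^ 2) := by
              refine mul_le_mul ?_ hL3 (by positivity) (by positivity)
              refine mul_le_mul_of_nonneg_left ?_ (by positivity)
              rw [div_le_iff₀ hlogL]
              exact hlog
          _ = 80 * C * K / (J : ℝ) ^ 2 := by ring
      · rw [GQ_noprime P (J * N) hhalf a s L hs hs0 hg, Finset.card_empty, Nat.cast_zero, zero_mul]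
        positivity
    have hB : (((sq L a).filter (fun t => 0 < dt s t ∧ (dt s t).toNat.Coprime W)).card : ℝ) *
        (1 / ((NN W P).card : ℝ)) ≤ 64 * K / (J : ℝ) ^ 2 := by
      have h1 := hL₁ L hLL1 a s hs0
      have h2 : 1 / ((NN W P).card : ℝ) ≤ 8 * W / (P * W.totient) := by
        have h3 : (0 : ℝ) < (P : ℝ) * (W.totient : ℝ) / (8 * W) := by positivity
        have h4 := one_div_le_one_div_of_le h3 hNN
        rwa [one_div_div] at h4
      calc (((sq L a).filter (fun t => 0 < dt s t ∧ (dt s t).toNat.Coprime W)).card : ℝ) *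
            (1 / ((NN W P).card : ℝ))
          ≤ (2 * (L : ℝ) ^ 2 * (W.totient : ℝ) / W) * (8 * W / (P * W.totient)) :=
            mul_le_mul h1 h2 (by positivity) (by positivity)
        _ = 16 * ((L : ℝ) ^ 2 / P) := by
            field_simp
            ring
        _ ≤ 16 * (4 * K / (J : ℝ) ^ 2) := mul_le_mul_of_nonneg_left hL3 (by norm_num)
        _ = 64 * K / (J : ℝ) ^ 2 := by ring
    calc _ ≤ 80 * C * K / (J : ℝ) ^ 2 + 64 * K / (J : ℝ) ^ 2 := add_le_add hA hB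
      _ = (80 * C * K + 64 * K) / (J : ℝ) ^ 2 := by ring

end Pool.Agent.Lib.MP_d57abb_nt.KT
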