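import Mathlib
import Pool.Agent.Lib.MP_d57abb_nt.KT.Defs

/-!
# JOB Geo: squares

`L = N / J + 1`, so `J L ≥ N + 1` (`Nat.div_add_mod`, `N % J < J`) and `J L ≥ N`, `L ≥ 1`.  For an integer vector `t` put `ix L t = (t.1 / L, t.2 / L)` (floor division).
`ix_mem`: for `t ∈ box N`: `0 ≤ t.i ≤ N < J L`, so `ix L t ∈ gr J` (`Int.ediv_nonneg`, `Int.ediv_lt_of_lt_mul`).
`mem_sq`: `t ∈ sq L (L * ix.1, L * ix.2)` (`Int.ediv_add_emod`-like: `L (t/L) ≤ t < L (t/L) + L`).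
`geo`: write `a = ix t`, `b = ix t'`, `x = t - L a`, `x' = t' - L b`, coordinates in `[0, L)`.  `dt t t' = L² dt a b + L dt a x' + L dt x b + dt x x'` (`ring`), `|dt a x'| ≤ J L` (both products are in `[0, (J-1)(L-1)]`), `|dt x b| ≤ J L`,
`|dt x x'| ≤ L²`, so `|dt t t'| ≥ L² |dt a b| - 2 J L² - L² ≥ L² (4 J + 1) - 2 J L² - L² ≥ J L²`... (`|dt a b| ≥ 4 J + 1`), hence `J |dt t t'| ≥ (J L)² ≥ N²`.
-/

open Finset

namespace Pool.Agent.Lib.MP_d57abb_nt.KT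

open Pool.Agent.Lib.MP_d57abb_nt

/-- the index of the square containing `t` -/
def ix (L : ℕ) (t : ℤ × ℤ) : ℤ × ℤ := (t.1 / (L : ℤ), t.2 / (L : ℤ))

theorem ix_mem (N J : ℕ) (hJ : 1 ≤ J) (t : ℤ × ℤ) (ht : t ∈ box N) : ix (N / J + 1) t ∈ gr J := by
  rw [mem_box] at ht
  obtain ⟨⟨⟨h1, h2⟩, h3, h4⟩, -⟩ := ht
  have hL : (0 : ℤ) < ((N / J + 1 : ℕ) : ℤ) := by positivity
  have hNL : (N : ℤ) < (J : ℤ) * ((N / J + 1 : ℕ) : ℤ) := by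
    have := Nat.lt_mul_div_succ N (show 0 < J by omega)
    exact_mod_cast this
  unfold gr ix
  rw [Finset.mem_product, Finset.mem_Ico, Finset.mem_Ico]
  refine ⟨⟨Int.ediv_nonneg h1 hL.le, Int.ediv_lt_of_lt_mul hL (by omega)⟩,
    Int.ediv_nonneg h3 hL.le, Int.ediv_lt_of_lt_mul hL (by omega)⟩

theorem mem_sq (L : ℕ) (hL : 1 ≤ L) (t : ℤ × ℤ) : t ∈ sq L ((L : ℤ) * (ix L t).1, (L : ℤ) * (ix L t).2) := by
  have hL' : (0 : ℤ) < (L : ℤ) := by exact_mod_cast hL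
  have h1 := Int.mul_ediv_add_emod t.1 (L : ℤ)
  have h2 := Int.mul_ediv_add_emod t.2 (L : ℤ)
  have h3 := Int.emod_nonneg t.1 hL'.ne'
  have h4 := Int.emod_nonneg t.2 hL'.ne'
  have h5 := Int.emod_lt_of_pos t.1 hL'
  have h6 := Int.emod_lt_of_pos t.2 hL'
  unfold sq ix
  rw [Finset.mem_product, Finset.mem_Ico, Finset.mem_Ico]
  simp only
  refine ⟨⟨by linarith, by linarith⟩, by linarith, by linarith⟩

/-- the difference of two products of numbers of an interval starting at zero -/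
private theorem geo_aux (A B a b c d : ℤ) (ha : 0 ≤ a ∧ a ≤ A) (hb : 0 ≤ b ∧ b ≤ B) (hc : 0 ≤ c ∧ c ≤ A)
    (hd : 0 ≤ d ∧ d ≤ B) : |a * b - c * d| ≤ A * B := by
  have h1 : a * b ≤ A * B := mul_le_mul ha.2 hb.2 hb.1 (ha.1.trans ha.2)
  have h2 : c * d ≤ A * B := mul_le_mul hc.2 hd.2 hd.1 (hc.1.trans hc.2)
  have h3 : 0 ≤ a * b := mul_nonneg ha.1 hb.1
  have h4 : 0 ≤ c * d := mul_nonneg hc.1 hd.1
  rw [abs_le]
  constructor <;> linarith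

theorem geo (N J : ℕ) (hJ : 1 ≤ J) (t t' : ℤ × ℤ) (ht : t ∈ box N) (ht' : t' ∈ box N)
    (h : ¬ (dt (ix (N / J + 1) t) (ix (N / J + 1) t')).natAbs ≤ 4 * J) :
    N ^ 2 ≤ J * (dt t t').natAbs := by
  have ha := ix_mem N J hJ t ht
  have hb := ix_mem N J hJ t' ht'
  have hx := mem_sq (N / J + 1) (Nat.le_add_left 1 _) t
  have hy := mem_sq (N / J + 1) (Nat.le_add_left 1 _) t'
  have hNL : (N : ℤ) < (J : ℤ) * ((N / J + 1 : ℕ) : ℤ) := by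
    have := Nat.lt_mul_div_succ N (show 0 < J by omega)
    exact_mod_cast this
  have hLpos : (1 : ℤ) ≤ ((N / J + 1 : ℕ) : ℤ) := by
    push_cast
    have : (0 : ℤ) ≤ (N : ℤ) / (J : ℤ) := by positivity
    linarith
  generalize ix (N / J + 1) t = a at *
  generalize ix (N / J + 1) t' = b at *
  generalize hLL : N / J + 1 = L at *
  have hJ' : (1 : ℤ) ≤ (J : ℤ) := by exact_mod_cast hJ
  unfold gr at ha hb
  unfold sq at hx hy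
  rw [Finset.mem_product, Finset.mem_Ico, Finset.mem_Ico] at ha hb hx hy
  simp only at hx hy
  have h4 : (4 * (J : ℤ) + 1) ≤ |dt a b| := by
    have : 4 * J + 1 ≤ (dt a b).natAbs := by omega
    rw [Int.abs_eq_natAbs]
    exact_mod_cast this
  -- the local coordinates
  obtain ⟨x, hxe⟩ : ∃ x : ℤ × ℤ, x = (t.1 - (L : ℤ) * a.1, t.2 - (L : ℤ) * a.2) := ⟨_, rfl⟩
  obtain ⟨y, hye⟩ : ∃ y : ℤ × ℤ, y = (t'.1 - (L : ℤ) * b.1, t'.2 - (L : ℤ) * b.2) := ⟨_, rfl⟩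
  have x1 : x.1 = t.1 - (L : ℤ) * a.1 := by rw [hxe]
  have x2 : x.2 = t.2 - (L : ℤ) * a.2 := by rw [hxe]
  have y1 : y.1 = t'.1 - (L : ℤ) * b.1 := by rw [hye]
  have y2 : y.2 = t'.2 - (L : ℤ) * b.2 := by rw [hye]
  have bx1 : 0 ≤ x.1 ∧ x.1 ≤ (L : ℤ) := by rw [x1]; constructor <;> linarith [hx.1.1, hx.1.2]
  have bx2 : 0 ≤ x.2 ∧ x.2 ≤ (L : ℤ) := by rw [x2]; constructor <;> linarith [hx.2.1, hx.2.2]
  have by1 : 0 ≤ y.1 ∧ y.1 ≤ (L : ℤ) := by rw [y1]; constructor <;> linarith [hy.1.1, hy.1.2]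
  have by2 : 0 ≤ y.2 ∧ y.2 ≤ (L : ℤ) := by rw [y2]; constructor <;> linarith [hy.2.1, hy.2.2]
  have ba1 : 0 ≤ a.1 ∧ a.1 ≤ (J : ℤ) := ⟨ha.1.1, ha.1.2.le⟩
  have ba2 : 0 ≤ a.2 ∧ a.2 ≤ (J : ℤ) := ⟨ha.2.1, ha.2.2.le⟩
  have bb1 : 0 ≤ b.1 ∧ b.1 ≤ (J : ℤ) := ⟨hb.1.1, hb.1.2.le⟩
  have bb2 : 0 ≤ b.2 ∧ b.2 ≤ (J : ℤ) := ⟨hb.2.1, hb.2.2.le⟩
  have hid : dt t t' = (L : ℤ) ^ 2 * dt a b + (L : ℤ) * (dt a y + dt x b) + dt x y := by
    have t1 : t.1 = x.1 + (L : ℤ) * a.1 := by rw [x1]; ring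
    have t2 : t.2 = x.2 + (L : ℤ) * a.2 := by rw [x2]; ring
    have t3 : t'.1 = y.1 + (L : ℤ) * b.1 := by rw [y1]; ring
    have t4 : t'.2 = y.2 + (L : ℤ) * b.2 := by rw [y2]; ring
    unfold dt
    rw [t1, t2, t3, t4]
    ring
  have e1 : |dt a y| ≤ (J : ℤ) * L := by
    unfold dt
    have := geo_aux (J : ℤ) (L : ℤ) a.1 y.2 a.2 y.1 ba1 by2 ba2 by1
    rwa [mul_comm y.1 a.2]
  have e2 : |dt x b| ≤ (J : ℤ) * L := by
    unfold dt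
    have := geo_aux (L : ℤ) (J : ℤ) x.1 b.2 x.2 b.1 bx1 bb2 bx2 bb1
    rw [mul_comm b.1 x.2, mul_comm (J : ℤ) L]
    exact this
  have e3 : |dt x y| ≤ (L : ℤ) * L := by
    unfold dt
    have := geo_aux (L : ℤ) (L : ℤ) x.1 y.2 x.2 y.1 bx1 by2 bx2 by1
    rwa [mul_comm y.1 x.2]
  have e4 : (L : ℤ) ^ 2 * |dt a b| ≤ |dt t t'| + (L : ℤ) * (|dt a y| + |dt x b|) + |dt x y| := by
    have : (L : ℤ) ^ 2 * dt a b = dt t t' - (L : ℤ) * (dt a y + dt x b) - dt x y := by rw [hid]; ring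
    have hLn : (0 : ℤ) ≤ (L : ℤ) := by linarith
    calc (L : ℤ) ^ 2 * |dt a b| = |(L : ℤ) ^ 2 * dt a b| := by
          rw [abs_mul, abs_of_nonneg (by positivity : (0 : ℤ) ≤ (L : ℤ) ^ 2)]
      _ = |dt t t' - (L : ℤ) * (dt a y + dt x b) - dt x y| := by rw [this]
      _ ≤ |dt t t' - (L : ℤ) * (dt a y + dt x b)| + |dt x y| := abs_sub _ _
      _ ≤ |dt t t'| + |(L : ℤ) * (dt a y + dt x b)| + |dt x y| := by
          have := abs_sub (dt t t') ((L : ℤ) * (dt a y + dt x b))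
          linarith
      _ ≤ |dt t t'| + (L : ℤ) * (|dt a y| + |dt x b|) + |dt x y| := by
          have h1 : |(L : ℤ) * (dt a y + dt x b)| ≤ (L : ℤ) * (|dt a y| + |dt x b|) := by
            rw [abs_mul, abs_of_nonneg hLn]
            exact mul_le_mul_of_nonneg_left (abs_add_le _ _) hLn
          linarith
  have e5 : (J : ℤ) * (L : ℤ) ^ 2 ≤ |dt t t'| := by
    have hLn : (0 : ℤ) ≤ (L : ℤ) := by linarith
    have h1 : (L : ℤ) ^ 2 * (4 * (J : ℤ) + 1) ≤ (L : ℤ) ^ 2 * |dt a b| :=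
      mul_le_mul_of_nonneg_left h4 (by positivity)
    have h2 : (L : ℤ) * (|dt a y| + |dt x b|) ≤ (L : ℤ) * (2 * ((J : ℤ) * L)) :=
      mul_le_mul_of_nonneg_left (by linarith) hLn
    have h3 : 0 ≤ (J : ℤ) * (L : ℤ) ^ 2 := by positivity
    nlinarith [h1, h2, h3, e3, e4]
  have e6 : (N : ℤ) ^ 2 ≤ (J : ℤ) * |dt t t'| := by
    have h1 : (N : ℤ) ^ 2 ≤ ((J : ℤ) * L) ^ 2 := by
      have : (0 : ℤ) ≤ (N : ℤ) := by positivity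
      exact pow_le_pow_left₀ this hNL.le 2
    have h2 : (J : ℤ) * ((J : ℤ) * (L : ℤ) ^ 2) ≤ (J : ℤ) * |dt t t'| :=
      mul_le_mul_of_nonneg_left e5 (by linarith)
    linarith [h1, h2, (by ring : ((J : ℤ) * L) ^ 2 = (J : ℤ) * ((J : ℤ) * (L : ℤ) ^ 2))]
  rw [Int.abs_eq_natAbs] at e6
  exact_mod_cast e6

end Pool.Agent.Lib.MP_d57abb_nt.KT
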