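import Mathlib
import Pool.Agent.Lib.MP_d57abb_nt.KT.GQ
import Pool.Agent.Lib.MP_d57abb_nt.KT.Bad
import Pool.Agent.Lib.MP_d57abb_nt.KT.Geo

/-!
# JOB BadS: the pairs of columns in bad pairs of squares

`L = N / J + 1`, `C₂` from `GQ_bound K`, `C₃ = 12000 C₂²`.  For a fixed `s ∈ Bx (J N)`: the sum over the pairs `(t, t')` of the product `|ff (dt s t)| |ff (dt s t')|`, grouped by `(a, b) = (ix L t, ix L t')` (a bad pair of `gr J × gr J`), is at most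
`∑_{(a, b) bad} (∑_{t ∈ sq L (L a)} |ff (dt s t)|) (∑_{t' ∈ sq L (L b)} |ff (dt s t')|) ≤ 60 J³ (C₂/J²)²` (`ix_mem`, `mem_sq`, `Finset.sum_fiberwise_of_maps_to`, `sum_le_sum_of_subset_of_nonneg`, `bad_count`, `GQ_bound`; `sq L (L a)` is
`sq L ((L : ℤ) * a.1, (L : ℤ) * a.2)`).  Multiply by `Ph N s` and sum: `≤ 200 N² · 60 J³ C₂²/J⁴ = 12000 C₂² N²/J`.
-/

open Finset

namespace Pool.Agent.Lib.MP_d57abb_nt.KT

open Pool.Agent.Lib.MP_d57abb_nt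

private theorem BadS_aux (J L : ℕ) (g : ℤ × ℤ → ℝ) (hg : ∀ t, 0 ≤ g t) (c : ℝ) (hc : 0 ≤ c) (hJ : 1 ≤ J)
    (hL : 1 ≤ L) (B : Finset (ℤ × ℤ)) (hB : ∀ t ∈ B, ix L t ∈ gr J)
    (hsum : ∀ a : ℤ × ℤ, ∑ t ∈ sq L a, g t ≤ c) :
    ∑ q ∈ (B ×ˢ B).filter (fun q => (dt (ix L q.1) (ix L q.2)).natAbs ≤ 4 * J), g q.1 * g q.2 ≤
      60 * (J : ℝ) ^ 3 * c ^ 2 := by
  classical
  set S := (B ×ˢ B).filter (fun q => (dt (ix L q.1) (ix L q.2)).natAbs ≤ 4 * J) with hS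
  set T := (gr J ×ˢ gr J).filter (fun q => (dt q.1 q.2).natAbs ≤ 4 * J) with hT
  have hmaps : ∀ q ∈ S, (fun q : (ℤ × ℤ) × (ℤ × ℤ) => (ix L q.1, ix L q.2)) q ∈ T := by
    intro q hq
    rw [hS, Finset.mem_filter, Finset.mem_product] at hq
    rw [hT, Finset.mem_filter, Finset.mem_product]
    exact ⟨⟨hB _ hq.1.1, hB _ hq.1.2⟩, hq.2⟩
  rw [← Finset.sum_fiberwise_of_maps_to hmaps]
  have h1 : ∀ v ∈ T, ∑ q ∈ S.filter (fun q => (fun q : (ℤ × ℤ) × (ℤ × ℤ) => (ix L q.1, ix L q.2)) q = v),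
      g q.1 * g q.2 ≤ c ^ 2 := by
    intro v hv
    have hsub : S.filter (fun q => (fun q : (ℤ × ℤ) × (ℤ × ℤ) => (ix L q.1, ix L q.2)) q = v) ⊆
        sq L ((L : ℤ) * v.1.1, (L : ℤ) * v.1.2) ×ˢ sq L ((L : ℤ) * v.2.1, (L : ℤ) * v.2.2) := by
      intro q hq
      rw [Finset.mem_filter] at hq
      obtain ⟨-, h⟩ := hq
      rw [Finset.mem_product, ← h]
      exact ⟨mem_sq L hL q.1, mem_sq L hL q.2⟩
    refine (Finset.sum_le_sum_of_subset_of_nonneg hsub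
      (fun q _ _ => mul_nonneg (hg _) (hg _))).trans ?_
    rw [Finset.sum_product, pow_two]
    have h2 : ∑ x ∈ sq L ((L : ℤ) * v.1.1, (L : ℤ) * v.1.2), ∑ y ∈ sq L ((L : ℤ) * v.2.1, (L : ℤ) * v.2.2),
        g (x, y).1 * g (x, y).2 =
        (∑ x ∈ sq L ((L : ℤ) * v.1.1, (L : ℤ) * v.1.2), g x) *
          ∑ y ∈ sq L ((L : ℤ) * v.2.1, (L : ℤ) * v.2.2), g y := by
      rw [Finset.sum_mul]
      refine Finset.sum_congr rfl (fun x _ => ?_)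
      rw [Finset.mul_sum]
    rw [h2]
    exact mul_le_mul (hsum _) (hsum _) (Finset.sum_nonneg (fun t _ => hg t)) hc
  refine (Finset.sum_le_sum h1).trans ?_
  rw [Finset.sum_const, nsmul_eq_mul]
  exact mul_le_mul_of_nonneg_right (bad_count J hJ) (by positivity)

theorem bad_pairs (K : ℕ) (hK : 1 ≤ K) : ∃ C₃ : ℝ, 0 < C₃ ∧ ∀ J : ℕ, 1 ≤ J → ∀ W : ℕ, 0 < W → 5 ∣ W → ∃ N₀ : ℕ, ∀ N : ℕ, N₀ ≤ N →
    ∀ P : ℕ, P ≤ N ^ 2 → N ^ 2 ≤ K * P →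
    ∑ s ∈ Bx (J * N), Ph N s * ∑ q ∈ (box N ×ˢ box N).filter
        (fun q => (dt (ix (N / J + 1) q.1) (ix (N / J + 1) q.2)).natAbs ≤ 4 * J),
      |ff W P (dt s q.1)| * |ff W P (dt s q.2)| ≤ C₃ * (N : ℝ) ^ 2 / J := by
  obtain ⟨C₂, hC₂, hG⟩ := GQ_bound K hK
  refine ⟨12000 * C₂ ^ 2, by positivity, fun J hJ W hW h5 => ?_⟩
  obtain ⟨N₀, hN₀⟩ := hG J hJ W hW h5
  refine ⟨max 1 N₀, fun N hN P hP1 hP2 => ?_⟩
  have hN1 : 1 ≤ N := (le_max_left _ _).trans hN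
  have hN2 : N₀ ≤ N := (le_max_right _ _).trans hN
  have hJ' : (0 : ℝ) < J := by exact_mod_cast hJ
  have h1 : ∀ s ∈ Bx (J * N), Ph N s * ∑ q ∈ (box N ×ˢ box N).filter
        (fun q => (dt (ix (N / J + 1) q.1) (ix (N / J + 1) q.2)).natAbs ≤ 4 * J),
      |ff W P (dt s q.1)| * |ff W P (dt s q.2)| ≤ Ph N s * (60 * (J : ℝ) ^ 3 * (C₂ / (J : ℝ) ^ 2) ^ 2) := by
    intro s hs
    refine mul_le_mul_of_nonneg_left ?_ (Ph_pos N s).le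
    exact BadS_aux J (N / J + 1) (fun t => |ff W P (dt s t)|) (fun t => abs_nonneg _) (C₂ / (J : ℝ) ^ 2)
      (by positivity) hJ (Nat.le_add_left 1 _) (box N) (fun t ht => ix_mem N J hJ t ht)
      (fun a => hN₀ N hN2 P hP1 hP2 a s hs)
  refine (Finset.sum_le_sum h1).trans ?_
  rw [← Finset.sum_mul]
  have h2 := mul_le_mul_of_nonneg_right (Ph_sum N (J * N) hN1)
    (show (0 : ℝ) ≤ 60 * (J : ℝ) ^ 3 * (C₂ / (J : ℝ) ^ 2) ^ 2 by positivity)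
  refine h2.trans (le_of_eq ?_)
  field_simp
  ring

end Pool.Agent.Lib.MP_d57abb_nt.KT
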