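import Mathlib
import Pool.Agent.Lib.MP_9c2ea5_nt.P4
import Pool.Agent.Lib.MP_00e05b_nt.QSum

/-!
# JOB CW: `(W/φ(W))²` is small compared with `w`

`W = primorial w`, `W/φ(W) = ∏_{p ≤ w} p/(p-1) = ∏ (1 + 1/(p-1)) ≤ exp (∑_{p ≤ w} 1/(p-1))` (`MP_9c2ea5_nt.div_totient_eq`; the prime factors of `primorial w` are the primes `≤ w`;
`Real.add_one_le_exp`).  By `mertens_ub'` in `Pool/Agent/Lib/MP_00e05b_nt/QSum.lean`: `∑_{p ≤ z} log p / (p - 1) ≤ 2 log z + 4`.  Let `z₀ = 3000` (`log z₀ ≥ 8`).  For `w ≥ z₀`: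
`∑_{p ≤ w} 1/(p-1) ≤ ∑_{p ≤ z₀} 1/(p-1) + (1/log z₀) ∑_{z₀ < p ≤ w} log p/(p-1) ≤ z₀ + (2 log w + 4)/8 ≤ z₀ + 1 + (1/4) log w`.  So `(W/φ(W))² ≤ exp (2 z₀ + 2) √w`, and `C √w ≤ η w` for `w ≥ (C/η)²`.
(Any number `z₀` with `log z₀ ≥ 8` is fine; `Real.exp_one_lt_d9` gives `exp 8 ≤ 2.7182818286^8 < 3000`.)
Also `primorial_facts`: a prime divides `primorial w` iff it is at most `w`; `primorial w > 0`; `5 ∣ primorial w` for `w ≥ 5`; `n` prime to `primorial w` and `1 < n` imply `w < n`.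
-/

open Finset

namespace Pool.Agent.Lib.MP_d57abb_nt.KT

theorem prime_dvd_primorial (w p : ℕ) (hp : p.Prime) : p ∣ primorial w ↔ p ≤ w :=
  hp.dvd_primorial_iff

theorem five_dvd_primorial (w : ℕ) (hw : 5 ≤ w) : 5 ∣ primorial w :=
  (prime_dvd_primorial w 5 (by norm_num)).mpr hw

private theorem CW_log : (8 : ℝ) ≤ Real.log 3000 := by
  rw [Real.le_log_iff_exp_le (by norm_num)]
  have h1 : Real.exp 8 = Real.exp 1 ^ 8 := by
    rw [← Real.exp_nat_mul]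
    norm_num
  rw [h1]
  calc Real.exp 1 ^ 8 ≤ (2.7182818286 : ℝ) ^ 8 :=
        pow_le_pow_left₀ (Real.exp_pos 1).le Real.exp_one_lt_d9.le 8
    _ ≤ 3000 := by norm_num

private theorem CW_sum (w : ℕ) (hw : 1 ≤ w) :
    ∑ p ∈ (Finset.Ioc 0 w).filter Nat.Prime, 1 / ((p : ℝ) - 1) ≤ 3001 + 1 / 4 * Real.log w := by
  have h1 := Pool.Agent.Lib.MP_00e05b_nt.mertens_ub' w hw
  have h2 : ∀ p ∈ (Finset.Ioc 0 w).filter Nat.Prime, 1 / ((p : ℝ) - 1) ≤
      (if p ≤ 3000 then (1 : ℝ) else 0) + 1 / 8 * (Real.log p / ((p : ℝ) - 1)) := by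
    intro p hp
    rw [Finset.mem_filter] at hp
    have hp2 : (2 : ℝ) ≤ p := by exact_mod_cast hp.2.two_le
    have hlog : 0 ≤ Real.log p := Real.log_natCast_nonneg p
    split_ifs with h
    · have h3 : 1 / ((p : ℝ) - 1) ≤ 1 := by
        rw [div_le_one (by linarith)]
        linarith
      have h4 : 0 ≤ 1 / 8 * (Real.log p / ((p : ℝ) - 1)) := by
        have : 0 ≤ Real.log p / ((p : ℝ) - 1) := div_nonneg hlog (by linarith)
        linarith
      linarith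
    · push Not at h
      have h3 : (3000 : ℝ) ≤ p := by exact_mod_cast h.le
      have h4 : (8 : ℝ) ≤ Real.log p := CW_log.trans (Real.log_le_log (by norm_num) h3)
      have h5 : 0 < (p : ℝ) - 1 := by linarith
      rw [zero_add, ← mul_div_assoc]
      exact div_le_div_of_nonneg_right (by linarith) h5.le
  have h3 : ∑ p ∈ (Finset.Ioc 0 w).filter Nat.Prime, (if p ≤ 3000 then (1 : ℝ) else 0) ≤ 3000 := by
    rw [← Finset.sum_filter, Finset.sum_const, nsmul_eq_mul, mul_one]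
    have h4 : (((Finset.Ioc 0 w).filter Nat.Prime).filter (fun p => p ≤ 3000)).card ≤
        (Finset.Ioc 0 3000).card := by
      apply Finset.card_le_card
      intro p hp
      rw [Finset.mem_filter, Finset.mem_filter, Finset.mem_Ioc] at hp
      rw [Finset.mem_Ioc]
      exact ⟨hp.1.1.1, hp.2⟩
    rw [Nat.card_Ioc] at h4
    exact_mod_cast h4
  calc ∑ p ∈ (Finset.Ioc 0 w).filter Nat.Prime, 1 / ((p : ℝ) - 1)
      ≤ ∑ p ∈ (Finset.Ioc 0 w).filter Nat.Prime,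
        ((if p ≤ 3000 then (1 : ℝ) else 0) + 1 / 8 * (Real.log p / ((p : ℝ) - 1))) :=
        Finset.sum_le_sum h2
    _ = ∑ p ∈ (Finset.Ioc 0 w).filter Nat.Prime, (if p ≤ 3000 then (1 : ℝ) else 0) +
        1 / 8 * ∑ p ∈ (Finset.Ioc 0 w).filter Nat.Prime, Real.log p / ((p : ℝ) - 1) := by
        rw [Finset.sum_add_distrib, ← Finset.mul_sum]
    _ ≤ 3000 + 1 / 8 * (2 * Real.log w + 4) := by linarith
    _ ≤ 3001 + 1 / 4 * Real.log w := by linarith

private theorem CW_pf (w : ℕ) : (primorial w).primeFactors = (Finset.Ioc 0 w).filter Nat.Prime := by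
  ext p
  rw [Nat.mem_primeFactors, Finset.mem_filter, Finset.mem_Ioc]
  constructor
  · rintro ⟨h1, h2, _⟩
    exact ⟨⟨h1.pos, (prime_dvd_primorial w p h1).mp h2⟩, h1⟩
  · rintro ⟨⟨_, h2⟩, h1⟩
    exact ⟨h1, (prime_dvd_primorial w p h1).mpr h2, (primorial_pos w).ne'⟩

private theorem CW_ratio (w : ℕ) (hw : 1 ≤ w) :
    (primorial w : ℝ) / ((primorial w).totient : ℝ) ≤ Real.exp (3001 + 1 / 4 * Real.log w) := by
  rw [Pool.Agent.Lib.MP_9c2ea5_nt.div_totient_eq (primorial_pos w), CW_pf]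
  calc ∏ p ∈ (Finset.Ioc 0 w).filter Nat.Prime, (p : ℝ) / ((p : ℝ) - 1)
      ≤ ∏ p ∈ (Finset.Ioc 0 w).filter Nat.Prime, Real.exp (1 / ((p : ℝ) - 1)) := by
        refine Finset.prod_le_prod (fun p hp => ?_) (fun p hp => ?_)
        · rw [Finset.mem_filter] at hp
          have hp2 : (2 : ℝ) ≤ p := by exact_mod_cast hp.2.two_le
          exact div_nonneg (by linarith) (by linarith)
        · rw [Finset.mem_filter] at hp
          have hp2 : (2 : ℝ) ≤ p := by exact_mod_cast hp.2.two_le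
          have h1 : (p : ℝ) / ((p : ℝ) - 1) = 1 / ((p : ℝ) - 1) + 1 := by
            have : (p : ℝ) - 1 ≠ 0 := by linarith
            field_simp
            ring
          rw [h1]
          exact Real.add_one_le_exp _
    _ = Real.exp (∑ p ∈ (Finset.Ioc 0 w).filter Nat.Prime, 1 / ((p : ℝ) - 1)) :=
        (Real.exp_sum _ _).symm
    _ ≤ _ := Real.exp_le_exp.mpr (CW_sum w hw)

theorem cw (η : ℝ) (hη : 0 < η) : ∃ w₀ : ℕ, ∀ w : ℕ, w₀ ≤ w →
    ((primorial w : ℝ) / ((primorial w).totient : ℝ)) ^ 2 ≤ η * w := by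
  refine ⟨max 1 ⌈(Real.exp 6002 / η) ^ 2⌉₊, fun w hw => ?_⟩
  have hw1 : 1 ≤ w := (le_max_left _ _).trans hw
  have hw2 : (Real.exp 6002 / η) ^ 2 ≤ (w : ℝ) :=
    Nat.ceil_le.mp ((le_max_right _ _).trans hw)
  have hwr : (1 : ℝ) ≤ w := by exact_mod_cast hw1
  have hw0 : (0 : ℝ) < w := by linarith
  have h1 := CW_ratio w hw1
  have h0 : 0 ≤ (primorial w : ℝ) / ((primorial w).totient : ℝ) := by positivity
  have h2 := pow_le_pow_left₀ h0 h1 2
  have h3 : Real.exp (3001 + 1 / 4 * Real.log w) ^ 2 = Real.exp 6002 * √w := by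
    rw [Real.sqrt_eq_rpow, Real.rpow_def_of_pos hw0, ← Real.exp_add, ← Real.exp_nat_mul]
    congr 1
    push_cast
    ring
  rw [h3] at h2
  have h4 : Real.exp 6002 / η ≤ √w := Real.le_sqrt_of_sq_le hw2
  rw [div_le_iff₀ hη] at h4
  calc ((primorial w : ℝ) / ((primorial w).totient : ℝ)) ^ 2 ≤ Real.exp 6002 * √w := h2
    _ ≤ (√w * η) * √w := mul_le_mul_of_nonneg_right h4 (Real.sqrt_nonneg _)
    _ = η * (√w * √w) := by ring
    _ = η * w := by rw [Real.mul_self_sqrt hw0.le]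

end Pool.Agent.Lib.MP_d57abb_nt.KT
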