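import Mathlib
import Pool.Agent.Lib.MP_d57abb_nt.KT.Defs

/-!
# JOB Cond: characters modulo `D` grouped by their conductor

For `χ` modulo `D` let `r = χ.conductor` (`DirichletCharacter.conductor_dvd_level`) and `ψ = χ.primitiveCharacter` (`DirichletCharacter.primitiveCharacter_isPrimitive`).
For a natural number `m`: `χ m = ψ m` if `m` is prime to `D`, else `χ m = 0` (copy `HH_val` in `Pool/Agent/Lib/MP_42948a_nt/BU/HH.lean`: `DirichletCharacter.primitiveCharacter_apply_of_isCoprime`,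
`χ.map_nonunit`, `ZMod.isUnit_iff_coprime`).  `D = r (D/r)`, so `m` is prime to `D` iff it is prime to `r` and to `D/r`, and `ψ m = 0` if `m` is not prime to `r`.  Hence
`SS P g χ = SC P g ψ (D / r)`.
The map `χ ↦ (r, ψ)` from `allc D` to the sigma type of the `(r, ψ)`, `r ∈ D.divisors`, `ψ ∈ prim r` is injective (`DirichletCharacter.changeLevel_primitiveCharacter`: `χ` is recovered from `(r, ψ)`;
or compare the values on units), so the sum over `χ` is at most the sum over the sigma type (`Finset.sum_sigma'`, `Finset.sum_le_sum_of_injOn`-like: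
`sum_image` + `sum_le_sum_of_subset_of_nonneg`).
-/

open Finset

namespace Pool.Agent.Lib.MP_d57abb_nt.KT

private theorem Cond_zero {n : ℕ} (χ : DirichletCharacter ℂ n) (m : ℕ) (h : ¬ m.Coprime n) :
    χ (m : ZMod n) = 0 :=
  χ.map_nonunit (by rwa [ZMod.isUnit_iff_coprime])

private theorem Cond_val {D : ℕ} (χ : DirichletCharacter ℂ D) (m : ℕ) (h : m.Coprime D) :
    χ.primitiveCharacter (m : ZMod χ.conductor) = χ (m : ZMod D) := by
  have h1 : IsCoprime (m : ℤ) (D : ℤ) := Nat.isCoprime_iff_coprime.mpr h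
  have h2 := χ.primitiveCharacter_apply_of_isCoprime h1
  push_cast at h2
  exact h2

private theorem Cond_SS {D : ℕ} (P : ℕ) (g : ℕ → ℝ) (χ : DirichletCharacter ℂ D) :
    SS P g χ = SC P g χ.primitiveCharacter (D / χ.conductor) := by
  unfold SS SC
  rw [Finset.sum_filter]
  refine Finset.sum_congr rfl fun m _ => ?_
  have hdvd : χ.conductor ∣ D := χ.conductor_dvd_level
  by_cases h : m.Coprime D
  · rw [if_pos (h.coprime_dvd_right (Nat.div_dvd_of_dvd hdvd)), Cond_val χ m h]
  · rw [Cond_zero χ m h, mul_zero]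
    split_ifs with h1
    · have h2 : ¬ m.Coprime χ.conductor := by
        intro h3
        apply h
        have h4 := Nat.Coprime.mul_right h3 h1
        rwa [Nat.mul_div_cancel' hdvd] at h4
      rw [Cond_zero χ.primitiveCharacter m h2, mul_zero]
    · rfl

open Classical in
/-- Recover the character from the pair (conductor, primitive character). -/
private noncomputable def Cond_inv (D : ℕ) (x : Σ r : ℕ, DirichletCharacter ℂ r) :
    DirichletCharacter ℂ D :=
  if h : x.1 ∣ D then DirichletCharacter.changeLevel h x.2 else 1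

private theorem Cond_inv_apply {D : ℕ} (χ : DirichletCharacter ℂ D) :
    Cond_inv D ⟨χ.conductor, χ.primitiveCharacter⟩ = χ := by
  unfold Cond_inv
  rw [dif_pos χ.conductor_dvd_level]
  exact χ.changeLevel_primitiveCharacter

theorem cond_le (D : ℕ) (hD : 0 < D) (P : ℕ) (g : ℕ → ℝ) :
    ∑ χ ∈ allc D, ‖SS P g χ‖ ^ 4 ≤ ∑ r ∈ D.divisors, ∑ ψ ∈ prim r, ‖SC P g ψ (D / r)‖ ^ 4 := by
  classical
  have h1 : ∑ r ∈ D.divisors, ∑ ψ ∈ prim r, ‖SC P g ψ (D / r)‖ ^ 4 =
      ∑ x ∈ D.divisors.sigma (fun r => prim r), ‖SC P g x.2 (D / x.1)‖ ^ 4 := by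
    rw [Finset.sum_sigma]
  rw [h1]
  have hinj : Set.InjOn
      (fun χ : DirichletCharacter ℂ D =>
        (⟨χ.conductor, χ.primitiveCharacter⟩ : Σ r : ℕ, DirichletCharacter ℂ r))
      (allc D : Set (DirichletCharacter ℂ D)) := by
    intro χ _ χ' _ heq
    have h2 := congrArg (Cond_inv D) heq
    simp only [Cond_inv_apply] at h2
    exact h2
  have h3 : ∑ χ ∈ allc D, ‖SS P g χ‖ ^ 4 =
      ∑ x ∈ (allc D).image (fun χ : DirichletCharacter ℂ D =>
        (⟨χ.conductor, χ.primitiveCharacter⟩ : Σ r : ℕ, DirichletCharacter ℂ r)),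
        ‖SC P g x.2 (D / x.1)‖ ^ 4 := by
    rw [Finset.sum_image hinj]
    refine Finset.sum_congr rfl fun χ _ => ?_
    rw [Cond_SS P g χ]
  rw [h3]
  refine Finset.sum_le_sum_of_subset_of_nonneg ?_ fun _ _ _ => by positivity
  intro x hx
  rw [Finset.mem_image] at hx
  obtain ⟨χ, _, rfl⟩ := hx
  have hdvd : χ.conductor ∣ D := χ.conductor_dvd_level
  rw [Finset.mem_sigma]
  refine ⟨Nat.mem_divisors.mpr ⟨hdvd, hD.ne'⟩, ?_⟩
  exact (mem_prim (Nat.pos_of_dvd_of_pos hdvd hD) _).mpr χ.primitiveCharacter_isPrimitive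

end Pool.Agent.Lib.MP_d57abb_nt.KT
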