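import Mathlib
import Pool.Agent.Lib.MP_d57abb_nt.KT.Defs

/-!
# JOB En: multiplicative energy of `[1, P]` and fourth moments

`energy`: let `m₁ m₂ = m₃ m₄` with all `m_i ∈ [1, P]`.  Put `x = gcd (m₁, m₃)`, `a = m₁ / x`, `b = m₃ / x`; then `a m₂ = b m₄`, `a, b` coprime, so `b ∣ m₂`; `y = m₂ / b`, and
`m₁ = a x, m₃ = b x, m₂ = b y, m₄ = a y`.  So `(m₁, m₂, m₃, m₄) ↦ (a, b, x, y)` is injective, with `a, b ∈ [1, P]`, `x, y ≤ P / max a b` (integer division: `a x ≤ P`, `b x ≤ P`, `b y ≤ P`, `a y ≤ P`).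
The number is `≤ ∑_{a, b ∈ [1, P]} (P / max a b)² ≤ ∑_{h = 1}^P 2 h (P/h)² = 2 P² ∑_{h ≤ P} 1/h ≤ 2 P² (1 + log P)` (for each `h` there are `2 h - 1 ≤ 2 h` pairs with maximum `h`;
`harmonic_le_one_add_log`, see `sum_inv_totient_le` in `Pool/Agent/Lib/MP_9c2ea5_nt/P4.lean` for the conversion).
(Or: sum over `(a, b)` with `a ≤ b` and with `b ≤ a`.)
`energy_sq`: let `c n = ∑_{m₁ m₂ = n, m_i ∈ A} g m₁ g m₂` for a set `A ⊆ [1, P]`, `|g| ≤ M` on `[1, P]`: `∑_{n ≤ P²} |c n|² ≤ M⁴ #{(m₁, m₂, m₃, m₄) : m₁ m₂ = m₃ m₄} ≤ M⁴ 2 P² (1 + log P)`: expand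
the square (`|c n| ≤ M² #{(m₁, m₂) : m₁ m₂ = n}`, `∑_n #{..}² = ` the number of quadruples).
-/

open Finset

namespace Pool.Agent.Lib.MP_d57abb_nt.KT

private theorem En_sub (P : ℕ) :
    ((Icc 1 P ×ˢ Icc 1 P) ×ˢ (Icc 1 P ×ˢ Icc 1 P)).filter
      (fun q : (ℕ × ℕ) × (ℕ × ℕ) => q.1.1 * q.1.2 = q.2.1 * q.2.2) ⊆
    ((Icc 1 P ×ˢ Icc 1 P).sigma (fun ab => Icc 1 (P / max ab.1 ab.2) ×ˢ
      Icc 1 (P / max ab.1 ab.2))).image
      (fun t : (Σ _ : ℕ × ℕ, ℕ × ℕ) =>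
        ((t.1.1 * t.2.1, t.1.2 * t.2.2), (t.1.2 * t.2.1, t.1.1 * t.2.2))) := by
  rintro ⟨⟨m1, m2⟩, ⟨m3, m4⟩⟩ hq
  rw [mem_filter, mem_product, mem_product, mem_product] at hq
  simp only [mem_Icc] at hq
  obtain ⟨⟨⟨h1, h2⟩, ⟨h3, h4⟩⟩, he⟩ := hq
  have hx : 0 < Nat.gcd m1 m3 := Nat.gcd_pos_of_pos_left _ h1.1
  obtain ⟨a, b, hab, ha, hb⟩ := Nat.exists_coprime m1 m3
  obtain ⟨x, hx'⟩ : ∃ x, x = Nat.gcd m1 m3 := ⟨_, rfl⟩
  rw [← hx'] at hx ha hb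
  have ha0 : 0 < a := by
    rcases Nat.eq_zero_or_pos a with h | h
    · rw [h, zero_mul] at ha
      omega
    · exact h
  have hb0 : 0 < b := by
    rcases Nat.eq_zero_or_pos b with h | h
    · rw [h, zero_mul] at hb
      omega
    · exact h
  have h5 : a * m2 = b * m4 := by
    have h6 : x * (a * m2) = x * (b * m4) := by
      calc x * (a * m2) = a * x * m2 := by ring
        _ = m1 * m2 := by rw [← ha]
        _ = m3 * m4 := he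
        _ = b * x * m4 := by rw [← hb]
        _ = x * (b * m4) := by ring
    exact Nat.eq_of_mul_eq_mul_left hx h6
  have h6 : b ∣ m2 := hab.symm.dvd_of_dvd_mul_left (h5 ▸ dvd_mul_right b m4)
  obtain ⟨y, hy⟩ := h6
  have h7 : m4 = a * y := by
    rw [hy] at h5
    have h8 : b * m4 = b * (a * y) := by rw [← h5]; ring
    exact Nat.eq_of_mul_eq_mul_left hb0 h8
  have hy0 : 0 < y := by
    rcases Nat.eq_zero_or_pos y with h | h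
    · rw [h, mul_zero] at hy
      omega
    · exact h
  have hmx : max a b * x ≤ P := by
    rcases le_total a b with h | h
    · rw [max_eq_right h, ← hb]
      exact h3.2
    · rw [max_eq_left h, ← ha]
      exact h1.2
  have hmy : max a b * y ≤ P := by
    rcases le_total a b with h | h
    · rw [max_eq_right h, ← hy]
      exact h2.2
    · rw [max_eq_left h, ← h7]
      exact h4.2
  have hm0 : 0 < max a b := lt_max_of_lt_left ha0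
  have hmP : max a b ≤ P := (Nat.le_mul_of_pos_right _ hx).trans hmx
  rw [mem_image]
  refine ⟨⟨(a, b), (x, y)⟩, ?_, ?_⟩
  · rw [mem_sigma, mem_product, mem_product, mem_Icc, mem_Icc, mem_Icc, mem_Icc]
    refine ⟨⟨⟨ha0, (le_max_left a b).trans hmP⟩, ⟨hb0, (le_max_right a b).trans hmP⟩⟩,
      ⟨hx, ?_⟩, ⟨hy0, ?_⟩⟩
    · rw [Nat.le_div_iff_mul_le hm0, mul_comm]
      exact hmx
    · rw [Nat.le_div_iff_mul_le hm0, mul_comm]
      exact hmy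
  · simp only
    rw [← ha, ← hb, ← hy, ← h7]

private theorem En_row (P : ℕ) :
    ∑ a ∈ Icc 1 P, (a : ℝ) * (((P / a : ℕ) : ℝ)) ^ 2 ≤ (P : ℝ) ^ 2 * (1 + Real.log P) := by
  have h1 : ∑ a ∈ Icc 1 P, (a : ℝ) * (((P / a : ℕ) : ℝ)) ^ 2 ≤
      ∑ a ∈ Icc 1 P, (P : ℝ) ^ 2 * ((a : ℝ))⁻¹ := by
    refine sum_le_sum fun a ha => ?_
    rw [mem_Icc] at ha
    have ha0 : (0 : ℝ) < a := by exact_mod_cast ha.1
    have h2 : (((P / a : ℕ) : ℝ)) ≤ (P : ℝ) / a := Nat.cast_div_le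
    have h3 : (((P / a : ℕ) : ℝ)) ^ 2 ≤ ((P : ℝ) / a) ^ 2 :=
      pow_le_pow_left₀ (Nat.cast_nonneg _) h2 2
    calc (a : ℝ) * (((P / a : ℕ) : ℝ)) ^ 2 ≤ a * ((P : ℝ) / a) ^ 2 :=
          mul_le_mul_of_nonneg_left h3 ha0.le
      _ = (P : ℝ) ^ 2 * ((a : ℝ))⁻¹ := by field_simp
  refine h1.trans ?_
  rw [← mul_sum]
  refine mul_le_mul_of_nonneg_left ?_ (by positivity)
  have h2 := harmonic_le_one_add_log P
  rw [harmonic_eq_sum_Icc] at h2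
  push_cast at h2
  exact h2

private theorem En_tot (P : ℕ) :
    ∑ ab ∈ Icc 1 P ×ˢ Icc 1 P, (((P / max ab.1 ab.2 : ℕ) : ℝ)) ^ 2 ≤
      2 * ((P : ℝ) ^ 2 * (1 + Real.log P)) := by
  have h1 : ∀ ab ∈ Icc 1 P ×ˢ Icc 1 P, (((P / max ab.1 ab.2 : ℕ) : ℝ)) ^ 2 ≤
      (if ab.2 ≤ ab.1 then (((P / ab.1 : ℕ) : ℝ)) ^ 2 else 0) +
        (if ab.1 ≤ ab.2 then (((P / ab.2 : ℕ) : ℝ)) ^ 2 else 0) := by
    rintro ⟨a, b⟩ _
    simp only
    rcases le_total a b with h | h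
    · rw [max_eq_right h, if_pos h]
      have : (0 : ℝ) ≤ (if b ≤ a then (((P / a : ℕ) : ℝ)) ^ 2 else 0) := by
        split_ifs
        · positivity
        · exact le_rfl
      linarith
    · rw [max_eq_left h, if_pos h]
      have : (0 : ℝ) ≤ (if a ≤ b then (((P / b : ℕ) : ℝ)) ^ 2 else 0) := by
        split_ifs
        · positivity
        · exact le_rfl
      linarith
  refine (sum_le_sum h1).trans ?_
  rw [sum_add_distrib]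
  have h2 : ∑ ab ∈ Icc 1 P ×ˢ Icc 1 P, (if ab.2 ≤ ab.1 then (((P / ab.1 : ℕ) : ℝ)) ^ 2 else 0) ≤
      ∑ a ∈ Icc 1 P, (a : ℝ) * (((P / a : ℕ) : ℝ)) ^ 2 := by
    rw [sum_product]
    refine sum_le_sum fun a _ => ?_
    simp only
    rw [← sum_filter, sum_const, nsmul_eq_mul]
    refine mul_le_mul_of_nonneg_right ?_ (by positivity)
    have h3 : ((Icc 1 P).filter (fun b => b ≤ a)).card ≤ (Icc 1 a).card := by
      refine card_le_card fun b hb => ?_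
      rw [mem_filter, mem_Icc] at hb
      exact mem_Icc.2 ⟨hb.1.1, hb.2⟩
    rw [Nat.card_Icc, Nat.add_sub_cancel] at h3
    exact_mod_cast h3
  have h3 : ∑ ab ∈ Icc 1 P ×ˢ Icc 1 P, (if ab.1 ≤ ab.2 then (((P / ab.2 : ℕ) : ℝ)) ^ 2 else 0) ≤
      ∑ a ∈ Icc 1 P, (a : ℝ) * (((P / a : ℕ) : ℝ)) ^ 2 := by
    rw [sum_product_right]
    refine sum_le_sum fun a _ => ?_
    simp only
    rw [← sum_filter, sum_const, nsmul_eq_mul]
    refine mul_le_mul_of_nonneg_right ?_ (by positivity)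
    have h3 : ((Icc 1 P).filter (fun b => b ≤ a)).card ≤ (Icc 1 a).card := by
      refine card_le_card fun b hb => ?_
      rw [mem_filter, mem_Icc] at hb
      exact mem_Icc.2 ⟨hb.1.1, hb.2⟩
    rw [Nat.card_Icc, Nat.add_sub_cancel] at h3
    exact_mod_cast h3
  have h4 := En_row P
  linarith

theorem energy (P : ℕ) :
    ((((Icc 1 P ×ˢ Icc 1 P) ×ˢ (Icc 1 P ×ˢ Icc 1 P)).filter
      (fun q : (ℕ × ℕ) × (ℕ × ℕ) => q.1.1 * q.1.2 = q.2.1 * q.2.2)).card : ℝ) ≤ 2 * (P : ℝ) ^ 2 * (1 + Real.log P) := by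
  have h1 := (card_le_card (En_sub P)).trans card_image_le
  rw [card_sigma] at h1
  have h2 : ((∑ ab ∈ Icc 1 P ×ˢ Icc 1 P,
      (Icc 1 (P / max ab.1 ab.2) ×ˢ Icc 1 (P / max ab.1 ab.2)).card : ℕ) : ℝ) =
      ∑ ab ∈ Icc 1 P ×ˢ Icc 1 P, (((P / max ab.1 ab.2 : ℕ) : ℝ)) ^ 2 := by
    rw [Nat.cast_sum]
    refine sum_congr rfl fun ab _ => ?_
    rw [card_product, Nat.card_Icc, Nat.add_sub_cancel, Nat.cast_mul, pow_two]
  have h3 := En_tot P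
  rw [← h2] at h3
  have h4 : ((((Icc 1 P ×ˢ Icc 1 P) ×ˢ (Icc 1 P ×ˢ Icc 1 P)).filter
      (fun q : (ℕ × ℕ) × (ℕ × ℕ) => q.1.1 * q.1.2 = q.2.1 * q.2.2)).card : ℝ) ≤
      ((∑ ab ∈ Icc 1 P ×ˢ Icc 1 P,
      (Icc 1 (P / max ab.1 ab.2) ×ˢ Icc 1 (P / max ab.1 ab.2)).card : ℕ) : ℝ) := by
    exact_mod_cast h1
  linarith

private theorem En_fib (P : ℕ) :
    ∑ n ∈ range (P ^ 2 + 1), (((((Icc 1 P ×ˢ Icc 1 P).filter
      (fun q : ℕ × ℕ => q.1 * q.2 = n)).card : ℕ) : ℝ)) ^ 2 =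
    ((((Icc 1 P ×ˢ Icc 1 P) ×ˢ (Icc 1 P ×ˢ Icc 1 P)).filter
      (fun q : (ℕ × ℕ) × (ℕ × ℕ) => q.1.1 * q.1.2 = q.2.1 * q.2.2)).card : ℝ) := by
  have h1 := card_eq_sum_card_fiberwise
    (s := ((Icc 1 P ×ˢ Icc 1 P) ×ˢ (Icc 1 P ×ˢ Icc 1 P)).filter
      (fun q : (ℕ × ℕ) × (ℕ × ℕ) => q.1.1 * q.1.2 = q.2.1 * q.2.2))
    (t := range (P ^ 2 + 1)) (f := fun q => q.1.1 * q.1.2) (by
      intro q hq
      rw [mem_coe, mem_filter, mem_product, mem_product, mem_Icc, mem_Icc] at hq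
      rw [mem_coe, mem_range]
      have h2 : q.1.1 * q.1.2 ≤ P * P := Nat.mul_le_mul hq.1.1.1.2 hq.1.1.2.2
      rw [pow_two]
      exact Nat.lt_succ_of_le h2)
  rw [h1, Nat.cast_sum]
  refine sum_congr rfl fun n _ => ?_
  have h2 : ((((Icc 1 P ×ˢ Icc 1 P) ×ˢ (Icc 1 P ×ˢ Icc 1 P)).filter
      (fun q : (ℕ × ℕ) × (ℕ × ℕ) => q.1.1 * q.1.2 = q.2.1 * q.2.2)).filter
        (fun q => q.1.1 * q.1.2 = n)) =
      ((Icc 1 P ×ˢ Icc 1 P).filter (fun q : ℕ × ℕ => q.1 * q.2 = n)) ×ˢ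
        ((Icc 1 P ×ˢ Icc 1 P).filter (fun q : ℕ × ℕ => q.1 * q.2 = n)) := by
    ext q
    constructor
    · intro h3
      obtain ⟨h3, h6⟩ := mem_filter.1 h3
      obtain ⟨h3, h5⟩ := mem_filter.1 h3
      obtain ⟨h3, h4⟩ := mem_product.1 h3
      exact mem_product.2 ⟨mem_filter.2 ⟨h3, h6⟩, mem_filter.2 ⟨h4, h5.symm.trans h6⟩⟩
    · intro h3
      obtain ⟨h3, h4⟩ := mem_product.1 h3
      obtain ⟨h3, h5⟩ := mem_filter.1 h3
      obtain ⟨h4, h6⟩ := mem_filter.1 h4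
      exact mem_filter.2 ⟨mem_filter.2 ⟨mem_product.2 ⟨h3, h4⟩, h5.trans h6.symm⟩, h5⟩
  rw [h2, card_product, Nat.cast_mul, pow_two]

theorem energy_sq (P : ℕ) (A : Finset ℕ) (hA : A ⊆ Icc 1 P) (g : ℕ → ℝ) (M : ℝ) (hM : ∀ m ∈ Icc 1 P, |g m| ≤ M) :
    ∑ n ∈ range (P ^ 2 + 1), ‖((∑ q ∈ (A ×ˢ A).filter (fun q : ℕ × ℕ => q.1 * q.2 = n), g q.1 * g q.2 : ℝ) : ℂ)‖ ^ 2 ≤
      M ^ 4 * (2 * (P : ℝ) ^ 2 * (1 + Real.log P)) := by
  have h1 : ∀ n ∈ range (P ^ 2 + 1),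
      ‖((∑ q ∈ (A ×ˢ A).filter (fun q : ℕ × ℕ => q.1 * q.2 = n), g q.1 * g q.2 : ℝ) : ℂ)‖ ^ 2 ≤
      M ^ 4 * (((((Icc 1 P ×ˢ Icc 1 P).filter
        (fun q : ℕ × ℕ => q.1 * q.2 = n)).card : ℕ) : ℝ)) ^ 2 := by
    intro n _
    rw [Complex.norm_real, Real.norm_eq_abs]
    have h2 : |∑ q ∈ (A ×ˢ A).filter (fun q : ℕ × ℕ => q.1 * q.2 = n), g q.1 * g q.2| ≤
        ∑ q ∈ (Icc 1 P ×ˢ Icc 1 P).filter (fun q : ℕ × ℕ => q.1 * q.2 = n), M ^ 2 := by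
      refine (abs_sum_le_sum_abs _ _).trans ?_
      have hsub : (A ×ˢ A).filter (fun q : ℕ × ℕ => q.1 * q.2 = n) ⊆
          (Icc 1 P ×ˢ Icc 1 P).filter (fun q : ℕ × ℕ => q.1 * q.2 = n) :=
        filter_subset_filter _ (product_subset_product hA hA)
      refine (sum_le_sum_of_subset_of_nonneg hsub fun q _ _ => abs_nonneg _).trans ?_
      refine sum_le_sum fun q hq => ?_
      rw [mem_filter, mem_product] at hq
      rw [abs_mul, pow_two]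
      exact mul_le_mul (hM _ hq.1.1) (hM _ hq.1.2) (abs_nonneg _)
        ((abs_nonneg _).trans (hM _ hq.1.1))
    rw [sum_const, nsmul_eq_mul] at h2
    calc |∑ q ∈ (A ×ˢ A).filter (fun q : ℕ × ℕ => q.1 * q.2 = n), g q.1 * g q.2| ^ 2 ≤
        (((((Icc 1 P ×ˢ Icc 1 P).filter (fun q : ℕ × ℕ => q.1 * q.2 = n)).card : ℕ) : ℝ) *
          M ^ 2) ^ 2 := pow_le_pow_left₀ (abs_nonneg _) h2 2
      _ = _ := by ring
  refine (sum_le_sum h1).trans ?_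
  rw [← mul_sum, En_fib]
  exact mul_le_mul_of_nonneg_left (energy P) (by positivity)

end Pool.Agent.Lib.MP_d57abb_nt.KT
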