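import Mathlib
import Pool.Agent.Lib.MP_d57abb_nt.KT.Defs
import Pool.Agent.Lib.MP_42948a_nt.OM.B3
import Pool.Agent.Lib.MP_2a816b_nt.Farey

/-!
# JOB MLa: primitive characters and additive characters

Let `r ≥ 1`, `ψ` primitive modulo `r`, `τ = ∑_{b : ZMod r} ψ⁻¹(b) stdAddChar b` (a Gauss sum, `gaussSum ψ⁻¹ ZMod.stdAddChar`).  Mathlib
(`Mathlib/NumberTheory/DirichletCharacter/GaussSum.lean`): `gaussSum_mulShift_of_isPrimitive`: `∑_b ψ⁻¹(b) stdAddChar (a b) = ψ(a) τ` for ALL `a : ZMod r` (`ψ⁻¹` is primitive as well).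
(1) `‖τ‖² = r`: sum `‖∑_b ψ⁻¹(b) stdAddChar (a b)‖² = ‖ψ a‖² ‖τ‖²` over all `a : ZMod r`: the left side is `r ∑_b ‖ψ⁻¹ b‖² = r φ(r)` by `OM.B2_parseval` (in
`Pool/Agent/Lib/MP_42948a_nt/OM/B2.lean`), the right side is `φ(r) ‖τ‖²` (`‖ψ a‖ = 1` on units, `0` otherwise; the number of units is `φ(r)`: `ZMod.card_units_eq_totient`).
(2) With `S a = ∑_{n < N} c n stdAddChar (a n)`: `τ ∑_n c n ψ(n) = ∑_n c n ∑_b ψ⁻¹(b) stdAddChar (b n) = ∑_b ψ⁻¹(b) S b`, so `r ‖∑_n c n ψ n‖² = ‖∑_b ψ⁻¹(b) S b‖²`.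
(3) Sum over ALL characters `ψ` modulo `r` (for the ones that are not primitive the left side is dropped): `∑_ψ ‖∑_{b} ψ⁻¹(b) S b‖² = φ(r) ∑_{b unit} ‖S b‖²` (orthogonality; use
`OM.parseval_char`/`parseval_class` in `OM/A1.lean`: `∑_χ ‖∑_{i ∈ S} c i χ (x i)‖² = φ(d) ∑_b ‖cw S x c b‖²` with `S` the set of units, `x = id`, after replacing `ψ` by `ψ⁻¹`).
(4) The units of `ZMod r` correspond to `b ∈ Cop r` (`Cop r` is defined in `MP_2a816b_nt/Ramanujan.lean`: the `b < r` prime to `r`) and `stdAddChar (b n) = e (n b / r)`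
(`ZMod.stdAddChar_apply`/`ZMod.stdAddChar_coe`, `e x = exp (2 π x I)`; see the lemma `ps_natCast` in `MP_2a816b_nt` and `sum_range_zmod` in `Basic0.lean` for similar conversions).
-/

open Finset

namespace Pool.Agent.Lib.MP_d57abb_nt.KT

open Pool.Agent.Lib.MP_2a816b_nt (e Cop)

theorem sum_units {M : Type*} [AddCommMonoid M] (r : ℕ) [NeZero r] (g : ZMod r → M)
    (hg : ∀ b : ZMod r, ¬IsUnit b → g b = 0) : ∑ u : (ZMod r)ˣ, g (u : ZMod r) = ∑ b : ZMod r, g b := by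
  refine Fintype.sum_of_injective (fun u : (ZMod r)ˣ => (u : ZMod r)) Units.val_injective _ g ?_ (fun _ => rfl)
  intro b hb
  refine hg b fun h => hb ?_
  obtain ⟨u, hu⟩ := h
  exact ⟨u, hu⟩

theorem sum_norm_char (r : ℕ) [NeZero r] (ψ : DirichletCharacter ℂ r) :
    ∑ a : ZMod r, ‖ψ a‖ ^ 2 = (Fintype.card (ZMod r)ˣ : ℝ) := by
  rw [← sum_units r (fun a => ‖ψ a‖ ^ 2) (fun b hb => by rw [MulChar.map_nonunit _ hb]; simp)]
  simp only [Pool.Agent.Lib.MP_42948a_nt.OM.norm_char_unit]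
  simp

/-- the square of the absolute value of the Gauss sum of a primitive character -/
theorem gs_norm (r : ℕ) [NeZero r] (ψ : DirichletCharacter ℂ r) (hψ : ψ.IsPrimitive) :
    ‖gaussSum ψ (ZMod.stdAddChar : AddChar (ZMod r) ℂ)‖ ^ 2 = (r : ℝ) := by
  have h1 := Pool.Agent.Lib.MP_42948a_nt.OM.B2_parseval r (fun h => ψ h)
  have h2 : ∀ t : ZMod r, ∑ h : ZMod r, ψ h * ZMod.stdAddChar (t * h) =
      ψ⁻¹ t * gaussSum ψ (ZMod.stdAddChar : AddChar (ZMod r) ℂ) := by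
    intro t
    rw [← gaussSum_mulShift_of_isPrimitive _ hψ t]
    unfold gaussSum
    simp only [AddChar.mulShift_apply]
  simp only [h2, norm_mul, mul_pow] at h1
  rw [← Finset.sum_mul, sum_norm_char, sum_norm_char] at h1
  have h3 : (0 : ℝ) < (Fintype.card (ZMod r)ˣ : ℝ) := by
    exact_mod_cast Fintype.card_pos
  have h4 : (Fintype.card (ZMod r)ˣ : ℝ) * ‖gaussSum ψ (ZMod.stdAddChar : AddChar (ZMod r) ℂ)‖ ^ 2 =
      (Fintype.card (ZMod r)ˣ : ℝ) * r := by rw [h1]; ring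
  exact mul_left_cancel₀ h3.ne' h4

/-- the additive character sum -/
noncomputable def Sa (r : ℕ) [NeZero r] (N : ℕ) (c : ℕ → ℂ) (b : ZMod r) : ℂ :=
  ∑ n ∈ range N, c n * ZMod.stdAddChar ((n : ZMod r) * b)

theorem sum_char_Sa (r : ℕ) [NeZero r] (N : ℕ) (c : ℕ → ℂ) (ψ : DirichletCharacter ℂ r) (hψ : ψ.IsPrimitive) :
    ∑ b : ZMod r, ψ b * Sa r N c b =
      (∑ n ∈ range N, c n * ψ⁻¹ (n : ZMod r)) * gaussSum ψ (ZMod.stdAddChar : AddChar (ZMod r) ℂ) := by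
  unfold Sa
  simp only [Finset.mul_sum]
  rw [Finset.sum_comm, Finset.sum_mul]
  refine Finset.sum_congr rfl fun n _ => ?_
  rw [mul_assoc, ← gaussSum_mulShift_of_isPrimitive _ hψ (n : ZMod r)]
  unfold gaussSum
  simp only [AddChar.mulShift_apply]
  rw [Finset.mul_sum]
  refine Finset.sum_congr rfl fun b _ => ?_
  ring

theorem sum_Cop (r : ℕ) [NeZero r] (N : ℕ) (c : ℕ → ℂ) :
    ∑ b ∈ Cop r, ‖∑ n ∈ range N, c n * e (n * ((b : ℝ) / r))‖ ^ 2 = ∑ u : (ZMod r)ˣ, ‖Sa r N c (u : ZMod r)‖ ^ 2 := by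
  classical
  have h1 : ∑ u : (ZMod r)ˣ, ‖Sa r N c (u : ZMod r)‖ ^ 2 =
      ∑ u : (ZMod r)ˣ, (if IsUnit (u : ZMod r) then ‖Sa r N c (u : ZMod r)‖ ^ 2 else 0) := by
    refine Finset.sum_congr rfl fun u _ => ?_
    rw [if_pos u.isUnit]
  rw [h1, sum_units r (fun b => if IsUnit b then ‖Sa r N c b‖ ^ 2 else 0) (fun b hb => if_neg hb),
    ← Pool.Agent.Lib.MP_2a816b_nt.sum_range_zmod r (fun b => if IsUnit b then ‖Sa r N c b‖ ^ 2 else 0)]
  unfold Cop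
  rw [Finset.sum_filter]
  refine Finset.sum_congr rfl fun b _ => ?_
  simp only [ZMod.isUnit_iff_coprime]
  split_ifs
  · unfold Sa
    congr 2
    refine Finset.sum_congr rfl fun n _ => ?_
    have h2 := Pool.Agent.Lib.MP_2a816b_nt.ps_natCast r (n * b)
    unfold Pool.Agent.Lib.MP_2a816b_nt.ps at h2
    rw [Nat.cast_mul] at h2
    rw [h2]
    congr 2
    push_cast
    ring
  · rfl

theorem ml_one (r : ℕ) (hr : 0 < r) (N : ℕ) (c : ℕ → ℂ) :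
    (r : ℝ) / (r.totient : ℝ) * ∑ ψ ∈ prim r, ‖∑ n ∈ range N, c n * ψ (n : ZMod r)‖ ^ 2 ≤
      ∑ b ∈ Cop r, ‖∑ n ∈ range N, c n * e (n * ((b : ℝ) / r))‖ ^ 2 := by
  classical
  haveI : NeZero r := ⟨hr.ne'⟩
  have hφ : (0 : ℝ) < (r.totient : ℝ) := by exact_mod_cast Nat.totient_pos.2 hr
  rw [sum_Cop r N c]
  -- the inverse of a primitive character is primitive
  have h1 : ∑ ψ ∈ prim r, ‖∑ n ∈ range N, c n * ψ (n : ZMod r)‖ ^ 2 =
      ∑ ψ ∈ prim r, ‖∑ n ∈ range N, c n * ψ⁻¹ (n : ZMod r)‖ ^ 2 := by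
    refine Finset.sum_bij' (fun ψ _ => ψ⁻¹) (fun ψ _ => ψ⁻¹) ?_ ?_ ?_ ?_ ?_
    · intro ψ hψ
      rw [mem_prim hr] at hψ ⊢
      unfold DirichletCharacter.IsPrimitive at hψ ⊢
      rw [DirichletCharacter.conductor_inv, hψ]
    · intro ψ hψ
      rw [mem_prim hr] at hψ ⊢
      unfold DirichletCharacter.IsPrimitive at hψ ⊢
      rw [DirichletCharacter.conductor_inv, hψ]
    · intro ψ _
      exact inv_inv ψ
    · intro ψ _
      exact inv_inv ψ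
    · intro ψ _
      rw [inv_inv]
  have h2 : (r : ℝ) * ∑ ψ ∈ prim r, ‖∑ n ∈ range N, c n * ψ⁻¹ (n : ZMod r)‖ ^ 2 =
      ∑ ψ ∈ prim r, ‖∑ b : ZMod r, ψ b * Sa r N c b‖ ^ 2 := by
    rw [Finset.mul_sum]
    refine Finset.sum_congr rfl fun ψ hψ => ?_
    rw [mem_prim hr] at hψ
    rw [sum_char_Sa r N c ψ hψ, norm_mul, mul_pow, gs_norm r ψ hψ, mul_comm]
  have h3 : ∑ ψ ∈ prim r, ‖∑ b : ZMod r, ψ b * Sa r N c b‖ ^ 2 ≤
      ∑ ψ : DirichletCharacter ℂ r, ‖∑ b : ZMod r, ψ b * Sa r N c b‖ ^ 2 :=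
    Finset.sum_le_sum_of_subset_of_nonneg (Finset.subset_univ _) (fun _ _ _ => sq_nonneg _)
  have h4 : ∑ ψ : DirichletCharacter ℂ r, ‖∑ b : ZMod r, ψ b * Sa r N c b‖ ^ 2 =
      (r.totient : ℝ) * ∑ u : (ZMod r)ˣ, ‖Sa r N c (u : ZMod r)‖ ^ 2 := by
    have h5 := Pool.Agent.Lib.MP_42948a_nt.OM.parseval_class r (Finset.univ : Finset (ZMod r)ˣ)
      (fun u => (u : ZMod r)) (fun u => Sa r N c (u : ZMod r)) (fun u _ => u.isUnit)
    have h6 : ∀ b : (ZMod r)ˣ, Pool.Agent.Lib.MP_42948a_nt.OM.cw (Finset.univ : Finset (ZMod r)ˣ)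
        (fun u => (u : ZMod r)) (fun u => Sa r N c (u : ZMod r)) b = Sa r N c (b : ZMod r) := by
      intro b
      unfold Pool.Agent.Lib.MP_42948a_nt.OM.cw
      rw [Finset.sum_filter, Finset.sum_eq_single b]
      · rw [if_pos rfl]
      · intro u _ hu
        rw [if_neg (fun h => hu (Units.ext h))]
      · intro h
        exact absurd (Finset.mem_univ b) h
    simp only [h6] at h5
    rw [← h5]
    refine Finset.sum_congr rfl fun ψ _ => ?_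
    rw [← sum_units r (fun b => ψ b * Sa r N c b) (fun b hb => by rw [MulChar.map_nonunit _ hb, zero_mul])]
    congr 2
    exact Finset.sum_congr rfl fun u _ => mul_comm _ _
  rw [div_mul_eq_mul_div, div_le_iff₀ hφ, h1, h2, mul_comm _ (r.totient : ℝ), ← h4]
  exact h3

theorem ml (Q N : ℕ) (c : ℕ → ℂ) :
    ∑ r ∈ Icc 1 Q, (r : ℝ) / (r.totient : ℝ) * ∑ ψ ∈ prim r, ‖∑ n ∈ range N, c n * ψ (n : ZMod r)‖ ^ 2 ≤
      9 * (N + (Q : ℝ) ^ 2) * ∑ n ∈ range N, ‖c n‖ ^ 2 := by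
  refine le_trans (Finset.sum_le_sum fun r hr => ml_one r (Finset.mem_Icc.1 hr).1 N c) ?_
  exact Pool.Agent.Lib.MP_2a816b_nt.farey_sieve (Icc 1 Q) Q
    (fun d hd => ⟨(Finset.mem_Icc.1 hd).1, (Finset.mem_Icc.1 hd).2⟩) N c

end Pool.Agent.Lib.MP_d57abb_nt.KT
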