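import Mathlib
import Pool.Agent.Lib.MP_d57abb_nt.KT.MLa
import Pool.Agent.Lib.MP_d57abb_nt.KT.En

/-!
# JOB LCa: fourth moments over primitive characters, all conductors `≤ Q`

`A = {m ∈ [1, P] : (m, k) = 1}`, `c n = ∑_{m₁ m₂ = n, m_i ∈ A} g m₁ g m₂`.  As `ψ` is multiplicative, `(SC P g ψ k)² = ∑_{n ≤ P²} c n ψ(n)` (expand the square, group by the product
`n = m₁ m₂ ≤ P²`: `Finset.sum_fiberwise_of_maps_to`), so `‖SC P g ψ k‖⁴ = ‖∑_{n < P²+1} c n ψ n‖²`.  Apply `ml Q (P²+1) c` and `energy_sq`.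
-/

open Finset

namespace Pool.Agent.Lib.MP_d57abb_nt.KT

private theorem LCa_sq (P k r : ℕ) (g : ℕ → ℝ) (ψ : DirichletCharacter ℂ r) :
    SC P g ψ k ^ 2 = ∑ n ∈ range (P ^ 2 + 1),
      ((∑ q ∈ (((Icc 1 P).filter (fun m => m.Coprime k)) ×ˢ
        ((Icc 1 P).filter (fun m => m.Coprime k))).filter (fun q : ℕ × ℕ => q.1 * q.2 = n),
          g q.1 * g q.2 : ℝ) : ℂ) * ψ (n : ZMod r) := by
  have h1 : SC P g ψ k ^ 2 = ∑ q ∈ ((Icc 1 P).filter (fun m => m.Coprime k)) ×ˢ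
        ((Icc 1 P).filter (fun m => m.Coprime k)),
        ((g q.1 * g q.2 : ℝ) : ℂ) * ψ ((q.1 * q.2 : ℕ) : ZMod r) := by
    unfold SC
    rw [pow_two, Finset.sum_mul_sum, ← Finset.sum_product']
    refine Finset.sum_congr rfl fun q _ => ?_
    rw [Nat.cast_mul, map_mul, Complex.ofReal_mul]
    ring
  rw [h1, ← Finset.sum_fiberwise_of_maps_to (t := range (P ^ 2 + 1))
    (g := fun q : ℕ × ℕ => q.1 * q.2)]
  · refine Finset.sum_congr rfl fun n _ => ?_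
    rw [Complex.ofReal_sum, Finset.sum_mul]
    refine Finset.sum_congr rfl fun q hq => ?_
    rw [(Finset.mem_filter.1 hq).2]
  · intro q hq
    rw [Finset.mem_product] at hq
    have h2 := Finset.mem_Icc.1 (Finset.mem_filter.1 hq.1).1
    have h3 := Finset.mem_Icc.1 (Finset.mem_filter.1 hq.2).1
    rw [Finset.mem_range]
    have h4 : q.1 * q.2 ≤ P * P := Nat.mul_le_mul h2.2 h3.2
    rw [pow_two]
    omega

theorem fourth_ml (P Q k : ℕ) (g : ℕ → ℝ) (M : ℝ) (hM : ∀ m ∈ Icc 1 P, |g m| ≤ M) :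
    ∑ r ∈ Icc 1 Q, (r : ℝ) / (r.totient : ℝ) * ∑ ψ ∈ prim r, ‖SC P g ψ k‖ ^ 4 ≤
      9 * ((P : ℝ) ^ 2 + 1 + (Q : ℝ) ^ 2) * (M ^ 4 * (2 * (P : ℝ) ^ 2 * (1 + Real.log P))) := by
  have h1 := ml Q (P ^ 2 + 1) (fun n =>
    ((∑ q ∈ (((Icc 1 P).filter (fun m => m.Coprime k)) ×ˢ
        ((Icc 1 P).filter (fun m => m.Coprime k))).filter (fun q : ℕ × ℕ => q.1 * q.2 = n),
          g q.1 * g q.2 : ℝ) : ℂ))
  have h2 := energy_sq P ((Icc 1 P).filter (fun m => m.Coprime k)) (Finset.filter_subset _ _) g M hM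
  have h3 : ∑ r ∈ Icc 1 Q, (r : ℝ) / (r.totient : ℝ) * ∑ ψ ∈ prim r, ‖SC P g ψ k‖ ^ 4 =
      ∑ r ∈ Icc 1 Q, (r : ℝ) / (r.totient : ℝ) * ∑ ψ ∈ prim r,
        ‖∑ n ∈ range (P ^ 2 + 1), ((∑ q ∈ (((Icc 1 P).filter (fun m => m.Coprime k)) ×ˢ
        ((Icc 1 P).filter (fun m => m.Coprime k))).filter (fun q : ℕ × ℕ => q.1 * q.2 = n),
          g q.1 * g q.2 : ℝ) : ℂ) * ψ (n : ZMod r)‖ ^ 2 := by
    refine Finset.sum_congr rfl fun r _ => ?_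
    congr 1
    refine Finset.sum_congr rfl fun ψ _ => ?_
    rw [← LCa_sq, norm_pow, ← pow_mul]
  rw [h3]
  refine h1.trans ?_
  have h4 : ((P ^ 2 + 1 : ℕ) : ℝ) = (P : ℝ) ^ 2 + 1 := by push_cast; ring
  rw [h4]
  exact mul_le_mul_of_nonneg_left h2 (by positivity)

end Pool.Agent.Lib.MP_d57abb_nt.KT
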