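import Mathlib
import Pool.Agent.Lib.MP_d57abb_nt.KT.LCa
import Pool.Agent.Lib.MP_9c2ea5_nt.P4

/-!
# JOB LCb: the characters of large conductor

`abel_inv`: let `a r ≥ 0` and `A q = ∑_{1 ≤ r ≤ q} a r ≤ B (S + q²)` for all `q`, `B, S ≥ 0`.  Then for `1 ≤ R₀`: `∑_{R₀ < r ≤ Q} a r / r ≤ B (2 S / R₀ + 2 Q)`.
Proof: if `Q ≤ R₀` the sum is empty.  Otherwise with `A' q = ∑_{R₀ < r ≤ q} a r ≤ A q`, Abel summation (induction on `Q`):
`∑_{R₀ < r ≤ Q} a r / r = A' Q / Q + ∑_{R₀ < q < Q} A' q / (q (q+1)) ≤ B (S/Q + Q) + B ∑_{R₀ < q < Q} (S / (q (q+1)) + 1) ≤ B (S/Q + Q) + B (S (1/(R₀+1) - 1/Q) + Q) ≤ B (2 S / R₀ + 2 Q)`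
(it is simpler to prove by induction on `Q ≥ R₀` the identity, or directly the inequality `∑_{R₀ < r ≤ Q} a r / r ≤ A' Q / Q + B S (1/(R₀+1) - 1/Q) + B (Q - R₀)`, for `Q ≥ R₀ + 1`;
step: `A' (Q+1)/(Q+1) = A' Q/(Q+1) + a (Q+1)/(Q+1)` and `A' Q / Q - A' Q/(Q+1) = A' Q/(Q (Q+1)) ≤ B (S + Q²)/(Q (Q+1)) ≤ B S (1/Q - 1/(Q+1)) + B`).
`large_cond`: for every `k` apply it to `a r = (r/φ(r)) ∑_ψ ‖SC P g ψ k‖⁴`, `B = 9 M⁴ 2 P² (1 + log P)`, `S = P² + 1` (`fourth_ml`), `Q = X / k ≤ X/k ≤ X`: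
`∑_{R₀ < r ≤ X/k} (1/φ(r)) ∑_ψ ‖..‖⁴ ≤ B (2 (P²+1)/R₀ + 2 X)`, multiply by `1/φ(k)` and sum over `k ≤ X` (`MP_9c2ea5_nt.sum_inv_totient_le`; `X = 0` is trivial).
-/

open Finset

namespace Pool.Agent.Lib.MP_d57abb_nt.KT

private theorem LCb_step (a : ℕ → ℝ) (ha : ∀ r, 0 ≤ a r) (B S : ℝ) (hB : 0 ≤ B) (_hS : 0 ≤ S)
    (h : ∀ q : ℕ, ∑ r ∈ Icc 1 q, a r ≤ B * (S + (q : ℝ) ^ 2)) (R₀ : ℕ) (hR : 1 ≤ R₀) (n : ℕ) :
    ∑ r ∈ Ioc R₀ (R₀ + n), a r / r ≤ (∑ r ∈ Ioc R₀ (R₀ + n), a r) / ((R₀ + n : ℕ) : ℝ) +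
      B * S * (1 / (R₀ : ℝ) - 1 / ((R₀ + n : ℕ) : ℝ)) + B * n := by
  induction n with
  | zero => simp
  | succ n ih =>
    have e1 : Ioc R₀ (R₀ + (n + 1)) = insert (R₀ + (n + 1)) (Ioc R₀ (R₀ + n)) := by
      ext m
      simp only [Finset.mem_Ioc, Finset.mem_insert]
      omega
    have e2 : R₀ + (n + 1) ∉ Ioc R₀ (R₀ + n) := by
      simp only [Finset.mem_Ioc]
      omega
    rw [e1, Finset.sum_insert e2, Finset.sum_insert e2]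
    have hA : ∑ r ∈ Ioc R₀ (R₀ + n), a r ≤ B * (S + ((R₀ + n : ℕ) : ℝ) ^ 2) := by
      refine le_trans (Finset.sum_le_sum_of_subset_of_nonneg ?_ fun r _ _ => ha r) (h (R₀ + n))
      intro r hr
      rw [Finset.mem_Ioc] at hr
      rw [Finset.mem_Icc]
      omega
    set A : ℝ := ∑ r ∈ Ioc R₀ (R₀ + n), a r with hAdef
    have hq : (0 : ℝ) < ((R₀ + n : ℕ) : ℝ) := by
      have : 0 < R₀ + n := by omega
      exact_mod_cast this
    have hcast : ((R₀ + (n + 1) : ℕ) : ℝ) = ((R₀ + n : ℕ) : ℝ) + 1 := by push_cast; ring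
    have hcast2 : ((n + 1 : ℕ) : ℝ) = (n : ℝ) + 1 := by push_cast; ring
    rw [hcast, hcast2]
    set q : ℝ := ((R₀ + n : ℕ) : ℝ) with hqdef
    have k1 : A / q - A / (q + 1) ≤ B * S * (1 / q - 1 / (q + 1)) + B := by
      have k2 : A / q - A / (q + 1) = A * (1 / (q * (q + 1))) := by
        field_simp
        ring
      have k3 : B * S * (1 / q - 1 / (q + 1)) = B * S * (1 / (q * (q + 1))) := by
        field_simp
        ring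
      rw [k2, k3]
      have k4 : A * (1 / (q * (q + 1))) ≤ B * (S + q ^ 2) * (1 / (q * (q + 1))) :=
        mul_le_mul_of_nonneg_right hA (by positivity)
      have k5 : B * (S + q ^ 2) * (1 / (q * (q + 1))) =
          B * S * (1 / (q * (q + 1))) + B * (q / (q + 1)) := by
        field_simp
      have k6 : q / (q + 1) ≤ 1 := by
        rw [div_le_one (by positivity)]
        linarith
      have k7 : B * (q / (q + 1)) ≤ B * 1 := mul_le_mul_of_nonneg_left k6 hB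
      linarith
    have k8 : (a (R₀ + (n + 1)) + A) / (q + 1) = a (R₀ + (n + 1)) / (q + 1) + A / (q + 1) := by
      rw [add_div]
    rw [k8]
    have k9 : B * S * (1 / (R₀ : ℝ) - 1 / (q + 1)) = B * S * (1 / (R₀ : ℝ) - 1 / q) +
        B * S * (1 / q - 1 / (q + 1)) := by ring
    rw [k9]
    linarith

theorem abel_inv (a : ℕ → ℝ) (ha : ∀ r, 0 ≤ a r) (B S : ℝ) (hB : 0 ≤ B) (hS : 0 ≤ S)
    (h : ∀ q : ℕ, ∑ r ∈ Icc 1 q, a r ≤ B * (S + (q : ℝ) ^ 2)) (R₀ Q : ℕ) (hR : 1 ≤ R₀) :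
    ∑ r ∈ Ioc R₀ Q, a r / r ≤ B * (2 * S / R₀ + 2 * Q) := by
  rcases le_total Q R₀ with hQ | hQ
  · rw [Finset.Ioc_eq_empty (by omega), Finset.sum_empty]
    positivity
  · obtain ⟨n, rfl⟩ := Nat.exists_eq_add_of_le hQ
    have h1 := LCb_step a ha B S hB hS h R₀ hR n
    have hA : ∑ r ∈ Ioc R₀ (R₀ + n), a r ≤ B * (S + ((R₀ + n : ℕ) : ℝ) ^ 2) := by
      refine le_trans (Finset.sum_le_sum_of_subset_of_nonneg ?_ fun r _ _ => ha r) (h (R₀ + n))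
      intro r hr
      rw [Finset.mem_Ioc] at hr
      rw [Finset.mem_Icc]
      omega
    have hq : (0 : ℝ) < ((R₀ + n : ℕ) : ℝ) := by
      have : 0 < R₀ + n := by omega
      exact_mod_cast this
    have hR' : (0 : ℝ) < (R₀ : ℝ) := by exact_mod_cast hR
    have hn : (n : ℝ) ≤ ((R₀ + n : ℕ) : ℝ) := by push_cast; linarith
    set q : ℝ := ((R₀ + n : ℕ) : ℝ) with hqdef
    have h2 : (∑ r ∈ Ioc R₀ (R₀ + n), a r) / q ≤ B * S * (1 / q) + B * q := by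
      rw [div_le_iff₀ hq]
      refine hA.trans (le_of_eq ?_)
      field_simp
    have h3 : B * n ≤ B * q := mul_le_mul_of_nonneg_left hn hB
    have h4 : B * (2 * S / R₀ + 2 * q) = B * S * (1 / R₀) + B * S * (1 / R₀) + B * q + B * q := by
      ring
    have h5 : 0 ≤ B * S * (1 / (R₀ : ℝ)) := by positivity
    rw [h4]
    have h6 : B * S * (1 / (R₀ : ℝ) - 1 / q) = B * S * (1 / R₀) - B * S * (1 / q) := by ring
    rw [h6] at h1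
    linarith

theorem large_cond (P X R₀ : ℕ) (hR : 1 ≤ R₀) (g : ℕ → ℝ) (M : ℝ) (hM : ∀ m ∈ Icc 1 P, |g m| ≤ M) :
    ∑ k ∈ Icc 1 X, 1 / (k.totient : ℝ) * ∑ r ∈ Ioc R₀ (X / k), 1 / (r.totient : ℝ) * ∑ ψ ∈ prim r, ‖SC P g ψ k‖ ^ 4 ≤
      (9 * (M ^ 4 * (2 * (P : ℝ) ^ 2 * (1 + Real.log P)))) * (2 * ((P : ℝ) ^ 2 + 1) / R₀ + 2 * X) *
        ((1 + Real.log X / Real.log 2) * (1 + Real.log X)) := by
  rcases Nat.eq_zero_or_pos X with hX | hX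
  · subst hX
    have e0 : Icc 1 0 = (∅ : Finset ℕ) := rfl
    rw [e0, Finset.sum_empty]
    have h0 : 0 ≤ Real.log P := Real.log_natCast_nonneg P
    have h1 : (0 : ℝ) < (R₀ : ℝ) := by exact_mod_cast hR
    have h2 : Real.log ((0 : ℕ) : ℝ) = 0 := by simp
    rw [h2]
    have h3 : 0 ≤ M ^ 4 := by positivity
    have h4 : (0 : ℝ) ≤ 1 + Real.log P := by linarith
    have h5 : (0 : ℝ) ≤ 2 * ((P : ℝ) ^ 2 + 1) / R₀ + 2 * ((0 : ℕ) : ℝ) := by positivity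
    have h6 : (0 : ℝ) ≤ (1 + 0 / Real.log 2) * (1 + 0) := by norm_num
    exact mul_nonneg (mul_nonneg (mul_nonneg (by norm_num) (mul_nonneg h3
      (mul_nonneg (by positivity) h4))) h5) h6
  have hlogP : 0 ≤ Real.log P := Real.log_natCast_nonneg P
  have hR' : (0 : ℝ) < (R₀ : ℝ) := by exact_mod_cast hR
  set E : ℝ := M ^ 4 * (2 * (P : ℝ) ^ 2 * (1 + Real.log P)) with hE
  have hE0 : 0 ≤ E := by
    have h3 : 0 ≤ M ^ 4 := by positivity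
    have h4 : (0 : ℝ) ≤ 1 + Real.log P := by linarith
    exact mul_nonneg h3 (mul_nonneg (by positivity) h4)
  have key : ∀ k ∈ Icc 1 X, ∑ r ∈ Ioc R₀ (X / k), 1 / (r.totient : ℝ) *
      ∑ ψ ∈ prim r, ‖SC P g ψ k‖ ^ 4 ≤ 9 * E * (2 * ((P : ℝ) ^ 2 + 1) / R₀ + 2 * X) := by
    intro k hk
    have h1 := abel_inv (fun r => (r : ℝ) / (r.totient : ℝ) * ∑ ψ ∈ prim r, ‖SC P g ψ k‖ ^ 4)
      (fun r => mul_nonneg (by positivity) (Finset.sum_nonneg fun ψ _ => by positivity))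
      (9 * E) ((P : ℝ) ^ 2 + 1) (by positivity) (by positivity) (fun q => by
        refine (fourth_ml P q k g M hM).trans (le_of_eq ?_)
        rw [← hE]
        ring) R₀ (X / k) hR
    have h2 : ∑ r ∈ Ioc R₀ (X / k), 1 / (r.totient : ℝ) * ∑ ψ ∈ prim r, ‖SC P g ψ k‖ ^ 4 =
        ∑ r ∈ Ioc R₀ (X / k), (r : ℝ) / (r.totient : ℝ) * (∑ ψ ∈ prim r, ‖SC P g ψ k‖ ^ 4) / r := by
      refine Finset.sum_congr rfl fun r hr => ?_
      have hr0 : (r : ℝ) ≠ 0 := by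
        have := (Finset.mem_Ioc.1 hr).1
        have h3 : 0 < r := by omega
        exact_mod_cast h3.ne'
      field_simp
    rw [h2]
    refine h1.trans ?_
    have h3 : ((X / k : ℕ) : ℝ) ≤ X := by exact_mod_cast Nat.div_le_self X k
    have h4 : 2 * ((P : ℝ) ^ 2 + 1) / R₀ + 2 * ((X / k : ℕ) : ℝ) ≤
        2 * ((P : ℝ) ^ 2 + 1) / R₀ + 2 * X := by linarith
    exact mul_le_mul_of_nonneg_left h4 (by positivity)
  have h5 : ∑ k ∈ Icc 1 X, 1 / (k.totient : ℝ) * ∑ r ∈ Ioc R₀ (X / k), 1 / (r.totient : ℝ) *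
      ∑ ψ ∈ prim r, ‖SC P g ψ k‖ ^ 4 ≤
      ∑ k ∈ Icc 1 X, 1 / (k.totient : ℝ) * (9 * E * (2 * ((P : ℝ) ^ 2 + 1) / R₀ + 2 * X)) :=
    Finset.sum_le_sum fun k hk => mul_le_mul_of_nonneg_left (key k hk) (by positivity)
  refine h5.trans ?_
  rw [← Finset.sum_mul, mul_comm]
  refine mul_le_mul_of_nonneg_left (Pool.Agent.Lib.MP_9c2ea5_nt.sum_inv_totient_le hX) ?_
  positivity

end Pool.Agent.Lib.MP_d57abb_nt.KT
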