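import Mathlib
import Pool.Agent.Lib.MP_d57abb_nt.KT.Defs
import Pool.Agent.Lib.MP_2a816b_nt.Divisor
import Pool.Agent.Lib.MP_2a816b_nt.Basic0

/-!
# JOB SmN: sums of generic characters of small modulus over the model

`per`: let `ψ` modulo `r` be generic, `d` prime to `5`.  For every `y`: `‖∑_{e ≤ y, R5 (d e)} ψ e‖ ≤ 5 r` (the function `e ↦ [R5 (d e)] ψ e` has period `5 r`, sum `0` over a period by `Gnr` and values of
norm `≤ 1`: `periodic_sum_bound` in `MP_2a816b_nt/Basic0.lean`, which is for `range`).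
`moeb`: for `n ≥ 1`, `Q = W k` with `W, k > 0`: `∑_{m ≤ y, R5 m, (m, Q) = 1} ψ m = ∑_{d ∣ Q} μ(d) ∑_{m ≤ y, d ∣ m, R5 m} ψ m = ∑_{d ∣ Q, (d,5) = 1} μ(d) ψ(d) ∑_{e ≤ y/d, R5 (d e)} ψ e` (Möbius, see `HH_moebius` and
`imprim` in `Pool/Agent/Lib/MP_42948a_nt/BU/HH.lean`; the `d` divisible by `5` contribute `0` because then no multiple `m` of `d` has `R5 m`), so its norm is `≤ τ(Q) 5 r`.
`divisor_bound (1/8)` (in `MP_2a816b_nt/Divisor.lean`): `τ(W k) ≤ C (W k)^(1/8) ≤ C (W K P)^(1/8)`.  Taking differences (`y` and `P/2`): for all `y`,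
`‖∑_{m ∈ NN W P, (m, k) = 1, m ≤ y} ψ m‖ ≤ 10 r C (W K P)^(1/8) =: E` (for `m` prime to `W` and to `k`: `m` prime to `W k`, `Nat.Coprime.mul_right`).
Abel summation with the increasing weights `(min n P / P)^i ≤ 1` (`abel_sum`): the sum is `≤ 2 E ≤ 20 (log P)^9 C (W K P)^(1/8) ≤ √P` for `P` large.
-/

open Finset

namespace Pool.Agent.Lib.MP_d57abb_nt.KT

private theorem SmN_moeb {Q : ℕ} (hQ : 0 < Q) {d : ℕ} :
    (∑ e ∈ Q.divisors, if e ∣ d then ((ArithmeticFunction.moebius e : ℤ) : ℂ) else 0) =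
      if d.Coprime Q then 1 else 0 := by
  have h1 : Q.divisors.filter (fun e => e ∣ d) = (Nat.gcd d Q).divisors := by
    ext e
    rw [mem_filter, Nat.mem_divisors, Nat.mem_divisors, Nat.dvd_gcd_iff]
    have hg : Nat.gcd d Q ≠ 0 := (Nat.gcd_pos_of_pos_right d hQ).ne'
    constructor
    · rintro ⟨⟨h1, _⟩, h2⟩
      exact ⟨⟨h2, h1⟩, hg⟩
    · rintro ⟨⟨h1, h2⟩, _⟩
      exact ⟨⟨h2, hQ.ne'⟩, h1⟩
  rw [← sum_filter, h1]
  have h2 : ∑ e ∈ (Nat.gcd d Q).divisors, (ArithmeticFunction.moebius e : ℤ) =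
      if Nat.gcd d Q = 1 then 1 else 0 := by
    rw [← ArithmeticFunction.coe_mul_zeta_apply, ArithmeticFunction.moebius_mul_coe_zeta,
      ArithmeticFunction.one_apply]
  have h3 := congrArg (fun z : ℤ => (z : ℂ)) h2
  simp only [Int.cast_sum] at h3
  rw [h3]
  unfold Nat.Coprime
  split_ifs <;> simp

private theorem SmN_per {r : ℕ} (hr : 0 < r) (ψ : DirichletCharacter ℂ r) (hψ : Gnr ψ) (e n : ℕ) :
    ‖∑ d ∈ range n, (if R5 (e * d) then ψ (d : ZMod r) else 0)‖ ≤ 5 * r := by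
  by_cases he : e.Coprime 5
  · have h := Pool.Agent.Lib.MP_2a816b_nt.periodic_sum_bound
      (fun d => if R5 (e * d) then ψ (d : ZMod r) else 0) (5 * r) 1 (by omega) ?_ ?_ ?_ n
    · rw [one_mul] at h
      refine h.trans (le_of_eq ?_)
      push_cast
      ring
    · intro d
      have h1 : R5 (e * (5 * r + d)) ↔ R5 (e * d) := by
        have h2 : e * (5 * r + d) = 5 * (e * r) + e * d := by ring
        unfold R5
        rw [h2, Nat.mul_add_mod]
      have h3 : (((5 * r + d : ℕ)) : ZMod r) = (d : ZMod r) := by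
        push_cast
        rw [ZMod.natCast_self, mul_zero, zero_add]
      show (if R5 (e * (5 * r + d)) then ψ ((5 * r + d : ℕ) : ZMod r) else 0) = _
      rw [h3]
      by_cases h4 : R5 (e * d)
      · rw [if_pos (h1.2 h4), if_pos h4]
      · rw [if_neg (fun h5 => h4 (h1.1 h5)), if_neg h4]
    · rw [← sum_filter]
      exact hψ e he
    · intro d
      show ‖if R5 (e * d) then ψ (d : ZMod r) else 0‖ ≤ 1
      split_ifs
      · exact DirichletCharacter.norm_le_one ψ _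
      · rw [norm_zero]
        exact zero_le_one
  · have h5 : 5 ∣ e := by
      by_contra h6
      exact he (((Nat.Prime.coprime_iff_not_dvd (by norm_num)).2 h6).symm)
    have h7 : ∀ d ∈ range n, (if R5 (e * d) then ψ (d : ZMod r) else 0) = 0 := by
      intro d _
      rw [if_neg]
      intro h8
      have h9 : e * d % 5 = 0 := Nat.mod_eq_zero_of_dvd (dvd_mul_of_dvd_left h5 d)
      unfold R5 at h8
      omega
    rw [sum_eq_zero h7, norm_zero]
    positivity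

private theorem SmN_mult {e : ℕ} (he : 0 < e) (t : ℕ) (H : ℕ → ℂ) :
    ∃ n, ∑ d ∈ range t, (if e ∣ d then H d else 0) = ∑ d ∈ range n, H (e * d) := by
  refine ⟨(t + e - 1) / e, ?_⟩
  rw [← sum_filter]
  have key : ∀ d, e * d < t ↔ d < (t + e - 1) / e := by
    intro d
    rw [Nat.lt_iff_add_one_le, Nat.lt_iff_add_one_le, Nat.le_div_iff_mul_le he]
    have h1 : (d + 1) * e = e * d + e := by ring
    omega
  refine sum_nbij' (fun d => d / e) (fun d => e * d) ?_ ?_ ?_ ?_ ?_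
  · intro d hd
    rw [mem_filter, mem_range] at hd
    rw [mem_range, ← key, Nat.mul_div_cancel' hd.2]
    exact hd.1
  · intro d hd
    rw [mem_range] at hd
    rw [mem_filter, mem_range]
    exact ⟨(key d).2 hd, dvd_mul_right e d⟩
  · intro d hd
    rw [mem_filter] at hd
    exact Nat.mul_div_cancel' hd.2
  · intro d _
    exact Nat.mul_div_cancel_left d he
  · intro d hd
    rw [mem_filter] at hd
    show H d = H (e * (d / e))
    rw [Nat.mul_div_cancel' hd.2]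

private theorem SmN_one {r : ℕ} (hr : 0 < r) (ψ : DirichletCharacter ℂ r) (hψ : Gnr ψ) {e : ℕ}
    (he : 0 < e) (t : ℕ) :
    ‖∑ d ∈ range t, (if e ∣ d then (if R5 d then ψ (d : ZMod r) else 0) else 0)‖ ≤ 5 * r := by
  obtain ⟨n, hn⟩ := SmN_mult he t (fun d => if R5 d then ψ (d : ZMod r) else 0)
  rw [hn]
  have h1 : ∀ d ∈ range n, (if R5 (e * d) then ψ (((e * d : ℕ)) : ZMod r) else 0) =
      ψ (e : ZMod r) * (if R5 (e * d) then ψ (d : ZMod r) else 0) := by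
    intro d _
    rw [Nat.cast_mul, map_mul]
    split_ifs
    · rfl
    · rw [mul_zero]
  rw [sum_congr rfl h1, ← mul_sum, norm_mul]
  have h2 := DirichletCharacter.norm_le_one ψ (e : ZMod r)
  have h3 := SmN_per hr ψ hψ e n
  calc _ ≤ 1 * (5 * (r : ℝ)) := mul_le_mul h2 h3 (norm_nonneg _) zero_le_one
    _ = 5 * r := one_mul _

private theorem SmN_G {r : ℕ} (hr : 0 < r) (ψ : DirichletCharacter ℂ r) (hψ : Gnr ψ) {Q : ℕ}
    (hQ : 0 < Q) (t : ℕ) :
    ‖∑ d ∈ range t, (if d.Coprime Q then (if R5 d then ψ (d : ZMod r) else 0) else 0)‖ ≤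
      (Q.divisors.card : ℝ) * (5 * r) := by
  have h1 : ∀ d ∈ range t, (if d.Coprime Q then (if R5 d then ψ (d : ZMod r) else 0) else 0) =
      ∑ e ∈ Q.divisors, ((ArithmeticFunction.moebius e : ℤ) : ℂ) *
        (if e ∣ d then (if R5 d then ψ (d : ZMod r) else 0) else 0) := by
    intro d _
    have h2 : (if d.Coprime Q then (if R5 d then ψ (d : ZMod r) else 0) else 0) =
        (if d.Coprime Q then 1 else 0) * (if R5 d then ψ (d : ZMod r) else 0) := by
      by_cases h : d.Coprime Q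
      · rw [if_pos h, if_pos h, one_mul]
      · rw [if_neg h, if_neg h, zero_mul]
    rw [h2, ← SmN_moeb hQ, sum_mul]
    refine sum_congr rfl fun e _ => ?_
    by_cases h : e ∣ d
    · rw [if_pos h, if_pos h]
    · rw [if_neg h, if_neg h, zero_mul, mul_zero]
  rw [sum_congr rfl h1, sum_comm]
  refine (norm_sum_le _ _).trans ?_
  have h3 : ∀ e ∈ Q.divisors, ‖∑ d ∈ range t, ((ArithmeticFunction.moebius e : ℤ) : ℂ) *
        (if e ∣ d then (if R5 d then ψ (d : ZMod r) else 0) else 0)‖ ≤ 5 * r := by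
    intro e he
    rw [← mul_sum, norm_mul]
    have h4 : ‖((ArithmeticFunction.moebius e : ℤ) : ℂ)‖ ≤ 1 := by
      rw [Complex.norm_intCast]
      exact_mod_cast ArithmeticFunction.abs_moebius_le_one
    have h5 := SmN_one hr ψ hψ (Nat.pos_of_mem_divisors he) t
    calc _ ≤ 1 * (5 * (r : ℝ)) := mul_le_mul h4 h5 (norm_nonneg _) zero_le_one
      _ = 5 * r := one_mul _
  refine (sum_le_sum h3).trans ?_
  rw [sum_const, nsmul_eq_mul]

private theorem SmN_F {r : ℕ} (hr : 0 < r) (ψ : DirichletCharacter ℂ r) (hψ : Gnr ψ) {Q : ℕ}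
    (hQ : 0 < Q) (P t : ℕ) :
    ‖∑ d ∈ range t, (if P / 2 < d then
      (if d.Coprime Q then (if R5 d then ψ (d : ZMod r) else 0) else 0) else 0)‖ ≤
      2 * ((Q.divisors.card : ℝ) * (5 * r)) := by
  have h0 : 0 ≤ (Q.divisors.card : ℝ) * (5 * r) := by positivity
  rcases le_or_gt t (P / 2 + 1) with ht | ht
  · rw [sum_eq_zero, norm_zero]
    · linarith
    · intro d hd
      rw [mem_range] at hd
      rw [if_neg (by omega)]
  · obtain ⟨s, rfl⟩ : ∃ s, t = (P / 2 + 1) + s := ⟨t - (P / 2 + 1), by omega⟩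
    have h1 : ∑ d ∈ range (P / 2 + 1 + s), (if P / 2 < d then
        (if d.Coprime Q then (if R5 d then ψ (d : ZMod r) else 0) else 0) else 0) =
        ∑ d ∈ range (P / 2 + 1 + s),
          (if d.Coprime Q then (if R5 d then ψ (d : ZMod r) else 0) else 0) -
        ∑ d ∈ range (P / 2 + 1),
          (if d.Coprime Q then (if R5 d then ψ (d : ZMod r) else 0) else 0) := by
      rw [sum_range_add _ (P / 2 + 1) s, sum_range_add _ (P / 2 + 1) s]
      have h2 : ∑ d ∈ range (P / 2 + 1), (if P / 2 < d then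
          (if d.Coprime Q then (if R5 d then ψ (d : ZMod r) else 0) else 0) else 0) = 0 := by
        refine sum_eq_zero fun d hd => ?_
        rw [mem_range] at hd
        rw [if_neg (by omega)]
      have h3 : ∀ x ∈ range s, (if P / 2 < P / 2 + 1 + x then
          (if (P / 2 + 1 + x).Coprime Q then
            (if R5 (P / 2 + 1 + x) then ψ (((P / 2 + 1 + x : ℕ)) : ZMod r) else 0) else 0) else 0) =
          (if (P / 2 + 1 + x).Coprime Q then
            (if R5 (P / 2 + 1 + x) then ψ (((P / 2 + 1 + x : ℕ)) : ZMod r) else 0) else 0) := by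
        intro x _
        rw [if_pos (by omega)]
      rw [h2, sum_congr rfl h3]
      ring
    rw [h1]
    refine (norm_sub_le _ _).trans ?_
    have h4 := SmN_G hr ψ hψ hQ (P / 2 + 1 + s)
    have h5 := SmN_G hr ψ hψ hQ (P / 2 + 1)
    linarith

private theorem SmN_sum {r : ℕ} (hr : 0 < r) (ψ : DirichletCharacter ℂ r) (hψ : Gnr ψ)
    {W P k : ℕ} (hW : 0 < W) (hk : 0 < k) (hP : 0 < P) (i : ℕ) :
    ‖∑ m ∈ (NN W P).filter (fun m => m.Coprime k),
        ((((m : ℝ) / P) ^ i : ℝ) : ℂ) * ψ (m : ZMod r)‖ ≤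
      20 * ((W * k).divisors.card : ℝ) * r := by
  have hQ : 0 < W * k := Nat.mul_pos hW hk
  have hP' : (0 : ℝ) < P := by exact_mod_cast hP
  have hw : Monotone (fun n : ℕ => (((min n P : ℕ) : ℝ) / P) ^ i) := by
    intro a b hab
    show (((min a P : ℕ) : ℝ) / P) ^ i ≤ (((min b P : ℕ) : ℝ) / P) ^ i
    refine pow_le_pow_left₀ (by positivity) ?_ i
    refine div_le_div_of_nonneg_right ?_ hP'.le
    exact_mod_cast min_le_min_right P hab
  have hmain := Pool.Agent.Lib.MP_2a816b_nt.abel_sum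
    (fun d => if P / 2 < d then
      (if d.Coprime (W * k) then (if R5 d then ψ (d : ZMod r) else 0) else 0) else 0)
    (fun n : ℕ => (((min n P : ℕ) : ℝ) / P) ^ i)
    (2 * (((W * k).divisors.card : ℝ) * (5 * r))) hw (by positivity)
    (fun t => SmN_F hr ψ hψ hQ P t) (P + 1)
  have e1 : ∑ m ∈ (NN W P).filter (fun m => m.Coprime k),
        ((((m : ℝ) / P) ^ i : ℝ) : ℂ) * ψ (m : ZMod r) =
      ∑ d ∈ range (P + 1), (((((min d P : ℕ) : ℝ) / P) ^ i : ℝ) : ℂ) *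
        (if P / 2 < d then
      (if d.Coprime (W * k) then (if R5 d then ψ (d : ZMod r) else 0) else 0) else 0) := by
    have h1 : (NN W P).filter (fun m => m.Coprime k) = (range (P + 1)).filter
        (fun d => P / 2 < d ∧ d.Coprime (W * k) ∧ R5 d) := by
      ext m
      rw [mem_filter, mem_NN, mem_filter, mem_range, Nat.coprime_mul_iff_right]
      constructor
      · rintro ⟨⟨⟨h1, h2⟩, h3, h4⟩, h5⟩
        exact ⟨by omega, h1, ⟨h3, h5⟩, h4⟩
      · rintro ⟨h1, h2, ⟨h3, h4⟩, h5⟩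
        exact ⟨⟨⟨h2, by omega⟩, h3, h5⟩, h4⟩
    rw [h1, sum_filter]
    refine sum_congr rfl fun d hd => ?_
    rw [mem_range] at hd
    have h2 : min d P = d := min_eq_left (by omega)
    rw [h2]
    by_cases c1 : P / 2 < d
    · by_cases c2 : d.Coprime (W * k)
      · by_cases c3 : R5 d
        · rw [if_pos ⟨c1, c2, c3⟩, if_pos c1, if_pos c2, if_pos c3]
        · rw [if_neg (fun h => c3 h.2.2), if_pos c1, if_pos c2, if_neg c3, mul_zero]
      · rw [if_neg (fun h => c2 h.2.1), if_pos c1, if_neg c2, mul_zero]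
    · rw [if_neg (fun h => c1 h.1), if_neg c1, mul_zero]
  rw [e1]
  refine hmain.trans (le_of_eq ?_)
  have h3 : min (P + 1) P = P := min_eq_right (by omega)
  show 2 * (((min (P + 1) P : ℕ) : ℝ) / P) ^ i * (2 * (((W * k).divisors.card : ℝ) * (5 * r))) = _
  rw [h3, div_self hP'.ne', one_pow]
  ring

private theorem SmN_large (A : ℝ) : ∃ P₀ : ℕ, 1 ≤ P₀ ∧ ∀ P : ℕ, P₀ ≤ P →
    A * (Real.log P ^ 9 * (P : ℝ) ^ (1 / 8 : ℝ)) ≤ Real.sqrt P := by
  have h1 : (fun x : ℝ => Real.log x ^ (9 : ℝ)) =o[Filter.atTop] fun x : ℝ => x ^ (3 / 8 : ℝ) :=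
    isLittleO_log_rpow_rpow_atTop 9 (by norm_num)
  have hc : (0 : ℝ) < 1 / (|A| + 1) := by positivity
  have h2 := h1.def hc
  obtain ⟨x₀, hx₀⟩ := Filter.eventually_atTop.1 h2
  refine ⟨⌈x₀⌉₊ + 1, by omega, fun P hP => ?_⟩
  have hP1 : (1 : ℝ) ≤ P := by
    have : 1 ≤ P := by omega
    exact_mod_cast this
  have hP0 : (0 : ℝ) < P := by linarith
  have hPx : x₀ ≤ (P : ℝ) := by
    have h3 : (⌈x₀⌉₊ : ℝ) ≤ P := by
      have : ⌈x₀⌉₊ ≤ P := by omega
      exact_mod_cast this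
    exact (Nat.le_ceil x₀).trans h3
  have h3 := hx₀ P hPx
  have hlog : 0 ≤ Real.log P := Real.log_nonneg hP1
  have e9 : Real.log (P : ℝ) ^ (9 : ℝ) = Real.log P ^ 9 := by
    rw [← Real.rpow_natCast]
    norm_num
  rw [e9, Real.norm_of_nonneg (by positivity), Real.norm_of_nonneg (by positivity)] at h3
  have h4 : (P : ℝ) ^ (3 / 8 : ℝ) * (P : ℝ) ^ (1 / 8 : ℝ) = Real.sqrt P := by
    rw [← Real.rpow_add hP0, Real.sqrt_eq_rpow]
    norm_num
  have h5 : 0 < (P : ℝ) ^ (1 / 8 : ℝ) := by positivity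
  have h6 : A * (Real.log P ^ 9 * (P : ℝ) ^ (1 / 8 : ℝ)) ≤
      (|A| + 1) * (Real.log P ^ 9 * (P : ℝ) ^ (1 / 8 : ℝ)) := by
    refine mul_le_mul_of_nonneg_right ?_ (by positivity)
    linarith [le_abs_self A]
  refine h6.trans ?_
  have h7 : Real.log P ^ 9 * (P : ℝ) ^ (1 / 8 : ℝ) ≤
      1 / (|A| + 1) * (P : ℝ) ^ (3 / 8 : ℝ) * (P : ℝ) ^ (1 / 8 : ℝ) :=
    mul_le_mul_of_nonneg_right h3 h5.le
  have h8 : (|A| + 1) * (1 / (|A| + 1) * (P : ℝ) ^ (3 / 8 : ℝ) * (P : ℝ) ^ (1 / 8 : ℝ)) =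
      (P : ℝ) ^ (3 / 8 : ℝ) * (P : ℝ) ^ (1 / 8 : ℝ) := by
    have : |A| + 1 ≠ 0 := by positivity
    field_simp
  calc (|A| + 1) * (Real.log P ^ 9 * (P : ℝ) ^ (1 / 8 : ℝ))
      ≤ (|A| + 1) * (1 / (|A| + 1) * (P : ℝ) ^ (3 / 8 : ℝ) * (P : ℝ) ^ (1 / 8 : ℝ)) :=
        mul_le_mul_of_nonneg_left h7 (by positivity)
    _ = Real.sqrt P := by rw [h8, h4]

theorem small_model (W K : ℕ) (hW : 0 < W) : ∃ P₀ : ℕ, ∀ P : ℕ, P₀ ≤ P → ∀ r : ℕ, 0 < r →
    (r : ℝ) ≤ Real.log P ^ 9 → ∀ ψ : DirichletCharacter ℂ r, Gnr ψ → ∀ i k : ℕ, 0 < k → k ≤ K * P →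
    ‖∑ m ∈ (NN W P).filter (fun m => m.Coprime k), ((((m : ℝ) / P) ^ i : ℝ) : ℂ) * ψ (m : ZMod r)‖ ≤
      Real.sqrt P := by
  obtain ⟨C, hC, hdiv⟩ := Pool.Agent.Lib.MP_2a816b_nt.divisor_bound (1 / 8) (by norm_num)
  obtain ⟨P₀, hP₀, hlarge⟩ := SmN_large (20 * C * ((W : ℝ) * K) ^ (1 / 8 : ℝ))
  refine ⟨P₀, fun P hP r hr hrP ψ hψ i k hk hkK => ?_⟩
  have hP1 : 0 < P := by omega
  have h1 := SmN_sum hr ψ hψ hW hk hP1 i
  refine h1.trans ((le_trans ?_ (hlarge P hP)))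
  have hWk : 0 < W * k := Nat.mul_pos hW hk
  have h2 := hdiv (W * k) hWk
  have h3 : (((W * k : ℕ)) : ℝ) ≤ (W : ℝ) * K * P := by
    have : W * k ≤ W * (K * P) := Nat.mul_le_mul_left W hkK
    have h4 : (((W * k : ℕ)) : ℝ) ≤ ((W * (K * P) : ℕ) : ℝ) := by exact_mod_cast this
    refine h4.trans (le_of_eq ?_)
    push_cast
    ring
  have h4 : (((W * k : ℕ)) : ℝ) ^ (1 / 8 : ℝ) ≤
      ((W : ℝ) * K) ^ (1 / 8 : ℝ) * (P : ℝ) ^ (1 / 8 : ℝ) := by
    rw [← Real.mul_rpow (by positivity) (by positivity)]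
    exact Real.rpow_le_rpow (by positivity) h3 (by norm_num)
  have h5 : ((W * k).divisors.card : ℝ) ≤
      C * (((W : ℝ) * K) ^ (1 / 8 : ℝ) * (P : ℝ) ^ (1 / 8 : ℝ)) :=
    h2.trans (mul_le_mul_of_nonneg_left h4 (by linarith))
  have hr0 : (0 : ℝ) ≤ r := Nat.cast_nonneg r
  calc 20 * ((W * k).divisors.card : ℝ) * r
      ≤ 20 * (C * (((W : ℝ) * K) ^ (1 / 8 : ℝ) * (P : ℝ) ^ (1 / 8 : ℝ))) * Real.log P ^ 9 := by
        refine mul_le_mul ?_ hrP hr0 (by positivity)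
        linarith
    _ = 20 * C * ((W : ℝ) * K) ^ (1 / 8 : ℝ) * (Real.log P ^ 9 * (P : ℝ) ^ (1 / 8 : ℝ)) := by ring

end Pool.Agent.Lib.MP_d57abb_nt.KT
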