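import Mathlib
import Pool.Agent.Lib.MP_d57abb_nt.KT.Defs
import Pool.Agent.Lib.MP_d57abb_nt.All.SW
import Pool.Agent.Lib.MP_42948a_nt.OM.B1
import Pool.Agent.Lib.MP_2a816b_nt.Basic0

/-!
# JOB SmP: sums of generic characters of small modulus over the primes

Let `Λ = log P`.  `All.sw 30 10`: for `y ≥ y₀`, `M ≤ (log y)^10`, `c` prime to `M`: `|∑_{n ≤ y, n ≡ c (M)} lp n - y/φ(M)| ≤ y/(log y)^30`.  Take `M = 5 r ≤ 5 Λ^9`.
(1) For a natural `y` with `P/2 ≤ y ≤ P` (`P / 2 ≤ y`; `log y ≥ Λ/2`, even `≥ Λ - 1`; `5 Λ^9 ≤ (log y)^10` for `P` large): `Θ(y) = ∑_{n ≤ y, R5 n} lp n ψ(n) = ∑_{c < 5 r, R5 c} ψ(c) ∑_{n ≤ y, n ≡ c (5 r)} lp n`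
(`ψ n` depends on `n` modulo `5 r` only).  The `c` with `R5 c` are prime to `5`; if `c` is not prime to `r` then `ψ c = 0`; otherwise `c` is prime to `5 r` and the inner sum is `y/φ(5r) + O(y/(log y)^30)`.
The main terms sum to `(y/φ(5 r)) ∑_{c < 5r, R5 c} ψ c = 0` by `Gnr ψ` with `c = 1` (the `c` not prime to `r` contribute `0` to both).  So `‖Θ(y)‖ ≤ 5 r y/(log y)^30 ≤ 5 Λ^9 P/(Λ/2)^30`.
(2) `Θ(y) - Θ(P/2) = ∑_{p ∈ PP P, p ≤ y} ψ(p) log p`, so its norm is `≤ E₁ := 10 Λ^9 P/(Λ/2)^30` for all `y ∈ [P/2, P]`.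
(3) Abel summation with the decreasing weights `1/log n` (`OM.abel_norm` in `OM/B1.lean`, with `a n = ψ n log n` on `PP P` and `0` elsewhere, so that the bound holds for all `u`):
`‖∑_{p ∈ PP, p ≤ y} ψ p‖ ≤ E₁ / log (P/2 + 1) ≤ E₁`.
(4) Abel summation with the increasing weights `(min n P / P)^i ≤ 1` (`abel_sum` in `MP_2a816b_nt/Basic0.lean`): `‖∑_{p ∈ PP} (p/P)^i ψ p‖ ≤ 2 E₁ ≤ P/Λ^10` for large `P` (uniformly in `i`):
`20 · 2^30 Λ^9/Λ^30 ≤ Λ^(-10)` for `Λ^11 ≥ 20 · 2^30`.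
-/

open Finset

namespace Pool.Agent.Lib.MP_d57abb_nt.KT

open Pool.Agent.Lib.MP_d57abb_nt.All (lp sw)

/-- fibering over the residues modulo `5 r` -/
private theorem SmP_fiber (r : ℕ) (hr : 0 < r) (ψ : DirichletCharacter ℂ r) (y : ℕ) :
    ∑ n ∈ (Ioc 0 y).filter (fun n => R5 n), (lp n : ℂ) * ψ (n : ZMod r) =
      ∑ c ∈ (range (5 * r)).filter (fun c => R5 c), ψ (c : ZMod r) *
        ((∑ n ∈ (Ioc 0 y).filter (fun n => n ≡ c [MOD 5 * r]), lp n : ℝ) : ℂ) := by
  have hmaps : ∀ n ∈ (Ioc 0 y).filter (fun n => R5 n),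
      n % (5 * r) ∈ (range (5 * r)).filter (fun c => R5 c) := by
    intro n hn
    rw [mem_filter] at hn ⊢
    refine ⟨mem_range.2 (Nat.mod_lt _ (by omega)), ?_⟩
    unfold R5 at hn ⊢
    rw [Nat.mod_mul_right_mod]
    exact hn.2
  rw [← Finset.sum_fiberwise_of_maps_to hmaps]
  refine Finset.sum_congr rfl fun c hc => ?_
  rw [mem_filter, mem_range] at hc
  have hset : ((Ioc 0 y).filter (fun n => R5 n)).filter (fun n => n % (5 * r) = c) =
      (Ioc 0 y).filter (fun n => n ≡ c [MOD 5 * r]) := by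
    ext n
    simp only [mem_filter]
    unfold Nat.ModEq
    rw [Nat.mod_eq_of_lt hc.1]
    constructor
    · rintro ⟨⟨h1, _⟩, h3⟩
      exact ⟨h1, h3⟩
    · rintro ⟨h1, h3⟩
      refine ⟨⟨h1, ?_⟩, h3⟩
      have h4 := hc.2
      unfold R5 at h4 ⊢
      rw [← h3, Nat.mod_mul_right_mod] at h4
      exact h4
  rw [hset]
  push_cast
  rw [Finset.mul_sum]
  refine Finset.sum_congr rfl fun n hn => ?_
  rw [mem_filter] at hn
  have h5 : (n : ZMod r) = (c : ZMod r) := by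
    rw [ZMod.natCast_eq_natCast_iff]
    exact hn.2.of_mul_left 5
  rw [h5, mul_comm]

/-- the sum over the primes up to `y` -/
private theorem SmP_theta (r : ℕ) (hr : 0 < r) (ψ : DirichletCharacter ℂ r) (hψ : Gnr ψ) (y : ℕ)
    (E : ℝ) (h : ∀ c : ℕ, Nat.Coprime c (5 * r) →
      |∑ n ∈ (Ioc 0 y).filter (fun n => n ≡ c [MOD 5 * r]), lp n -
        (y : ℝ) / (Nat.totient (5 * r) : ℝ)| ≤ E) (hE : 0 ≤ E) :
    ‖∑ n ∈ (Ioc 0 y).filter (fun n => R5 n), (lp n : ℂ) * ψ (n : ZMod r)‖ ≤ 5 * r * E := by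
  rw [SmP_fiber r hr ψ y]
  have h0 : ∑ c ∈ (range (5 * r)).filter (fun c => R5 c), ψ (c : ZMod r) = 0 := by
    have h1 := hψ 1 (by norm_num)
    simpa using h1
  have h2 : ∑ c ∈ (range (5 * r)).filter (fun c => R5 c), ψ (c : ZMod r) *
        ((∑ n ∈ (Ioc 0 y).filter (fun n => n ≡ c [MOD 5 * r]), lp n : ℝ) : ℂ) =
      ∑ c ∈ (range (5 * r)).filter (fun c => R5 c), ψ (c : ZMod r) *
        (((∑ n ∈ (Ioc 0 y).filter (fun n => n ≡ c [MOD 5 * r]), lp n) -
          (y : ℝ) / (Nat.totient (5 * r) : ℝ) : ℝ) : ℂ) := by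
    have h3 : ∑ c ∈ (range (5 * r)).filter (fun c => R5 c), ψ (c : ZMod r) *
        (((y : ℝ) / (Nat.totient (5 * r) : ℝ) : ℝ) : ℂ) = 0 := by
      rw [← Finset.sum_mul, h0, zero_mul]
    rw [← sub_zero (∑ c ∈ (range (5 * r)).filter (fun c => R5 c), ψ (c : ZMod r) *
        ((∑ n ∈ (Ioc 0 y).filter (fun n => n ≡ c [MOD 5 * r]), lp n : ℝ) : ℂ)), ← h3,
      ← Finset.sum_sub_distrib]
    refine Finset.sum_congr rfl fun c _ => ?_
    rw [← mul_sub, ← Complex.ofReal_sub]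
  rw [h2]
  have h4 : ∀ c ∈ (range (5 * r)).filter (fun c => R5 c), ‖ψ (c : ZMod r) *
        (((∑ n ∈ (Ioc 0 y).filter (fun n => n ≡ c [MOD 5 * r]), lp n) -
          (y : ℝ) / (Nat.totient (5 * r) : ℝ) : ℝ) : ℂ)‖ ≤ E := by
    intro c hc
    rw [mem_filter, mem_range] at hc
    rw [norm_mul, Complex.norm_real, Real.norm_eq_abs]
    by_cases hcr : Nat.Coprime c r
    · have hc5 : Nat.Coprime c 5 := by
        rw [Nat.coprime_comm, Nat.Prime.coprime_iff_not_dvd (by norm_num)]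
        intro hd
        have := hc.2
        unfold R5 at this
        omega
      have h5 := h c (Nat.Coprime.mul_right hc5 hcr)
      have h6 : ‖ψ (c : ZMod r)‖ ≤ 1 := ψ.norm_le_one _
      calc ‖ψ (c : ZMod r)‖ * _ ≤ 1 * _ := mul_le_mul_of_nonneg_right h6 (abs_nonneg _)
        _ ≤ E := by
          rw [one_mul]
          exact h5
    · have h5 : ψ (c : ZMod r) = 0 := by
        apply MulChar.map_nonunit
        rw [ZMod.isUnit_iff_coprime]
        exact hcr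
      rw [h5, norm_zero, zero_mul]
      exact hE
  refine (norm_sum_le _ _).trans ((Finset.sum_le_card_nsmul _ _ _ h4).trans ?_)
  rw [nsmul_eq_mul]
  apply mul_le_mul_of_nonneg_right _ hE
  have h5 : ((range (5 * r)).filter (fun c => R5 c)).card ≤ 5 * r := by
    refine (Finset.card_filter_le _ _).trans ?_
    rw [Finset.card_range]
  exact_mod_cast h5

/-- from the bound for `Θ` to the bound for the weighted sum -/
private theorem SmP_abel (P r : ℕ) (hP : 6 ≤ P) (ψ : DirichletCharacter ℂ r) (E : ℝ)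
    (h : ∀ y : ℕ, P / 2 ≤ y → y ≤ P →
      ‖∑ n ∈ (Ioc 0 y).filter (fun n => R5 n), (lp n : ℂ) * ψ (n : ZMod r)‖ ≤ E) (i : ℕ) :
    ‖∑ p ∈ PP P, ((((p : ℝ) / P) ^ i : ℝ) : ℂ) * ψ (p : ZMod r)‖ ≤ 4 * E := by
  classical
  have hE : 0 ≤ E := (norm_nonneg _).trans (h P (Nat.div_le_self _ _) le_rfl)
  have hPpos : (0 : ℝ) < P := by exact_mod_cast (by omega : 0 < P)
  set a : ℕ → ℂ := fun n => if n ∈ PP P then (Real.log n : ℂ) * ψ (n : ZMod r) else 0 with ha
  set b : ℕ → ℂ := fun n => if n ∈ PP P then ψ (n : ZMod r) else 0 with hb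
  set Θ : ℕ → ℂ := fun y =>
    ∑ n ∈ (Ioc 0 y).filter (fun n => R5 n), (lp n : ℂ) * ψ (n : ZMod r) with hΘ
  -- partial sums of `a`
  have hA1 : ∀ u, P / 2 ≤ u → u ≤ P → ∑ n ∈ Ioc (P / 2) u, a n = Θ u - Θ (P / 2) := by
    intro u hu1 hu2
    have h1 : ∀ v, Θ v = ∑ n ∈ Ioc 0 v, if R5 n then (lp n : ℂ) * ψ (n : ZMod r) else 0 := by
      intro v
      rw [hΘ]
      exact Finset.sum_filter _ _
    rw [h1 u, h1 (P / 2), ← Finset.sum_Ioc_consecutive _ (Nat.zero_le _) hu1, add_sub_cancel_left]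
    refine Finset.sum_congr rfl fun n hn => ?_
    rw [mem_Ioc] at hn
    rw [ha]
    simp only [mem_PP]
    unfold All.lp
    by_cases hp : n.Prime
    · by_cases h5 : R5 n
      · rw [if_pos ⟨⟨hn.1, hn.2.trans hu2⟩, hp, h5⟩, if_pos h5, if_pos hp]
      · rw [if_neg (fun hh => h5 hh.2.2), if_neg h5]
    · rw [if_neg (fun hh => hp hh.2.1), if_neg hp]
      simp
  have hA2 : ∀ u, ‖∑ n ∈ Ioc (P / 2) u, a n‖ ≤ 2 * E := by
    intro u
    rcases Nat.lt_or_ge u (P / 2) with hu | hu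
    · rw [Finset.Ioc_eq_empty_of_le hu.le, Finset.sum_empty, norm_zero]
      linarith
    · rcases Nat.lt_or_ge P u with hu2 | hu2
      · have h1 : ∑ n ∈ Ioc (P / 2) u, a n = ∑ n ∈ Ioc (P / 2) P, a n := by
          rw [← Finset.sum_Ioc_consecutive a (Nat.div_le_self P 2) hu2.le]
          have h2 : ∑ n ∈ Ioc P u, a n = 0 := by
            apply Finset.sum_eq_zero
            intro n hn
            rw [mem_Ioc] at hn
            rw [ha]
            simp only [mem_PP]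
            exact if_neg (fun hh => by omega)
          rw [h2, add_zero]
        rw [h1, hA1 P (Nat.div_le_self P 2) le_rfl]
        refine (norm_sub_le _ _).trans ?_
        have h3 := h P (Nat.div_le_self P 2) le_rfl
        have h4 := h (P / 2) le_rfl (Nat.div_le_self P 2)
        rw [hΘ]
        simp only
        linarith
      · rw [hA1 u hu hu2]
        refine (norm_sub_le _ _).trans ?_
        have h3 := h u hu hu2
        have h4 := h (P / 2) le_rfl (Nat.div_le_self P 2)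
        rw [hΘ]
        simp only
        linarith
  -- partial sums of `b`
  have hlog : ∀ n : ℕ, P / 2 < n → 1 ≤ Real.log n := by
    intro n hn
    have h1 : (Real.exp 1 : ℝ) ≤ n := by
      have h2 := Real.exp_one_lt_d9
      have h3 : (3 : ℝ) ≤ n := by exact_mod_cast (by omega : 3 ≤ n)
      linarith
    have h4 : (0 : ℝ) < n := lt_of_lt_of_le (Real.exp_pos 1) h1
    rwa [Real.le_log_iff_exp_le h4]
  have hB : ∀ u, ‖∑ n ∈ Ioc (P / 2) u, b n‖ ≤ 2 * E := by
    intro u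
    have h1 := Pool.Agent.Lib.MP_42948a_nt.OM.abel_norm a (fun n => 1 / Real.log n) (2 * E) (P / 2) u
      (fun n hn => by
        have := hlog n hn
        positivity)
      (fun n hn => by
        have h2 := hlog n hn
        have h3 : (0 : ℝ) < n := by exact_mod_cast (by omega : 0 < n)
        apply one_div_le_one_div_of_le (by linarith)
        apply Real.log_le_log h3
        exact_mod_cast (by omega : n ≤ n + 1)) hA2
    have h4 : ∑ n ∈ Ioc (P / 2) u, b n =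
        ∑ n ∈ Ioc (P / 2) u, a n * ((1 / Real.log n : ℝ) : ℂ) := by
      refine Finset.sum_congr rfl fun n hn => ?_
      rw [mem_Ioc] at hn
      have h5 := hlog n hn.1
      have h6 : (Real.log n : ℂ) ≠ 0 := by
        rw [Complex.ofReal_ne_zero]
        linarith
      rw [ha, hb]
      simp only
      split_ifs with hm
      · rw [one_div, Complex.ofReal_inv]
        field_simp
      · simp
    rw [h4]
    refine h1.trans ?_
    have h7 := hlog (P / 2 + 1) (by omega)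
    have h8 : 1 / Real.log ((P / 2 + 1 : ℕ) : ℝ) ≤ 1 := by
      rw [div_le_one (by linarith)]
      exact h7
    calc 2 * E * (1 / Real.log ((P / 2 + 1 : ℕ) : ℝ)) ≤ 2 * E * 1 :=
          mul_le_mul_of_nonneg_left h8 (by linarith)
      _ = 2 * E := mul_one _
  have hB2 : ∀ k, ‖∑ d ∈ range k, b d‖ ≤ 2 * E := by
    intro k
    have h1 : ∑ d ∈ range k, b d = ∑ d ∈ Ioc (P / 2) (k - 1), b d := by
      symm
      apply Finset.sum_subset
      · intro d hd
        rw [mem_Ioc] at hd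
        rw [mem_range]
        omega
      · intro d hd1 hd2
        rw [mem_range] at hd1
        rw [mem_Ioc] at hd2
        rw [hb]
        simp only [mem_PP]
        exact if_neg (fun hh => hd2 ⟨hh.1.1, by omega⟩)
    rw [h1]
    exact hB _
  set w : ℕ → ℝ := fun n => ((min n P : ℕ) / (P : ℝ)) ^ i with hw
  have hwm : Monotone w := by
    intro m n hmn
    rw [hw]
    simp only
    apply pow_le_pow_left₀ (by positivity)
    apply div_le_div_of_nonneg_right _ hPpos.le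
    exact_mod_cast min_le_min_right P hmn
  have h9 := Pool.Agent.Lib.MP_2a816b_nt.abel_sum b w (2 * E) hwm (by positivity) hB2 (P + 1)
  have h10 : ∑ p ∈ PP P, ((((p : ℝ) / P) ^ i : ℝ) : ℂ) * ψ (p : ZMod r) =
      ∑ d ∈ range (P + 1), (w d : ℂ) * b d := by
    have h11 : ∑ d ∈ range (P + 1), (w d : ℂ) * b d =
        ∑ d ∈ PP P, (w d : ℂ) * b d := by
      symm
      apply Finset.sum_subset
      · intro d hd
        rw [mem_PP] at hd
        rw [mem_range]
        omega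
      · intro d _ hd2
        rw [hb]
        simp only
        rw [if_neg hd2, mul_zero]
    rw [h11]
    refine Finset.sum_congr rfl fun p hp => ?_
    have hp' := mem_PP.1 hp
    rw [hb, hw]
    simp only
    rw [if_pos hp, min_eq_left hp'.1.2]
  rw [h10]
  refine h9.trans ?_
  have h12 : w (P + 1) = 1 := by
    rw [hw]
    simp only
    rw [min_eq_right (by omega), div_self hPpos.ne', one_pow]
  rw [h12]
  linarith

theorem small_primes : ∃ P₀ : ℕ, ∀ P : ℕ, P₀ ≤ P → ∀ r : ℕ, 0 < r → (r : ℝ) ≤ Real.log P ^ 9 →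
    ∀ ψ : DirichletCharacter ℂ r, Gnr ψ → ∀ i : ℕ,
    ‖∑ p ∈ PP P, ((((p : ℝ) / P) ^ i : ℝ) : ℂ) * ψ (p : ZMod r)‖ ≤ P / Real.log P ^ 10 := by
  obtain ⟨y₀, hy₀⟩ := sw 30 10
  refine ⟨max (max (2 * y₀ + 2) 6) ⌈Real.exp 5120⌉₊, ?_⟩
  intro P hP r hr hrP ψ hψ i
  have hP1 : 2 * y₀ + 2 ≤ P := (le_max_left _ _).trans ((le_max_left _ _).trans hP)
  have hP2 : 6 ≤ P := (le_max_right _ _).trans ((le_max_left _ _).trans hP)
  have hP3 : Real.exp 5120 ≤ P := by
    refine (Nat.le_ceil _).trans ?_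
    exact_mod_cast (le_max_right _ _).trans hP
  have hPpos : (0 : ℝ) < P := lt_of_lt_of_le (Real.exp_pos _) hP3
  set Λ : ℝ := Real.log P with hΛ
  have hΛ1 : 5120 ≤ Λ := by
    rw [hΛ, Real.le_log_iff_exp_le hPpos]
    exact hP3
  have hΛ0 : 0 < Λ := by linarith
  -- the bound for `Θ`
  have hTheta : ∀ y : ℕ, P / 2 ≤ y → y ≤ P →
      ‖∑ n ∈ (Ioc 0 y).filter (fun n => R5 n), (lp n : ℂ) * ψ (n : ZMod r)‖ ≤
        5 * r * (P / (Λ / 2) ^ 30) := by
    intro y hy1 hy2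
    have hyy : y₀ ≤ y := by omega
    have hypos : (0 : ℝ) < y := by exact_mod_cast (by omega : 0 < y)
    have hsq : P ≤ y * y := by
      have h1 : P ≤ 2 * y + 1 := by omega
      have h2 : 3 ≤ y := by omega
      nlinarith
    have hlogy : Λ / 2 ≤ Real.log y := by
      have h1 : Real.log P ≤ Real.log ((y : ℝ) * y) := by
        apply Real.log_le_log hPpos
        exact_mod_cast hsq
      rw [Real.log_mul hypos.ne' hypos.ne'] at h1
      rw [hΛ]
      linarith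
    have hmod : ((5 * r : ℕ) : ℝ) ≤ Real.log y ^ 10 := by
      have h1 : (Λ / 2) ^ 10 ≤ Real.log y ^ 10 := pow_le_pow_left₀ (by linarith) hlogy 10
      have h2 : 5 * Λ ^ 9 ≤ (Λ / 2) ^ 10 := by
        have h3 : (Λ / 2) ^ 10 = Λ ^ 9 * (Λ / 1024) := by ring
        rw [h3]
        have h4 : (5 : ℝ) ≤ Λ / 1024 := by
          rw [le_div_iff₀ (by norm_num)]
          linarith
        have h5 : 0 ≤ Λ ^ 9 := by positivity
        nlinarith
      push_cast
      linarith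
    have hE : (0 : ℝ) ≤ P / (Λ / 2) ^ 30 := by positivity
    refine SmP_theta r hr ψ hψ y _ ?_ hE
    intro c hc
    refine (hy₀ y hyy (5 * r) (by omega) hmod c hc).trans ?_
    have h6 : (Λ / 2) ^ 30 ≤ Real.log y ^ 30 := pow_le_pow_left₀ (by linarith) hlogy 30
    have h7 : (y : ℝ) ≤ P := by exact_mod_cast hy2
    exact div_le_div₀ hPpos.le h7 (by positivity) h6
  refine (SmP_abel P r hP2 ψ _ hTheta i).trans ?_
  have h1 : 4 * (5 * (r : ℝ) * (P / (Λ / 2) ^ 30)) ≤ 4 * (5 * Λ ^ 9 * (P / (Λ / 2) ^ 30)) := by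
    have h2 : (0 : ℝ) ≤ P / (Λ / 2) ^ 30 := by positivity
    have h3 := mul_le_mul_of_nonneg_right hrP h2
    linarith
  refine h1.trans ?_
  have h4 : 4 * (5 * Λ ^ 9 * (P / (Λ / 2) ^ 30)) = (20 * 2 ^ 30 / Λ ^ 11) * (P / Λ ^ 10) := by
    field_simp
    ring
  rw [h4]
  have h5 : 20 * 2 ^ 30 / Λ ^ 11 ≤ 1 := by
    rw [div_le_one (by positivity)]
    have h6 : (5120 : ℝ) ^ 11 ≤ Λ ^ 11 := pow_le_pow_left₀ (by norm_num) hΛ1 11
    refine le_trans ?_ h6
    norm_num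
  have h7 : (0 : ℝ) ≤ P / Λ ^ 10 := by positivity
  calc (20 * 2 ^ 30 / Λ ^ 11) * (P / Λ ^ 10) ≤ 1 * (P / Λ ^ 10) :=
        mul_le_mul_of_nonneg_right h5 h7
    _ = P / Λ ^ 10 := one_mul _

end Pool.Agent.Lib.MP_d57abb_nt.KT
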