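import Mathlib
import Pool.Agent.Lib.MP_d57abb_nt.KT.SmP
import Pool.Agent.Lib.MP_d57abb_nt.KT.SmN
import Pool.Agent.Lib.MP_d57abb_nt.KT.CntN
import Pool.Agent.Lib.MP_d57abb_nt.KT.CntP

/-!
# JOB Small: generic characters of small conductor

`SC P (gi W P i) ψ k = ∑_{m ≤ P, (m,k)=1} fN m (m/P)^i ψ m = (1/#PP) ∑_{p ∈ PP, (p,k)=1} (p/P)^i ψ p - (1/#NN) ∑_{m ∈ NN, (m,k) = 1} (m/P)^i ψ m` (`PP, NN ⊆ Icc 1 P`).
First sum: drop the condition `(p, k) = 1`: the primes `p ∈ PP` dividing `k` are `> P/2`, and `k ≤ K P`; two different ones would give `(P/2)² < p p' ≤ k ≤ K P`, impossible for `P ≥ 4 K`..: so there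
is at most one, and the error is `≤ 1/#PP`.  `small_primes`: `≤ (P/Λ^10)/#PP ≤ 5/Λ^9` (`PP_lower`: `P/#PP ≤ 5 Λ`).  Second: `√P/#NN ≤ 8 W/(φ(W) √P)` (`small_model`, `NN_lower`).
Total `≤ 5/Λ^9 + 5 Λ/P + 8 W/√P ≤ 1/Λ^5` for `P` large.
-/

open Finset

namespace Pool.Agent.Lib.MP_d57abb_nt.KT

theorem Small_pick (P : ℕ) (S : Finset ℕ) (hS : S ⊆ Icc 1 P) (k : ℕ) (a : ℝ) (f : ℕ → ℝ) (g : ℕ → ℂ) :
    ∑ m ∈ (Icc 1 P).filter (fun m => m.Coprime k), (((if m ∈ S then a else 0) * f m : ℝ) : ℂ) * g m =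
      (a : ℂ) * ∑ m ∈ S.filter (fun m => m.Coprime k), (f m : ℂ) * g m := by
  have h1 : (a : ℂ) * ∑ m ∈ S.filter (fun m => m.Coprime k), (f m : ℂ) * g m =
      ∑ m ∈ S.filter (fun m => m.Coprime k), (((if m ∈ S then a else 0) * f m : ℝ) : ℂ) * g m := by
    rw [Finset.mul_sum]
    refine Finset.sum_congr rfl fun m hm => ?_
    rw [if_pos (Finset.mem_filter.1 hm).1, Complex.ofReal_mul, mul_assoc]
  rw [h1]
  symm
  refine Finset.sum_subset (Finset.filter_subset_filter _ hS) ?_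
  intro m hm hm'
  have h2 : m ∉ S := fun h => hm' (Finset.mem_filter.2 ⟨h, (Finset.mem_filter.1 hm).2⟩)
  rw [if_neg h2, zero_mul, Complex.ofReal_zero, zero_mul]

theorem Small_split (W P i k r : ℕ) (ψ : DirichletCharacter ℂ r) :
    SC P (gi W P i) ψ k =
      ((1 / ((PP P).card : ℝ) : ℝ) : ℂ) * ∑ m ∈ (PP P).filter (fun m => m.Coprime k),
          ((((m : ℝ) / P) ^ i : ℝ) : ℂ) * ψ (m : ZMod r) -
        ((1 / ((NN W P).card : ℝ) : ℝ) : ℂ) * ∑ m ∈ (NN W P).filter (fun m => m.Coprime k),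
          ((((m : ℝ) / P) ^ i : ℝ) : ℂ) * ψ (m : ZMod r) := by
  have hP : PP P ⊆ Icc 1 P := by
    intro m hm
    have h1 := (mem_PP.1 hm).1
    exact Finset.mem_Icc.2 ⟨by omega, h1.2⟩
  have hN : NN W P ⊆ Icc 1 P := by
    intro m hm
    have h1 := (mem_NN.1 hm).1
    exact Finset.mem_Icc.2 ⟨by omega, h1.2⟩
  rw [← Small_pick P (PP P) hP k _ (fun m => ((m : ℝ) / P) ^ i) (fun m => ψ (m : ZMod r)),
    ← Small_pick P (NN W P) hN k _ (fun m => ((m : ℝ) / P) ^ i) (fun m => ψ (m : ZMod r)),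
    ← Finset.sum_sub_distrib]
  unfold SC gi fN
  refine Finset.sum_congr rfl fun m _ => ?_
  rw [← sub_mul, ← Complex.ofReal_sub, ← sub_mul]

theorem Small_one (P K k : ℕ) (hP : 4 * K ≤ P) (hk : 0 < k) (hkP : k ≤ K * P) :
    ((PP P).filter (fun p => ¬ p.Coprime k)).card ≤ 1 := by
  refine Finset.card_le_one.2 ?_
  intro a ha b hb
  by_contra hab
  obtain ⟨ha1, ha2⟩ := Finset.mem_filter.1 ha
  obtain ⟨hb1, hb2⟩ := Finset.mem_filter.1 hb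
  obtain ⟨⟨haP, _⟩, hap, _⟩ := mem_PP.1 ha1
  obtain ⟨⟨hbP, _⟩, hbp, _⟩ := mem_PP.1 hb1
  have hak : a ∣ k := by
    by_contra h
    exact ha2 ((Nat.Prime.coprime_iff_not_dvd hap).2 h)
  have hbk : b ∣ k := by
    by_contra h
    exact hb2 ((Nat.Prime.coprime_iff_not_dvd hbp).2 h)
  have hcop : a.Coprime b := (Nat.coprime_primes hap hbp).2 hab
  have h1 : a * b ≤ k := Nat.le_of_dvd hk (hcop.mul_dvd_of_dvd_of_dvd hak hbk)
  have h2 : P + 1 ≤ 2 * a := by omega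
  have h3 : P + 1 ≤ 2 * b := by omega
  have h4 : (P + 1) * (P + 1) ≤ (2 * a) * (2 * b) := Nat.mul_le_mul h2 h3
  have h5 : (2 * a) * (2 * b) = 4 * (a * b) := by ring
  have h6 : 4 * (a * b) ≤ 4 * (K * P) := Nat.mul_le_mul_left 4 (h1.trans hkP)
  have h7 : 4 * (K * P) = (4 * K) * P := by ring
  have h8 : (4 * K) * P ≤ P * P := Nat.mul_le_mul_right P hP
  nlinarith

theorem Small_drop (P K k i r : ℕ) (hP : 4 * K ≤ P) (hk : 0 < k) (hkP : k ≤ K * P)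
    (ψ : DirichletCharacter ℂ r) :
    ‖∑ m ∈ (PP P).filter (fun m => m.Coprime k), ((((m : ℝ) / P) ^ i : ℝ) : ℂ) * ψ (m : ZMod r)‖ ≤
      ‖∑ p ∈ PP P, ((((p : ℝ) / P) ^ i : ℝ) : ℂ) * ψ (p : ZMod r)‖ + 1 := by
  have h1 := Finset.sum_filter_add_sum_filter_not (PP P) (fun m => m.Coprime k)
    (fun m => ((((m : ℝ) / P) ^ i : ℝ) : ℂ) * ψ (m : ZMod r))
  have h2 : ‖∑ m ∈ (PP P).filter (fun m => ¬ m.Coprime k),
      ((((m : ℝ) / P) ^ i : ℝ) : ℂ) * ψ (m : ZMod r)‖ ≤ 1 := by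
    refine (norm_sum_le _ _).trans ?_
    have h3 : ∀ m ∈ (PP P).filter (fun m => ¬ m.Coprime k),
        ‖((((m : ℝ) / P) ^ i : ℝ) : ℂ) * ψ (m : ZMod r)‖ ≤ 1 := by
      intro m hm
      have hm1 := (mem_PP.1 (Finset.mem_filter.1 hm).1).1
      rw [norm_mul, Complex.norm_real, Real.norm_eq_abs]
      have hmP : (m : ℝ) / P ≤ 1 := by
        apply div_le_one_of_le₀
        · exact_mod_cast hm1.2
        · positivity
      have h4 : |((m : ℝ) / P) ^ i| ≤ 1 := by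
        rw [abs_of_nonneg (by positivity)]
        exact pow_le_one₀ (by positivity) hmP
      calc |((m : ℝ) / P) ^ i| * ‖ψ (m : ZMod r)‖ ≤ 1 * 1 :=
            mul_le_mul h4 (DirichletCharacter.norm_le_one ψ _) (norm_nonneg _) zero_le_one
        _ = 1 := one_mul 1
    refine (Finset.sum_le_card_nsmul _ _ 1 h3).trans ?_
    rw [nsmul_eq_mul, mul_one]
    exact_mod_cast Small_one P K k hP hk hkP
  have h3 : ∑ m ∈ (PP P).filter (fun m => m.Coprime k), ((((m : ℝ) / P) ^ i : ℝ) : ℂ) * ψ (m : ZMod r) =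
      ∑ p ∈ PP P, ((((p : ℝ) / P) ^ i : ℝ) : ℂ) * ψ (p : ZMod r) -
        ∑ m ∈ (PP P).filter (fun m => ¬ m.Coprime k), ((((m : ℝ) / P) ^ i : ℝ) : ℂ) * ψ (m : ZMod r) :=
    eq_sub_of_add_eq h1
  rw [h3]
  exact (norm_sub_le _ _).trans (add_le_add le_rfl h2)

theorem Small_large (C : ℝ) (hC : 0 < C) : ∃ P₀ : ℕ, ∀ P : ℕ, P₀ ≤ P →
    C * Real.log P ^ 10 ≤ P ∧ 2 ≤ Real.log P := by
  have h1 : ∀ᶠ x : ℝ in Filter.atTop, C * Real.log x ^ 10 ≤ x := by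
    have h2 := (Real.isLittleO_pow_log_id_atTop (n := 10)).bound (show (0 : ℝ) < 1 / C by positivity)
    filter_upwards [h2, Filter.eventually_ge_atTop (1 : ℝ)] with x hx hx1
    have hlog : 0 ≤ Real.log x := Real.log_nonneg hx1
    rw [Real.norm_eq_abs, abs_of_nonneg (by positivity), id, Real.norm_eq_abs,
      abs_of_nonneg (by linarith)] at hx
    calc C * Real.log x ^ 10 ≤ C * (1 / C * x) := mul_le_mul_of_nonneg_left hx hC.le
      _ = x := by field_simp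
  have h3 : ∀ᶠ x : ℝ in Filter.atTop, 2 ≤ Real.log x :=
    Real.tendsto_log_atTop.eventually (Filter.eventually_ge_atTop 2)
  have h4 := (tendsto_natCast_atTop_atTop (R := ℝ)).eventually (h1.and h3)
  obtain ⟨P₀, hP₀⟩ := Filter.eventually_atTop.1 h4
  exact ⟨P₀, fun P hP => hP₀ P hP⟩

theorem small_gnr (W K : ℕ) (hW : 0 < W) (h5 : 5 ∣ W) : ∃ P₀ : ℕ, ∀ P : ℕ, P₀ ≤ P → ∀ r : ℕ, 0 < r →
    (r : ℝ) ≤ Real.log P ^ 9 → ∀ ψ : DirichletCharacter ℂ r, Gnr ψ → ∀ i k : ℕ, 0 < k → k ≤ K * P →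
    ‖SC P (gi W P i) ψ k‖ ≤ 1 / Real.log P ^ 5 := by
  obtain ⟨P1, h1⟩ := small_primes
  obtain ⟨P2, h2⟩ := small_model W K hW
  obtain ⟨P3, h3⟩ := PP_lower
  obtain ⟨P4, h4⟩ := NN_lower W hW h5
  obtain ⟨P5, h5'⟩ := Small_large (576 * (W : ℝ) ^ 2 + 15) (by positivity)
  refine ⟨max P1 (max P2 (max P3 (max P4 (max P5 (max (4 * K) 1))))), ?_⟩
  intro P hP r hr hrP ψ hψ i k hk hkP
  simp only [max_le_iff] at hP
  obtain ⟨e1, e2, e3, e4, e5, e6, e7⟩ := hP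
  have a1 := h1 P e1 r hr hrP ψ hψ i
  have a2 := h2 P e2 r hr hrP ψ hψ i k hk hkP
  have a3 := h3 P e3
  have a4 := h4 P e4
  obtain ⟨a5, a6⟩ := h5' P e5
  have a7 := Small_drop P K k i r e6 hk hkP ψ
  set Λ := Real.log P with hΛ
  have hPpos : (0 : ℝ) < P := by exact_mod_cast e7
  have hWpos : (0 : ℝ) < W := by exact_mod_cast hW
  have hW1 : (1 : ℝ) ≤ W := by exact_mod_cast hW
  have hΛ0 : 0 < Λ := by linarith
  have hΛ1 : 1 ≤ Λ := by linarith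
  have hφ : (1 : ℝ) ≤ (W.totient : ℝ) := by exact_mod_cast Nat.totient_pos.2 hW
  have hPPpos : (0 : ℝ) < ((PP P).card : ℝ) := lt_of_lt_of_le (by positivity) a3
  have hNNge : (P : ℝ) / (8 * W) ≤ ((NN W P).card : ℝ) := by
    refine le_trans ?_ a4
    apply div_le_div_of_nonneg_right _ (by positivity)
    nlinarith
  have hNNpos : (0 : ℝ) < ((NN W P).card : ℝ) := lt_of_lt_of_le (by positivity) hNNge
  have b1 : 1 / ((PP P).card : ℝ) ≤ 5 * Λ / P := by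
    rw [div_le_div_iff₀ hPPpos hPpos]
    have := (div_le_iff₀ (show (0 : ℝ) < 5 * Λ by positivity)).1 a3
    linarith
  have b2 : 1 / ((NN W P).card : ℝ) ≤ 8 * W / P := by
    rw [div_le_div_iff₀ hNNpos hPpos]
    have := (div_le_iff₀ (show (0 : ℝ) < 8 * W by positivity)).1 hNNge
    linarith
  rw [Small_split]
  refine (norm_sub_le _ _).trans ?_
  rw [norm_mul, norm_mul, Complex.norm_real, Complex.norm_real, Real.norm_eq_abs, Real.norm_eq_abs,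
    abs_of_nonneg (show (0 : ℝ) ≤ 1 / ((PP P).card : ℝ) by positivity),
    abs_of_nonneg (show (0 : ℝ) ≤ 1 / ((NN W P).card : ℝ) by positivity)]
  have c1 : 1 / ((PP P).card : ℝ) * ‖∑ m ∈ (PP P).filter (fun m => m.Coprime k),
      ((((m : ℝ) / P) ^ i : ℝ) : ℂ) * ψ (m : ZMod r)‖ ≤ 5 * Λ / P * (P / Λ ^ 10 + 1) := by
    refine mul_le_mul b1 (a7.trans (add_le_add a1 le_rfl)) (norm_nonneg _) (by positivity)
  have c2 : 1 / ((NN W P).card : ℝ) * ‖∑ m ∈ (NN W P).filter (fun m => m.Coprime k),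
      ((((m : ℝ) / P) ^ i : ℝ) : ℂ) * ψ (m : ZMod r)‖ ≤ 8 * W / P * Real.sqrt P := by
    refine mul_le_mul b2 a2 (norm_nonneg _) (by positivity)
  refine (add_le_add c1 c2).trans ?_
  have hs : Real.sqrt P * Real.sqrt P = P := Real.mul_self_sqrt hPpos.le
  have hspos : 0 < Real.sqrt P := Real.sqrt_pos.2 hPpos
  have hΛ4 : 15 ≤ Λ ^ 4 := by
    have : (2 : ℝ) ^ 4 ≤ Λ ^ 4 := pow_le_pow_left₀ (by norm_num) a6 4
    linarith
  have hW2 : 0 ≤ (W : ℝ) ^ 2 * Λ ^ 10 := by positivity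
  -- the three terms
  have d1 : 5 * Λ / P * (P / Λ ^ 10) ≤ (1 / 3) / Λ ^ 5 := by
    have e : 5 * Λ / P * (P / Λ ^ 10) = 5 / Λ ^ 9 := by
      field_simp
    rw [e, div_le_div_iff₀ (by positivity) (by positivity)]
    have : Λ ^ 9 = Λ ^ 5 * Λ ^ 4 := by ring
    rw [this]
    nlinarith [show 0 < Λ ^ 5 by positivity]
  have d2 : 5 * Λ / P * 1 ≤ (1 / 3) / Λ ^ 5 := by
    rw [mul_one, div_le_div_iff₀ hPpos (by positivity)]
    have hle : Λ ^ 6 ≤ Λ ^ 10 := pow_le_pow_right₀ hΛ1 (by norm_num)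
    have e : 5 * Λ * Λ ^ 5 = 5 * Λ ^ 6 := by ring
    rw [e]
    nlinarith
  have d3 : 8 * W / P * Real.sqrt P ≤ (1 / 3) / Λ ^ 5 := by
    have e : 8 * (W : ℝ) / P * Real.sqrt P = 8 * W / Real.sqrt P := by
      rw [div_mul_eq_mul_div, div_eq_div_iff hPpos.ne' hspos.ne', mul_assoc, hs]
    rw [e, div_le_div_iff₀ hspos (by positivity)]
    have hsq : (24 * (W : ℝ) * Λ ^ 5) ^ 2 ≤ P := by
      have e2 : (24 * (W : ℝ) * Λ ^ 5) ^ 2 = 576 * (W : ℝ) ^ 2 * Λ ^ 10 := by ring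
      rw [e2]
      nlinarith [show 0 ≤ Λ ^ 10 by positivity]
    have h24 : 24 * (W : ℝ) * Λ ^ 5 ≤ Real.sqrt P := Real.le_sqrt_of_sq_le hsq
    linarith
  have e : 5 * Λ / P * (P / Λ ^ 10 + 1) = 5 * Λ / P * (P / Λ ^ 10) + 5 * Λ / P * 1 := by ring
  rw [e]
  have f : (1 : ℝ) / Λ ^ 5 = (1 / 3) / Λ ^ 5 + (1 / 3) / Λ ^ 5 + (1 / 3) / Λ ^ 5 := by ring
  rw [f]
  exact add_le_add (add_le_add d1 d2) d3

end Pool.Agent.Lib.MP_d57abb_nt.KT
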