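import Mathlib
import Pool.Agent.Lib.MP_9c2ea5_nt.P4

/-!
# JOB Tot: averages of `D / φ(D)`

(1) `D/φ(D) = ∏_{p ∣ D} p/(p-1)` (`MP_9c2ea5_nt.div_totient_eq` in `P4.lean`).  For a prime `p ≥ 3`, `p/(p-1) ≤ 1 + p^(-1/2)` (`√p ≤ p - 1`), and for `p = 2`, `2 ≤ 2 (1 + 2^(-1/2))`; so
`D/φ(D) ≤ 2 ∏_{p ∣ D} (1 + p^(-1/2))` and `∏_{p ∣ D} (1 + p^(-1/2)) = ∑_{T ⊆ primeFactors D} ∏_{p ∈ T} p^(-1/2) ≤ ∑_{d ∣ D} d^(-1/2)` (`Finset.prod_one_add`; `T ↦ ∏ T` is injective into the divisors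
of `D`: `Nat.primeFactors_prod`).
(2) `∑_{D ≤ x} D/φ(D) ≤ 2 ∑_{D ≤ x} ∑_{d ∣ D} d^(-1/2) = 2 ∑_{d ≤ x} d^(-1/2) ⌊x/d⌋ ≤ 2 x ∑_{d ≤ x} d^(-3/2) ≤ C x` (`Real.summable_one_div_nat_rpow`/`Real.summable_nat_rpow_inv` with exponent `3/2`:
take `C = 2 ∑' d^(-3/2)` or use `d^(-3/2) ≤ ..`; the number of multiples of `d` up to `x` is `x / d`: `Nat.Ioc_filter_dvd_card_eq_div`).
(3) `tot_dvd`: `D = p E`, `φ(p E) ≥ (p - 1) φ(E)` (`Nat.totient_super_multiplicative`, `Nat.totient_prime`), so `D/φ(D) ≤ (p/(p-1)) E/φ(E) ≤ 2 E/φ(E)`, and `E ≤ x / p`: use (2) for `x / p`.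
(4) `tot_range`: for `P ≥ 1`, `∑_{D ≤ K P, P ≤ J D} 1/φ(D) = ∑ (D/φ(D)) / D ≤ (J/P) ∑_{D ≤ K P} D/φ(D) ≤ J K C` (the bound `1/D ≤ J/P`).
(5) `tot_range_dvd`: `∑_{D ≤ K P, P ≤ J D} (1/φ(D)) ∑_{p ∣ D, p > w} 1/p ≤ (J/P) ∑_{w < p ≤ K P} (1/p) ∑_{D ≤ K P, p ∣ D} D/φ(D) ≤ (J/P) ∑_{w < p ≤ KP} (1/p) C K P/p ≤ C J K ∑_{n > w} 1/n² ≤ C J K / w`
(`w ≥ 1`; telescoping or `sum_Ioc_inv_sq_le_sub`).
One constant `C` for all statements (take the maximum or prove them in one theorem).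
-/

open Finset

namespace Pool.Agent.Lib.MP_d57abb_nt.KT

private theorem Tot_ratio {p : ℕ} (hp : p.Prime) :
    (p : ℝ) / ((p : ℝ) - 1) ≤ (if p = 2 then 2 else 1) * (1 + (p : ℝ) ^ (-(1 / 2) : ℝ)) := by
  have h2 : (2 : ℝ) ≤ p := by exact_mod_cast hp.two_le
  have h0 : 0 ≤ (p : ℝ) ^ (-(1 / 2) : ℝ) := by positivity
  split_ifs with h
  · have h3 : (p : ℝ) / ((p : ℝ) - 1) = 2 := by
      rw [h]
      norm_num
    rw [h3]
    linarith
  · have h3 : (3 : ℝ) ≤ p := by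
      have h4 : 3 ≤ p := lt_of_le_of_ne hp.two_le (Ne.symm h)
      exact_mod_cast h4
    have hs : 0 < Real.sqrt p := Real.sqrt_pos.2 (by linarith)
    have hs1 : Real.sqrt p ≤ p - 1 := by
      rw [Real.sqrt_le_left (by linarith)]
      nlinarith
    have h4 : (p : ℝ) / ((p : ℝ) - 1) = 1 + 1 / ((p : ℝ) - 1) := by
      have h5 : (p : ℝ) - 1 ≠ 0 := by linarith
      field_simp
      ring
    rw [h4, one_mul, Real.rpow_neg (by positivity), ← Real.sqrt_eq_rpow, ← one_div]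
    have h5 : 1 / ((p : ℝ) - 1) ≤ 1 / Real.sqrt p := one_div_le_one_div_of_le hs hs1
    linarith

private theorem Tot_one {D : ℕ} (hD : 0 < D) :
    (D : ℝ) / (D.totient : ℝ) ≤ 2 * ∑ d ∈ D.divisors, (d : ℝ) ^ (-(1 / 2) : ℝ) := by
  rw [MP_9c2ea5_nt.div_totient_eq hD]
  have h1 : ∏ p ∈ D.primeFactors, (p : ℝ) / ((p : ℝ) - 1) ≤
      ∏ p ∈ D.primeFactors, ((if p = 2 then (2 : ℝ) else 1) * (1 + (p : ℝ) ^ (-(1 / 2) : ℝ))) := by
    refine Finset.prod_le_prod (fun p hp => ?_)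
      (fun p hp => Tot_ratio (Nat.prime_of_mem_primeFactors hp))
    have h2 : (2 : ℝ) ≤ p := by exact_mod_cast (Nat.prime_of_mem_primeFactors hp).two_le
    exact div_nonneg (by linarith) (by linarith)
  refine h1.trans ?_
  rw [Finset.prod_mul_distrib]
  have h2 : ∏ p ∈ D.primeFactors, (if p = 2 then (2 : ℝ) else 1) ≤ 2 := by
    rw [Finset.prod_ite_eq']
    split_ifs <;> norm_num
  have h3 : ∏ p ∈ D.primeFactors, (1 + (p : ℝ) ^ (-(1 / 2) : ℝ)) ≤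
      ∑ d ∈ D.divisors, (d : ℝ) ^ (-(1 / 2) : ℝ) := by
    rw [Finset.prod_one_add]
    have h4 : ∀ T ∈ D.primeFactors.powerset, ∏ p ∈ T, (p : ℝ) ^ (-(1 / 2) : ℝ) =
        ((∏ p ∈ T, p : ℕ) : ℝ) ^ (-(1 / 2) : ℝ) := by
      intro T _
      rw [Nat.cast_prod, Real.finsetProd_rpow _ _ (fun i _ => Nat.cast_nonneg i)]
    rw [Finset.sum_congr rfl h4]
    have hinj : Set.InjOn (fun T : Finset ℕ => ∏ p ∈ T, p) (D.primeFactors.powerset : Set (Finset ℕ)) := by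
      intro T hT T' hT' h
      have hT1 := Finset.mem_powerset.1 (Finset.mem_coe.1 hT)
      have hT2 := Finset.mem_powerset.1 (Finset.mem_coe.1 hT')
      rw [← Nat.primeFactors_prod (s := T) (fun p hp => Nat.prime_of_mem_primeFactors (hT1 hp)),
        ← Nat.primeFactors_prod (s := T') (fun p hp => Nat.prime_of_mem_primeFactors (hT2 hp))]
      exact congrArg Nat.primeFactors h
    rw [← Finset.sum_image (f := fun d : ℕ => (d : ℝ) ^ (-(1 / 2) : ℝ)) hinj]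
    refine Finset.sum_le_sum_of_subset_of_nonneg ?_ (fun d _ _ => by positivity)
    intro d hd
    obtain ⟨T, hT, rfl⟩ := Finset.mem_image.1 hd
    rw [Nat.mem_divisors]
    exact ⟨(Finset.prod_dvd_prod_of_subset _ _ _ (Finset.mem_powerset.1 hT)).trans
      (Nat.prod_primeFactors_dvd D), hD.ne'⟩
  have h5 : 0 ≤ ∏ p ∈ D.primeFactors, (1 + (p : ℝ) ^ (-(1 / 2) : ℝ)) :=
    Finset.prod_nonneg fun p _ => by positivity
  exact mul_le_mul h2 h3 h5 (by norm_num)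

private theorem Tot_swap (x : ℕ) (g : ℕ → ℝ) :
    ∑ D ∈ Icc 1 x, ∑ d ∈ D.divisors, g d = ∑ d ∈ Icc 1 x, ((x / d : ℕ) : ℝ) * g d := by
  have h1 : ∀ D ∈ Icc 1 x, ∑ d ∈ D.divisors, g d = ∑ d ∈ Icc 1 x, if d ∣ D then g d else 0 := by
    intro D hD
    rw [Finset.mem_Icc] at hD
    rw [← Finset.sum_filter]
    refine Finset.sum_congr ?_ fun _ _ => rfl
    ext d
    rw [Nat.mem_divisors, Finset.mem_filter, Finset.mem_Icc]
    constructor
    · rintro ⟨h2, h3⟩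
      exact ⟨⟨Nat.pos_of_dvd_of_pos h2 hD.1, (Nat.le_of_dvd hD.1 h2).trans hD.2⟩, h2⟩
    · rintro ⟨-, h2⟩
      exact ⟨h2, by omega⟩
  rw [Finset.sum_congr rfl h1, Finset.sum_comm]
  refine Finset.sum_congr rfl fun d _ => ?_
  rw [← Finset.sum_filter, Finset.sum_const, nsmul_eq_mul]
  have h2 : ((Icc 1 x).filter (fun D => d ∣ D)).card = x / d := Nat.Ioc_filter_dvd_card_eq_div x d
  rw [h2]

private theorem Tot_sum : ∃ C : ℝ, 1 ≤ C ∧
    ∀ x : ℕ, ∑ D ∈ Icc 1 x, (D : ℝ) / (D.totient : ℝ) ≤ C * x := by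
  have hs : Summable (fun n : ℕ => (n : ℝ) ^ (-(3 / 2) : ℝ)) :=
    Real.summable_nat_rpow.2 (by norm_num)
  obtain ⟨C0, hC⟩ : ∃ C0 : ℝ, C0 = ∑' n : ℕ, (n : ℝ) ^ (-(3 / 2) : ℝ) := ⟨_, rfl⟩
  have hC0 : 0 ≤ C0 := by
    rw [hC]
    exact tsum_nonneg fun n => by positivity
  refine ⟨2 * C0 + 1, by linarith, fun x => ?_⟩
  calc ∑ D ∈ Icc 1 x, (D : ℝ) / (D.totient : ℝ)
      ≤ ∑ D ∈ Icc 1 x, 2 * ∑ d ∈ D.divisors, (d : ℝ) ^ (-(1 / 2) : ℝ) :=
        Finset.sum_le_sum fun D hD => Tot_one (Finset.mem_Icc.1 hD).1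
    _ = 2 * ∑ d ∈ Icc 1 x, ((x / d : ℕ) : ℝ) * (d : ℝ) ^ (-(1 / 2) : ℝ) := by
        rw [← Finset.mul_sum, Tot_swap]
    _ ≤ 2 * ∑ d ∈ Icc 1 x, (x : ℝ) * (d : ℝ) ^ (-(3 / 2) : ℝ) := by
        refine mul_le_mul_of_nonneg_left (Finset.sum_le_sum fun d hd => ?_) (by norm_num)
        have hd1 : (0 : ℝ) < d := by exact_mod_cast (Finset.mem_Icc.1 hd).1
        have h1 : (d : ℝ) ^ (-(3 / 2) : ℝ) = (d : ℝ)⁻¹ * (d : ℝ) ^ (-(1 / 2) : ℝ) := by
          rw [← Real.rpow_neg_one, ← Real.rpow_add hd1]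
          norm_num
        rw [h1, ← mul_assoc]
        refine mul_le_mul_of_nonneg_right ?_ (by positivity)
        rw [← div_eq_mul_inv]
        exact Nat.cast_div_le
    _ = 2 * x * ∑ d ∈ Icc 1 x, (d : ℝ) ^ (-(3 / 2) : ℝ) := by
        rw [← Finset.mul_sum]
        ring
    _ ≤ 2 * x * C0 := by
        refine mul_le_mul_of_nonneg_left ?_ (by positivity)
        rw [hC]
        exact hs.sum_le_tsum _ (fun n _ => by positivity)
    _ ≤ (2 * C0 + 1) * x := by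
        have : (0 : ℝ) ≤ x := Nat.cast_nonneg x
        nlinarith

private theorem Tot_dvd {C : ℝ} (hC : 1 ≤ C)
    (h : ∀ x : ℕ, ∑ D ∈ Icc 1 x, (D : ℝ) / (D.totient : ℝ) ≤ C * x) (x p : ℕ) (hp : p.Prime) :
    ∑ D ∈ (Icc 1 x).filter (fun D => p ∣ D), (D : ℝ) / (D.totient : ℝ) ≤ 2 * C * x / p := by
  have hp0 : 0 < p := hp.pos
  have h1 : (Icc 1 x).filter (fun D => p ∣ D) = (Icc 1 (x / p)).image (fun E => p * E) := by
    ext D
    rw [Finset.mem_filter, Finset.mem_Icc, Finset.mem_image]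
    constructor
    · rintro ⟨⟨h2, h3⟩, ⟨E, rfl⟩⟩
      refine ⟨E, ?_, rfl⟩
      rw [Finset.mem_Icc]
      refine ⟨Nat.pos_of_ne_zero ?_, (Nat.le_div_iff_mul_le hp0).2 (by rw [mul_comm]; exact h3)⟩
      rintro rfl
      omega
    · rintro ⟨E, hE, rfl⟩
      rw [Finset.mem_Icc] at hE
      have h3 := (Nat.le_div_iff_mul_le hp0).1 hE.2
      exact ⟨⟨Nat.mul_pos hp0 hE.1, by rw [mul_comm]; exact h3⟩, dvd_mul_right p E⟩
  rw [h1, Finset.sum_image (fun a _ b _ hab => Nat.eq_of_mul_eq_mul_left hp0 hab)]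
  have h2 : ∀ E ∈ Icc 1 (x / p), ((p * E : ℕ) : ℝ) / ((p * E).totient : ℝ) ≤
      2 * ((E : ℝ) / (E.totient : ℝ)) := by
    intro E hE
    rw [Finset.mem_Icc] at hE
    have h3 : (p - 1) * E.totient ≤ (p * E).totient := by
      rw [← Nat.totient_prime hp]
      exact Nat.totient_super_multiplicative p E
    have h4 : ((p : ℝ) - 1) * E.totient ≤ ((p * E).totient : ℝ) := by
      have h5 : (((p - 1) * E.totient : ℕ) : ℝ) ≤ ((p * E).totient : ℝ) := by exact_mod_cast h3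
      rw [Nat.cast_mul, Nat.cast_sub hp.one_le, Nat.cast_one] at h5
      exact h5
    have hφ : (0 : ℝ) < E.totient := by exact_mod_cast Nat.totient_pos.2 hE.1
    have hp2 : (2 : ℝ) ≤ p := by exact_mod_cast hp.two_le
    have h6 : (0 : ℝ) < ((p : ℝ) - 1) * E.totient := mul_pos (by linarith) hφ
    have hE0 : (0 : ℝ) ≤ E := Nat.cast_nonneg E
    calc ((p * E : ℕ) : ℝ) / ((p * E).totient : ℝ)
        ≤ ((p * E : ℕ) : ℝ) / (((p : ℝ) - 1) * E.totient) :=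
          div_le_div_of_nonneg_left (Nat.cast_nonneg _) h6 h4
      _ ≤ (2 * ((p : ℝ) - 1) * E) / (((p : ℝ) - 1) * E.totient) := by
          refine div_le_div_of_nonneg_right ?_ h6.le
          rw [Nat.cast_mul]
          nlinarith
      _ = 2 * ((E : ℝ) / (E.totient : ℝ)) := by
          have h7 : (p : ℝ) - 1 ≠ 0 := by linarith
          field_simp
  refine (Finset.sum_le_sum h2).trans ?_
  rw [← Finset.mul_sum]
  have h3 := h (x / p)
  have h4 : ((x / p : ℕ) : ℝ) ≤ (x : ℝ) / p := Nat.cast_div_le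
  have h5 : 2 * ∑ E ∈ Icc 1 (x / p), (E : ℝ) / (E.totient : ℝ) ≤ 2 * (C * ((x : ℝ) / p)) := by
    have h6 : C * ((x / p : ℕ) : ℝ) ≤ C * ((x : ℝ) / p) := mul_le_mul_of_nonneg_left h4 (by linarith)
    linarith
  refine h5.trans (le_of_eq ?_)
  ring

private theorem Tot_inv {J P D : ℕ} (hP : 1 ≤ P) (hD : 1 ≤ D) (h : P ≤ J * D) :
    1 / (D.totient : ℝ) ≤ (J : ℝ) / P * ((D : ℝ) / (D.totient : ℝ)) := by
  have hD0 : (0 : ℝ) < D := by exact_mod_cast hD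
  have hP0 : (0 : ℝ) < P := by exact_mod_cast hP
  have h1 : (P : ℝ) ≤ J * D := by exact_mod_cast h
  have hφ : (0 : ℝ) ≤ (D.totient : ℝ)⁻¹ := by positivity
  have h2 : (1 : ℝ) ≤ (J : ℝ) / P * D := by
    rw [div_mul_eq_mul_div, le_div_iff₀ hP0, one_mul]
    exact h1
  calc 1 / (D.totient : ℝ) = 1 * (D.totient : ℝ)⁻¹ := by rw [one_mul, one_div]
    _ ≤ ((J : ℝ) / P * D) * (D.totient : ℝ)⁻¹ := mul_le_mul_of_nonneg_right h2 hφ
    _ = (J : ℝ) / P * ((D : ℝ) / (D.totient : ℝ)) := by rw [div_eq_mul_inv (D : ℝ)]; ring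

private theorem Tot_range {C : ℝ}
    (h : ∀ x : ℕ, ∑ D ∈ Icc 1 x, (D : ℝ) / (D.totient : ℝ) ≤ C * x) (K J P : ℕ) (hP : 1 ≤ P) :
    ∑ D ∈ (Icc 1 (K * P)).filter (fun D => P ≤ J * D), 1 / (D.totient : ℝ) ≤ C * J * K := by
  have hP0 : (0 : ℝ) < P := by exact_mod_cast hP
  calc ∑ D ∈ (Icc 1 (K * P)).filter (fun D => P ≤ J * D), 1 / (D.totient : ℝ)
      ≤ ∑ D ∈ (Icc 1 (K * P)).filter (fun D => P ≤ J * D),
          (J : ℝ) / P * ((D : ℝ) / (D.totient : ℝ)) := by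
        refine Finset.sum_le_sum fun D hD => ?_
        rw [Finset.mem_filter, Finset.mem_Icc] at hD
        exact Tot_inv hP hD.1.1 hD.2
    _ ≤ ∑ D ∈ Icc 1 (K * P), (J : ℝ) / P * ((D : ℝ) / (D.totient : ℝ)) :=
        Finset.sum_le_sum_of_subset_of_nonneg (Finset.filter_subset _ _)
          (fun D _ _ => by positivity)
    _ = (J : ℝ) / P * ∑ D ∈ Icc 1 (K * P), (D : ℝ) / (D.totient : ℝ) := by rw [Finset.mul_sum]
    _ ≤ (J : ℝ) / P * (C * ((K * P : ℕ) : ℝ)) :=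
        mul_le_mul_of_nonneg_left (h (K * P)) (by positivity)
    _ = C * J * K := by
        rw [Nat.cast_mul]
        field_simp

private theorem Tot_range_dvd {C : ℝ} (hC : 1 ≤ C)
    (h : ∀ x p : ℕ, p.Prime → ∑ D ∈ (Icc 1 x).filter (fun D => p ∣ D),
      (D : ℝ) / (D.totient : ℝ) ≤ C * x / p) (K J P w : ℕ) (hP : 1 ≤ P) (hw : 1 ≤ w) :
    ∑ D ∈ (Icc 1 (K * P)).filter (fun D => P ≤ J * D),
      1 / (D.totient : ℝ) * ∑ p ∈ D.primeFactors.filter (fun p => w < p), 1 / (p : ℝ) ≤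
      C * J * K / w := by
  have hP0 : (0 : ℝ) < P := by exact_mod_cast hP
  have hw0 : (0 : ℝ) < w := by exact_mod_cast hw
  have hnn : ∀ D : ℕ, (0 : ℝ) ≤ ∑ p ∈ D.primeFactors.filter (fun p => w < p), 1 / (p : ℝ) :=
    fun D => Finset.sum_nonneg fun p _ => by positivity
  have hsw : ∑ D ∈ Icc 1 (K * P), (D : ℝ) / (D.totient : ℝ) *
      ∑ p ∈ D.primeFactors.filter (fun p => w < p), 1 / (p : ℝ) =
      ∑ p ∈ (Ioc w (K * P)).filter (fun p => p.Prime), 1 / (p : ℝ) *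
        ∑ D ∈ (Icc 1 (K * P)).filter (fun D => p ∣ D), (D : ℝ) / (D.totient : ℝ) := by
    have h1 : ∀ D ∈ Icc 1 (K * P), (D : ℝ) / (D.totient : ℝ) *
        ∑ p ∈ D.primeFactors.filter (fun p => w < p), 1 / (p : ℝ) =
        ∑ p ∈ (Ioc w (K * P)).filter (fun p => p.Prime),
          if p ∣ D then 1 / (p : ℝ) * ((D : ℝ) / (D.totient : ℝ)) else 0 := by
      intro D hD
      rw [Finset.mem_Icc] at hD
      rw [← Finset.sum_filter, Finset.mul_sum]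
      refine Finset.sum_congr ?_ fun p _ => mul_comm _ _
      ext p
      rw [Finset.mem_filter, Finset.mem_filter, Finset.mem_filter, Finset.mem_Ioc,
        Nat.mem_primeFactors]
      constructor
      · rintro ⟨⟨h2, h3, h4⟩, h5⟩
        exact ⟨⟨⟨h5, (Nat.le_of_dvd hD.1 h3).trans hD.2⟩, h2⟩, h3⟩
      · rintro ⟨⟨⟨h2, h3⟩, h4⟩, h5⟩
        exact ⟨⟨h4, h5, by omega⟩, h2⟩
    rw [Finset.sum_congr rfl h1, Finset.sum_comm]
    refine Finset.sum_congr rfl fun p _ => ?_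
    rw [← Finset.sum_filter, Finset.mul_sum]
  have hsq : ∑ p ∈ Ioc w (K * P), ((p : ℝ) ^ 2)⁻¹ ≤ 1 / w := by
    rcases le_total w (K * P) with h1 | h1
    · have h2 := sum_Ioc_inv_sq_le_sub (α := ℝ) (by omega : w ≠ 0) h1
      have h3 : (0 : ℝ) ≤ (((K * P : ℕ) : ℝ))⁻¹ := by positivity
      rw [one_div]
      linarith
    · rw [Finset.Ioc_eq_empty (by omega), Finset.sum_empty]
      positivity
  calc ∑ D ∈ (Icc 1 (K * P)).filter (fun D => P ≤ J * D),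
      1 / (D.totient : ℝ) * ∑ p ∈ D.primeFactors.filter (fun p => w < p), 1 / (p : ℝ)
      ≤ ∑ D ∈ (Icc 1 (K * P)).filter (fun D => P ≤ J * D),
          (J : ℝ) / P * ((D : ℝ) / (D.totient : ℝ) *
            ∑ p ∈ D.primeFactors.filter (fun p => w < p), 1 / (p : ℝ)) := by
        refine Finset.sum_le_sum fun D hD => ?_
        rw [Finset.mem_filter, Finset.mem_Icc] at hD
        rw [← mul_assoc]
        exact mul_le_mul_of_nonneg_right (Tot_inv hP hD.1.1 hD.2) (hnn D)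
    _ ≤ ∑ D ∈ Icc 1 (K * P), (J : ℝ) / P * ((D : ℝ) / (D.totient : ℝ) *
          ∑ p ∈ D.primeFactors.filter (fun p => w < p), 1 / (p : ℝ)) :=
        Finset.sum_le_sum_of_subset_of_nonneg (Finset.filter_subset _ _)
          (fun D _ _ => mul_nonneg (by positivity) (mul_nonneg (by positivity) (hnn D)))
    _ = (J : ℝ) / P * ∑ p ∈ (Ioc w (K * P)).filter (fun p => p.Prime), 1 / (p : ℝ) *
          ∑ D ∈ (Icc 1 (K * P)).filter (fun D => p ∣ D), (D : ℝ) / (D.totient : ℝ) := by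
        rw [← Finset.mul_sum, hsw]
    _ ≤ (J : ℝ) / P * ∑ p ∈ (Ioc w (K * P)).filter (fun p => p.Prime),
          C * K * P * ((p : ℝ) ^ 2)⁻¹ := by
        refine mul_le_mul_of_nonneg_left (Finset.sum_le_sum fun p hp => ?_) (by positivity)
        rw [Finset.mem_filter, Finset.mem_Ioc] at hp
        have h1 := h (K * P) p hp.2
        have hp0 : (0 : ℝ) < p := by exact_mod_cast hp.2.pos
        calc 1 / (p : ℝ) * ∑ D ∈ (Icc 1 (K * P)).filter (fun D => p ∣ D),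
              (D : ℝ) / (D.totient : ℝ) ≤ 1 / (p : ℝ) * (C * ((K * P : ℕ) : ℝ) / p) :=
              mul_le_mul_of_nonneg_left h1 (by positivity)
          _ = C * K * P * ((p : ℝ) ^ 2)⁻¹ := by
              rw [Nat.cast_mul]
              field_simp
    _ ≤ (J : ℝ) / P * (C * K * P * ∑ p ∈ Ioc w (K * P), ((p : ℝ) ^ 2)⁻¹) := by
        rw [← Finset.mul_sum]
        refine mul_le_mul_of_nonneg_left (mul_le_mul_of_nonneg_left ?_ (by positivity))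
          (by positivity)
        exact Finset.sum_le_sum_of_subset_of_nonneg (Finset.filter_subset _ _)
          (fun p _ _ => by positivity)
    _ ≤ (J : ℝ) / P * (C * K * P * (1 / w)) := by
        refine mul_le_mul_of_nonneg_left (mul_le_mul_of_nonneg_left hsq (by positivity))
          (by positivity)
    _ = C * J * K / w := by
        field_simp

theorem tot : ∃ C : ℝ, 1 ≤ C ∧
    (∀ x : ℕ, ∑ D ∈ Icc 1 x, (D : ℝ) / (D.totient : ℝ) ≤ C * x) ∧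
    (∀ x p : ℕ, p.Prime → ∑ D ∈ (Icc 1 x).filter (fun D => p ∣ D), (D : ℝ) / (D.totient : ℝ) ≤ C * x / p) ∧
    (∀ K J P : ℕ, 1 ≤ P → ∑ D ∈ (Icc 1 (K * P)).filter (fun D => P ≤ J * D), 1 / (D.totient : ℝ) ≤ C * J * K) ∧
    (∀ K J P w : ℕ, 1 ≤ P → 1 ≤ w → ∑ D ∈ (Icc 1 (K * P)).filter (fun D => P ≤ J * D),
      1 / (D.totient : ℝ) * ∑ p ∈ D.primeFactors.filter (fun p => w < p), 1 / (p : ℝ) ≤ C * J * K / w) := by
  obtain ⟨C, hC, h⟩ := Tot_sum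
  have h2 := Tot_dvd hC h
  have h1 : ∀ x : ℕ, ∑ D ∈ Icc 1 x, (D : ℝ) / (D.totient : ℝ) ≤ 2 * C * x := by
    intro x
    have h3 := h x
    have h4 : 0 ≤ C * (x : ℝ) := mul_nonneg (by linarith) (Nat.cast_nonneg x)
    linarith
  exact ⟨2 * C, by linarith, h1, h2, Tot_range h1, Tot_range_dvd (by linarith) h2⟩

end Pool.Agent.Lib.MP_d57abb_nt.KT
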