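import Mathlib
import Pool.Agent.Lib.MP_d57abb_nt.KT.FourA
import Pool.Agent.Lib.MP_d57abb_nt.KT.Small
import Pool.Agent.Lib.MP_d57abb_nt.KT.Tot

/-!
# JOB FourB: the fourth moment, generic characters of small conductor

`Λ = log P`, `R0 P = ⌈Λ^8⌉₊ ≤ Λ^8 + 1 ≤ Λ^9` for `P` large.  For `r ≤ R0 P`, `r ∣ D ≤ K P`, `k = D / r` (`0 < k ≤ K P`), `ψ` generic: `‖SC‖ ≤ 1/Λ^5` (`small_gnr`), so `‖SC‖^4 ≤ Λ^(-20)`.  The number of the `(r, ψ)` with
`r ≤ R0 P` is at most `∑_{r ≤ R0} #(prim r) ≤ R0 · R0 ≤ Λ^18` (`card_allc_le`, `prim r ⊆ allc r`).  So the inner double sum is `≤ Λ^(-2)`, and the total is `≤ Λ^(-2) ∑_{D} 1/φ(D) ≤ C J K Λ^(-2) ≤ δ` (`tot`, third part).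
-/

open Finset

namespace Pool.Agent.Lib.MP_d57abb_nt.KT

open Classical in
theorem part_two (W K J : ℕ) (hW : 0 < W) (h5 : 5 ∣ W) (δ : ℝ) (hδ : 0 < δ) : ∃ P₀ : ℕ, ∀ P : ℕ, P₀ ≤ P → ∀ i : ℕ,
    ∑ D ∈ (Icc 1 (K * P)).filter (fun D => P ≤ J * D), 1 / (D.totient : ℝ) * ∑ r ∈ D.divisors.filter (fun r => ¬ R0 P < r),
      ∑ ψ ∈ (prim r).filter (fun ψ => Gnr ψ), ‖SC P (gi W P i) ψ (D / r)‖ ^ 4 ≤ δ := by
  obtain ⟨P₁, hP₁⟩ := small_gnr W K hW h5
  obtain ⟨C, hC1, -, -, hC, -⟩ := tot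
  set M : ℝ := max 2 (C * J * K / δ) with hM
  refine ⟨max P₁ (max 1 ⌈Real.exp M⌉₊), fun P hP i => ?_⟩
  have hPa : P₁ ≤ P := (le_max_left _ _).trans hP
  have hPb : 1 ≤ P := ((le_max_left _ _).trans (le_max_right _ _)).trans hP
  have hPc : Real.exp M ≤ P := by
    refine (Nat.le_ceil _).trans ?_
    exact_mod_cast ((le_max_right _ _).trans (le_max_right _ _)).trans hP
  have hP0 : (0 : ℝ) < P := by exact_mod_cast hPb
  have hL : M ≤ Real.log P := (Real.le_log_iff_exp_le hP0).2 hPc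
  set L : ℝ := Real.log P with hLdef
  have hL2 : 2 ≤ L := (le_max_left _ _).trans hL
  have hLJ : C * J * K / δ ≤ L := (le_max_right _ _).trans hL
  have hL0 : 0 < L := by linarith
  have hR0 : (R0 P : ℝ) ≤ L ^ 9 := by
    have h1 : (R0 P : ℝ) < L ^ 8 + 1 := by
      unfold R0
      exact Nat.ceil_lt_add_one (by positivity)
    have h2 : (1 : ℝ) ≤ L ^ 8 := one_le_pow₀ (by linarith)
    have h3 : L ^ 9 = L ^ 8 * L := by ring
    nlinarith
  have hin : ∀ D ∈ (Icc 1 (K * P)).filter (fun D => P ≤ J * D),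
      1 / (D.totient : ℝ) * ∑ r ∈ D.divisors.filter (fun r => ¬ R0 P < r),
        ∑ ψ ∈ (prim r).filter (fun ψ => Gnr ψ), ‖SC P (gi W P i) ψ (D / r)‖ ^ 4 ≤
      1 / (D.totient : ℝ) * (1 / L ^ 2) := by
    intro D hD
    have hD1 := Finset.mem_Icc.1 (Finset.mem_filter.1 hD).1
    refine mul_le_mul_of_nonneg_left ?_ (by positivity)
    have hr : ∀ r ∈ D.divisors.filter (fun r => ¬ R0 P < r),
        ∑ ψ ∈ (prim r).filter (fun ψ => Gnr ψ), ‖SC P (gi W P i) ψ (D / r)‖ ^ 4 ≤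
          L ^ 9 * (1 / L ^ 20) := by
      intro r hr
      rw [Finset.mem_filter, Nat.mem_divisors, not_lt] at hr
      obtain ⟨⟨hrD, hD0⟩, hr2⟩ := hr
      have hr0 : 0 < r := Nat.pos_of_dvd_of_pos hrD (by omega)
      have hrL : (r : ℝ) ≤ L ^ 9 := le_trans (by exact_mod_cast hr2) hR0
      have hk : 0 < D / r := Nat.div_pos (Nat.le_of_dvd (by omega) hrD) hr0
      have hk2 : D / r ≤ K * P := (Nat.div_le_self _ _).trans hD1.2
      have hψ : ∀ ψ ∈ (prim r).filter (fun ψ => Gnr ψ),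
          ‖SC P (gi W P i) ψ (D / r)‖ ^ 4 ≤ 1 / L ^ 20 := by
        intro ψ hψ
        have h1 := hP₁ P hPa r hr0 hrL ψ (Finset.mem_filter.1 hψ).2 i (D / r) hk hk2
        calc ‖SC P (gi W P i) ψ (D / r)‖ ^ 4 ≤ (1 / L ^ 5) ^ 4 :=
              pow_le_pow_left₀ (norm_nonneg _) h1 4
          _ = 1 / L ^ 20 := by
            rw [div_pow, one_pow, ← pow_mul]
      refine (Finset.sum_le_card_nsmul _ _ _ hψ).trans ?_
      rw [nsmul_eq_mul]
      refine mul_le_mul_of_nonneg_right ?_ (by positivity)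
      have hc : ((prim r).filter (fun ψ => Gnr ψ)).card ≤ r := by
        refine (Finset.card_filter_le _ _).trans ?_
        unfold prim
        exact (Finset.card_filter_le _ _).trans (card_allc_le r)
      exact le_trans (by exact_mod_cast hc) hrL
    refine (Finset.sum_le_card_nsmul _ _ _ hr).trans ?_
    rw [nsmul_eq_mul]
    have hcard : ((D.divisors.filter (fun r => ¬ R0 P < r)).card : ℝ) ≤ L ^ 9 := by
      refine le_trans ?_ hR0
      have h1 : D.divisors.filter (fun r => ¬ R0 P < r) ⊆ Finset.Icc 1 (R0 P) := by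
        intro r hr
        rw [Finset.mem_filter, Nat.mem_divisors, not_lt] at hr
        rw [Finset.mem_Icc]
        exact ⟨Nat.pos_of_dvd_of_pos hr.1.1 (by omega), hr.2⟩
      have h2 := Finset.card_le_card h1
      rw [Nat.card_Icc] at h2
      exact_mod_cast h2
    calc ((D.divisors.filter (fun r => ¬ R0 P < r)).card : ℝ) * (L ^ 9 * (1 / L ^ 20)) ≤
          L ^ 9 * (L ^ 9 * (1 / L ^ 20)) := mul_le_mul_of_nonneg_right hcard (by positivity)
      _ = 1 / L ^ 2 := by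
        field_simp
  refine (Finset.sum_le_sum hin).trans ?_
  rw [← Finset.sum_mul]
  have h1 := hC K J P hPb
  calc (∑ D ∈ (Icc 1 (K * P)).filter (fun D => P ≤ J * D), 1 / (D.totient : ℝ)) * (1 / L ^ 2) ≤
        C * J * K * (1 / L ^ 2) := mul_le_mul_of_nonneg_right h1 (by positivity)
    _ ≤ δ := by
      rw [mul_one_div, div_le_iff₀ (by positivity)]
      rw [div_le_iff₀ hδ] at hLJ
      have h2 : L ≤ L ^ 2 := by nlinarith
      nlinarith

end Pool.Agent.Lib.MP_d57abb_nt.KT
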