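import Mathlib
import Pool.Agent.Lib.MP_d57abb_nt.KT.CntN
import Pool.Agent.Lib.MP_d57abb_nt.KT.CntP
import Pool.Agent.Lib.MP_2a816b_nt.Basic0

/-!
# JOB Exc: the exceptional characters

Let `r ∈ {1, 5}` and `ψ` modulo `r` with `ψ m = 1` for all `m` with `R5 m`, `m` prime to `r`.  On the support of `fN` (`R5 m`, so `m` is prime to `5`) `ψ m = 1`, so `SC P (gi W P i) ψ k = ∑_{m ≤ P, (m,k)=1} fN m (m/P)^i`
(real).
(1) `F(y) = ∑_{m ≤ y} fN m = #{p ∈ PP : p ≤ y}/#PP - #{m ∈ NN : m ≤ y}/#NN`: for `P/2 ≤ y ≤ P`, `|F(y)| ≤ δ/8 + δ/8` by `PP_dist (δ/8)`, `NN_dist (δ/8)`; for `y < P/2` it is `0`, for `y > P` it is `F(P)`.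
Abel summation with the increasing weights `(min m P / P)^i ≤ 1` (`abel_sum` in `Basic0.lean`): `|∑_m fN m (m/P)^i| ≤ 2 (δ/4) = δ/2`.
(2) The `m` with `(m, k) > 1`: the primes: at most one `p ∈ PP` divides `k` if `P > 4 K` (`(P/2)² < p p' ≤ k ≤ K P`), contribution `≤ 1/#PP ≤ 5 log P/P ≤ δ/2` for `P` large (`PP_lower`).  The `m ∈ NN` with
`(m, k) > 1` have a common prime factor `p` with `k`, `p ∤ W`: their number is `≤ ∑_{p ∣ k, p ∤ W} P/p`, contribution `≤ (P/#NN) ∑_{p ∣ k, p ∤ W} 1/p`.  (`(m/P)^i ≤ 1`.)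
-/

open Finset

namespace Pool.Agent.Lib.MP_d57abb_nt.KT

private theorem Exc_part (S : Finset ℕ) (c : ℝ) (y : ℕ) :
    ∑ d ∈ range (y + 1), (if d ∈ S then c else 0) = ((S.filter (fun n => n ≤ y)).card : ℝ) * c := by
  classical
  rw [Finset.sum_ite_mem]
  have h : range (y + 1) ∩ S = S.filter (fun n => n ≤ y) := by
    ext d
    rw [mem_inter, mem_filter, mem_range]
    constructor
    · rintro ⟨h1, h2⟩
      exact ⟨h2, by omega⟩
    · rintro ⟨h1, h2⟩
      exact ⟨by omega, h1⟩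
  rw [h, sum_const, nsmul_eq_mul]

private theorem Exc_sumF (W P y : ℕ) : ∑ d ∈ range (y + 1), fN W P d =
    (((PP P).filter (fun n => n ≤ y)).card : ℝ) / ((PP P).card : ℝ) -
      (((NN W P).filter (fun n => n ≤ y)).card : ℝ) / ((NN W P).card : ℝ) := by
  unfold fN
  rw [Finset.sum_sub_distrib, Exc_part, Exc_part]
  ring

private theorem Exc_F (W P : ℕ) (δ : ℝ) (hδ : 0 < δ)
    (h1 : ∀ y : ℕ, P / 2 ≤ y → y ≤ P →
      |(((PP P).filter (fun n => n ≤ y)).card : ℝ) / ((PP P).card : ℝ) - (2 * (y : ℝ) / P - 1)| ≤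
        δ / 8)
    (h2 : ∀ y : ℕ, P / 2 ≤ y → y ≤ P →
      |(((NN W P).filter (fun n => n ≤ y)).card : ℝ) / ((NN W P).card : ℝ) -
        (2 * (y : ℝ) / P - 1)| ≤ δ / 8) (k : ℕ) :
    |∑ d ∈ range k, fN W P d| ≤ δ / 4 := by
  rcases Nat.eq_zero_or_pos k with rfl | hk
  · rw [Finset.range_zero, Finset.sum_empty, abs_zero]
    positivity
  obtain ⟨y, rfl⟩ : ∃ y, k = y + 1 := ⟨k - 1, by omega⟩
  rcases Nat.lt_or_ge y (P / 2) with hy | hy
  · have : ∑ d ∈ range (y + 1), fN W P d = 0 := by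
      apply Finset.sum_eq_zero
      intro d hd
      rw [mem_range] at hd
      apply fN_support
      rw [mem_Ioc]
      omega
    rw [this, abs_zero]
    positivity
  · rw [Exc_sumF]
    have key : ∀ z : ℕ, P / 2 ≤ z → z ≤ P →
        |(((PP P).filter (fun n => n ≤ z)).card : ℝ) / ((PP P).card : ℝ) -
          (((NN W P).filter (fun n => n ≤ z)).card : ℝ) / ((NN W P).card : ℝ)| ≤ δ / 4 := by
      intro z hz1 hz2
      have e1 := abs_le.1 (h1 z hz1 hz2)
      have e2 := abs_le.1 (h2 z hz1 hz2)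
      rw [abs_le]
      constructor <;> linarith [e1.1, e1.2, e2.1, e2.2]
    rcases Nat.lt_or_ge P y with hyP | hyP
    · have e1 : (PP P).filter (fun n => n ≤ y) = (PP P).filter (fun n => n ≤ P) := by
        apply Finset.filter_congr
        intro x hx
        have := (mem_PP.1 hx).1.2
        exact ⟨fun _ => this, fun _ => by omega⟩
      have e2 : (NN W P).filter (fun n => n ≤ y) = (NN W P).filter (fun n => n ≤ P) := by
        apply Finset.filter_congr
        intro x hx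
        have := (mem_NN.1 hx).1.2
        exact ⟨fun _ => this, fun _ => by omega⟩
      rw [e1, e2]
      exact key P (Nat.div_le_self _ _) le_rfl
    · exact key y hy hyP

private theorem Exc_abel (W P i : ℕ) (hP : 0 < P) (B : ℝ)
    (hB : ∀ k, |∑ d ∈ range k, fN W P d| ≤ B) :
    ‖∑ m ∈ Icc 1 P, ((gi W P i m : ℝ) : ℂ)‖ ≤ 2 * B := by
  have hP' : (0 : ℝ) < P := by exact_mod_cast hP
  set w : ℕ → ℝ := fun d => (((min d P : ℕ) : ℝ) / P) ^ i with hw
  have hmono : Monotone w := by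
    intro a b hab
    apply pow_le_pow_left₀ (by positivity)
    apply div_le_div_of_nonneg_right _ hP'.le
    exact_mod_cast min_le_min_right P hab
  have hw0 : 0 ≤ w 0 := by rw [hw]; positivity
  have hB0 : 0 ≤ B := (abs_nonneg _).trans (hB 0)
  have h1 := Pool.Agent.Lib.MP_2a816b_nt.abel_sum (fun d => ((fN W P d : ℝ) : ℂ)) w B hmono hw0 (by
    intro k
    rw [← Complex.ofReal_sum, Complex.norm_real, Real.norm_eq_abs]
    exact hB k) (P + 1)
  have h2 : ∑ d ∈ range (P + 1), (w d : ℂ) * ((fN W P d : ℝ) : ℂ) =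
      ∑ m ∈ Icc 1 P, ((gi W P i m : ℝ) : ℂ) := by
    symm
    have h3 : ∀ m ∈ Icc 1 P, ((gi W P i m : ℝ) : ℂ) = (w m : ℂ) * ((fN W P m : ℝ) : ℂ) := by
      intro m hm
      rw [mem_Icc] at hm
      rw [hw]
      simp only [gi, min_eq_left hm.2]
      push_cast
      ring
    rw [Finset.sum_congr rfl h3]
    apply Finset.sum_subset
    · intro m hm
      rw [mem_Icc] at hm
      rw [mem_range]
      omega
    · intro m hm hm'
      rw [mem_range] at hm
      rw [mem_Icc, not_and] at hm'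
      have h0 : m = 0 := by
        by_contra h
        have := hm' (by omega)
        omega
      rw [h0, fN_zero]
      simp
  rw [h2] at h1
  refine h1.trans ?_
  have h4 : w (P + 1) ≤ 1 := by
    rw [hw]
    simp only
    rw [min_eq_right (by omega), div_self hP'.ne', one_pow]
  nlinarith

private theorem Exc_PP (P K k : ℕ) (hk : 0 < k) (hkP : k ≤ K * P) (hPK : 4 * K < P) :
    ((PP P).filter (fun m => ¬ m.Coprime k)).card ≤ 1 := by
  rw [Finset.card_le_one]
  intro a ha b hb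
  rw [mem_filter, mem_PP] at ha hb
  by_contra hab
  have hap := ha.1.2.1
  have hbp := hb.1.2.1
  have h1 : a ∣ k := by
    by_contra h
    exact ha.2 ((Nat.Prime.coprime_iff_not_dvd hap).2 h)
  have h2 : b ∣ k := by
    by_contra h
    exact hb.2 ((Nat.Prime.coprime_iff_not_dvd hbp).2 h)
  have h3 : a * b ∣ k := Nat.Coprime.mul_dvd_of_dvd_of_dvd
    ((Nat.coprime_primes hap hbp).2 hab) h1 h2
  have h4 := Nat.le_of_dvd hk h3
  have h5 : P < 2 * a := by have := ha.1.1.1; omega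
  have h6 : P < 2 * b := by have := hb.1.1.1; omega
  have h7 : P * P < (2 * a) * (2 * b) := Nat.mul_lt_mul'' h5 h6
  have h8 : 4 * (a * b) ≤ 4 * (K * P) := Nat.mul_le_mul_left _ (h4.trans hkP)
  have h9 : P * P < 4 * K * P := by nlinarith
  have h10 := Nat.lt_of_mul_lt_mul_right h9
  omega

private theorem Exc_NN (W P k : ℕ) (hk : 0 < k) :
    (((NN W P).filter (fun m => ¬ m.Coprime k)).card : ℝ) ≤
      P * ∑ p ∈ k.primeFactors.filter (fun p => ¬ p ∣ W), 1 / (p : ℝ) := by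
  classical
  have h1 : (NN W P).filter (fun m => ¬ m.Coprime k) ⊆
      (k.primeFactors.filter (fun p => ¬ p ∣ W)).biUnion
        (fun p => (Ioc 0 P).filter (fun x => p ∣ x)) := by
    intro m hm
    rw [mem_filter, mem_NN] at hm
    obtain ⟨⟨⟨hm1, hm2⟩, hmW, _⟩, hmk⟩ := hm
    obtain ⟨p, hp, hpm, hpk⟩ := Nat.Prime.not_coprime_iff_dvd.1 hmk
    rw [mem_biUnion]
    refine ⟨p, ?_, ?_⟩
    · rw [mem_filter, Nat.mem_primeFactors]
      refine ⟨⟨hp, hpk, hk.ne'⟩, fun hpW => ?_⟩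
      have := Nat.dvd_gcd hpm hpW
      rw [Nat.Coprime] at hmW
      rw [hmW] at this
      exact hp.one_lt.ne' (Nat.dvd_one.1 this)
    · rw [mem_filter, mem_Ioc]
      exact ⟨⟨by omega, hm2⟩, hpm⟩
  have h2 := (card_le_card h1).trans card_biUnion_le
  calc (((NN W P).filter (fun m => ¬ m.Coprime k)).card : ℝ)
      ≤ ((∑ p ∈ k.primeFactors.filter (fun p => ¬ p ∣ W),
          ((Ioc 0 P).filter (fun x => p ∣ x)).card : ℕ) : ℝ) := by exact_mod_cast h2
    _ = ∑ p ∈ k.primeFactors.filter (fun p => ¬ p ∣ W), ((P / p : ℕ) : ℝ) := by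
        push_cast
        apply Finset.sum_congr rfl
        intro p _
        rw [Nat.Ioc_filter_dvd_card_eq_div]
    _ ≤ ∑ p ∈ k.primeFactors.filter (fun p => ¬ p ∣ W), (P : ℝ) * (1 / (p : ℝ)) := by
        apply Finset.sum_le_sum
        intro p _
        rw [mul_one_div]
        exact Nat.cast_div_le
    _ = P * ∑ p ∈ k.primeFactors.filter (fun p => ¬ p ∣ W), 1 / (p : ℝ) := by
        rw [Finset.mul_sum]

private theorem Exc_ite (S : Finset ℕ) (k P : ℕ) (c : ℝ) (hc : 0 ≤ c) :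
    ∑ m ∈ (Icc 1 P).filter (fun m => ¬ m.Coprime k), (if m ∈ S then c else 0) ≤
      ((S.filter (fun m => ¬ m.Coprime k)).card : ℝ) * c := by
  classical
  rw [Finset.sum_ite_mem, sum_const, nsmul_eq_mul]
  apply mul_le_mul_of_nonneg_right _ hc
  have : (Icc 1 P).filter (fun m => ¬ m.Coprime k) ∩ S ⊆ S.filter (fun m => ¬ m.Coprime k) := by
    intro m hm
    rw [mem_inter, mem_filter] at hm
    rw [mem_filter]
    exact ⟨hm.2, hm.1.2⟩
  exact_mod_cast card_le_card this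

theorem exc (W K : ℕ) (hW : 0 < W) (h5 : 5 ∣ W) (δ : ℝ) (hδ : 0 < δ) : ∃ P₀ : ℕ, ∀ P : ℕ, P₀ ≤ P → ∀ r : ℕ,
    (r = 1 ∨ r = 5) → ∀ ψ : DirichletCharacter ℂ r, (∀ m : ℕ, R5 m → m.Coprime r → ψ (m : ZMod r) = 1) →
    ∀ i k : ℕ, 0 < k → k ≤ K * P →
    ‖SC P (gi W P i) ψ k‖ ≤ δ + (P : ℝ) / ((NN W P).card : ℝ) *
      ∑ p ∈ k.primeFactors.filter (fun p => ¬ p ∣ W), 1 / (p : ℝ) := by
  classical
  obtain ⟨P1, hP1⟩ := PP_dist (δ / 8) (by positivity)
  obtain ⟨P2, hP2⟩ := NN_dist W hW h5 (δ / 8) (by positivity)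
  obtain ⟨P3, hP3⟩ := PP_lower
  have hlog : ∀ᶠ P : ℕ in Filter.atTop, ‖Real.log (P : ℝ)‖ ≤ δ / 10 * ‖((P : ℕ) : ℝ)‖ := by
    have h1 := Real.isLittleO_log_id_atTop.def (c := δ / 10) (by positivity)
    exact tendsto_natCast_atTop_atTop.eventually h1
  obtain ⟨P4, hP4⟩ := Filter.eventually_atTop.1 hlog
  refine ⟨P1 + P2 + P3 + P4 + 4 * K + 3, ?_⟩
  intro P hP r hr ψ hψ i k hk hkP
  have hPpos : 0 < P := by omega
  have hPr : (0 : ℝ) < P := by exact_mod_cast hPpos
  -- the values of the character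
  have hchar : ∀ m : ℕ, ((gi W P i m : ℝ) : ℂ) * ψ (m : ZMod r) = ((gi W P i m : ℝ) : ℂ) := by
    intro m
    by_cases hR : R5 m
    · have hc : m.Coprime r := by
        rcases hr with rfl | rfl
        · exact Nat.coprime_one_right m
        · rw [Nat.coprime_comm, Nat.Prime.coprime_iff_not_dvd (by norm_num)]
          intro h
          unfold R5 at hR
          omega
      rw [hψ m hR hc, mul_one]
    · have h0 : fN W P m = 0 := by
        unfold fN
        rw [if_neg (fun h => hR (mem_PP.1 h).2.2), if_neg (fun h => hR (mem_NN.1 h).2.2), sub_zero]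
      unfold gi
      rw [h0, zero_mul]
      simp
  have hSC : SC P (gi W P i) ψ k =
      ∑ m ∈ (Icc 1 P).filter (fun m => m.Coprime k), ((gi W P i m : ℝ) : ℂ) := by
    unfold SC
    exact Finset.sum_congr rfl (fun m _ => hchar m)
  have hsplit : SC P (gi W P i) ψ k = ∑ m ∈ Icc 1 P, ((gi W P i m : ℝ) : ℂ) -
      ∑ m ∈ (Icc 1 P).filter (fun m => ¬ m.Coprime k), ((gi W P i m : ℝ) : ℂ) := by
    rw [hSC, ← Finset.sum_filter_add_sum_filter_not (Icc 1 P) (fun m => m.Coprime k)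
      (fun m => ((gi W P i m : ℝ) : ℂ))]
    ring
  have hA : ‖∑ m ∈ Icc 1 P, ((gi W P i m : ℝ) : ℂ)‖ ≤ δ / 2 := by
    have := Exc_abel W P i hPpos (δ / 4) (Exc_F W P δ hδ
      (fun y h1 h2 => hP1 P (by omega) y h1 h2) (fun y h1 h2 => hP2 P (by omega) y h1 h2))
    linarith
  -- the integers that are not prime to `k`
  have hgi : ∀ m ∈ (Icc 1 P).filter (fun m => ¬ m.Coprime k), ‖((gi W P i m : ℝ) : ℂ)‖ ≤
      (if m ∈ PP P then 1 / ((PP P).card : ℝ) else 0) +
        (if m ∈ NN W P then 1 / ((NN W P).card : ℝ) else 0) := by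
    intro m hm
    rw [mem_filter, mem_Icc] at hm
    rw [Complex.norm_real, Real.norm_eq_abs]
    unfold gi
    rw [abs_mul]
    have h1 : |((m : ℝ) / P) ^ i| ≤ 1 := by
      rw [abs_of_nonneg (by positivity)]
      apply pow_le_one₀ (by positivity)
      rw [div_le_one hPr]
      exact_mod_cast hm.1.2
    calc |fN W P m| * |((m : ℝ) / P) ^ i| ≤ |fN W P m| * 1 :=
          mul_le_mul_of_nonneg_left h1 (abs_nonneg _)
      _ = |fN W P m| := mul_one _
      _ ≤ _ := abs_fN_le W P m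
  have hB : ‖∑ m ∈ (Icc 1 P).filter (fun m => ¬ m.Coprime k), ((gi W P i m : ℝ) : ℂ)‖ ≤
      1 / ((PP P).card : ℝ) + (P : ℝ) / ((NN W P).card : ℝ) *
      ∑ p ∈ k.primeFactors.filter (fun p => ¬ p ∣ W), 1 / (p : ℝ) := by
    refine (norm_sum_le _ _).trans ((Finset.sum_le_sum hgi).trans ?_)
    rw [Finset.sum_add_distrib]
    refine add_le_add ?_ ?_
    · refine (Exc_ite (PP P) k P _ (by positivity)).trans ?_
      have h1 : (((PP P).filter (fun m => ¬ m.Coprime k)).card : ℝ) ≤ 1 := by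
        exact_mod_cast Exc_PP P K k hk hkP (by omega)
      calc _ ≤ 1 * (1 / ((PP P).card : ℝ)) := mul_le_mul_of_nonneg_right h1 (by positivity)
        _ = _ := one_mul _
    · refine (Exc_ite (NN W P) k P _ (by positivity)).trans ?_
      calc _ ≤ (P * ∑ p ∈ k.primeFactors.filter (fun p => ¬ p ∣ W), 1 / (p : ℝ)) *
            (1 / ((NN W P).card : ℝ)) :=
            mul_le_mul_of_nonneg_right (Exc_NN W P k hk) (by positivity)
        _ = _ := by ring
  have hC : 1 / ((PP P).card : ℝ) ≤ δ / 2 := by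
    have h1 := hP3 P (by omega)
    have h2 := hP4 P (by omega)
    have hl : 0 < Real.log P := Real.log_pos (by
      have : 1 < P := by omega
      exact_mod_cast this)
    rw [Real.norm_eq_abs, Real.norm_eq_abs, abs_of_pos hl, abs_of_pos hPr] at h2
    have h3 : 0 < (P : ℝ) / (5 * Real.log P) := by positivity
    calc 1 / ((PP P).card : ℝ) ≤ 1 / ((P : ℝ) / (5 * Real.log P)) :=
          one_div_le_one_div_of_le h3 h1
      _ = 5 * Real.log P / P := by rw [one_div_div]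
      _ ≤ δ / 2 := by
          rw [div_le_iff₀ hPr]
          linarith
  rw [hsplit]
  refine (norm_sub_le _ _).trans ?_
  linarith

end Pool.Agent.Lib.MP_d57abb_nt.KT
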