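import Mathlib
import Pool.Agent.Lib.MP_d57abb_nt.KT.Defs

/-!
# JOB Gen: primitive characters are generic or of conductor `1` or `5`

Let `r ≥ 1`, `ψ` primitive modulo `r`.  Put `n = 5 r`, `ψ' = changeLevel (r ∣ n) ψ` (a character modulo `n`), `H = {u ∈ (ZMod n)ˣ : u ≡ ±1 (mod 5)}` (the kernel of
`(ZMod n)ˣ → (ZMod 5)ˣ → (ZMod 5)ˣ/{±1}`; a set of units closed under multiplication).
Case 1: `ψ' u = 1` for all `u ∈ H`.  Then `ψ'` is `1` on the kernel of `(ZMod n)ˣ → (ZMod 5)ˣ`, so it factors through `5` (`DirichletCharacter.factorsThrough_iff_ker_unitsMap`), and the conductor of `ψ'`,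
which is the conductor of `ψ`, i.e. `r`, divides `5`... (`DirichletCharacter.conductor_le_conductor_mem_conductorSet`-like, `FactorsThrough` gives `conductor ψ' ≤ 5` and even `∣ 5`:
`DirichletCharacter.conductor_dvd_of_mem_conductorSet`-like; if only `conductor ≤ 5` and `r = conductor ∣ ..` are available: a character modulo `5` has conductor dividing `5`:
`ψ' = changeLevel ψ₅`, `conductor ψ' = conductor ψ₅ ∣ 5` (`conductor_dvd_level`)).  So `r ∈ {1, 5}`.
(A direct argument for `r ∣ 5`: let `g = gcd (r, 5)`.  `ψ` factors through `g`: if `u` is a unit modulo `r` with `u ≡ 1 (mod g)` there is a natural number `m ≡ u (mod r)`, `m ≡ 1 (mod 5)`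
(`Nat.chineseRemainder'`), it is prime to `r` and `R5 m`, so `ψ u = ψ m = 1`; so `g ∈ ψ.conductorSet` (`factorsThrough_iff_ker_unitsMap`), `r = conductor ψ ≤ g` (`Nat.sInf_le`), and `g ∣ r`, so `r = g ∣ 5`.
See `NT_of_primitive` in `Pool/Agent/Lib/MP_42948a_nt/BU/MA.lean` for the same kind of argument in Lean.)  For `m` with `R5 m`, `m` prime to `r`: `m` is prime to `n = 5 r`, its class is in `H`, so
`ψ m = ψ' m = 1`.
Case 2: there is `h ∈ H` with `ψ' h ≠ 1`.  Let `c` be prime to `5`.  The sum `S = ∑_{e < 5 r, R5 (c e)} ψ e` is the sum of `ψ' x` over the set `E` of the units `x` of `ZMod n` with `c x ≡ ±1 (mod 5)`: if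
`R5 (c e)` then `e` is prime to `5`; if `e` is not prime to `r` then `ψ e = 0`; else `e` is prime to `n` and `ψ e = ψ' e`.  `E` is stable under multiplication by `h`, so `S = ψ'(h) S`, `S = 0`.
It may be simpler to work with natural numbers: let `h` be a natural number prime to `5 r` with `R5 h`, `ψ h ≠ 1` (if no such `h` exists we are in case 1).  The map `e ↦ (h e) mod (5 r)` permutes
`{e < 5 r : R5 (c e)}` (injective because `h` is a unit modulo `5 r`; `R5 (c ((h e) % (5 r)))` iff `R5 (c h e)` iff `R5 (c e)`, a statement on residues modulo `5`), and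
`ψ ((h e) % (5 r)) = ψ h ψ e` (casts to `ZMod r`: `5 r ≡ 0`).  So `S = ψ h S`.
-/

open Finset

namespace Pool.Agent.Lib.MP_d57abb_nt.KT

private theorem Gen_mod5 (n a : ℕ) (h : 5 ∣ n) : (a % n) % 5 = a % 5 :=
  Nat.mod_mod_of_dvd a h

private theorem Gen_R5_mul {a b : ℕ} (ha : R5 a) (hb : R5 b) : R5 (a * b) := by
  unfold R5 at *
  rw [Nat.mul_mod]
  rcases ha with h | h <;> rcases hb with h' | h' <;> rw [h, h'] <;> simp

private theorem Gen_R5_congr {a b : ℕ} (h : a % 5 = b % 5) (ha : R5 a) : R5 b := by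
  unfold R5 at *
  rw [← h]; exact ha

private theorem Gen_cop5 {a : ℕ} (ha : R5 a) : a.Coprime 5 := by
  have h5 : Nat.Prime 5 := by norm_num
  rw [Nat.coprime_comm]
  refine (Nat.Prime.coprime_iff_not_dvd h5).2 ?_
  intro hd
  unfold R5 at ha
  omega

private theorem Gen_case1 (r : ℕ) (hr : 0 < r) (ψ : DirichletCharacter ℂ r) (h : ℕ)
    (hc : h.Coprime r) (hR : R5 h) (hne : ψ (h : ZMod r) ≠ 1) : Gnr ψ := by
  intro c hc5
  have hn : 0 < 5 * r := by positivity
  have hcn : h.Coprime (5 * r) := Nat.Coprime.mul_right (Gen_cop5 hR) hc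
  set E : Finset ℕ := (range (5 * r)).filter (fun e => R5 (c * e)) with hE
  have hmaps : ∀ e ∈ E, (h * e) % (5 * r) ∈ E := by
    intro e he
    rw [hE, mem_filter, mem_range] at he ⊢
    refine ⟨Nat.mod_lt _ hn, ?_⟩
    refine Gen_R5_congr (a := h * (c * e)) ?_ (Gen_R5_mul hR he.2)
    have h1 : ((h * e) % (5 * r)) % 5 = (h * e) % 5 := Gen_mod5 _ _ (Dvd.intro r rfl)
    have h2 : h * (c * e) = c * (h * e) := by ring
    rw [h2, Nat.mul_mod, Nat.mul_mod c ((h * e) % (5 * r)), h1]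
  have hinj : Set.InjOn (fun e => (h * e) % (5 * r)) (E : Set ℕ) := by
    intro a ha b hb hab
    have ha' := (mem_filter.1 (Finset.mem_coe.1 ha)).1
    have hb' := (mem_filter.1 (Finset.mem_coe.1 hb)).1
    rw [mem_range] at ha' hb'
    have h1 : h * a ≡ h * b [MOD (5 * r)] := hab
    have h2 : a ≡ b [MOD (5 * r)] :=
      Nat.ModEq.cancel_left_of_coprime (by rw [Nat.coprime_comm] at hcn; exact hcn) h1
    have h3 : a % (5 * r) = b % (5 * r) := h2
    rwa [Nat.mod_eq_of_lt ha', Nat.mod_eq_of_lt hb'] at h3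
  have himg : E.image (fun e => (h * e) % (5 * r)) = E := by
    apply Finset.eq_of_subset_of_card_le
    · intro x hx
      obtain ⟨e, he, rfl⟩ := Finset.mem_image.1 hx
      exact hmaps e he
    · rw [Finset.card_image_of_injOn hinj]
  have hsum : ∑ e ∈ E, ψ (e : ZMod r) = ψ (h : ZMod r) * ∑ e ∈ E, ψ (e : ZMod r) := by
    have h1 : ∑ e ∈ E.image (fun e => (h * e) % (5 * r)), ψ (e : ZMod r)
        = ∑ e ∈ E, ψ (((h * e) % (5 * r) : ℕ) : ZMod r) := Finset.sum_image hinj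
    rw [himg] at h1
    refine h1.trans ?_
    rw [Finset.mul_sum]
    refine Finset.sum_congr rfl ?_
    intro e _
    have h2 : (((h * e) % (5 * r) : ℕ) : ZMod r) = ((h * e : ℕ) : ZMod r) := by
      rw [ZMod.natCast_eq_natCast_iff]
      have h3 : (h * e) % (5 * r) ≡ h * e [MOD (5 * r)] := Nat.mod_modEq _ _
      exact h3.of_mul_left 5
    rw [h2, Nat.cast_mul, map_mul]
  have h0 : (ψ (h : ZMod r) - 1) * ∑ e ∈ E, ψ (e : ZMod r) = 0 := by
    rw [sub_mul, one_mul, ← hsum, sub_self]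
  rcases mul_eq_zero.1 h0 with h1 | h1
  · exact absurd (sub_eq_zero.1 h1) hne
  · exact h1

private theorem Gen_case2 (r : ℕ) (hr : 0 < r) (ψ : DirichletCharacter ℂ r) (hψ : ψ.IsPrimitive)
    (h : ∀ m : ℕ, m.Coprime r → R5 m → ψ (m : ZMod r) = 1) : r = 1 ∨ r = 5 := by
  have : NeZero r := ⟨hr.ne'⟩
  have hfac : ψ.FactorsThrough (r.gcd 5) := by
    refine (DirichletCharacter.factorsThrough_iff_ker_unitsMap (r.gcd_dvd_left 5)).mpr
      fun x hx ↦ MonoidHom.mem_ker.mpr ?_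
    rw [Units.ext_iff, MulChar.coe_toUnitHom, Units.val_one]
    obtain ⟨z, hz₁, hz₂⟩ : ∃ z : ℕ, z = x.val ∧ (z : ZMod 5) = 1 := by
      suffices x.val.val ≡ 1 [MOD r.gcd 5] by
        obtain ⟨z, hz₁, hz₂⟩ := Nat.chineseRemainder' this
        refine ⟨z, ?_, ?_⟩
        · simpa [← ZMod.natCast_eq_natCast_iff] using hz₁
        · rwa [← ZMod.natCast_eq_natCast_iff, Nat.cast_one] at hz₂
      rwa [MonoidHom.mem_ker, Units.ext_iff, ZMod.unitsMap_val, ← ZMod.natCast_val,
        Units.val_one, ← Nat.cast_one, ZMod.natCast_eq_natCast_iff] at hx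
    have hz3 : z.Coprime r := (ZMod.isUnit_iff_coprime _ _).mp (hz₁ ▸ x.isUnit)
    have hz4 : z % 5 = 1 := by
      have h1 : (z : ZMod 5) = ((1 : ℕ) : ZMod 5) := by rw [hz₂, Nat.cast_one]
      have h2 : z ≡ 1 [MOD 5] := (ZMod.natCast_eq_natCast_iff _ _ _).1 h1
      exact h2
    rw [← hz₁]
    exact h z hz3 (Or.inl hz4)
  have hcd : ψ.conductor ∣ r.gcd 5 := by
    have hm : r.gcd 5 ∈ ψ.conductorSet := hfac
    exact DirichletCharacter.conductor_dvd_of_mem_conductorSet ψ hm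
  have h5 : r ∣ 5 := by
    have h1 : ψ.conductor = r := hψ
    rw [h1] at hcd
    exact hcd.trans (Nat.gcd_dvd_right _ _)
  exact (Nat.dvd_prime (by norm_num)).1 h5

theorem dichotomy (r : ℕ) (hr : 0 < r) (ψ : DirichletCharacter ℂ r) (hψ : ψ.IsPrimitive) :
    Gnr ψ ∨ ((r = 1 ∨ r = 5) ∧ ∀ m : ℕ, R5 m → m.Coprime r → ψ (m : ZMod r) = 1) := by
  by_cases hex : ∃ h : ℕ, h.Coprime r ∧ R5 h ∧ ψ (h : ZMod r) ≠ 1
  · obtain ⟨h, hc, hR, hne⟩ := hex
    exact Or.inl (Gen_case1 r hr ψ h hc hR hne)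
  · have hall : ∀ m : ℕ, m.Coprime r → R5 m → ψ (m : ZMod r) = 1 := by
      intro m hm hR
      by_contra hne
      exact hex ⟨m, hm, hR, hne⟩
    exact Or.inr ⟨Gen_case2 r hr ψ hψ hall, fun m hR hm => hall m hm hR⟩

end Pool.Agent.Lib.MP_d57abb_nt.KT
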