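import Mathlib
import Pool.Agent.Lib.MP_d57abb_nt.KT.FourA
import Pool.Agent.Lib.MP_d57abb_nt.KT.Exc
import Pool.Agent.Lib.MP_d57abb_nt.KT.Tot
import Pool.Agent.Lib.MP_d57abb_nt.KT.CW
import Pool.Agent.Lib.MP_d57abb_nt.KT.Gen

/-!
# JOB FourC: the fourth moment, exceptional characters

`W = primorial w`, `w ≥ 5` (`five_dvd_primorial`, `primorial_pos`).  A primitive `ψ` modulo `r` that is not generic has `r ∈ {1, 5}` and `ψ m = 1` for `R5 m`, `m` prime to `r` (`dichotomy`).  So for every `D` there are at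
most `#prim 1 + #prim 5 ≤ 1 + 5 = 6` pairs `(r, ψ)` (`card_allc_le`).  For each of them, `k = D/r`: `‖SC‖ ≤ ∑_{m ≤ P} |fN m| ≤ 2` (`abs_fN_le`, sums `≤ 1`, `‖ψ‖ ≤ 1`, `(m/P)^i ≤ 1`), so `‖SC‖^4 ≤ 8 ‖SC‖`, and by `exc W K δ₁`:
`‖SC‖ ≤ δ₁ + (P/#NN) ∑_{p ∣ D, p > w} 1/p` (`p ∣ k` implies `p ∣ D`; `¬ p ∣ W` iff `w < p` for a prime `p`: `prime_dvd_primorial`).
Sum over `D`: by `tot` the total is `≤ 48 (δ₁ C J K + (P/#NN) C J K / w)`, `P/#NN ≤ 8 W/φ(W)` (`NN_lower`), `(W/φ(W)) ≤ (W/φ(W))² ≤ η w` (`cw η`, `W/φ(W) ≥ 1`): `≤ 48 C J K (δ₁ + 8 η) ≤ δ` if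
`δ₁ = δ/(96 C (J+1) (K+1))`, `η = δ₁/8`.
-/

open Finset

namespace Pool.Agent.Lib.MP_d57abb_nt.KT

private theorem FourC_ite (S T : Finset ℕ) :
    ∑ m ∈ S, (if m ∈ T then 1 / (T.card : ℝ) else 0) ≤ 1 := by
  rw [← Finset.sum_filter, Finset.sum_const, nsmul_eq_mul]
  have h1 : (S.filter (fun m => m ∈ T)).card ≤ T.card :=
    Finset.card_le_card (fun m hm => (Finset.mem_filter.1 hm).2)
  rcases Nat.eq_zero_or_pos T.card with h | h
  · rw [h]
    simp
  · have h2 : (0 : ℝ) < (T.card : ℝ) := by exact_mod_cast h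
    rw [mul_one_div, div_le_one h2]
    exact_mod_cast h1

private theorem FourC_two (W P i r k : ℕ) (ψ : DirichletCharacter ℂ r) :
    ‖SC P (gi W P i) ψ k‖ ≤ 2 := by
  unfold SC
  have h1 : ∀ m ∈ (Icc 1 P).filter (fun m => m.Coprime k),
      ‖((gi W P i m : ℝ) : ℂ) * ψ (m : ZMod r)‖ ≤
        (if m ∈ PP P then 1 / ((PP P).card : ℝ) else 0) +
          (if m ∈ NN W P then 1 / ((NN W P).card : ℝ) else 0) := by
    intro m hm
    rw [Finset.mem_filter, Finset.mem_Icc] at hm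
    rw [norm_mul, Complex.norm_real, Real.norm_eq_abs]
    have a1 : |gi W P i m| ≤ |fN W P m| := by
      unfold gi
      rw [abs_mul]
      have a0 : |((m : ℝ) / P) ^ i| ≤ 1 := by
        rw [abs_pow, abs_of_nonneg (by positivity)]
        apply pow_le_one₀ (by positivity)
        apply div_le_one_of_le₀ _ (by positivity)
        exact_mod_cast hm.1.2
      exact mul_le_of_le_one_right (abs_nonneg _) a0
    have a2 : ‖ψ (m : ZMod r)‖ ≤ 1 := DirichletCharacter.norm_le_one ψ _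
    calc |gi W P i m| * ‖ψ (m : ZMod r)‖ ≤ |fN W P m| * 1 :=
          mul_le_mul a1 a2 (norm_nonneg _) (abs_nonneg _)
      _ ≤ _ := by
          rw [mul_one]
          exact abs_fN_le W P m
  calc ‖∑ m ∈ (Icc 1 P).filter (fun m => m.Coprime k), ((gi W P i m : ℝ) : ℂ) * ψ (m : ZMod r)‖
      ≤ ∑ m ∈ (Icc 1 P).filter (fun m => m.Coprime k), ‖((gi W P i m : ℝ) : ℂ) * ψ (m : ZMod r)‖ :=
        norm_sum_le _ _
    _ ≤ ∑ m ∈ (Icc 1 P).filter (fun m => m.Coprime k),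
          ((if m ∈ PP P then 1 / ((PP P).card : ℝ) else 0) +
          (if m ∈ NN W P then 1 / ((NN W P).card : ℝ) else 0)) := Finset.sum_le_sum h1
    _ = ∑ m ∈ (Icc 1 P).filter (fun m => m.Coprime k),
          (if m ∈ PP P then 1 / ((PP P).card : ℝ) else 0) +
        ∑ m ∈ (Icc 1 P).filter (fun m => m.Coprime k),
          (if m ∈ NN W P then 1 / ((NN W P).card : ℝ) else 0) := Finset.sum_add_distrib
    _ ≤ 1 + 1 := add_le_add (FourC_ite _ _) (FourC_ite _ _)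
    _ = 2 := by norm_num

private theorem FourC_pow {x : ℝ} (h0 : 0 ≤ x) (h2 : x ≤ 2) : x ^ 4 ≤ 8 * x := by
  have h3 : x ^ 3 ≤ 2 ^ 3 := pow_le_pow_left₀ h0 h2 3
  calc x ^ 4 = x ^ 3 * x := by ring
    _ ≤ 2 ^ 3 * x := mul_le_mul_of_nonneg_right h3 h0
    _ = 8 * x := by norm_num

open Classical in
private theorem FourC_inner (w K P i D : ℕ) (hw : 0 < primorial w) (δ₁ : ℝ) (hδ₁ : 0 < δ₁)
    (hexc : ∀ r : ℕ, (r = 1 ∨ r = 5) → ∀ ψ : DirichletCharacter ℂ r,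
      (∀ m : ℕ, R5 m → m.Coprime r → ψ (m : ZMod r) = 1) → ∀ i k : ℕ, 0 < k → k ≤ K * P →
      ‖SC P (gi (primorial w) P i) ψ k‖ ≤ δ₁ + (P : ℝ) / ((NN (primorial w) P).card : ℝ) *
        ∑ p ∈ k.primeFactors.filter (fun p => ¬ p ∣ primorial w), 1 / (p : ℝ))
    (hD : 1 ≤ D) (hDK : D ≤ K * P) :
    ∑ r ∈ D.divisors.filter (fun r => ¬ R0 P < r),
      ∑ ψ ∈ (prim r).filter (fun ψ => ¬ Gnr ψ), ‖SC P (gi (primorial w) P i) ψ (D / r)‖ ^ 4 ≤
    48 * (δ₁ + (P : ℝ) / ((NN (primorial w) P).card : ℝ) *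
      ∑ p ∈ D.primeFactors.filter (fun p => w < p), 1 / (p : ℝ)) := by
  set B : ℝ := δ₁ + (P : ℝ) / ((NN (primorial w) P).card : ℝ) *
      ∑ p ∈ D.primeFactors.filter (fun p => w < p), 1 / (p : ℝ) with hB
  have hS0 : ∀ T : Finset ℕ, (0 : ℝ) ≤ ∑ p ∈ T, 1 / (p : ℝ) :=
    fun T => Finset.sum_nonneg (fun p _ => by positivity)
  have hq0 : (0 : ℝ) ≤ (P : ℝ) / ((NN (primorial w) P).card : ℝ) := by positivity
  have hB0 : 0 ≤ B := add_nonneg hδ₁.le (mul_nonneg hq0 (hS0 _))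
  have hterm : ∀ r ∈ D.divisors, ∀ ψ ∈ (prim r).filter (fun ψ => ¬ Gnr ψ),
      (r = 1 ∨ r = 5) ∧ ‖SC P (gi (primorial w) P i) ψ (D / r)‖ ^ 4 ≤ 8 * B := by
    intro r hr ψ hψ
    have hrD : r ∣ D := Nat.dvd_of_mem_divisors hr
    have hr0 : 0 < r := Nat.pos_of_dvd_of_pos hrD hD
    rw [Finset.mem_filter, mem_prim hr0] at hψ
    rcases dichotomy r hr0 ψ hψ.1 with h | ⟨h1, h2⟩
    · exact absurd h hψ.2
    refine ⟨h1, ?_⟩
    have hk0 : 0 < D / r := Nat.div_pos (Nat.le_of_dvd hD hrD) hr0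
    have hkD : D / r ∣ D := Nat.div_dvd_of_dvd hrD
    have hkK : D / r ≤ K * P := (Nat.div_le_self D r).trans hDK
    have h3 := hexc r h1 ψ h2 i (D / r) hk0 hkK
    have h4 : ‖SC P (gi (primorial w) P i) ψ (D / r)‖ ≤ B := by
      refine h3.trans ?_
      rw [hB]
      have h5 : ∑ p ∈ (D / r).primeFactors.filter (fun p => ¬ p ∣ primorial w), 1 / (p : ℝ) ≤
          ∑ p ∈ D.primeFactors.filter (fun p => w < p), 1 / (p : ℝ) := by
        apply Finset.sum_le_sum_of_subset_of_nonneg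
        · intro p hp
          rw [Finset.mem_filter] at hp ⊢
          have hpp : p.Prime := Nat.prime_of_mem_primeFactors hp.1
          refine ⟨Nat.primeFactors_mono hkD (by omega) hp.1, ?_⟩
          have h6 := hp.2
          rw [prime_dvd_primorial w p hpp] at h6
          omega
        · intro p _ _
          positivity
      have h7 := mul_le_mul_of_nonneg_left h5 hq0
      linarith
    refine (FourC_pow (norm_nonneg _) (FourC_two _ _ _ _ _ ψ)).trans ?_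
    linarith
  have hzero : ∀ r ∈ D.divisors.filter (fun r => ¬ R0 P < r), r ∉ ({1, 5} : Finset ℕ) →
      ∑ ψ ∈ (prim r).filter (fun ψ => ¬ Gnr ψ), ‖SC P (gi (primorial w) P i) ψ (D / r)‖ ^ 4 = 0 := by
    intro r hr hn
    have hr1 : r ∈ D.divisors := (Finset.mem_filter.1 hr).1
    apply Finset.sum_eq_zero
    intro ψ hψ
    exfalso
    apply hn
    rcases (hterm r hr1 ψ hψ).1 with h | h
    · rw [h]
      simp
    · rw [h]
      simp
  have hle : ∀ r ∈ D.divisors.filter (fun r => ¬ R0 P < r),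
      ∑ ψ ∈ (prim r).filter (fun ψ => ¬ Gnr ψ), ‖SC P (gi (primorial w) P i) ψ (D / r)‖ ^ 4 ≤
        (r : ℝ) * (8 * B) := by
    intro r hr
    have hr1 : r ∈ D.divisors := (Finset.mem_filter.1 hr).1
    have h1 : ∑ ψ ∈ (prim r).filter (fun ψ => ¬ Gnr ψ),
        ‖SC P (gi (primorial w) P i) ψ (D / r)‖ ^ 4 ≤
        ((prim r).filter (fun ψ => ¬ Gnr ψ)).card • (8 * B) :=
      Finset.sum_le_card_nsmul _ _ _ (fun ψ hψ => (hterm r hr1 ψ hψ).2)
    refine h1.trans ?_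
    rw [nsmul_eq_mul]
    apply mul_le_mul_of_nonneg_right _ (by linarith)
    have h2 : ((prim r).filter (fun ψ => ¬ Gnr ψ)).card ≤ r := by
      refine (Finset.card_le_card (Finset.filter_subset _ _)).trans ?_
      refine le_trans ?_ (card_allc_le r)
      unfold prim
      exact Finset.card_le_card (Finset.filter_subset _ _)
    exact_mod_cast h2
  calc ∑ r ∈ D.divisors.filter (fun r => ¬ R0 P < r),
      ∑ ψ ∈ (prim r).filter (fun ψ => ¬ Gnr ψ), ‖SC P (gi (primorial w) P i) ψ (D / r)‖ ^ 4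
      = ∑ r ∈ (D.divisors.filter (fun r => ¬ R0 P < r)).filter (fun r => r ∈ ({1, 5} : Finset ℕ)),
      ∑ ψ ∈ (prim r).filter (fun ψ => ¬ Gnr ψ), ‖SC P (gi (primorial w) P i) ψ (D / r)‖ ^ 4 := by
        symm
        apply Finset.sum_filter_of_ne
        intro r hr hne
        by_contra hn
        exact hne (hzero r hr hn)
    _ ≤ ∑ r ∈ (D.divisors.filter (fun r => ¬ R0 P < r)).filter (fun r => r ∈ ({1, 5} : Finset ℕ)),
          (r : ℝ) * (8 * B) :=
        Finset.sum_le_sum (fun r hr => hle r (Finset.mem_filter.1 hr).1)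
    _ ≤ ∑ r ∈ ({1, 5} : Finset ℕ), (r : ℝ) * (8 * B) := by
        apply Finset.sum_le_sum_of_subset_of_nonneg
        · intro r hr
          exact (Finset.mem_filter.1 hr).2
        · intro r _ _
          have : 0 ≤ 8 * B := by linarith
          positivity
    _ = 48 * B := by
        rw [Finset.sum_pair (by norm_num)]
        push_cast
        ring

open Classical in
theorem part_three (K J : ℕ) (δ : ℝ) (hδ : 0 < δ) : ∃ w₀ : ℕ, ∀ w : ℕ, w₀ ≤ w → ∃ P₀ : ℕ, ∀ P : ℕ, P₀ ≤ P → ∀ i : ℕ,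
    ∑ D ∈ (Icc 1 (K * P)).filter (fun D => P ≤ J * D), 1 / (D.totient : ℝ) * ∑ r ∈ D.divisors.filter (fun r => ¬ R0 P < r),
      ∑ ψ ∈ (prim r).filter (fun ψ => ¬ Gnr ψ), ‖SC P (gi (primorial w) P i) ψ (D / r)‖ ^ 4 ≤ δ := by
  obtain ⟨C, hC1, -, -, hC3, hC4⟩ := tot
  have hC0 : 0 < C := by linarith
  set δ₁ : ℝ := δ / (96 * C * (J + 1) * (K + 1)) with hδ₁
  have hden : 0 < 96 * C * ((J : ℝ) + 1) * ((K : ℝ) + 1) := by positivity
  have hδ₁0 : 0 < δ₁ := div_pos hδ hden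
  obtain ⟨w₀, hw₀⟩ := cw (δ₁ / 8) (by positivity)
  refine ⟨max 5 w₀, fun w hw => ?_⟩
  have hw5 : 5 ≤ w := (le_max_left _ _).trans hw
  have hww : w₀ ≤ w := (le_max_right _ _).trans hw
  have hW : 0 < primorial w := primorial_pos w
  have h5 := five_dvd_primorial w hw5
  obtain ⟨P₁, hP₁⟩ := exc (primorial w) K hW h5 δ₁ hδ₁0
  obtain ⟨P₂, hP₂⟩ := NN_lower (primorial w) hW h5
  refine ⟨max 1 (max P₁ P₂), fun P hP i => ?_⟩
  have hP1 : 1 ≤ P := (le_max_left _ _).trans hP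
  have hPP₁ : P₁ ≤ P := (le_max_left _ _).trans ((le_max_right _ _).trans hP)
  have hPP₂ : P₂ ≤ P := (le_max_right _ _).trans ((le_max_right _ _).trans hP)
  set q : ℝ := (P : ℝ) / ((NN (primorial w) P).card : ℝ) with hq
  have hq0 : 0 ≤ q := by positivity
  have hφ : (0 : ℝ) < ((primorial w).totient : ℝ) := by
    exact_mod_cast Nat.totient_pos.2 hW
  have hWr : (0 : ℝ) < (primorial w : ℝ) := by exact_mod_cast hW
  have hw0 : (0 : ℝ) < (w : ℝ) := by
    have : 0 < w := by omega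
    exact_mod_cast this
  -- bound of `q`
  have hq1 : q ≤ 8 * ((primorial w : ℝ) / ((primorial w).totient : ℝ)) := by
    rw [hq]
    apply div_le_of_le_mul₀ (by positivity) (by positivity)
    have h1 := hP₂ P hPP₂
    have h2 : (P : ℝ) = 8 * ((primorial w : ℝ) / ((primorial w).totient : ℝ)) *
        ((P : ℝ) * ((primorial w).totient : ℝ) / (8 * (primorial w : ℝ))) := by
      field_simp
    calc (P : ℝ) = 8 * ((primorial w : ℝ) / ((primorial w).totient : ℝ)) *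
        ((P : ℝ) * ((primorial w).totient : ℝ) / (8 * (primorial w : ℝ))) := h2
      _ ≤ _ := mul_le_mul_of_nonneg_left h1 (by positivity)
  have hq2 : (primorial w : ℝ) / ((primorial w).totient : ℝ) ≤ δ₁ / 8 * w := by
    have h1 : 1 ≤ (primorial w : ℝ) / ((primorial w).totient : ℝ) := by
      rw [le_div_iff₀ hφ, one_mul]
      exact_mod_cast Nat.totient_le _
    refine le_trans ?_ (hw₀ w hww)
    exact le_self_pow₀ h1 (by norm_num)
  have hq3 : q / w ≤ δ₁ := by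
    rw [div_le_iff₀ hw0]
    linarith
  have hmain : ∑ D ∈ (Icc 1 (K * P)).filter (fun D => P ≤ J * D), 1 / (D.totient : ℝ) *
      ∑ r ∈ D.divisors.filter (fun r => ¬ R0 P < r),
      ∑ ψ ∈ (prim r).filter (fun ψ => ¬ Gnr ψ), ‖SC P (gi (primorial w) P i) ψ (D / r)‖ ^ 4 ≤
      ∑ D ∈ (Icc 1 (K * P)).filter (fun D => P ≤ J * D), (48 * δ₁ * (1 / (D.totient : ℝ)) +
        48 * q * (1 / (D.totient : ℝ) *
          ∑ p ∈ D.primeFactors.filter (fun p => w < p), 1 / (p : ℝ))) := by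
    apply Finset.sum_le_sum
    intro D hD
    rw [Finset.mem_filter, Finset.mem_Icc] at hD
    have h1 := FourC_inner w K P i D hW δ₁ hδ₁0 (hP₁ P hPP₁) hD.1.1 hD.1.2
    have h2 := mul_le_mul_of_nonneg_left h1 (show (0 : ℝ) ≤ 1 / (D.totient : ℝ) by positivity)
    refine h2.trans (le_of_eq ?_)
    rw [hq]
    ring
  refine hmain.trans ?_
  rw [Finset.sum_add_distrib, ← Finset.mul_sum, ← Finset.mul_sum]
  have h3 := hC3 K J P hP1
  have h4 := hC4 K J P w hP1 (by omega)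
  have h5' : 48 * δ₁ * ∑ D ∈ (Icc 1 (K * P)).filter (fun D => P ≤ J * D), 1 / (D.totient : ℝ) ≤
      48 * δ₁ * (C * J * K) := mul_le_mul_of_nonneg_left h3 (by positivity)
  have h6 : 48 * q * ∑ D ∈ (Icc 1 (K * P)).filter (fun D => P ≤ J * D),
      (1 / (D.totient : ℝ) * ∑ p ∈ D.primeFactors.filter (fun p => w < p), 1 / (p : ℝ)) ≤
      48 * q * (C * J * K / w) := mul_le_mul_of_nonneg_left h4 (by positivity)
  have h7 : 48 * q * (C * J * K / w) = 48 * (C * J * K) * (q / w) := by ring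
  have h8 : 48 * (C * J * K) * (q / w) ≤ 48 * (C * J * K) * δ₁ :=
    mul_le_mul_of_nonneg_left hq3 (by positivity)
  have h9 : 96 * C * J * K * δ₁ ≤ δ := by
    have e : δ₁ * (96 * C * ((J : ℝ) + 1) * ((K : ℝ) + 1)) = δ := by
      rw [hδ₁]
      exact div_mul_cancel₀ δ hden.ne'
    have h10 : 96 * C * (J : ℝ) * K ≤ 96 * C * ((J : ℝ) + 1) * ((K : ℝ) + 1) := by
      have hJ : (J : ℝ) ≤ J + 1 := by linarith
      have hK : (K : ℝ) ≤ K + 1 := by linarith
      have h11 : 96 * C * (J : ℝ) ≤ 96 * C * ((J : ℝ) + 1) :=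
        mul_le_mul_of_nonneg_left hJ (by positivity)
      exact mul_le_mul h11 hK (by positivity) (by positivity)
    calc 96 * C * J * K * δ₁ ≤ 96 * C * ((J : ℝ) + 1) * ((K : ℝ) + 1) * δ₁ :=
          mul_le_mul_of_nonneg_right h10 hδ₁0.le
      _ = δ := by rw [← e]; ring
  rw [h7] at h6
  nlinarith [h5', h6, h8, h9]

end Pool.Agent.Lib.MP_d57abb_nt.KT
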