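import Mathlib
import Pool.Agent.Lib.MP_d57abb_nt.KT.FourB
import Pool.Agent.Lib.MP_d57abb_nt.KT.FourC
import Pool.Agent.Lib.MP_d57abb_nt.KT.Cond

/-!
# JOB Four: the fourth moment

`cond_le`, split the sum over `r` at `R0 P` (`Finset.sum_filter_add_sum_filter_not`) and the sum over `ψ` into generic and not generic; `part_one` (the sum over all `D ≤ K P` is larger than over the filtered set, the terms
are `≥ 0`), `part_two`, `part_three` with `δ/3`.  Take `w₀ ≥ 5` so that `5 ∣ primorial w`.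
-/

open Finset

namespace Pool.Agent.Lib.MP_d57abb_nt.KT

theorem fourth (K J : ℕ) (δ : ℝ) (hδ : 0 < δ) : ∃ w₀ : ℕ, ∀ w : ℕ, w₀ ≤ w → ∃ P₀ : ℕ, ∀ P : ℕ, P₀ ≤ P → ∀ i : ℕ,
    ∑ D ∈ (Icc 1 (K * P)).filter (fun D => P ≤ J * D), 1 / (D.totient : ℝ) *
      ∑ χ ∈ allc D, ‖SS P (gi (primorial w) P i) χ‖ ^ 4 ≤ δ := by
  classical
  obtain ⟨w₀, hw₀⟩ := part_three K J (δ / 3) (by positivity)
  refine ⟨max w₀ 5, fun w hw => ?_⟩
  have hW : 0 < primorial w := primorial_pos w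
  have h5 : 5 ∣ primorial w := by
    rw [Nat.prime_five.dvd_primorial_iff]
    exact le_trans (le_max_right _ _) hw
  obtain ⟨P1, h1⟩ := part_one (primorial w) K hW h5 (δ / 3) (by positivity)
  obtain ⟨P2, h2⟩ := part_two (primorial w) K J hW h5 (δ / 3) (by positivity)
  obtain ⟨P3, h3⟩ := hw₀ w (le_trans (le_max_left _ _) hw)
  refine ⟨max P1 (max P2 P3), fun P hP i => ?_⟩
  have h1' := h1 P (le_trans (le_max_left _ _) hP) i
  have h2' := h2 P (le_trans (le_trans (le_max_left _ _) (le_max_right _ _)) hP) i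
  have h3' := h3 P (le_trans (le_trans (le_max_right _ _) (le_max_right _ _)) hP) i
  have hA : ∑ D ∈ (Icc 1 (K * P)).filter (fun D => P ≤ J * D), 1 / (D.totient : ℝ) *
      ∑ r ∈ D.divisors.filter (fun r => R0 P < r),
        ∑ ψ ∈ prim r, ‖SC P (gi (primorial w) P i) ψ (D / r)‖ ^ 4 ≤ δ / 3 := by
    refine le_trans (Finset.sum_le_sum_of_subset_of_nonneg (Finset.filter_subset _ _) ?_) h1'
    intro D _ _
    exact mul_nonneg (by positivity) (Finset.sum_nonneg fun r _ => Finset.sum_nonneg fun ψ _ =>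
      by positivity)
  have key : ∀ D ∈ (Icc 1 (K * P)).filter (fun D => P ≤ J * D),
      1 / (D.totient : ℝ) * ∑ χ ∈ allc D, ‖SS P (gi (primorial w) P i) χ‖ ^ 4 ≤
      1 / (D.totient : ℝ) * ∑ r ∈ D.divisors.filter (fun r => R0 P < r),
        ∑ ψ ∈ prim r, ‖SC P (gi (primorial w) P i) ψ (D / r)‖ ^ 4 +
      (1 / (D.totient : ℝ) * ∑ r ∈ D.divisors.filter (fun r => ¬ R0 P < r),
        ∑ ψ ∈ (prim r).filter (fun ψ => Gnr ψ), ‖SC P (gi (primorial w) P i) ψ (D / r)‖ ^ 4 +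
      1 / (D.totient : ℝ) * ∑ r ∈ D.divisors.filter (fun r => ¬ R0 P < r),
        ∑ ψ ∈ (prim r).filter (fun ψ => ¬ Gnr ψ), ‖SC P (gi (primorial w) P i) ψ (D / r)‖ ^ 4) := by
    intro D hD
    have hD1 : 0 < D := (Finset.mem_Icc.1 (Finset.mem_filter.1 hD).1).1
    rw [← mul_add, ← mul_add]
    refine mul_le_mul_of_nonneg_left ?_ (by positivity)
    refine le_trans (cond_le D hD1 P _) (le_of_eq ?_)
    rw [← Finset.sum_add_distrib,
      ← Finset.sum_filter_add_sum_filter_not D.divisors (fun r => R0 P < r)]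
    congr 1
    refine Finset.sum_congr rfl fun r _ => ?_
    rw [Finset.sum_filter_add_sum_filter_not]
  calc ∑ D ∈ (Icc 1 (K * P)).filter (fun D => P ≤ J * D), 1 / (D.totient : ℝ) *
      ∑ χ ∈ allc D, ‖SS P (gi (primorial w) P i) χ‖ ^ 4
      ≤ _ := Finset.sum_le_sum key
    _ ≤ δ / 3 + (δ / 3 + δ / 3) := by
        rw [Finset.sum_add_distrib, Finset.sum_add_distrib]
        exact add_le_add hA (add_le_add h2' h3')
    _ = δ := by ring

end Pool.Agent.Lib.MP_d57abb_nt.KT
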