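import Mathlib
import Pool.Agent.Lib.MP_d57abb_nt.KT.Defs

/-!
# JOB NC: the terms with `gcd (m, D) > 1`, reduction

`NC_card`: the number of `l ∈ un D` with `m' ≡ l m (mod D)` is at most `e = gcd (m, D)`, and it is `0` unless `gcd (m', D) = e`.  For the second part: `gcd (l m, D) = gcd (m, D)` for `l` prime to
`D` and `gcd` depends only on the class modulo `D` (`Nat.ModEq.gcd_eq`).  For the first: if `l₀` is one solution, then `l m ≡ l₀ m (mod D)` iff `l ≡ l₀ (mod D / e)`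
(`Nat.ModEq.cancel_right_div_gcd`-like, `Nat.ModEq.cancel_left_div_gcd`), and the number of `l < D = e (D/e)` in one residue class modulo `D/e` is `e` (e.g. inject `l ↦ l / (D/e) ∈ range e`).
`NC_bound`: exchange the sums: the left side is
`∑_D ∑_{(m, m') ∈ [1,P]², gcd (m, D) > 1} g m g m' #{l ∈ un D : m' ≡ l m (D)} ≤ ∑_D ∑_{e ∣ D, e ≥ 2} e ∑_{m, m' : e ∣ m, e ∣ m'} g m g m' = ∑_D ∑_{e ∣ D, e ≥ 2} e (∑_{e ∣ m} g m)²`
(bound by the single term `e = gcd (m, D) = gcd (m', D)`, all other terms are `≥ 0`), and for each `e` there are `X / e ≤ X/e` values `D ≤ X` divisible by `e`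
(`Nat.card_multiples`-like, `Nat.Ioc_filter_dvd_card_eq_div`).  So the sum is `≤ ∑_{e = 2}^X (X/e) e (∑_{e ∣ m} g m)²`.
-/

open Finset

namespace Pool.Agent.Lib.MP_d57abb_nt.KT

theorem NC_card (D m m' : ℕ) (hD : 0 < D) :
    ((un D).filter (fun l => m' ≡ l * m [MOD D])).card ≤
      if Nat.gcd m D = Nat.gcd m' D then Nat.gcd m D else 0 := by
  rcases Finset.eq_empty_or_nonempty ((un D).filter (fun l => m' ≡ l * m [MOD D])) with h | h
  · rw [h, Finset.card_empty]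
    exact Nat.zero_le _
  · obtain ⟨l₀, hl₀⟩ := h
    rw [Finset.mem_filter] at hl₀
    obtain ⟨hl₀u, hl₀m⟩ := hl₀
    have hl₀c : l₀.Coprime D := (Finset.mem_filter.1 hl₀u).2
    have hg : Nat.gcd m D = Nat.gcd m' D := by
      have h1 : Nat.gcd m' D = Nat.gcd (l₀ * m) D := hl₀m.gcd_eq
      rw [h1, Nat.Coprime.gcd_mul_left_cancel m hl₀c]
    rw [if_pos hg]
    have he : 0 < Nat.gcd m D := Nat.gcd_pos_of_pos_right m hD
    have heD : Nat.gcd m D ∣ D := Nat.gcd_dvd_right m D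
    have hq : 0 < D / Nat.gcd m D := Nat.div_pos (Nat.le_of_dvd hD heD) he
    have hc : ((un D).filter (fun l => m' ≡ l * m [MOD D])).card ≤ (Finset.range (Nat.gcd m D)).card := by
      refine Finset.card_le_card_of_injOn (fun l => l / (D / Nat.gcd m D)) ?_ ?_
      · intro l hl
        have hl' := Finset.mem_filter.1 (Finset.mem_coe.1 hl)
        have hlD : l < D := Finset.mem_range.1 (Finset.mem_filter.1 hl'.1).1
        simp only [Finset.coe_range, Set.mem_Iio]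
        rw [Nat.div_lt_iff_lt_mul hq, Nat.mul_div_cancel' heD]
        exact hlD
      · intro l hl l' hl' heq
        have h1 := Finset.mem_filter.1 (Finset.mem_coe.1 hl)
        have h2 := Finset.mem_filter.1 (Finset.mem_coe.1 hl')
        have h3 : l * m ≡ l' * m [MOD D] := h1.2.symm.trans h2.2
        have h4 : l ≡ l' [MOD D / Nat.gcd D m] := h3.cancel_right_div_gcd hD
        rw [Nat.gcd_comm D m] at h4
        have h5 : l % (D / Nat.gcd m D) = l' % (D / Nat.gcd m D) := h4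
        have h6 : l / (D / Nat.gcd m D) = l' / (D / Nat.gcd m D) := heq
        rw [← Nat.div_add_mod l (D / Nat.gcd m D), ← Nat.div_add_mod l' (D / Nat.gcd m D), h5, h6]
    rwa [Finset.card_range] at hc

private theorem NC_inner (g : ℕ → ℝ) (hg : ∀ m, 0 ≤ g m) (P X D : ℕ) (hD : D ∈ Icc 1 X) :
    ∑ l ∈ un D, ∑ q ∈ (Sq P D l).filter (fun q => ¬ q.1.Coprime D), g q.1 * g q.2 ≤
      ∑ e ∈ Icc 2 X, (if e ∣ D then (e : ℝ) * (∑ m ∈ (Icc 1 P).filter (fun m => e ∣ m), g m) ^ 2 else 0) := by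
  classical
  obtain ⟨hD1, hDX⟩ := Finset.mem_Icc.1 hD
  have h1 : ∑ l ∈ un D, ∑ q ∈ (Sq P D l).filter (fun q => ¬ q.1.Coprime D), g q.1 * g q.2
      = ∑ q ∈ ((Icc 1 P) ×ˢ (Icc 1 P)).filter (fun q => ¬ q.1.Coprime D),
          ∑ l ∈ (un D).filter (fun l => q.2 ≡ l * q.1 [MOD D]), g q.1 * g q.2 := by
    refine Finset.sum_comm' ?_
    intro l q
    simp only [Sq, Finset.mem_filter]
    tauto
  rw [h1]
  have h2 : ∀ q ∈ ((Icc 1 P) ×ˢ (Icc 1 P)).filter (fun q => ¬ q.1.Coprime D),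
      ∑ l ∈ (un D).filter (fun l => q.2 ≡ l * q.1 [MOD D]), g q.1 * g q.2 ≤
        ∑ e ∈ Icc 2 X, (if e ∣ D ∧ e ∣ q.1 ∧ e ∣ q.2 then (e : ℝ) * (g q.1 * g q.2) else 0) := by
    intro q hq
    rw [Finset.mem_filter] at hq
    have hgg : 0 ≤ g q.1 * g q.2 := mul_nonneg (hg _) (hg _)
    rw [Finset.sum_const, nsmul_eq_mul]
    have hcard := NC_card D q.1 q.2 (by omega)
    have hnn : ∀ e ∈ Icc 2 X, (0 : ℝ) ≤ (if e ∣ D ∧ e ∣ q.1 ∧ e ∣ q.2 then (e : ℝ) * (g q.1 * g q.2) else 0) := by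
      intro e _
      split_ifs
      · positivity
      · exact le_refl _
    by_cases hE : Nat.gcd q.1 D = Nat.gcd q.2 D
    · rw [if_pos hE] at hcard
      have hne1 : Nat.gcd q.1 D ≠ 1 := hq.2
      have hpos : 0 < Nat.gcd q.1 D := Nat.gcd_pos_of_pos_right _ (by omega)
      have hle : Nat.gcd q.1 D ≤ D := Nat.le_of_dvd (by omega) (Nat.gcd_dvd_right _ _)
      have hmem : Nat.gcd q.1 D ∈ Icc 2 X := Finset.mem_Icc.2 ⟨by omega, by omega⟩
      have hcond : Nat.gcd q.1 D ∣ D ∧ Nat.gcd q.1 D ∣ q.1 ∧ Nat.gcd q.1 D ∣ q.2 := by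
        refine ⟨Nat.gcd_dvd_right _ _, Nat.gcd_dvd_left _ _, ?_⟩
        rw [hE]
        exact Nat.gcd_dvd_left _ _
      have hcR : (((un D).filter (fun l => q.2 ≡ l * q.1 [MOD D])).card : ℝ) ≤ (Nat.gcd q.1 D : ℝ) := by
        exact_mod_cast hcard
      calc (((un D).filter (fun l => q.2 ≡ l * q.1 [MOD D])).card : ℝ) * (g q.1 * g q.2)
          ≤ (Nat.gcd q.1 D : ℝ) * (g q.1 * g q.2) := mul_le_mul_of_nonneg_right hcR hgg
        _ = (if Nat.gcd q.1 D ∣ D ∧ Nat.gcd q.1 D ∣ q.1 ∧ Nat.gcd q.1 D ∣ q.2 then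
              ((Nat.gcd q.1 D : ℕ) : ℝ) * (g q.1 * g q.2) else 0) := by rw [if_pos hcond]
        _ ≤ ∑ e ∈ Icc 2 X, (if e ∣ D ∧ e ∣ q.1 ∧ e ∣ q.2 then (e : ℝ) * (g q.1 * g q.2) else 0) :=
          Finset.single_le_sum (f := fun e : ℕ => (if e ∣ D ∧ e ∣ q.1 ∧ e ∣ q.2 then
            (e : ℝ) * (g q.1 * g q.2) else 0)) hnn hmem
    · rw [if_neg hE] at hcard
      have h0 : ((un D).filter (fun l => q.2 ≡ l * q.1 [MOD D])).card = 0 := by omega
      rw [h0, Nat.cast_zero, zero_mul]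
      exact Finset.sum_nonneg hnn
  refine (Finset.sum_le_sum h2).trans ?_
  rw [Finset.sum_comm]
  refine Finset.sum_le_sum fun e _ => ?_
  by_cases heD : e ∣ D
  · rw [if_pos heD]
    have h3 : ∑ q ∈ ((Icc 1 P) ×ˢ (Icc 1 P)).filter (fun q => ¬ q.1.Coprime D),
        (if e ∣ D ∧ e ∣ q.1 ∧ e ∣ q.2 then (e : ℝ) * (g q.1 * g q.2) else 0) ≤
        ∑ q ∈ ((Icc 1 P) ×ˢ (Icc 1 P)), (if e ∣ D ∧ e ∣ q.1 ∧ e ∣ q.2 then (e : ℝ) * (g q.1 * g q.2) else 0) := by
      refine Finset.sum_le_sum_of_subset_of_nonneg (Finset.filter_subset _ _) ?_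
      intro q _ _
      have hgg : 0 ≤ g q.1 * g q.2 := mul_nonneg (hg _) (hg _)
      split_ifs
      · positivity
      · exact le_refl _
    refine h3.trans (le_of_eq ?_)
    rw [Finset.sum_product, pow_two, Finset.sum_mul_sum, Finset.mul_sum, Finset.sum_filter]
    refine Finset.sum_congr rfl fun a _ => ?_
    by_cases ha : e ∣ a
    · rw [if_pos ha, Finset.mul_sum, Finset.sum_filter]
      refine Finset.sum_congr rfl fun b _ => ?_
      by_cases hb : e ∣ b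
      · rw [if_pos ⟨heD, ha, hb⟩, if_pos hb]
      · rw [if_neg (fun h => hb h.2.2), if_neg hb]
    · rw [if_neg ha]
      refine Finset.sum_eq_zero fun b _ => ?_
      rw [if_neg (fun h => ha h.2.1)]
  · rw [if_neg heD]
    refine le_of_eq (Finset.sum_eq_zero fun q _ => ?_)
    rw [if_neg (fun h => heD h.1)]

theorem NC_bound (g : ℕ → ℝ) (hg : ∀ m, 0 ≤ g m) (P X : ℕ) :
    ∑ D ∈ Icc 1 X, ∑ l ∈ un D, ∑ q ∈ (Sq P D l).filter (fun q => ¬ q.1.Coprime D), g q.1 * g q.2 ≤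
      (X : ℝ) * ∑ e ∈ Icc 2 X, (∑ m ∈ (Icc 1 P).filter (fun m => e ∣ m), g m) ^ 2 := by
  refine (Finset.sum_le_sum fun D hD => NC_inner g hg P X D hD).trans ?_
  rw [Finset.sum_comm, Finset.mul_sum]
  refine Finset.sum_le_sum fun e he => ?_
  obtain ⟨he2, heX⟩ := Finset.mem_Icc.1 he
  have he0 : (0 : ℝ) < (e : ℝ) := by exact_mod_cast (by omega : 0 < e)
  rw [← Finset.sum_filter, Finset.sum_const, nsmul_eq_mul, ← mul_assoc]
  refine mul_le_mul_of_nonneg_right ?_ (sq_nonneg _)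
  have hc : ((Icc 1 X).filter (fun D => e ∣ D)).card = X / e := by
    have h1 : (Icc 1 X : Finset ℕ) = Ioc 0 X := by
      ext a
      rw [Finset.mem_Icc, Finset.mem_Ioc]
      omega
    rw [h1]
    exact Nat.Ioc_filter_dvd_card_eq_div X e
  rw [hc]
  have h2 : (((X / e : ℕ)) : ℝ) * (e : ℝ) ≤ (X : ℝ) := by
    exact_mod_cast Nat.div_mul_le_self X e
  exact h2

end Pool.Agent.Lib.MP_d57abb_nt.KT
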