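import Mathlib
import Pool.Agent.Lib.MP_d57abb_nt.KT.Defs

/-!
# The terms with `gcd (m, D) > 1`, estimate

`W = primorial w`: a prime divides `W` if it is `≤ w`.
For `e ≥ 2`: `∑_{m ≤ P, e ∣ m} |fN m| ≤ [e ∈ PP P] / #PP + [w < e] (P / e) / #NN` (`abs_fN_le`):  a prime `m ∈ PP P` divisible by `e ≥ 2` equals `e`; an `m ∈ NN W P` divisible by `e` forces
`e` prime to `W`, so `e` has a prime factor (`e ≥ 2`), which is `> w`, so `e > w`; the number of `m ≤ P` divisible by `e` is `P / e` (integer part) `≤ P / e`.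
With `(x + y)² ≤ 2 x² + 2 y²` and `∑_{e ∈ PP P} 1/#PP² ≤ 1/#PP`, `∑_{w < e ≤ X} 1/e² ≤ 1/w`.
-/

open Finset

namespace Pool.Agent.Lib.MP_d57abb_nt.KT

private theorem NCb_dvd {w p : ℕ} (hp : p.Prime) (h : p ≤ w) : p ∣ primorial w := by
  unfold primorial
  apply Finset.dvd_prod_of_mem (fun p : ℕ => p)
  rw [Finset.mem_filter, Finset.mem_range]
  exact ⟨by omega, hp⟩

private theorem NCb_fst (P e : ℕ) (he : 2 ≤ e) :
    ∑ m ∈ (Icc 1 P).filter (fun m => e ∣ m), (if m ∈ PP P then 1 / ((PP P).card : ℝ) else 0) ≤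
      if e ∈ PP P then 1 / ((PP P).card : ℝ) else 0 := by
  have h1 : ∀ m ∈ (Icc 1 P).filter (fun m => e ∣ m), (if m ∈ PP P then 1 / ((PP P).card : ℝ) else 0) ≤
      (if m = e then (if e ∈ PP P then 1 / ((PP P).card : ℝ) else 0) else 0) := by
    intro m hm
    rw [Finset.mem_filter] at hm
    by_cases hmP : m ∈ PP P
    · have hp := (mem_PP.mp hmP).2.1
      have hem : e = m := by
        rcases (Nat.dvd_prime hp).mp hm.2 with h | h
        · omega
        · exact h
      rw [if_pos hmP, if_pos hem.symm, hem, if_pos hmP]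
    · rw [if_neg hmP]
      split_ifs <;> positivity
  refine (Finset.sum_le_sum h1).trans ?_
  rw [Finset.sum_ite_eq']
  split_ifs <;> first | exact le_rfl | positivity

private theorem NCb_snd (w P e : ℕ) (he : 2 ≤ e) :
    ∑ m ∈ (Icc 1 P).filter (fun m => e ∣ m), (if m ∈ NN (primorial w) P then 1 / ((NN (primorial w) P).card : ℝ) else 0) ≤
      if w < e then (P : ℝ) / ((NN (primorial w) P).card : ℝ) * (1 / e) else 0 := by
  have he0 : (0 : ℝ) < e := by exact_mod_cast (by omega : 0 < e)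
  split_ifs with hw
  · have h1 : ∀ m ∈ (Icc 1 P).filter (fun m => e ∣ m),
        (if m ∈ NN (primorial w) P then 1 / ((NN (primorial w) P).card : ℝ) else 0) ≤ 1 / ((NN (primorial w) P).card : ℝ) := by
      intro m _
      split_ifs
      · exact le_rfl
      · positivity
    refine (Finset.sum_le_sum h1).trans ?_
    rw [Finset.sum_const, nsmul_eq_mul]
    have h2 : (((Icc 1 P).filter (fun m => e ∣ m)).card : ℝ) ≤ (P : ℝ) / e := by
      have h3 : ((Icc 1 P).filter (fun m => e ∣ m)).card = P / e := by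
        have := Nat.Ioc_filter_dvd_card_eq_div P e
        rw [← this]
        congr 1
      rw [h3]
      exact Nat.cast_div_le
    calc (((Icc 1 P).filter (fun m => e ∣ m)).card : ℝ) * (1 / ((NN (primorial w) P).card : ℝ))
        ≤ (P : ℝ) / e * (1 / ((NN (primorial w) P).card : ℝ)) := mul_le_mul_of_nonneg_right h2 (by positivity)
      _ = (P : ℝ) / ((NN (primorial w) P).card : ℝ) * (1 / e) := by ring
  · apply le_of_eq
    apply Finset.sum_eq_zero
    intro m hm
    rw [Finset.mem_filter] at hm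
    rw [if_neg]
    intro hN
    have hc := (mem_NN.mp hN).2.1
    obtain ⟨p, hp, hpe⟩ := Nat.exists_prime_and_dvd (by omega : e ≠ 1)
    have hpw : p ≤ w := (Nat.le_of_dvd (by omega) hpe).trans (by omega)
    have h1 : p ∣ Nat.gcd m (primorial w) := Nat.dvd_gcd (hpe.trans hm.2) (NCb_dvd hp hpw)
    rw [hc] at h1
    exact hp.one_lt.ne' (Nat.dvd_one.mp h1)

theorem NC_sum (w P X : ℕ) (hw : 1 ≤ w) :
    ∑ e ∈ Icc 2 X, (∑ m ∈ (Icc 1 P).filter (fun m => e ∣ m), |fN (primorial w) P m|) ^ 2 ≤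
      2 / ((PP P).card : ℝ) + 2 * ((P : ℝ) / ((NN (primorial w) P).card : ℝ)) ^ 2 / w := by
  set A : ℝ := (P : ℝ) / ((NN (primorial w) P).card : ℝ) with hA
  have hA0 : 0 ≤ A := by positivity
  have h1 : ∀ e ∈ Icc 2 X, (∑ m ∈ (Icc 1 P).filter (fun m => e ∣ m), |fN (primorial w) P m|) ^ 2 ≤
      2 * (if e ∈ PP P then 1 / ((PP P).card : ℝ) else 0) ^ 2 + 2 * (if w < e then A * (1 / e) else 0) ^ 2 := by
    intro e he
    rw [Finset.mem_Icc] at he
    have h2 : ∑ m ∈ (Icc 1 P).filter (fun m => e ∣ m), |fN (primorial w) P m| ≤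
        (if e ∈ PP P then 1 / ((PP P).card : ℝ) else 0) + (if w < e then A * (1 / e) else 0) := by
      refine (Finset.sum_le_sum (fun m _ => abs_fN_le (primorial w) P m)).trans ?_
      rw [Finset.sum_add_distrib]
      exact add_le_add (NCb_fst P e he.1) (NCb_snd w P e he.1)
    have h3 : 0 ≤ ∑ m ∈ (Icc 1 P).filter (fun m => e ∣ m), |fN (primorial w) P m| :=
      Finset.sum_nonneg (fun _ _ => abs_nonneg _)
    nlinarith [sq_nonneg ((if e ∈ PP P then 1 / ((PP P).card : ℝ) else 0) - (if w < e then A * (1 / e) else 0))]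
  refine (Finset.sum_le_sum h1).trans ?_
  rw [Finset.sum_add_distrib, ← Finset.mul_sum, ← Finset.mul_sum]
  have hP : ∑ e ∈ Icc 2 X, (if e ∈ PP P then 1 / ((PP P).card : ℝ) else 0) ^ 2 ≤ 1 / ((PP P).card : ℝ) := by
    have e1 : ∀ e ∈ Icc 2 X, (if e ∈ PP P then 1 / ((PP P).card : ℝ) else 0) ^ 2 =
        (if e ∈ PP P then (1 / ((PP P).card : ℝ)) ^ 2 else 0) := by
      intro e _
      split_ifs <;> simp
    rw [Finset.sum_congr rfl e1, ← Finset.sum_filter, Finset.sum_const, nsmul_eq_mul]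
    have h4 : (((Icc 2 X).filter (fun e => e ∈ PP P)).card : ℝ) ≤ ((PP P).card : ℝ) := by
      have : ((Icc 2 X).filter (fun e => e ∈ PP P)).card ≤ (PP P).card := by
        apply Finset.card_le_card
        intro e he
        exact (Finset.mem_filter.mp he).2
      exact_mod_cast this
    rcases Nat.eq_zero_or_pos (PP P).card with h0 | h0
    · rw [h0]
      simp
    · have h5 : (0 : ℝ) < ((PP P).card : ℝ) := by exact_mod_cast h0
      calc (((Icc 2 X).filter (fun e => e ∈ PP P)).card : ℝ) * (1 / ((PP P).card : ℝ)) ^ 2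
          ≤ ((PP P).card : ℝ) * (1 / ((PP P).card : ℝ)) ^ 2 := mul_le_mul_of_nonneg_right h4 (by positivity)
        _ = 1 / ((PP P).card : ℝ) := by field_simp
  have hN : ∑ e ∈ Icc 2 X, (if w < e then A * (1 / e) else 0) ^ 2 ≤ A ^ 2 / w := by
    have e1 : ∀ e ∈ Icc 2 X, (if w < e then A * (1 / (e : ℝ)) else 0) ^ 2 =
        (if w < e then A ^ 2 * (((e : ℝ)) ^ 2)⁻¹ else 0) := by
      intro e _
      split_ifs
      · ring
      · simp
    rw [Finset.sum_congr rfl e1, ← Finset.sum_filter, ← Finset.mul_sum]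
    have h6 : ∑ e ∈ (Icc 2 X).filter (fun e => w < e), (((e : ℝ)) ^ 2)⁻¹ ≤ (w : ℝ)⁻¹ := by
      rcases le_or_gt w X with hX | hX
      · have h7 : (Icc 2 X).filter (fun e => w < e) ⊆ Ioc w X := by
          intro e he
          rw [Finset.mem_filter, Finset.mem_Icc] at he
          rw [Finset.mem_Ioc]
          exact ⟨he.2, he.1.2⟩
        refine (Finset.sum_le_sum_of_subset_of_nonneg h7 (fun _ _ _ => by positivity)).trans ?_
        refine (sum_Ioc_inv_sq_le_sub (α := ℝ) (by omega : w ≠ 0) hX).trans ?_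
        have : (0 : ℝ) ≤ (X : ℝ)⁻¹ := by positivity
        linarith
      · have h7 : (Icc 2 X).filter (fun e => w < e) = ∅ := by
          rw [Finset.filter_eq_empty_iff]
          intro e he
          rw [Finset.mem_Icc] at he
          omega
        rw [h7, Finset.sum_empty]
        positivity
    calc A ^ 2 * ∑ e ∈ (Icc 2 X).filter (fun e => w < e), (((e : ℝ)) ^ 2)⁻¹ ≤ A ^ 2 * (w : ℝ)⁻¹ :=
          mul_le_mul_of_nonneg_left h6 (by positivity)
      _ = A ^ 2 / w := by rw [div_eq_mul_inv]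
  have e2 : 2 / ((PP P).card : ℝ) = 2 * (1 / ((PP P).card : ℝ)) := by ring
  have e3 : 2 * A ^ 2 / (w : ℝ) = 2 * (A ^ 2 / w) := by ring
  rw [e2, e3]
  linarith

end Pool.Agent.Lib.MP_d57abb_nt.KT
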