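import Mathlib
import Pool.Agent.Lib.MP_d57abb_nt.KT.Defs
import Pool.Agent.Lib.MP_42948a_nt.OM.A2

/-!
# JOB Par: Parseval on the units modulo `D`

`F a = ∑_{m ∈ [1,P], m ≡ a (D)} g m`, `H a = ∑_{m ≡ a} h m` for `a` a unit modulo `D`.  For `l` prime to `D`, `T l = ∑_{q ∈ Sq P D l, (q.1, D) = 1} g q.1 h q.2 = ∑_{a unit} F a H (l a)`.
By orthogonality (`Pool.Agent.Lib.MP_42948a_nt.OM.orth` in `OM/A1.lean`: `∑_χ χ(b⁻¹) χ(x) = φ(D)` if `x = b`, else `0`):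
`φ(D) T l = ∑_{m, m'} g m h m' ∑_χ χ(m') conj (χ(m)) χ(l⁻¹)` over `m, m'` (the terms with `m` or `m'` not prime to `D` vanish; for `m` prime to `D` the condition `m' ≡ l m` is
`m' = b`, `b = l m` as a unit, `χ(b⁻¹) = χ(l⁻¹) conj χ(m)`: `conj_char_unit`) `= ∑_χ conj (SS g χ) SS h χ χ(l⁻¹)` (`g` real).
By `OM.parseval_char` (in `OM/A2.lean`, with `k χ = conj (SS g χ) SS h χ`): `∑_l |φ(D) T l|² = φ(D) ∑_χ |SS g χ|² |SS h χ|²`.  So `∑_l (T l)² = (1/φ(D)) ∑_χ ‖SS g χ‖² ‖SS h χ‖²`.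
The sum over `l ∈ un D` is the sum over the units of `ZMod D`: `Finset.sum_nbij'`/`sum_bij` with `l ↦ ZMod.unitOfCoprime l _` (inverse `u ↦ (u : ZMod D).val`, `ZMod.val_coe_unit_coprime`).
(`D = 1` is fine: `un 1 = {0}`.)
-/

open Finset

namespace Pool.Agent.Lib.MP_d57abb_nt.KT

open Classical in
/-- the sum over a class of units -/
noncomputable def Par_T (D P : ℕ) (g h : ℕ → ℝ) (b : (ZMod D)ˣ) : ℂ :=
  ∑ m ∈ Icc 1 P, ∑ m' ∈ Icc 1 P,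
    if ((m' : ZMod D) = (b : ZMod D) * (m : ZMod D) ∧ m.Coprime D) then ((g m : ℂ) * (h m' : ℂ)) else 0

theorem Par_inner (D : ℕ) [NeZero D] (b : (ZMod D)ˣ) (m m' : ℕ) :
    ∑ χ : DirichletCharacter ℂ D, (starRingEnd ℂ) (χ (m : ZMod D)) * χ (m' : ZMod D) *
        χ ((b⁻¹ : (ZMod D)ˣ) : ZMod D) =
      if ((m' : ZMod D) = (b : ZMod D) * (m : ZMod D) ∧ m.Coprime D) then (D.totient : ℂ) else 0 := by
  by_cases hm : m.Coprime D
  · have hv : ((ZMod.unitOfCoprime m hm : (ZMod D)ˣ) : ZMod D) = (m : ZMod D) :=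
      ZMod.coe_unitOfCoprime m hm
    have h1 := Pool.Agent.Lib.MP_42948a_nt.OM.orth D (b * ZMod.unitOfCoprime m hm) (m' : ZMod D)
    have h2 : ∀ χ : DirichletCharacter ℂ D, (starRingEnd ℂ) (χ (m : ZMod D)) * χ (m' : ZMod D) *
        χ ((b⁻¹ : (ZMod D)ˣ) : ZMod D) =
        χ (((b * ZMod.unitOfCoprime m hm)⁻¹ : (ZMod D)ˣ) : ZMod D) * χ (m' : ZMod D) := by
      intro χ
      rw [← hv, Pool.Agent.Lib.MP_42948a_nt.OM.conj_char_unit, mul_inv_rev, Units.val_mul, map_mul]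
      ring
    rw [Finset.sum_congr rfl (fun χ _ => h2 χ), h1, Units.val_mul, hv]
    by_cases hc : (m' : ZMod D) = (b : ZMod D) * (m : ZMod D)
    · rw [if_pos hc, if_pos ⟨hc, hm⟩]
    · rw [if_neg hc, if_neg (fun h => hc h.1)]
  · rw [if_neg (fun h => hm h.2)]
    refine Finset.sum_eq_zero fun χ _ => ?_
    have hu : ¬ IsUnit (m : ZMod D) := fun h => hm ((ZMod.isUnit_iff_coprime m D).1 h)
    rw [MulChar.map_nonunit χ hu, map_zero, zero_mul, zero_mul]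

theorem Par_sum (D : ℕ) [NeZero D] (P : ℕ) (g h : ℕ → ℝ) (b : (ZMod D)ˣ) :
    ∑ χ : DirichletCharacter ℂ D, ((starRingEnd ℂ) (SS P g χ) * SS P h χ) *
        χ ((b⁻¹ : (ZMod D)ˣ) : ZMod D) = (D.totient : ℂ) * Par_T D P g h b := by
  have h1 : ∀ χ : DirichletCharacter ℂ D, ((starRingEnd ℂ) (SS P g χ) * SS P h χ) *
        χ ((b⁻¹ : (ZMod D)ˣ) : ZMod D) =
      ∑ m ∈ Icc 1 P, ∑ m' ∈ Icc 1 P, ((g m : ℂ) * (h m' : ℂ)) *
        ((starRingEnd ℂ) (χ (m : ZMod D)) * χ (m' : ZMod D) * χ ((b⁻¹ : (ZMod D)ˣ) : ZMod D)) := by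
    intro χ
    unfold SS
    rw [map_sum, Finset.sum_mul_sum, Finset.sum_mul]
    refine Finset.sum_congr rfl fun m _ => ?_
    rw [Finset.sum_mul]
    refine Finset.sum_congr rfl fun m' _ => ?_
    rw [map_mul, Complex.conj_ofReal]
    ring
  rw [Finset.sum_congr rfl (fun χ _ => h1 χ), Finset.sum_comm, Par_T, Finset.mul_sum]
  refine Finset.sum_congr rfl fun m _ => ?_
  rw [Finset.sum_comm, Finset.mul_sum]
  refine Finset.sum_congr rfl fun m' _ => ?_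
  rw [← Finset.mul_sum, Par_inner]
  split_ifs
  · ring
  · ring

theorem Par_val (D : ℕ) [NeZero D] (P : ℕ) (g h : ℕ → ℝ) (b : (ZMod D)ˣ) :
    (((∑ q ∈ (Sq P D (b : ZMod D).val).filter (fun q => q.1.Coprime D), g q.1 * h q.2 : ℝ)) : ℂ) =
      Par_T D P g h b := by
  have hb : (((b : ZMod D).val : ℕ) : ZMod D) = (b : ZMod D) := ZMod.natCast_zmod_val _
  unfold Sq Par_T
  rw [Finset.filter_filter, Finset.sum_filter, Finset.sum_product, Complex.ofReal_sum]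
  refine Finset.sum_congr rfl fun m _ => ?_
  rw [Complex.ofReal_sum]
  refine Finset.sum_congr rfl fun m' _ => ?_
  have hiff : (m' ≡ (b : ZMod D).val * m [MOD D] ∧ m.Coprime D) ↔
      ((m' : ZMod D) = (b : ZMod D) * (m : ZMod D) ∧ m.Coprime D) := by
    rw [← ZMod.natCast_eq_natCast_iff, Nat.cast_mul, hb]
  by_cases hc : (m' : ZMod D) = (b : ZMod D) * (m : ZMod D) ∧ m.Coprime D
  · rw [if_pos hc, if_pos (hiff.2 hc), Complex.ofReal_mul]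
  · rw [if_neg hc, if_neg (fun h' => hc (hiff.1 h')), Complex.ofReal_zero]

theorem parseval_l (D : ℕ) (hD : 0 < D) (P : ℕ) (g h : ℕ → ℝ) :
    ∑ l ∈ un D, (∑ q ∈ (Sq P D l).filter (fun q => q.1.Coprime D), g q.1 * h q.2) ^ 2 ≤
      1 / (D.totient : ℝ) * ∑ χ ∈ allc D, ‖SS P g χ‖ ^ 2 * ‖SS P h χ‖ ^ 2 := by
  have : NeZero D := ⟨hD.ne'⟩
  have hφ : (0 : ℝ) < (D.totient : ℝ) := by exact_mod_cast Nat.totient_pos.2 hD
  have hpar := Pool.Agent.Lib.MP_42948a_nt.OM.parseval_char D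
    (fun χ => (starRingEnd ℂ) (SS P g χ) * SS P h χ)
  have h1 : ∀ b : (ZMod D)ˣ, ‖∑ χ : DirichletCharacter ℂ D,
      ((starRingEnd ℂ) (SS P g χ) * SS P h χ) * χ ((b⁻¹ : (ZMod D)ˣ) : ZMod D)‖ ^ 2 =
      (D.totient : ℝ) ^ 2 * ‖Par_T D P g h b‖ ^ 2 := by
    intro b
    rw [Par_sum, norm_mul, mul_pow, Complex.norm_natCast]
  rw [Finset.sum_congr rfl (fun b _ => h1 b), ← Finset.mul_sum] at hpar
  have h2 : ∀ χ : DirichletCharacter ℂ D, ‖(starRingEnd ℂ) (SS P g χ) * SS P h χ‖ ^ 2 =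
      ‖SS P g χ‖ ^ 2 * ‖SS P h χ‖ ^ 2 := by
    intro χ
    rw [norm_mul, mul_pow, RCLike.norm_conj]
  rw [Finset.sum_congr rfl (fun χ _ => h2 χ)] at hpar
  have h3 : ∑ b : (ZMod D)ˣ, ‖Par_T D P g h b‖ ^ 2 =
      ∑ l ∈ un D, (∑ q ∈ (Sq P D l).filter (fun q => q.1.Coprime D), g q.1 * h q.2) ^ 2 := by
    refine Finset.sum_nbij (fun b : (ZMod D)ˣ => (b : ZMod D).val) ?_ ?_ ?_ ?_
    · intro b _
      unfold un
      exact Finset.mem_filter.2 ⟨Finset.mem_range.2 (ZMod.val_lt _), ZMod.val_coe_unit_coprime b⟩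
    · intro b _ b' _ hbb
      exact Units.ext (ZMod.val_injective D hbb)
    · intro l hl
      have hl' : l ∈ un D := hl
      unfold un at hl'
      obtain ⟨hlr, hlc⟩ := Finset.mem_filter.1 hl'
      refine ⟨ZMod.unitOfCoprime l hlc, Finset.mem_coe.2 (Finset.mem_univ _), ?_⟩
      change ((ZMod.unitOfCoprime l hlc : (ZMod D)ˣ) : ZMod D).val = l
      rw [ZMod.coe_unitOfCoprime, ZMod.val_natCast_of_lt (Finset.mem_range.1 hlr)]
    · intro b _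
      rw [← Par_val, Complex.norm_real, Real.norm_eq_abs, sq_abs]
  rw [← h3, allc_eq]
  have h4 : ∑ b : (ZMod D)ˣ, ‖Par_T D P g h b‖ ^ 2 =
      1 / (D.totient : ℝ) * ∑ χ : DirichletCharacter ℂ D, ‖SS P g χ‖ ^ 2 * ‖SS P h χ‖ ^ 2 := by
    have h5 : (D.totient : ℝ) * ((D.totient : ℝ) * ∑ b : (ZMod D)ˣ, ‖Par_T D P g h b‖ ^ 2) =
        (D.totient : ℝ) * ∑ χ : DirichletCharacter ℂ D, ‖SS P g χ‖ ^ 2 * ‖SS P h χ‖ ^ 2 := by
      rw [← hpar]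
      ring
    have h6 := mul_left_cancel₀ hφ.ne' h5
    rw [← h6, ← mul_assoc, one_div, inv_mul_cancel₀ hφ.ne', one_mul]
  exact le_of_eq h4

end Pool.Agent.Lib.MP_d57abb_nt.KT
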