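import Mathlib
import Pool.Agent.Lib.MP_d57abb_nt.KT.Four
import Pool.Agent.Lib.MP_d57abb_nt.KT.Par
import Pool.Agent.Lib.MP_d57abb_nt.KT.NC
import Pool.Agent.Lib.MP_d57abb_nt.KT.NCb

/-!
# JOB Mab: the main analytic bound

`W = primorial w`, `g = gi W P i`, `h = gi W P j`, `𝒟 = {D ≤ K P : P ≤ J D}`.  Split `Sq P D l` into the `q` with `q.1` prime to `D` and the others.
(1) Others: `|g m| ≤ |fN m|`, `|h m| ≤ |fN m|` on `[1, P]`; the sum is `≤ K P (2/#PP + 2 (P/#NN)²/w)` by `NC_bound` (for `|fN|`, all `D ≤ K P`) and `NC_sum`; `2/#PP ≤ 10 log P/P`, `(P/#NN)² ≤ 64 (W/φ(W))² ≤ 64 η w` (`cw η`,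
`NN_lower`): `≤ K P (10 log P/P + 128 η) ≤ (δ/2) P` for `η = δ/(512 (K+1))` and `P` large.
(2) `T D l = ∑_{q ∈ Sq P D l, (q.1, D) = 1} g q.1 h q.2`.  Cauchy-Schwarz: `(∑_{D ∈ 𝒟} ∑_{l ∈ un D} |T D l|)² ≤ (∑_{D ∈ 𝒟} #(un D)) ∑_D ∑_l (T D l)² ≤ (K P)² ∑_{D ∈ 𝒟} (1/φ(D)) ∑_χ ‖SS g χ‖² ‖SS h χ‖²` (`parseval_l`) and
`‖SS g χ‖² ‖SS h χ‖² ≤ (‖SS g χ‖^4 + ‖SS h χ‖^4)/2`, so by `fourth` with `δ₁ = (δ/(2 (K+1)))²` it is `≤ (K P)² δ₁`, and `∑∑ |T| ≤ K P δ/(2(K+1)) ≤ (δ/2) P`.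
-/

open Finset

namespace Pool.Agent.Lib.MP_d57abb_nt.KT

private theorem le_of_sq_le_sq_mab {a b : ℝ} (h : a ^ 2 ≤ b ^ 2) (hb : 0 ≤ b) : a ≤ b := by
  have h1 := abs_le_of_sq_le_sq h hb
  exact (le_abs_self a).trans h1

private theorem mab_gi_le (W P i m : ℕ) (hm : m ∈ Icc 1 P) : |gi W P i m| ≤ |fN W P m| := by
  rw [Finset.mem_Icc] at hm
  have hP : (0 : ℝ) < (P : ℝ) := by exact_mod_cast (by omega : 0 < P)
  have h0 : (0 : ℝ) ≤ (m : ℝ) / P := by positivity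
  have h1 : (m : ℝ) / P ≤ 1 := by
    rw [div_le_one hP]
    exact_mod_cast hm.2
  have h2 : ((m : ℝ) / P) ^ i ≤ 1 := pow_le_one₀ h0 h1
  unfold gi
  rw [abs_mul, abs_of_nonneg (pow_nonneg h0 i)]
  calc |fN W P m| * ((m : ℝ) / P) ^ i ≤ |fN W P m| * 1 :=
        mul_le_mul_of_nonneg_left h2 (abs_nonneg _)
    _ = |fN W P m| := mul_one _

private theorem mab_un_card (D : ℕ) : (un D).card ≤ D := by
  unfold un
  exact (Finset.card_filter_le _ _).trans (le_of_eq (Finset.card_range D))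

private theorem mab_nc (W P K J i j : ℕ) :
    ∑ D ∈ (Icc 1 (K * P)).filter (fun D => P ≤ J * D), ∑ l ∈ un D,
      |∑ q ∈ (Sq P D l).filter (fun q => ¬ q.1.Coprime D), gi W P i q.1 * gi W P j q.2| ≤
      ((K * P : ℕ) : ℝ) *
        ∑ e ∈ Icc 2 (K * P), (∑ m ∈ (Icc 1 P).filter (fun m => e ∣ m), |fN W P m|) ^ 2 := by
  refine le_trans ?_ (NC_bound (fun m => |fN W P m|) (fun m => abs_nonneg _) P (K * P))
  have hnn : ∀ D ∈ Icc 1 (K * P), D ∉ (Icc 1 (K * P)).filter (fun D => P ≤ J * D) →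
      0 ≤ ∑ l ∈ un D, ∑ q ∈ (Sq P D l).filter (fun q => ¬ q.1.Coprime D),
        |fN W P q.1| * |fN W P q.2| :=
    fun D _ _ => Finset.sum_nonneg fun l _ => Finset.sum_nonneg fun q _ =>
      mul_nonneg (abs_nonneg _) (abs_nonneg _)
  refine le_trans ?_ (Finset.sum_le_sum_of_subset_of_nonneg (Finset.filter_subset _ _) hnn)
  refine Finset.sum_le_sum fun D _ => Finset.sum_le_sum fun l _ => ?_
  refine (Finset.abs_sum_le_sum_abs _ _).trans (Finset.sum_le_sum fun q hq => ?_)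
  have hq1 := (Finset.mem_filter.1 (Finset.mem_filter.1 hq).1).1
  rw [Finset.mem_product] at hq1
  rw [abs_mul]
  exact mul_le_mul (mab_gi_le W P i q.1 hq1.1) (mab_gi_le W P j q.2 hq1.2) (abs_nonneg _)
    (abs_nonneg _)

private theorem mab_co (W P K J i j : ℕ) (d : ℝ)
    (hi : ∑ D ∈ (Icc 1 (K * P)).filter (fun D => P ≤ J * D), 1 / (D.totient : ℝ) *
      ∑ χ ∈ allc D, ‖SS P (gi W P i) χ‖ ^ 4 ≤ d)
    (hj : ∑ D ∈ (Icc 1 (K * P)).filter (fun D => P ≤ J * D), 1 / (D.totient : ℝ) *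
      ∑ χ ∈ allc D, ‖SS P (gi W P j) χ‖ ^ 4 ≤ d) :
    (∑ D ∈ (Icc 1 (K * P)).filter (fun D => P ≤ J * D), ∑ l ∈ un D,
      |∑ q ∈ (Sq P D l).filter (fun q => q.1.Coprime D), gi W P i q.1 * gi W P j q.2|) ^ 2 ≤
      ((K : ℝ) * P) ^ 2 * d := by
  set S : Finset ((_ : ℕ) × ℕ) :=
    ((Icc 1 (K * P)).filter (fun D => P ≤ J * D)).sigma (fun D => un D) with hS
  set T : ((_ : ℕ) × ℕ) → ℝ := fun s =>
    |∑ q ∈ (Sq P s.1 s.2).filter (fun q => q.1.Coprime s.1), gi W P i q.1 * gi W P j q.2| with hT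
  have h1 : ∑ D ∈ (Icc 1 (K * P)).filter (fun D => P ≤ J * D), ∑ l ∈ un D,
      |∑ q ∈ (Sq P D l).filter (fun q => q.1.Coprime D), gi W P i q.1 * gi W P j q.2|
      = ∑ s ∈ S, T s := by
    rw [hS, Finset.sum_sigma]
  rw [h1]
  have h2 : (∑ s ∈ S, T s) ^ 2 ≤ (S.card : ℝ) * ∑ s ∈ S, T s ^ 2 := sq_sum_le_card_mul_sum_sq
  have h3 : (S.card : ℝ) ≤ ((K : ℝ) * P) ^ 2 := by
    have a1 : S.card ≤ (K * P) * (K * P) := by
      rw [hS, Finset.card_sigma]
      calc ∑ D ∈ (Icc 1 (K * P)).filter (fun D => P ≤ J * D), (un D).card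
          ≤ ∑ D ∈ (Icc 1 (K * P)).filter (fun D => P ≤ J * D), K * P := by
            refine Finset.sum_le_sum fun D hD => (mab_un_card D).trans ?_
            exact (Finset.mem_Icc.1 (Finset.mem_filter.1 hD).1).2
        _ = ((Icc 1 (K * P)).filter (fun D => P ≤ J * D)).card * (K * P) := by
            rw [Finset.sum_const, smul_eq_mul]
        _ ≤ (K * P) * (K * P) := by
            refine Nat.mul_le_mul_right _ ((Finset.card_filter_le _ _).trans ?_)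
            rw [Nat.card_Icc]
            omega
    have a2 : (S.card : ℝ) ≤ (((K * P) * (K * P) : ℕ) : ℝ) := by exact_mod_cast a1
    refine a2.trans (le_of_eq ?_)
    push_cast
    ring
  have h4 : ∑ s ∈ S, T s ^ 2 ≤ d := by
    rw [hS, Finset.sum_sigma]
    have b1 : ∀ D ∈ (Icc 1 (K * P)).filter (fun D => P ≤ J * D),
        ∑ l ∈ un D, T ⟨D, l⟩ ^ 2 ≤
          (1 / (D.totient : ℝ) * ∑ χ ∈ allc D, ‖SS P (gi W P i) χ‖ ^ 4) / 2 +
          (1 / (D.totient : ℝ) * ∑ χ ∈ allc D, ‖SS P (gi W P j) χ‖ ^ 4) / 2 := by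
      intro D hD
      have hD0 : 0 < D := by
        have := (Finset.mem_Icc.1 (Finset.mem_filter.1 hD).1).1
        omega
      have c1 := parseval_l D hD0 P (gi W P i) (gi W P j)
      have c2 : ∑ l ∈ un D, T ⟨D, l⟩ ^ 2 =
          ∑ l ∈ un D, (∑ q ∈ (Sq P D l).filter (fun q => q.1.Coprime D),
            gi W P i q.1 * gi W P j q.2) ^ 2 := by
        refine Finset.sum_congr rfl fun l _ => ?_
        rw [hT]
        exact sq_abs _
      rw [c2]
      refine c1.trans ?_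
      have c3 : ∑ χ ∈ allc D, ‖SS P (gi W P i) χ‖ ^ 2 * ‖SS P (gi W P j) χ‖ ^ 2 ≤
          (∑ χ ∈ allc D, ‖SS P (gi W P i) χ‖ ^ 4) / 2 +
          (∑ χ ∈ allc D, ‖SS P (gi W P j) χ‖ ^ 4) / 2 := by
        rw [Finset.sum_div, Finset.sum_div, ← Finset.sum_add_distrib]
        refine Finset.sum_le_sum fun χ _ => ?_
        nlinarith [sq_nonneg (‖SS P (gi W P i) χ‖ ^ 2 - ‖SS P (gi W P j) χ‖ ^ 2)]
      have c4 : (0 : ℝ) ≤ 1 / (D.totient : ℝ) := by positivity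
      calc 1 / (D.totient : ℝ) * ∑ χ ∈ allc D, ‖SS P (gi W P i) χ‖ ^ 2 * ‖SS P (gi W P j) χ‖ ^ 2
          ≤ 1 / (D.totient : ℝ) * ((∑ χ ∈ allc D, ‖SS P (gi W P i) χ‖ ^ 4) / 2 +
          (∑ χ ∈ allc D, ‖SS P (gi W P j) χ‖ ^ 4) / 2) := mul_le_mul_of_nonneg_left c3 c4
        _ = _ := by ring
    refine (Finset.sum_le_sum b1).trans ?_
    rw [Finset.sum_add_distrib, ← Finset.sum_div, ← Finset.sum_div]
    linarith
  have h5 : 0 ≤ ∑ s ∈ S, T s ^ 2 := Finset.sum_nonneg fun s _ => sq_nonneg _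
  calc (∑ s ∈ S, T s) ^ 2 ≤ (S.card : ℝ) * ∑ s ∈ S, T s ^ 2 := h2
    _ ≤ ((K : ℝ) * P) ^ 2 * d := mul_le_mul h3 h4 h5 (by positivity)

private theorem mab_log (C : ℝ) (η : ℝ) (hη : 0 < η) :
    ∃ P₀ : ℕ, ∀ P : ℕ, P₀ ≤ P → C * Real.log P ≤ η * P := by
  have h := Real.isLittleO_log_id_atTop
  have h1 : ∀ᶠ x : ℝ in Filter.atTop, ‖Real.log x‖ ≤ η / (|C| + 1) * ‖x‖ :=
    h.bound (by positivity)
  have h2 := (tendsto_natCast_atTop_atTop (R := ℝ)).eventually h1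
  obtain ⟨P₀, hP₀⟩ := Filter.eventually_atTop.1 h2
  refine ⟨P₀, fun P hP => ?_⟩
  have h3 := hP₀ P hP
  rw [Real.norm_eq_abs, Real.norm_eq_abs, abs_of_nonneg (a := (P : ℝ)) (Nat.cast_nonneg P)] at h3
  have h4 : (0 : ℝ) < |C| + 1 := by positivity
  calc C * Real.log P ≤ |C * Real.log P| := le_abs_self _
    _ = |C| * |Real.log P| := abs_mul _ _
    _ ≤ (|C| + 1) * (η / (|C| + 1) * P) :=
        mul_le_mul (by linarith) h3 (abs_nonneg _) h4.le
    _ = η * P := by field_simp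

theorem main_bound (K J : ℕ) (δ : ℝ) (hδ : 0 < δ) : ∃ w₀ : ℕ, ∀ w : ℕ, w₀ ≤ w → ∃ P₀ : ℕ, ∀ P : ℕ, P₀ ≤ P →
    ∀ i j : ℕ, ∑ D ∈ (Icc 1 (K * P)).filter (fun D => P ≤ J * D), ∑ l ∈ un D,
      |∑ q ∈ Sq P D l, gi (primorial w) P i q.1 * gi (primorial w) P j q.2| ≤ δ * P := by
  have hK1 : (0 : ℝ) < (K : ℝ) + 1 := by positivity
  have hη : 0 < δ / (512 * ((K : ℝ) + 1)) := by positivity
  have hδ1 : 0 < (δ / (2 * ((K : ℝ) + 1))) ^ 2 := by positivity
  obtain ⟨w1, hw1⟩ := cw (δ / (512 * ((K : ℝ) + 1))) hη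
  obtain ⟨w2, hw2⟩ := fourth K J ((δ / (2 * ((K : ℝ) + 1))) ^ 2) hδ1
  refine ⟨max (max w1 w2) 5, fun w hw => ?_⟩
  have hww1 : w1 ≤ w := le_trans (le_trans (le_max_left _ _) (le_max_left _ _)) hw
  have hww2 : w2 ≤ w := le_trans (le_trans (le_max_right _ _) (le_max_left _ _)) hw
  have hw5 : 5 ≤ w := le_trans (le_max_right _ _) hw
  obtain ⟨P2, hP2⟩ := hw2 w hww2
  have hW : 0 < primorial w := primorial_pos w
  obtain ⟨P3, hP3⟩ := NN_lower (primorial w) hW (five_dvd_primorial w hw5)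
  obtain ⟨P4, hP4⟩ := PP_lower
  obtain ⟨P5, hP5⟩ := mab_log (10 * K) (δ / 4) (by positivity)
  refine ⟨max (max P2 P3) (max (max P4 P5) 3), fun P hP i j => ?_⟩
  have hPP2 : P2 ≤ P := le_trans (le_trans (le_max_left _ _) (le_max_left _ _)) hP
  have hPP3 : P3 ≤ P := le_trans (le_trans (le_max_right _ _) (le_max_left _ _)) hP
  have hPP4 : P4 ≤ P :=
    le_trans (le_trans (le_trans (le_max_left _ _) (le_max_left _ _)) (le_max_right _ _)) hP
  have hPP5 : P5 ≤ P :=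
    le_trans (le_trans (le_trans (le_max_right _ _) (le_max_left _ _)) (le_max_right _ _)) hP
  have hPP6 : 3 ≤ P := le_trans (le_trans (le_max_right _ _) (le_max_right _ _)) hP
  have hP0 : (0 : ℝ) < (P : ℝ) := by exact_mod_cast (by omega : 0 < P)
  have hlog : 0 < Real.log P := Real.log_pos (by exact_mod_cast (by omega : 1 < P))
  have hw0 : (0 : ℝ) < (w : ℝ) := by exact_mod_cast (by omega : 0 < w)
  -- the terms with a common factor
  have hnc : ∑ D ∈ (Icc 1 (K * P)).filter (fun D => P ≤ J * D), ∑ l ∈ un D,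
      |∑ q ∈ (Sq P D l).filter (fun q => ¬ q.1.Coprime D),
        gi (primorial w) P i q.1 * gi (primorial w) P j q.2| ≤ (δ / 2) * P := by
    refine (mab_nc (primorial w) P K J i j).trans ?_
    have a1 := NC_sum w P (K * P) (by omega)
    have a2 : 2 / ((PP P).card : ℝ) ≤ 10 * Real.log P / P := by
      have b1 := hP4 P hPP4
      have b2 : (0 : ℝ) < (P : ℝ) / (5 * Real.log P) := by positivity
      have b3 : (0 : ℝ) < ((PP P).card : ℝ) := lt_of_lt_of_le b2 b1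
      calc 2 / ((PP P).card : ℝ) ≤ 2 / ((P : ℝ) / (5 * Real.log P)) :=
            div_le_div_of_nonneg_left (by norm_num) b2 b1
        _ = 10 * Real.log P / P := by field_simp; ring
    have a3 : 2 * ((P : ℝ) / ((NN (primorial w) P).card : ℝ)) ^ 2 / w ≤
        128 * (δ / (512 * ((K : ℝ) + 1))) := by
      have b1 := hP3 P hPP3
      have hφ : (0 : ℝ) < ((primorial w).totient : ℝ) := by
        exact_mod_cast Nat.totient_pos.2 hW
      have hWr : (0 : ℝ) < (primorial w : ℝ) := by exact_mod_cast hW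
      have b2 : (0 : ℝ) < (P : ℝ) * ((primorial w).totient : ℝ) / (8 * (primorial w : ℝ)) := by
        positivity
      have b3 : (P : ℝ) / ((NN (primorial w) P).card : ℝ) ≤
          8 * ((primorial w : ℝ) / ((primorial w).totient : ℝ)) := by
        calc (P : ℝ) / ((NN (primorial w) P).card : ℝ) ≤
              (P : ℝ) / ((P : ℝ) * ((primorial w).totient : ℝ) / (8 * (primorial w : ℝ))) :=
              div_le_div_of_nonneg_left hP0.le b2 b1
          _ = 8 * ((primorial w : ℝ) / ((primorial w).totient : ℝ)) := by field_simp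
      have b4 : ((P : ℝ) / ((NN (primorial w) P).card : ℝ)) ^ 2 ≤
          (8 * ((primorial w : ℝ) / ((primorial w).totient : ℝ))) ^ 2 :=
        pow_le_pow_left₀ (by positivity) b3 2
      have b5 := hw1 w hww1
      have b6 : (8 * ((primorial w : ℝ) / ((primorial w).totient : ℝ))) ^ 2 =
          64 * ((primorial w : ℝ) / ((primorial w).totient : ℝ)) ^ 2 := by ring
      rw [b6] at b4
      rw [div_le_iff₀ hw0]
      nlinarith
    have a4 : (0 : ℝ) ≤ ((K * P : ℕ) : ℝ) := Nat.cast_nonneg _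
    have a5 : ((K * P : ℕ) : ℝ) = (K : ℝ) * P := by push_cast; ring
    calc ((K * P : ℕ) : ℝ) * ∑ e ∈ Icc 2 (K * P),
          (∑ m ∈ (Icc 1 P).filter (fun m => e ∣ m), |fN (primorial w) P m|) ^ 2
        ≤ ((K * P : ℕ) : ℝ) * (10 * Real.log P / P + 128 * (δ / (512 * ((K : ℝ) + 1)))) :=
          mul_le_mul_of_nonneg_left (a1.trans (add_le_add a2 a3)) a4
      _ = 10 * K * Real.log P + (δ / 4) * P * ((K : ℝ) / ((K : ℝ) + 1)) := by
          rw [a5]; field_simp; ring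
      _ ≤ (δ / 4) * P + (δ / 4) * P * 1 := by
          refine add_le_add (hP5 P hPP5) (mul_le_mul_of_nonneg_left ?_ (by positivity))
          rw [div_le_one hK1]
          linarith
      _ = (δ / 2) * P := by ring
  -- the coprime terms
  have hco : ∑ D ∈ (Icc 1 (K * P)).filter (fun D => P ≤ J * D), ∑ l ∈ un D,
      |∑ q ∈ (Sq P D l).filter (fun q => q.1.Coprime D),
        gi (primorial w) P i q.1 * gi (primorial w) P j q.2| ≤ (δ / 2) * P := by
    have a1 := mab_co (primorial w) P K J i j ((δ / (2 * ((K : ℝ) + 1))) ^ 2)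
      (hP2 P hPP2 i) (hP2 P hPP2 j)
    have a2 : ((K : ℝ) * P) ^ 2 * (δ / (2 * ((K : ℝ) + 1))) ^ 2 ≤ ((δ / 2) * P) ^ 2 := by
      rw [← mul_pow]
      refine pow_le_pow_left₀ (by positivity) ?_ 2
      have b1 : (K : ℝ) * P * (δ / (2 * ((K : ℝ) + 1))) = (δ / 2) * P * ((K : ℝ) / ((K : ℝ) + 1)) := by
        field_simp
      rw [b1]
      calc (δ / 2) * P * ((K : ℝ) / ((K : ℝ) + 1)) ≤ (δ / 2) * P * 1 := by
            refine mul_le_mul_of_nonneg_left ?_ (by positivity)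
            rw [div_le_one hK1]
            linarith
        _ = (δ / 2) * P := mul_one _
    have a3 : (0 : ℝ) ≤ (δ / 2) * P := by positivity
    exact le_of_sq_le_sq_mab (a1.trans a2) a3
  have hsplit : ∀ D l : ℕ,
      |∑ q ∈ Sq P D l, gi (primorial w) P i q.1 * gi (primorial w) P j q.2| ≤
      |∑ q ∈ (Sq P D l).filter (fun q => q.1.Coprime D),
        gi (primorial w) P i q.1 * gi (primorial w) P j q.2| +
      |∑ q ∈ (Sq P D l).filter (fun q => ¬ q.1.Coprime D),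
        gi (primorial w) P i q.1 * gi (primorial w) P j q.2| := by
    intro D l
    rw [← Finset.sum_filter_add_sum_filter_not (Sq P D l) (fun q => q.1.Coprime D)]
    exact abs_add_le _ _
  calc ∑ D ∈ (Icc 1 (K * P)).filter (fun D => P ≤ J * D), ∑ l ∈ un D,
      |∑ q ∈ Sq P D l, gi (primorial w) P i q.1 * gi (primorial w) P j q.2|
      ≤ ∑ D ∈ (Icc 1 (K * P)).filter (fun D => P ≤ J * D), ∑ l ∈ un D,
      (|∑ q ∈ (Sq P D l).filter (fun q => q.1.Coprime D),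
        gi (primorial w) P i q.1 * gi (primorial w) P j q.2| +
      |∑ q ∈ (Sq P D l).filter (fun q => ¬ q.1.Coprime D),
        gi (primorial w) P i q.1 * gi (primorial w) P j q.2|) :=
        Finset.sum_le_sum fun D _ => Finset.sum_le_sum fun l _ => hsplit D l
    _ = ∑ D ∈ (Icc 1 (K * P)).filter (fun D => P ≤ J * D), ∑ l ∈ un D,
      |∑ q ∈ (Sq P D l).filter (fun q => q.1.Coprime D),
        gi (primorial w) P i q.1 * gi (primorial w) P j q.2| +
      ∑ D ∈ (Icc 1 (K * P)).filter (fun D => P ≤ J * D), ∑ l ∈ un D,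
      |∑ q ∈ (Sq P D l).filter (fun q => ¬ q.1.Coprime D),
        gi (primorial w) P i q.1 * gi (primorial w) P j q.2| := by
        rw [← Finset.sum_add_distrib]
        exact Finset.sum_congr rfl fun D _ => Finset.sum_add_distrib
    _ ≤ (δ / 2) * P + (δ / 2) * P := add_le_add hco hnc
    _ = δ * P := by ring

end Pool.Agent.Lib.MP_d57abb_nt.KT
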