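import Mathlib
import Pool.Agent.Lib.MP_d57abb_nt.KT.Defs

/-!
# JOB Lam: the Bezout multiplier of a pair of primitive vectors

Let `x = gcdA t.1 t.2`, `y = gcdB t.1 t.2`, so `x t₁ + y t₂ = gcd = 1` (`Int.gcd_eq_gcd_ab`), `D₀ = dt t t' = t₁ t'₂ - t'₁ t₂`, `D = |D₀|`, `λ₀ = x t'₁ + y t'₂` and
`lam t t' = λ₀ mod D` (`Int.emod_nonneg`, `Int.emod_lt_of_pos`, `Int.toNat_of_nonneg`), so `D ∣ λ₀ - lam`.
* `lam_dvd`: `t'₁ - λ₀ t₁ = - y D₀` and `t'₂ - λ₀ t₂ = x D₀` (use `x t₁ + y t₂ = 1`; `linear_combination`).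
* `lam_coprime`: with `x' t'₁ + y' t'₂ = 1`, `1 = x' t'₁ + y' t'₂ ≡ lam (x' t₁ + y' t₂)` modulo `D`, so `lam` is a unit modulo `D` (`Int.isCoprime_iff_gcd_eq_one`,
  `Nat.Coprime`; `IsCoprime` with explicit coefficients).
* `dt_solve`: `ring` identities.
* `lam_dt`: `dt s t' - lam dt s t = s₁ (t'₂ - lam t₂) - s₂ (t'₁ - lam t₁)`.
* `lam_ex`: `s = ((m' t₁ - m t'₁) / D₀, (m' t₂ - m t'₂) / D₀)`; `D ∣ m' t₁ - m t'₁` because `m' t₁ - m t'₁ = (m' - lam m) t₁ - m (t'₁ - lam t₁)`, and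
  `D₀ ∣ ..` from `D ∣ ..` (`Int.natAbs_dvd`).  Then `D₀ dt s t = D₀ m` and `D₀ dt s t' = D₀ m'` by `ring`, cancel `D₀`.
* `lam_uniq`: by `dt_solve`, `D₀ s = D₀ s'`.
-/

open Finset

namespace Pool.Agent.Lib.MP_d57abb_nt.KT

open Pool.Agent.Lib.MP_d57abb_nt

theorem dt_solve (s t t' : ℤ × ℤ) :
    dt t t' * s.1 = dt s t' * t.1 - dt s t * t'.1 ∧ dt t t' * s.2 = dt s t' * t.2 - dt s t * t'.2 := by
  unfold dt
  constructor <;> ring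

private theorem Lam_pos (t t' : ℤ × ℤ) (h : dt t t' ≠ 0) :
    (0 : ℤ) < (((dt t t').natAbs : ℕ) : ℤ) := by
  have : 0 < (dt t t').natAbs := Int.natAbs_pos.2 h
  exact_mod_cast this

private theorem Lam_cast (t t' : ℤ × ℤ) (h : dt t t' ≠ 0) :
    (lam t t' : ℤ) = (Int.gcdA t.1 t.2 * t'.1 + Int.gcdB t.1 t.2 * t'.2) %
      ((dt t t').natAbs : ℤ) := by
  unfold lam
  exact Int.toNat_of_nonneg (Int.emod_nonneg _ (ne_of_gt (Lam_pos t t' h)))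

private theorem Lam_sub (t t' : ℤ × ℤ) (h : dt t t' ≠ 0) :
    ((dt t t').natAbs : ℤ) ∣
      (Int.gcdA t.1 t.2 * t'.1 + Int.gcdB t.1 t.2 * t'.2) - (lam t t' : ℤ) := by
  rw [Lam_cast t t' h]
  exact Int.dvd_self_sub_emod

private theorem Lam_bez (t : ℤ × ℤ) (ht : Int.gcd t.1 t.2 = 1) :
    t.1 * Int.gcdA t.1 t.2 + t.2 * Int.gcdB t.1 t.2 = 1 := by
  have h := Int.gcd_eq_gcd_ab t.1 t.2
  rw [ht] at h
  rw [← h]
  rfl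

theorem lam_lt (t t' : ℤ × ℤ) (h : dt t t' ≠ 0) : lam t t' < (dt t t').natAbs := by
  have h1 : (lam t t' : ℤ) < ((dt t t').natAbs : ℤ) := by
    rw [Lam_cast t t' h]
    exact Int.emod_lt_of_pos _ (Lam_pos t t' h)
  exact_mod_cast h1

theorem lam_dvd (t t' : ℤ × ℤ) (ht : Int.gcd t.1 t.2 = 1) (h : dt t t' ≠ 0) :
    (((dt t t').natAbs : ℕ) : ℤ) ∣ t'.1 - (lam t t' : ℤ) * t.1 ∧
      (((dt t t').natAbs : ℕ) : ℤ) ∣ t'.2 - (lam t t' : ℤ) * t.2 := by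
  obtain ⟨c, hc⟩ := Lam_sub t t' h
  have hb := Lam_bez t ht
  have hd : ((dt t t').natAbs : ℤ) ∣ dt t t' := Int.natAbs_dvd.2 (dvd_refl _)
  obtain ⟨u, hu⟩ := hd
  have hu' : t.1 * t'.2 - t'.1 * t.2 = ((dt t t').natAbs : ℤ) * u := hu
  constructor
  · refine ⟨- Int.gcdB t.1 t.2 * u + c * t.1, ?_⟩
    linear_combination (-t'.1) * hb + t.1 * hc - Int.gcdB t.1 t.2 * hu'
  · refine ⟨Int.gcdA t.1 t.2 * u + c * t.2, ?_⟩
    linear_combination (-t'.2) * hb + t.2 * hc + Int.gcdA t.1 t.2 * hu'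

theorem lam_coprime (t t' : ℤ × ℤ) (ht : Int.gcd t.1 t.2 = 1) (ht' : Int.gcd t'.1 t'.2 = 1)
    (h : dt t t' ≠ 0) : (lam t t').Coprime (dt t t').natAbs := by
  obtain ⟨⟨a, ha⟩, ⟨b, hb⟩⟩ := lam_dvd t t' ht h
  have hb' := Lam_bez t' ht'
  rw [← Nat.isCoprime_iff_coprime]
  refine ⟨Int.gcdA t'.1 t'.2 * t.1 + Int.gcdB t'.1 t'.2 * t.2,
    Int.gcdA t'.1 t'.2 * a + Int.gcdB t'.1 t'.2 * b, ?_⟩
  linear_combination hb' - Int.gcdA t'.1 t'.2 * ha - Int.gcdB t'.1 t'.2 * hb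

theorem lam_mem (t t' : ℤ × ℤ) (ht : Int.gcd t.1 t.2 = 1) (ht' : Int.gcd t'.1 t'.2 = 1)
    (h : dt t t' ≠ 0) : lam t t' ∈ un (dt t t').natAbs := by
  unfold un
  rw [Finset.mem_filter, Finset.mem_range]
  exact ⟨lam_lt t t' h, lam_coprime t t' ht ht' h⟩

theorem lam_dt (s t t' : ℤ × ℤ) (ht : Int.gcd t.1 t.2 = 1) (h : dt t t' ≠ 0) :
    (((dt t t').natAbs : ℕ) : ℤ) ∣ dt s t' - (lam t t' : ℤ) * dt s t := by
  obtain ⟨⟨a, ha⟩, ⟨b, hb⟩⟩ := lam_dvd t t' ht h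
  refine ⟨s.1 * b - s.2 * a, ?_⟩
  have h1 : dt s t' = s.1 * t'.2 - t'.1 * s.2 := rfl
  have h2 : dt s t = s.1 * t.2 - t.1 * s.2 := rfl
  rw [h1, h2]
  linear_combination s.1 * hb - s.2 * ha

theorem lam_ex (t t' : ℤ × ℤ) (ht : Int.gcd t.1 t.2 = 1) (h : dt t t' ≠ 0) (m m' : ℤ)
    (hm : (((dt t t').natAbs : ℕ) : ℤ) ∣ m' - (lam t t' : ℤ) * m) :
    ∃ s : ℤ × ℤ, dt s t = m ∧ dt s t' = m' := by
  obtain ⟨⟨a, ha⟩, ⟨b, hb⟩⟩ := lam_dvd t t' ht h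
  obtain ⟨c, hc⟩ := hm
  have hdt : dt t t' = t.1 * t'.2 - t'.1 * t.2 := rfl
  have d1 : dt t t' ∣ m' * t.1 - m * t'.1 := by
    rw [← Int.natAbs_dvd]
    refine ⟨c * t.1 - m * a, ?_⟩
    linear_combination t.1 * hc - m * ha
  have d2 : dt t t' ∣ m' * t.2 - m * t'.2 := by
    rw [← Int.natAbs_dvd]
    refine ⟨c * t.2 - m * b, ?_⟩
    linear_combination t.2 * hc - m * hb
  obtain ⟨x, hx⟩ := d1
  obtain ⟨y, hy⟩ := d2
  refine ⟨(x, y), ?_, ?_⟩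
  · apply mul_left_cancel₀ h
    have e : dt (x, y) t = x * t.2 - t.1 * y := rfl
    rw [e]
    have e2 : dt t t' * (x * t.2 - t.1 * y) = (dt t t' * x) * t.2 - t.1 * (dt t t' * y) := by ring
    rw [e2, ← hx, ← hy, hdt]
    ring
  · apply mul_left_cancel₀ h
    have e : dt (x, y) t' = x * t'.2 - t'.1 * y := rfl
    rw [e]
    have e2 : dt t t' * (x * t'.2 - t'.1 * y) = (dt t t' * x) * t'.2 - t'.1 * (dt t t' * y) := by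
      ring
    rw [e2, ← hx, ← hy, hdt]
    ring

theorem lam_uniq (s s' t t' : ℤ × ℤ) (h : dt t t' ≠ 0) (h1 : dt s t = dt s' t)
    (h2 : dt s t' = dt s' t') : s = s' := by
  obtain ⟨a1, a2⟩ := dt_solve s t t'
  obtain ⟨b1, b2⟩ := dt_solve s' t t'
  apply Prod.ext
  · apply mul_left_cancel₀ h
    rw [a1, b1, h1, h2]
  · apply mul_left_cancel₀ h
    rw [a2, b2, h1, h2]

end Pool.Agent.Lib.MP_d57abb_nt.KT
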