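import Mathlib
import Pool.Agent.Lib.MP_d57abb_nt.KT.Lam

/-!
# JOB Mult: a pair of vectors is almost determined by its determinant and its multiplier

`fiber_card`: fix `D₀ : ℤ` and `l : ℕ`, let `G` be a finite set of pairs `q = (t, t')` of primitive vectors of `[0, N]²` with `dt t t' = D₀`, `lam t t' = l`, `N² ≤ J |D₀|`.  Then
`G.card ≤ (2 J + 1)^4`.  If `G` is empty trivial; fix `(u, u') ∈ G`.  For `(t, t') ∈ G` put `n₁ = t₁ u'₂ - t'₁ u₂`, `n₂ = u₁ t'₁ - u'₁ t₁`, `n₃ = t₂ u'₂ - t'₂ u₂`, `n₄ = u₁ t'₂ - u'₁ t₂`.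
All are divisible by `D₀`: modulo `D = |D₀|` one has `t' ≡ l t`, `u' ≡ l u` (`lam_dvd`), so `n₁ ≡ t₁ l u₂ - l t₁ u₂ = 0`, and so on.  Let `x_i = n_i / D₀`.  Since all coordinates are in
`[0, N]`, `|n_i| ≤ N² ≤ J |D₀|`, so `|x_i| ≤ J`.  The map `(t, t') ↦ (x₁, x₂, x₃, x₄) ∈ [-J, J]⁴` is injective: `D₀ t₁ = n₁ u₁ + n₂ u₂`, `D₀ t'₁ = n₁ u'₁ + n₂ u'₂`,
`D₀ t₂ = n₃ u₁ + n₄ u₂`, `D₀ t'₂ = n₃ u'₁ + n₄ u'₂` (`ring` with `D₀ = u₁ u'₂ - u'₁ u₂`), `D₀ ≠ 0`.  (`Finset.card_le_card_of_injOn` into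
`Icc (-J) J ×ˢ Icc (-J) J ×ˢ Icc (-J) J ×ˢ Icc (-J) J`, whose card is `(2J+1)^4`: `Int.card_Icc`.)
`mult_bound`: group `F` by the value of `q ↦ (dt q.1 q.2, lam q.1 q.2)`, or by `κ q = ((dt q.1 q.2).natAbs, lam q.1 q.2)`, whose fibres are the union of two of the above (`D₀ = ± D`),
so have at most `2 (2J+1)^4` elements: `∑_{q ∈ F} h (κ q) = ∑_{v ∈ F.image κ} #{q ∈ F : κ q = v} h v` (`Finset.sum_comp` or `sum_fiberwise_of_maps_to`) `≤ 2 (2J+1)^4 ∑_{v ∈ F.image κ} h v`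
and `F.image κ` is contained in the sigma/product set: `D = |dt| ≤ N²` (coordinates in `[0, N]`), `D ≥ 1` (`N² ≤ J D`, `N > 0`), `lam ∈ un D` (`lam_mem`).
-/

open Finset

namespace Pool.Agent.Lib.MP_d57abb_nt.KT

open Pool.Agent.Lib.MP_d57abb_nt

private theorem Mult_abs {N : ℕ} {a b c d : ℤ} (ha : 0 ≤ a ∧ a ≤ N) (hb : 0 ≤ b ∧ b ≤ N)
    (hc : 0 ≤ c ∧ c ≤ N) (hd : 0 ≤ d ∧ d ≤ N) : |a * b - c * d| ≤ (N : ℤ) ^ 2 := by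
  have h1 : 0 ≤ a * b := mul_nonneg ha.1 hb.1
  have h2 : 0 ≤ c * d := mul_nonneg hc.1 hd.1
  have h3 : a * b ≤ (N : ℤ) * N := mul_le_mul ha.2 hb.2 hb.1 (Int.natCast_nonneg N)
  have h4 : c * d ≤ (N : ℤ) * N := mul_le_mul hc.2 hd.2 hd.1 (Int.natCast_nonneg N)
  rw [abs_le]
  constructor <;> nlinarith

private theorem Mult_div {N J : ℕ} {D n : ℤ} (hD : D ≠ 0) (hn : |n| ≤ (N : ℤ) ^ 2)
    (hJ : N ^ 2 ≤ J * D.natAbs) (hd : D ∣ n) : n / D ∈ Icc (-(J : ℤ)) J := by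
  obtain ⟨x, hx⟩ := hd
  subst hx
  rw [Int.mul_ediv_cancel_left _ hD, Finset.mem_Icc, ← abs_le]
  rw [abs_mul] at hn
  have h1 : (N : ℤ) ^ 2 ≤ J * |D| := by
    have h2 : ((N ^ 2 : ℕ) : ℤ) ≤ ((J * D.natAbs : ℕ) : ℤ) := by exact_mod_cast hJ
    rw [Nat.cast_mul, Int.natCast_natAbs, Nat.cast_pow] at h2
    exact h2
  have h3 : 0 < |D| := abs_pos.2 hD
  have h4 : |D| * |x| ≤ |D| * J := by
    calc |D| * |x| ≤ (N : ℤ) ^ 2 := hn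
      _ ≤ J * |D| := h1
      _ = |D| * J := mul_comm _ _
  exact le_of_mul_le_mul_left h4 h3

private theorem Mult_D0 {N J : ℕ} (hN : 0 < N) {D : ℤ} (hJ : N ^ 2 ≤ J * D.natAbs) : D ≠ 0 := by
  rintro rfl
  rw [Int.natAbs_zero, mul_zero] at hJ
  have h1 : 0 < N ^ 2 := by positivity
  omega

theorem fiber_card (N J : ℕ) (hN : 0 < N) (D₀ : ℤ) (l : ℕ) (G : Finset ((ℤ × ℤ) × (ℤ × ℤ)))
    (hG : ∀ q ∈ G, q.1 ∈ box N ∧ q.2 ∈ box N ∧ N ^ 2 ≤ J * (dt q.1 q.2).natAbs)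
    (h : ∀ q ∈ G, dt q.1 q.2 = D₀ ∧ lam q.1 q.2 = l) : G.card ≤ (2 * J + 1) ^ 4 := by
  classical
  rcases G.eq_empty_or_nonempty with hE | ⟨w, hw⟩
  · rw [hE, Finset.card_empty]
    exact Nat.zero_le _
  have hJ : N ^ 2 ≤ J * D₀.natAbs := by
    have h1 := (hG w hw).2.2
    rw [(h w hw).1] at h1
    exact h1
  have hD : D₀ ≠ 0 := Mult_D0 hN hJ
  have hdv : ∀ q ∈ G, D₀ ∣ q.2.1 - (l : ℤ) * q.1.1 ∧ D₀ ∣ q.2.2 - (l : ℤ) * q.1.2 := by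
    intro q hq
    have h1 := lam_dvd q.1 q.2 (mem_box.1 (hG q hq).1).2 (by rw [(h q hq).1]; exact hD)
    rw [(h q hq).1, (h q hq).2] at h1
    exact ⟨Int.natAbs_dvd.1 h1.1, Int.natAbs_dvd.1 h1.2⟩
  obtain ⟨hw1, hw2⟩ := hdv w hw
  have hwb1 := (mem_box.1 (hG w hw).1).1
  have hwb2 := (mem_box.1 (hG w hw).2.1).1
  have hDw : D₀ = w.1.1 * w.2.2 - w.2.1 * w.1.2 := by
    have h1 := (h w hw).1
    unfold dt at h1
    exact h1.symm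
  have hd1 : ∀ q ∈ G, D₀ ∣ q.1.1 * w.2.2 - q.2.1 * w.1.2 := by
    intro q hq
    have h1 : q.1.1 * w.2.2 - q.2.1 * w.1.2 =
      q.1.1 * (w.2.2 - (l : ℤ) * w.1.2) - (q.2.1 - (l : ℤ) * q.1.1) * w.1.2 := by ring
    rw [h1]
    exact dvd_sub (Dvd.dvd.mul_left hw2 _) (Dvd.dvd.mul_right (hdv q hq).1 _)
  have hd2 : ∀ q ∈ G, D₀ ∣ w.1.1 * q.2.1 - w.2.1 * q.1.1 := by
    intro q hq
    have h1 : w.1.1 * q.2.1 - w.2.1 * q.1.1 =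
      w.1.1 * (q.2.1 - (l : ℤ) * q.1.1) - (w.2.1 - (l : ℤ) * w.1.1) * q.1.1 := by ring
    rw [h1]
    exact dvd_sub (Dvd.dvd.mul_left (hdv q hq).1 _) (Dvd.dvd.mul_right hw1 _)
  have hd3 : ∀ q ∈ G, D₀ ∣ q.1.2 * w.2.2 - q.2.2 * w.1.2 := by
    intro q hq
    have h1 : q.1.2 * w.2.2 - q.2.2 * w.1.2 =
      q.1.2 * (w.2.2 - (l : ℤ) * w.1.2) - (q.2.2 - (l : ℤ) * q.1.2) * w.1.2 := by ring
    rw [h1]
    exact dvd_sub (Dvd.dvd.mul_left hw2 _) (Dvd.dvd.mul_right (hdv q hq).2 _)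
  have hd4 : ∀ q ∈ G, D₀ ∣ w.1.1 * q.2.2 - w.2.1 * q.1.2 := by
    intro q hq
    have h1 : w.1.1 * q.2.2 - w.2.1 * q.1.2 =
      w.1.1 * (q.2.2 - (l : ℤ) * q.1.2) - (w.2.1 - (l : ℤ) * w.1.1) * q.1.2 := by ring
    rw [h1]
    exact dvd_sub (Dvd.dvd.mul_left (hdv q hq).2 _) (Dvd.dvd.mul_right hw1 _)
  have hcard : ((Icc (-(J : ℤ)) J ×ˢ Icc (-(J : ℤ)) J) ×ˢ
      (Icc (-(J : ℤ)) J ×ˢ Icc (-(J : ℤ)) J)).card = (2 * J + 1) ^ 4 := by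
    have h1 : (Icc (-(J : ℤ)) J).card = 2 * J + 1 := by
      rw [Int.card_Icc]
      omega
    rw [Finset.card_product, Finset.card_product, h1]
    ring
  rw [← hcard]
  refine Finset.card_le_card_of_injOn
    (fun q : (ℤ × ℤ) × (ℤ × ℤ) => (((q.1.1 * w.2.2 - q.2.1 * w.1.2) / D₀, (w.1.1 * q.2.1 - w.2.1 * q.1.1) / D₀),
      ((q.1.2 * w.2.2 - q.2.2 * w.1.2) / D₀, (w.1.1 * q.2.2 - w.2.1 * q.1.2) / D₀))) ?_ ?_
  · intro q hq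
    have hq' : q ∈ G := hq
    have hb1 := (mem_box.1 (hG q hq').1).1
    have hb2 := (mem_box.1 (hG q hq').2.1).1
    rw [Finset.mem_coe, Finset.mem_product, Finset.mem_product, Finset.mem_product]
    exact ⟨⟨Mult_div hD (Mult_abs hb1.1 hwb2.2 hb2.1 hwb1.2) hJ (hd1 q hq'),
      Mult_div hD (Mult_abs hwb1.1 hb2.1 hwb2.1 hb1.1) hJ (hd2 q hq')⟩,
      ⟨Mult_div hD (Mult_abs hb1.2 hwb2.2 hb2.2 hwb1.2) hJ (hd3 q hq'),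
      Mult_div hD (Mult_abs hwb1.1 hb2.2 hwb2.1 hb1.2) hJ (hd4 q hq')⟩⟩
  · intro q hq r hr hqr
    have hq' : q ∈ G := hq
    have hr' : r ∈ G := hr
    have hqr' := hqr
    simp only [Prod.mk.injEq] at hqr'
    obtain ⟨⟨e1, e2⟩, ⟨e3, e4⟩⟩ := hqr'
    have f1 : q.1.1 * w.2.2 - q.2.1 * w.1.2 = r.1.1 * w.2.2 - r.2.1 * w.1.2 := by
      rw [← Int.ediv_mul_cancel (hd1 q hq'), ← Int.ediv_mul_cancel (hd1 r hr'), e1]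
    have f2 : w.1.1 * q.2.1 - w.2.1 * q.1.1 = w.1.1 * r.2.1 - w.2.1 * r.1.1 := by
      rw [← Int.ediv_mul_cancel (hd2 q hq'), ← Int.ediv_mul_cancel (hd2 r hr'), e2]
    have f3 : q.1.2 * w.2.2 - q.2.2 * w.1.2 = r.1.2 * w.2.2 - r.2.2 * w.1.2 := by
      rw [← Int.ediv_mul_cancel (hd3 q hq'), ← Int.ediv_mul_cancel (hd3 r hr'), e3]
    have f4 : w.1.1 * q.2.2 - w.2.1 * q.1.2 = w.1.1 * r.2.2 - w.2.1 * r.1.2 := by
      rw [← Int.ediv_mul_cancel (hd4 q hq'), ← Int.ediv_mul_cancel (hd4 r hr'), e4]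
    have g1 : D₀ * q.1.1 = D₀ * r.1.1 := by
      rw [hDw]
      linear_combination w.1.1 * f1 + w.1.2 * f2
    have g2 : D₀ * q.2.1 = D₀ * r.2.1 := by
      rw [hDw]
      linear_combination w.2.1 * f1 + w.2.2 * f2
    have g3 : D₀ * q.1.2 = D₀ * r.1.2 := by
      rw [hDw]
      linear_combination w.1.1 * f3 + w.1.2 * f4
    have g4 : D₀ * q.2.2 = D₀ * r.2.2 := by
      rw [hDw]
      linear_combination w.2.1 * f3 + w.2.2 * f4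
    exact Prod.ext (Prod.ext (mul_left_cancel₀ hD g1) (mul_left_cancel₀ hD g3))
      (Prod.ext (mul_left_cancel₀ hD g2) (mul_left_cancel₀ hD g4))

theorem mult_bound (N J : ℕ) (hN : 0 < N) (F : Finset ((ℤ × ℤ) × (ℤ × ℤ)))
    (hF : ∀ q ∈ F, q.1 ∈ box N ∧ q.2 ∈ box N ∧ N ^ 2 ≤ J * (dt q.1 q.2).natAbs)
    (h : ℕ → ℕ → ℝ) (h0 : ∀ D l, 0 ≤ h D l) :
    ∑ q ∈ F, h (dt q.1 q.2).natAbs (lam q.1 q.2) ≤
      2 * (2 * (J : ℝ) + 1) ^ 4 * ∑ D ∈ (Icc 1 (N ^ 2)).filter (fun D => N ^ 2 ≤ J * D), ∑ l ∈ un D, h D l := by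
  classical
  have hmap : ∀ q ∈ F, (⟨(dt q.1 q.2).natAbs, lam q.1 q.2⟩ : Σ _ : ℕ, ℕ) ∈
      ((Icc 1 (N ^ 2)).filter (fun D => N ^ 2 ≤ J * D)).sigma (fun D => un D) := by
    intro q hq
    obtain ⟨hq1, hq2, hq3⟩ := hF q hq
    have hD : dt q.1 q.2 ≠ 0 := Mult_D0 hN hq3
    have hb1 := mem_box.1 hq1
    have hb2 := mem_box.1 hq2
    have hab : |dt q.1 q.2| ≤ (N : ℤ) ^ 2 := by
      unfold dt
      exact Mult_abs hb1.1.1 hb2.1.2 hb2.1.1 hb1.1.2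
    rw [Finset.mem_sigma, Finset.mem_filter, Finset.mem_Icc]
    refine ⟨⟨⟨Int.natAbs_pos.2 hD, ?_⟩, hq3⟩, lam_mem q.1 q.2 hb1.2 hb2.2 hD⟩
    have h1 : (((dt q.1 q.2).natAbs : ℕ) : ℤ) ≤ ((N ^ 2 : ℕ) : ℤ) := by
      rw [Int.natCast_natAbs, Nat.cast_pow]
      exact hab
    exact_mod_cast h1
  rw [Finset.sum_sigma', ← Finset.sum_fiberwise_of_maps_to hmap, Finset.mul_sum]
  refine Finset.sum_le_sum fun v _ => ?_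
  have h1 : ∀ q ∈ F.filter (fun q => (⟨(dt q.1 q.2).natAbs, lam q.1 q.2⟩ : Σ _ : ℕ, ℕ) = v),
      h (dt q.1 q.2).natAbs (lam q.1 q.2) = h v.1 v.2 := by
    intro q hq
    have h2 := (Finset.mem_filter.1 hq).2
    rw [← h2]
  rw [Finset.sum_congr rfl h1, Finset.sum_const, nsmul_eq_mul]
  refine mul_le_mul_of_nonneg_right ?_ (h0 _ _)
  have h3 : F.filter (fun q => (⟨(dt q.1 q.2).natAbs, lam q.1 q.2⟩ : Σ _ : ℕ, ℕ) = v) ⊆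
      F.filter (fun q => dt q.1 q.2 = (v.1 : ℤ) ∧ lam q.1 q.2 = v.2) ∪
      F.filter (fun q => dt q.1 q.2 = -(v.1 : ℤ) ∧ lam q.1 q.2 = v.2) := by
    intro q hq
    obtain ⟨hq1, hq2⟩ := Finset.mem_filter.1 hq
    rw [Finset.mem_union, Finset.mem_filter, Finset.mem_filter]
    have e1 : (dt q.1 q.2).natAbs = v.1 := by rw [← hq2]
    have e2 : lam q.1 q.2 = v.2 := by rw [← hq2]
    rcases Int.natAbs_eq (dt q.1 q.2) with h4 | h4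
    · left
      rw [e1] at h4
      exact ⟨hq1, h4, e2⟩
    · right
      rw [e1] at h4
      exact ⟨hq1, h4, e2⟩
  have h5 := Finset.card_le_card h3
  have h6 : (F.filter (fun q => dt q.1 q.2 = (v.1 : ℤ) ∧ lam q.1 q.2 = v.2)).card ≤ (2 * J + 1) ^ 4 :=
    fiber_card N J hN (v.1 : ℤ) v.2 _ (fun q hq => hF q (Finset.mem_filter.1 hq).1)
      (fun q hq => (Finset.mem_filter.1 hq).2)
  have h7 : (F.filter (fun q => dt q.1 q.2 = -(v.1 : ℤ) ∧ lam q.1 q.2 = v.2)).card ≤ (2 * J + 1) ^ 4 :=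
    fiber_card N J hN (-(v.1 : ℤ)) v.2 _ (fun q hq => hF q (Finset.mem_filter.1 hq).1)
      (fun q hq => (Finset.mem_filter.1 hq).2)
  have h8 : (F.filter (fun q => (⟨(dt q.1 q.2).natAbs, lam q.1 q.2⟩ : Σ _ : ℕ, ℕ) = v)).card ≤
      (2 * J + 1) ^ 4 + (2 * J + 1) ^ 4 :=
    (h5.trans (Finset.card_union_le _ _)).trans (Nat.add_le_add h6 h7)
  have h9 : ((F.filter (fun q => (⟨(dt q.1 q.2).natAbs, lam q.1 q.2⟩ : Σ _ : ℕ, ℕ) = v)).card : ℝ) ≤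
      (((2 * J + 1) ^ 4 + (2 * J + 1) ^ 4 : ℕ) : ℝ) := by exact_mod_cast h8
  refine h9.trans (le_of_eq ?_)
  push_cast
  ring

end Pool.Agent.Lib.MP_d57abb_nt.KT
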