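import Mathlib
import Pool.Agent.Lib.MP_d57abb_nt.KT.Lam

/-!
# JOB TId: the correlation of two columns as a sum over `(m, m')`

Write `D₀ = dt t t'`, `D = |D₀| > 0` (from `N² ≤ J D`, `N > 0`), `R = J N`.
The terms of `TT` with `ff (dt s t) ≠ 0` and `ff (dt s t') ≠ 0` have `dt s t = m`, `dt s t' = m'` with `1 ≤ m, m' ≤ P` (`ff x = fN x.toNat`, `fN_support`, `ff_nonpos`), and then
`m' ≡ lam m` modulo `D` (`lam_dt`; for natural numbers: `Nat.modEq_iff_dvd`, `(Nat.modEq_iff_dvd).2` with casts).  So `s ↦ ((dt s t).toNat, (dt s t').toNat)` maps these `s`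
injectively (`lam_uniq`) to `Sq P D lam`, and it is onto: for `(m, m') ∈ Sq P D lam` take `s` from `lam_ex`; it lies in `Bx R`: `D |s₁| = |m' t₁ - m t'₁| ≤ P N` (both terms are in
`[0, P N]`), `P N ≤ N² N ≤ J D N`, so `|s₁| ≤ J N`; the same for `s₂`.
(`Finset.sum_bij_ne_zero` or: restrict both sums with `Finset.sum_filter_ne_zero`-like arguments; or write the left side as the sum over the `s ∈ Bx R` with
`dt s t, dt s t' ∈ [1, P]`, use `Finset.sum_nbij'`/`sum_bij`.)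
The weight: `D₀ s = m' t - m t'` (`dt_solve`), so `D₀² (s₁² + s₂²) = m'² (t₁² + t₂²) - 2 m m' (t₁ t'₁ + t₂ t'₂) + m² (t'₁² + t'₂²)` and
`Ph N s = exp 2 * exp (ca (m/P)² + cb (m'/P)² + cc ((m/P)(m'/P)))` with the definitions of `ca, cb, cc` below (`P > 0`, `N > 0`, `D₀ ≠ 0`: `field_simp`).
`ca_le, cb_le, cc_le`: `t₁² + t₂² ≤ 2 N²`, `0 ≤ t₁ t'₁ + t₂ t'₂ ≤ 2 N²`, `P ≤ N² ≤ J D`, so `P² ≤ J² D₀²` and `|ca| ≤ 2 N² P²/(D₀² N²) ≤ 2 J²`, the same for `cb`, `|cc| ≤ 4 J²`.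
-/

open Finset

namespace Pool.Agent.Lib.MP_d57abb_nt.KT

open Pool.Agent.Lib.MP_d57abb_nt

/-- coefficient of `(m/P)²` -/
noncomputable def ca (P N : ℕ) (t t' : ℤ × ℤ) : ℝ :=
  -(((t'.1 : ℝ) ^ 2 + (t'.2 : ℝ) ^ 2) * (P : ℝ) ^ 2 / ((dt t t' : ℝ) ^ 2 * (N : ℝ) ^ 2))

/-- coefficient of `(m'/P)²` -/
noncomputable def cb (P N : ℕ) (t t' : ℤ × ℤ) : ℝ :=
  -(((t.1 : ℝ) ^ 2 + (t.2 : ℝ) ^ 2) * (P : ℝ) ^ 2 / ((dt t t' : ℝ) ^ 2 * (N : ℝ) ^ 2))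

/-- coefficient of `(m/P)(m'/P)` -/
noncomputable def cc (P N : ℕ) (t t' : ℤ × ℤ) : ℝ :=
  2 * ((t.1 : ℝ) * t'.1 + (t.2 : ℝ) * t'.2) * (P : ℝ) ^ 2 / ((dt t t' : ℝ) ^ 2 * (N : ℝ) ^ 2)

private theorem TId_ne {N J : ℕ} {t t' : ℤ × ℤ} (hN : 0 < N)
    (hJ : N ^ 2 ≤ J * (dt t t').natAbs) : dt t t' ≠ 0 := by
  intro h
  rw [h, Int.natAbs_zero, Nat.mul_zero] at hJ
  have h1 : 0 < N ^ 2 := pow_pos hN 2
  omega

/-- the weight in terms of the two determinants -/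
private theorem TId_w (P N : ℕ) (hN : 0 < N) (hP0 : 0 < P) (s t t' : ℤ × ℤ) (h : dt t t' ≠ 0)
    (m m' : ℕ) (hm : dt s t = (m : ℤ)) (hm' : dt s t' = (m' : ℤ)) :
    Ph N s = Real.exp 2 * Real.exp (ca P N t t' * ((m : ℝ) / P) ^ 2 +
        cb P N t t' * ((m' : ℝ) / P) ^ 2 + cc P N t t' * (((m : ℝ) / P) * ((m' : ℝ) / P))) := by
  have hN' : (N : ℝ) ≠ 0 := by exact_mod_cast hN.ne'
  have hP' : (P : ℝ) ≠ 0 := by exact_mod_cast hP0.ne'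
  have hD : ((dt t t' : ℤ) : ℝ) ≠ 0 := by exact_mod_cast h
  obtain ⟨h1, h2⟩ := dt_solve s t t'
  rw [hm, hm'] at h1 h2
  have h1' : ((dt t t' : ℤ) : ℝ) * (s.1 : ℝ) = (m' : ℝ) * t.1 - (m : ℝ) * t'.1 := by
    exact_mod_cast h1
  have h2' : ((dt t t' : ℤ) : ℝ) * (s.2 : ℝ) = (m' : ℝ) * t.2 - (m : ℝ) * t'.2 := by
    exact_mod_cast h2
  have e1 : (s.1 : ℝ) = ((m' : ℝ) * t.1 - (m : ℝ) * t'.1) / ((dt t t' : ℤ) : ℝ) := by
    rw [← h1']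
    field_simp
  have e2 : (s.2 : ℝ) = ((m' : ℝ) * t.2 - (m : ℝ) * t'.2) / ((dt t t' : ℤ) : ℝ) := by
    rw [← h2']
    field_simp
  unfold Ph
  rw [← Real.exp_add]
  congr 1
  rw [e1, e2]
  unfold ca cb cc
  generalize ((dt t t' : ℤ) : ℝ) = d at hD
  field_simp
  ring

/-- the solutions lie in the box -/
private theorem TId_bx {N J P : ℕ} {D0 a b c m m' : ℤ} (hN : 0 < N) (hP : P ≤ N ^ 2)
    (hJ : N ^ 2 ≤ J * D0.natAbs) (h0 : D0 ≠ 0) (hb0 : 0 ≤ b) (hb : b ≤ N) (hc0 : 0 ≤ c)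
    (hc : c ≤ N) (hm0 : 0 ≤ m) (hm : m ≤ P) (hm'0 : 0 ≤ m') (hm' : m' ≤ P)
    (h : D0 * a = m' * b - m * c) : -((J * N : ℕ) : ℤ) ≤ a ∧ a ≤ ((J * N : ℕ) : ℤ) := by
  rw [← abs_le]
  have hD : 0 < |D0| := abs_pos.2 h0
  have h1 : |D0| * |a| ≤ (P : ℤ) * N := by
    rw [← abs_mul, h, abs_le]
    have h2 : m' * b ≤ (P : ℤ) * N := mul_le_mul hm' hb hb0 (by positivity)
    have h3 : m * c ≤ (P : ℤ) * N := mul_le_mul hm hc hc0 (by positivity)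
    have h4 : 0 ≤ m' * b := mul_nonneg hm'0 hb0
    have h5 : 0 ≤ m * c := mul_nonneg hm0 hc0
    constructor <;> linarith
  have h6 : (P : ℤ) ≤ J * |D0| := by
    have h7 : P ≤ J * D0.natAbs := hP.trans hJ
    have h8 : ((P : ℕ) : ℤ) ≤ ((J * D0.natAbs : ℕ) : ℤ) := by exact_mod_cast h7
    rw [Nat.cast_mul, Int.natCast_natAbs] at h8
    exact h8
  have h9 : |D0| * |a| ≤ |D0| * ((J * N : ℕ) : ℤ) := by
    refine h1.trans ?_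
    rw [Nat.cast_mul]
    calc (P : ℤ) * N ≤ (J * |D0|) * N := mul_le_mul_of_nonneg_right h6 (by positivity)
      _ = |D0| * (J * N) := by ring
  exact le_of_mul_le_mul_left h9 hD

theorem TT_eq (W P N J : ℕ) (hN : 0 < N) (hP0 : 0 < P) (hP : P ≤ N ^ 2) (t t' : ℤ × ℤ) (ht : t ∈ box N)
    (ht' : t' ∈ box N) (hJ : N ^ 2 ≤ J * (dt t t').natAbs) :
    TT W P N (J * N) t t' = Real.exp 2 * ∑ q ∈ Sq P (dt t t').natAbs (lam t t'),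
      fN W P q.1 * fN W P q.2 * Real.exp (ca P N t t' * ((q.1 : ℝ) / P) ^ 2 +
        cb P N t t' * ((q.2 : ℝ) / P) ^ 2 + cc P N t t' * (((q.1 : ℝ) / P) * ((q.2 : ℝ) / P))) := by
  have h0 := TId_ne hN hJ
  rw [mem_box] at ht ht'
  obtain ⟨⟨⟨ht10, ht1⟩, ht20, ht2⟩, htg⟩ := ht
  obtain ⟨⟨⟨ht'10, ht'1⟩, ht'20, ht'2⟩, htg'⟩ := ht'
  rw [Finset.mul_sum]
  unfold TT
  have hr : ∑ s ∈ (Bx (J * N)).filter (fun s => (1 ≤ dt s t ∧ dt s t ≤ P) ∧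
      (1 ≤ dt s t' ∧ dt s t' ≤ P)), Ph N s * (ff W P (dt s t) * ff W P (dt s t')) =
      ∑ s ∈ Bx (J * N), Ph N s * (ff W P (dt s t) * ff W P (dt s t')) := by
    apply Finset.sum_subset (Finset.filter_subset _ _)
    intro s hs hns
    have key : ∀ x : ℤ, ¬ (1 ≤ x ∧ x ≤ P) → ff W P x = 0 := by
      intro x hx
      rcases le_or_gt x 0 with h | h
      · exact ff_nonpos W P x h
      · unfold ff
        apply fN_support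
        rw [Finset.mem_Ioc]
        intro h'
        apply hx
        omega
    by_cases h1 : 1 ≤ dt s t ∧ dt s t ≤ P
    · by_cases h2 : 1 ≤ dt s t' ∧ dt s t' ≤ P
      · exact absurd (Finset.mem_filter.2 ⟨hs, h1, h2⟩) hns
      · rw [key _ h2, mul_zero, mul_zero]
    · rw [key _ h1, zero_mul, mul_zero]
  rw [← hr]
  refine Finset.sum_bij (fun s _ => ((dt s t).toNat, (dt s t').toNat)) ?_ ?_ ?_ ?_
  · intro s hs
    rw [Finset.mem_filter] at hs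
    obtain ⟨-, ⟨h1, h2⟩, h3, h4⟩ := hs
    unfold Sq
    rw [Finset.mem_filter, Finset.mem_product, Finset.mem_Icc, Finset.mem_Icc]
    refine ⟨⟨⟨?_, ?_⟩, ?_, ?_⟩, ?_⟩
    · show 1 ≤ (dt s t).toNat
      omega
    · show (dt s t).toNat ≤ P
      omega
    · show 1 ≤ (dt s t').toNat
      omega
    · show (dt s t').toNat ≤ P
      omega
    · show (dt s t').toNat ≡ lam t t' * (dt s t).toNat [MOD (dt t t').natAbs]
      apply Nat.ModEq.symm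
      rw [Nat.modEq_iff_dvd, Nat.cast_mul, Int.toNat_of_nonneg (by omega), Int.toNat_of_nonneg (by omega)]
      exact lam_dt s t t' htg h0
  · intro s hs s' hs' h
    rw [Finset.mem_filter] at hs hs'
    obtain ⟨-, ⟨h1, h2⟩, h3, h4⟩ := hs
    obtain ⟨-, ⟨h1', h2'⟩, h3', h4'⟩ := hs'
    have e1 : (dt s t).toNat = (dt s' t).toNat := (Prod.mk.inj h).1
    have e2 : (dt s t').toNat = (dt s' t').toNat := (Prod.mk.inj h).2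
    exact lam_uniq s s' t t' h0 (by omega) (by omega)
  · intro q hq
    unfold Sq at hq
    rw [Finset.mem_filter, Finset.mem_product, Finset.mem_Icc, Finset.mem_Icc] at hq
    obtain ⟨⟨⟨h1, h2⟩, h3, h4⟩, h5⟩ := hq
    have h6 := (Nat.modEq_iff_dvd.1 h5.symm)
    rw [Nat.cast_mul] at h6
    obtain ⟨s, hs1, hs2⟩ := lam_ex t t' htg h0 (q.1 : ℤ) (q.2 : ℤ) h6
    obtain ⟨e1, e2⟩ := dt_solve s t t'
    rw [hs1, hs2] at e1 e2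
    have b1 := TId_bx hN hP hJ h0 ht10 ht1 ht'10 ht'1 (Int.natCast_nonneg q.1)
      (by exact_mod_cast h2) (Int.natCast_nonneg q.2) (by exact_mod_cast h4) e1
    have b2 := TId_bx hN hP hJ h0 ht20 ht2 ht'20 ht'2 (Int.natCast_nonneg q.1)
      (by exact_mod_cast h2) (Int.natCast_nonneg q.2) (by exact_mod_cast h4) e2
    refine ⟨s, ?_, ?_⟩
    · rw [Finset.mem_filter, hs1, hs2]
      refine ⟨?_, ⟨by exact_mod_cast h1, by exact_mod_cast h2⟩, by exact_mod_cast h3,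
        by exact_mod_cast h4⟩
      unfold Bx
      rw [Finset.mem_product, Finset.mem_Icc, Finset.mem_Icc]
      exact ⟨b1, b2⟩
    · show ((dt s t).toNat, (dt s t').toNat) = q
      rw [hs1, hs2, Int.toNat_natCast, Int.toNat_natCast]
  · intro s hs
    rw [Finset.mem_filter] at hs
    obtain ⟨-, ⟨h1, h2⟩, h3, h4⟩ := hs
    show Ph N s * (fN W P (dt s t).toNat * fN W P (dt s t').toNat) = _
    rw [TId_w P N hN hP0 s t t' h0 (dt s t).toNat (dt s t').toNat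
      (Int.toNat_of_nonneg (by omega)).symm (Int.toNat_of_nonneg (by omega)).symm]
    ring

private theorem TId_le {P N J : ℕ} (hN : 0 < N) (hP : P ≤ N ^ 2) {D0 : ℤ}
    (hJ : N ^ 2 ≤ J * D0.natAbs) (h0 : D0 ≠ 0) {x : ℝ} (hx : |x| ≤ 4 * (N : ℝ) ^ 2) :
    |x * (P : ℝ) ^ 2 / ((D0 : ℝ) ^ 2 * (N : ℝ) ^ 2)| ≤ 4 * (J : ℝ) ^ 2 := by
  have hN' : 0 < (N : ℝ) := by exact_mod_cast hN
  have hD : ((D0 : ℤ) : ℝ) ≠ 0 := by exact_mod_cast h0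
  have hD2 : 0 < (D0 : ℝ) ^ 2 := by positivity
  have hpos : 0 < (D0 : ℝ) ^ 2 * (N : ℝ) ^ 2 := by positivity
  have h7 : P ≤ J * D0.natAbs := hP.trans hJ
  have h8 : (P : ℝ) ≤ (J : ℝ) * |(D0 : ℝ)| := by
    have h9 : ((P : ℕ) : ℝ) ≤ ((J * D0.natAbs : ℕ) : ℝ) := by exact_mod_cast h7
    rw [Nat.cast_mul, Nat.cast_natAbs, Int.cast_abs] at h9
    exact h9
  have h10 : (P : ℝ) ^ 2 ≤ (J : ℝ) ^ 2 * (D0 : ℝ) ^ 2 := by
    have h11 := pow_le_pow_left₀ (by positivity : (0 : ℝ) ≤ (P : ℝ)) h8 2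
    rw [mul_pow, sq_abs] at h11
    exact h11
  rw [abs_div, abs_of_pos hpos, div_le_iff₀ hpos, abs_mul, abs_of_nonneg (by positivity : (0 : ℝ) ≤ (P : ℝ) ^ 2)]
  calc |x| * (P : ℝ) ^ 2 ≤ (4 * (N : ℝ) ^ 2) * ((J : ℝ) ^ 2 * (D0 : ℝ) ^ 2) :=
        mul_le_mul hx h10 (by positivity) (by positivity)
    _ = 4 * (J : ℝ) ^ 2 * ((D0 : ℝ) ^ 2 * (N : ℝ) ^ 2) := by ring

private theorem TId_sq {N : ℕ} {t : ℤ × ℤ} (ht : t ∈ box N) :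
    |(t.1 : ℝ) ^ 2 + (t.2 : ℝ) ^ 2| ≤ 4 * (N : ℝ) ^ 2 := by
  rw [mem_box] at ht
  obtain ⟨⟨⟨h1, h2⟩, h3, h4⟩, -⟩ := ht
  have h1' : (0 : ℝ) ≤ (t.1 : ℝ) := by exact_mod_cast h1
  have h2' : (t.1 : ℝ) ≤ N := by exact_mod_cast h2
  have h3' : (0 : ℝ) ≤ (t.2 : ℝ) := by exact_mod_cast h3
  have h4' : (t.2 : ℝ) ≤ N := by exact_mod_cast h4
  have h5 := pow_le_pow_left₀ h1' h2' 2
  have h6 := pow_le_pow_left₀ h3' h4' 2
  have h7 : (0 : ℝ) ≤ (N : ℝ) ^ 2 := by positivity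
  rw [abs_of_nonneg (by positivity)]
  linarith

theorem ca_le (P N J : ℕ) (hN : 0 < N) (hP : P ≤ N ^ 2) (t t' : ℤ × ℤ) (ht : t ∈ box N)
    (ht' : t' ∈ box N) (hJ : N ^ 2 ≤ J * (dt t t').natAbs) : |ca P N t t'| ≤ 4 * (J : ℝ) ^ 2 := by
  unfold ca
  rw [abs_neg]
  exact TId_le hN hP hJ (TId_ne hN hJ) (TId_sq ht')

theorem cb_le (P N J : ℕ) (hN : 0 < N) (hP : P ≤ N ^ 2) (t t' : ℤ × ℤ) (ht : t ∈ box N)
    (ht' : t' ∈ box N) (hJ : N ^ 2 ≤ J * (dt t t').natAbs) : |cb P N t t'| ≤ 4 * (J : ℝ) ^ 2 := by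
  unfold cb
  rw [abs_neg]
  exact TId_le hN hP hJ (TId_ne hN hJ) (TId_sq ht)

theorem cc_le (P N J : ℕ) (hN : 0 < N) (hP : P ≤ N ^ 2) (t t' : ℤ × ℤ) (ht : t ∈ box N)
    (ht' : t' ∈ box N) (hJ : N ^ 2 ≤ J * (dt t t').natAbs) : |cc P N t t'| ≤ 4 * (J : ℝ) ^ 2 := by
  unfold cc
  refine TId_le hN hP hJ (TId_ne hN hJ) ?_
  rw [mem_box] at ht ht'
  obtain ⟨⟨⟨h1, h2⟩, h3, h4⟩, -⟩ := ht
  obtain ⟨⟨⟨k1, k2⟩, k3, k4⟩, -⟩ := ht'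
  have h1' : (0 : ℝ) ≤ (t.1 : ℝ) := by exact_mod_cast h1
  have h2' : (t.1 : ℝ) ≤ N := by exact_mod_cast h2
  have h3' : (0 : ℝ) ≤ (t.2 : ℝ) := by exact_mod_cast h3
  have h4' : (t.2 : ℝ) ≤ N := by exact_mod_cast h4
  have k1' : (0 : ℝ) ≤ (t'.1 : ℝ) := by exact_mod_cast k1
  have k2' : (t'.1 : ℝ) ≤ N := by exact_mod_cast k2
  have k3' : (0 : ℝ) ≤ (t'.2 : ℝ) := by exact_mod_cast k3
  have k4' : (t'.2 : ℝ) ≤ N := by exact_mod_cast k4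
  have hN' : (0 : ℝ) ≤ (N : ℝ) := by positivity
  have a1 : (t.1 : ℝ) * t'.1 ≤ (N : ℝ) * N := mul_le_mul h2' k2' k1' hN'
  have a2 : (t.2 : ℝ) * t'.2 ≤ (N : ℝ) * N := mul_le_mul h4' k4' k3' hN'
  have a3 : 0 ≤ (t.1 : ℝ) * t'.1 := mul_nonneg h1' k1'
  have a4 : 0 ≤ (t.2 : ℝ) * t'.2 := mul_nonneg h3' k3'
  rw [abs_of_nonneg (by linarith)]
  nlinarith

end Pool.Agent.Lib.MP_d57abb_nt.KT
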