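import Mathlib

/-!
# JOB Tay: separation of variables by power series, on average

`F i = ∑_{q ∈ S i} c i q exp (a i x² + b i y² + e i x y)`.  For a fixed `i` and `q`, `exp (a x²) = lim_n ∑_{k < n} (a x²)^k / k!` (`Real.hasSum_exp`-like:
`NormedSpace.expSeries_div_hasSum_exp`, `Real.exp_eq_exp_ℝ`, or `Real.summable_pow_div_factorial` + `Real.exp_eq_tsum`; `HasSum.tendsto_sum_nat`), so
`exp (a x² + b y² + e x y) = exp (a x²) exp (b y²) exp (e x y)` is the limit of the products of the three partial sums and (finite sums of limits: `tendsto_finsetSum`)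
`F i = lim_n F_n i`, `F_n i = ∑_{k₁, k₂, k₃ < n} a^k₁ b^k₂ e^k₃ / (k₁! k₂! k₃!) T i (2 k₁ + k₃) (2 k₂ + k₃)`, where `T i j k = ∑_{q ∈ S i} c i q (x q ^ j * y q ^ k)`.
So `∑_{i ∈ I} |F_n i| ≤ ∑_{k₁, k₂, k₃ < n} M^(k₁+k₂+k₃) / (k₁! k₂! k₃!) ∑_i |T i ..| ≤ (∑_{k<n} M^k/k!)³ B ≤ exp (3 M) B` (`Real.sum_le_exp_of_nonneg`: `∑_{k<n} M^k/k! ≤ exp M`;
`B ≥ 0` because it bounds a sum of absolute values).  Let `n → ∞` (`le_of_tendsto'`, `Tendsto.abs`, `tendsto_finsetSum`).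
-/

open Finset Filter

namespace Pool.Agent.Lib.MP_d57abb_nt.KT

/-- partial sums of the exponential series -/
private noncomputable def Tay_E (n : ℕ) (z : ℝ) : ℝ := ∑ k ∈ range n, z ^ k / (k.factorial : ℝ)

private theorem Tay_lim (z : ℝ) : Tendsto (fun n => Tay_E n z) atTop (nhds (Real.exp z)) := by
  have h := (NormedSpace.expSeries_div_hasSum_exp z).tendsto_sum_nat
  rw [← Real.exp_eq_exp_ℝ] at h
  exact h

private theorem Tay_le {M : ℝ} (hM : 0 ≤ M) (n : ℕ) : Tay_E n M ≤ Real.exp M :=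
  Real.sum_le_exp_of_nonneg hM n

private theorem Tay_prod (n : ℕ) (u v w : ℝ) : Tay_E n u * Tay_E n v * Tay_E n w =
    ∑ k₁ ∈ range n, ∑ k₂ ∈ range n, ∑ k₃ ∈ range n,
      u ^ k₁ / (k₁.factorial : ℝ) * (v ^ k₂ / (k₂.factorial : ℝ)) * (w ^ k₃ / (k₃.factorial : ℝ)) := by
  unfold Tay_E
  rw [sum_mul_sum, sum_mul]
  refine sum_congr rfl fun k₁ _ => ?_
  rw [sum_mul]
  refine sum_congr rfl fun k₂ _ => ?_
  rw [mul_sum]

theorem taylor_sep {ι : Type} (I : Finset ι) (S : ι → Finset (ℕ × ℕ)) (c : ι → ℕ × ℕ → ℝ)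
    (x y : ℕ × ℕ → ℝ) (a b e : ι → ℝ) (M B : ℝ) (hM : 0 ≤ M) (ha : ∀ i ∈ I, |a i| ≤ M)
    (hb : ∀ i ∈ I, |b i| ≤ M) (he : ∀ i ∈ I, |e i| ≤ M)
    (hB : ∀ j k : ℕ, ∑ i ∈ I, |∑ q ∈ S i, c i q * (x q ^ j * y q ^ k)| ≤ B) :
    ∑ i ∈ I, |∑ q ∈ S i, c i q * Real.exp (a i * x q ^ 2 + b i * y q ^ 2 + e i * (x q * y q))| ≤
      Real.exp (3 * M) * B := by
  have hB0 : 0 ≤ B := le_trans (sum_nonneg fun i _ => abs_nonneg _) (hB 0 0)
  have hlim : Tendsto (fun n : ℕ => ∑ i ∈ I, |∑ q ∈ S i, c i q *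
      (Tay_E n (a i * x q ^ 2) * Tay_E n (b i * y q ^ 2) * Tay_E n (e i * (x q * y q)))|) atTop
      (nhds (∑ i ∈ I, |∑ q ∈ S i, c i q *
        Real.exp (a i * x q ^ 2 + b i * y q ^ 2 + e i * (x q * y q))|)) := by
    refine tendsto_finsetSum _ fun i _ => ?_
    refine Tendsto.abs ?_
    refine tendsto_finsetSum _ fun q _ => ?_
    refine Tendsto.const_mul _ ?_
    rw [Real.exp_add, Real.exp_add]
    exact ((Tay_lim _).mul (Tay_lim _)).mul (Tay_lim _)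
  refine le_of_tendsto' hlim fun n => ?_
  have hexp : ∀ i, ∑ q ∈ S i, c i q *
      (Tay_E n (a i * x q ^ 2) * Tay_E n (b i * y q ^ 2) * Tay_E n (e i * (x q * y q))) =
      ∑ k₁ ∈ range n, ∑ k₂ ∈ range n, ∑ k₃ ∈ range n,
        (a i ^ k₁ / (k₁.factorial : ℝ) * (b i ^ k₂ / (k₂.factorial : ℝ)) *
          (e i ^ k₃ / (k₃.factorial : ℝ))) *
        ∑ q ∈ S i, c i q * (x q ^ (2 * k₁ + k₃) * y q ^ (2 * k₂ + k₃)) := by
    intro i
    have h1 : ∀ q ∈ S i, c i q *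
        (Tay_E n (a i * x q ^ 2) * Tay_E n (b i * y q ^ 2) * Tay_E n (e i * (x q * y q))) =
        ∑ k₁ ∈ range n, ∑ k₂ ∈ range n, ∑ k₃ ∈ range n,
          (a i ^ k₁ / (k₁.factorial : ℝ) * (b i ^ k₂ / (k₂.factorial : ℝ)) *
            (e i ^ k₃ / (k₃.factorial : ℝ))) *
          (c i q * (x q ^ (2 * k₁ + k₃) * y q ^ (2 * k₂ + k₃))) := by
      intro q _
      rw [Tay_prod, mul_sum]
      refine sum_congr rfl fun k₁ _ => ?_
      rw [mul_sum]
      refine sum_congr rfl fun k₂ _ => ?_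
      rw [mul_sum]
      refine sum_congr rfl fun k₃ _ => ?_
      rw [mul_pow, mul_pow, mul_pow, mul_pow, ← pow_mul, ← pow_mul, pow_add, pow_add]
      ring
    rw [sum_congr rfl h1, sum_comm]
    refine sum_congr rfl fun k₁ _ => ?_
    rw [sum_comm]
    refine sum_congr rfl fun k₂ _ => ?_
    rw [sum_comm]
    refine sum_congr rfl fun k₃ _ => ?_
    rw [mul_sum]
  have habs : ∀ i ∈ I, |∑ q ∈ S i, c i q *
      (Tay_E n (a i * x q ^ 2) * Tay_E n (b i * y q ^ 2) * Tay_E n (e i * (x q * y q)))| ≤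
      ∑ k₁ ∈ range n, ∑ k₂ ∈ range n, ∑ k₃ ∈ range n,
        (M ^ k₁ / (k₁.factorial : ℝ) * (M ^ k₂ / (k₂.factorial : ℝ)) *
          (M ^ k₃ / (k₃.factorial : ℝ))) *
        |∑ q ∈ S i, c i q * (x q ^ (2 * k₁ + k₃) * y q ^ (2 * k₂ + k₃))| := by
    intro i hi
    rw [hexp i]
    refine (abs_sum_le_sum_abs _ _).trans (sum_le_sum fun k₁ _ => ?_)
    refine (abs_sum_le_sum_abs _ _).trans (sum_le_sum fun k₂ _ => ?_)
    refine (abs_sum_le_sum_abs _ _).trans (sum_le_sum fun k₃ _ => ?_)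
    rw [abs_mul]
    refine mul_le_mul_of_nonneg_right ?_ (abs_nonneg _)
    have hf : ∀ (z : ℝ) (k : ℕ), |z| ≤ M → |z ^ k / (k.factorial : ℝ)| ≤ M ^ k / (k.factorial : ℝ) := by
      intro z k hz
      rw [abs_div, abs_pow, Nat.abs_cast]
      exact div_le_div_of_nonneg_right (pow_le_pow_left₀ (abs_nonneg _) hz k) (Nat.cast_nonneg _)
    rw [abs_mul, abs_mul]
    refine mul_le_mul (mul_le_mul (hf _ _ (ha i hi)) (hf _ _ (hb i hi)) (abs_nonneg _) ?_)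
      (hf _ _ (he i hi)) (abs_nonneg _) ?_
    · positivity
    · positivity
  calc ∑ i ∈ I, |∑ q ∈ S i, c i q *
      (Tay_E n (a i * x q ^ 2) * Tay_E n (b i * y q ^ 2) * Tay_E n (e i * (x q * y q)))|
      ≤ ∑ i ∈ I, ∑ k₁ ∈ range n, ∑ k₂ ∈ range n, ∑ k₃ ∈ range n,
        (M ^ k₁ / (k₁.factorial : ℝ) * (M ^ k₂ / (k₂.factorial : ℝ)) *
          (M ^ k₃ / (k₃.factorial : ℝ))) *
        |∑ q ∈ S i, c i q * (x q ^ (2 * k₁ + k₃) * y q ^ (2 * k₂ + k₃))| := sum_le_sum habs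
    _ = ∑ k₁ ∈ range n, ∑ k₂ ∈ range n, ∑ k₃ ∈ range n,
        (M ^ k₁ / (k₁.factorial : ℝ) * (M ^ k₂ / (k₂.factorial : ℝ)) *
          (M ^ k₃ / (k₃.factorial : ℝ))) *
        ∑ i ∈ I, |∑ q ∈ S i, c i q * (x q ^ (2 * k₁ + k₃) * y q ^ (2 * k₂ + k₃))| := by
        rw [sum_comm]
        refine sum_congr rfl fun k₁ _ => ?_
        rw [sum_comm]
        refine sum_congr rfl fun k₂ _ => ?_
        rw [sum_comm]
        refine sum_congr rfl fun k₃ _ => ?_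
        rw [mul_sum]
    _ ≤ ∑ k₁ ∈ range n, ∑ k₂ ∈ range n, ∑ k₃ ∈ range n,
        (M ^ k₁ / (k₁.factorial : ℝ) * (M ^ k₂ / (k₂.factorial : ℝ)) *
          (M ^ k₃ / (k₃.factorial : ℝ))) * B := by
        refine sum_le_sum fun k₁ _ => sum_le_sum fun k₂ _ => sum_le_sum fun k₃ _ => ?_
        exact mul_le_mul_of_nonneg_left (hB _ _) (by positivity)
    _ = Tay_E n M * Tay_E n M * Tay_E n M * B := by
        rw [Tay_prod, sum_mul]
        refine sum_congr rfl fun k₁ _ => ?_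
        rw [sum_mul]
        refine sum_congr rfl fun k₂ _ => ?_
        rw [sum_mul]
    _ ≤ Real.exp M * Real.exp M * Real.exp M * B := by
        have h0 : 0 ≤ Tay_E n M := sum_nonneg fun k _ => by positivity
        have h1 := Tay_le hM n
        have h2 : Tay_E n M * Tay_E n M ≤ Real.exp M * Real.exp M :=
          mul_le_mul h1 h1 h0 (Real.exp_pos _).le
        have h3 : Tay_E n M * Tay_E n M * Tay_E n M ≤ Real.exp M * Real.exp M * Real.exp M :=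
          mul_le_mul h2 h1 h0 (by positivity)
        exact mul_le_mul_of_nonneg_right h3 hB0
    _ = Real.exp (3 * M) * B := by
        rw [← Real.exp_add, ← Real.exp_add]
        congr 2
        ring

end Pool.Agent.Lib.MP_d57abb_nt.KT
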