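import Mathlib
import Pool.Agent.Lib.MP_d57abb_nt.KT.Mab
import Pool.Agent.Lib.MP_d57abb_nt.KT.Mult
import Pool.Agent.Lib.MP_d57abb_nt.KT.TId
import Pool.Agent.Lib.MP_d57abb_nt.KT.Tay

/-!
# JOB Good: the pairs of columns with large determinant

`F` = the pairs `q = (t, t') ∈ box N × box N` with `N² ≤ J |dt t t'|`.  Let `M = 4 J²`, `C = exp 2 · exp (12 J²) · 2 (2J+1)^4`, `w₀, P₀` from `main_bound K J (δ/C)`.  For `N` large: `P ≥ N²/K ≥ P₀` and `P > 0`.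
By `TT_eq`, `TT W P N (J N) t t' = exp 2 * ∑_{q ∈ Sq P D l} fN q.1 fN q.2 exp (..)`; `taylor_sep` with `I = F`, `S (t, t') = Sq P |dt| lam`, `c _ q = fN q.1 * fN q.2`, `x q = q.1/P`, `y q = q.2/P`, `a, b, e = ca, cb, cc` (`ca_le`,
`cb_le`, `cc_le`): it is enough that for all `j k`: `∑_{(t,t') ∈ F} |∑_{q ∈ Sq P D l} fN q.1 fN q.2 (x^j y^k)| ≤ B`; the inner sum is `∑ gi j q.1 * gi k q.2`, so by `mult_bound` (with `h D l = |∑_{q ∈ Sq P D l} gi j q.1 * gi k q.2|`)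
the left side is `≤ 2 (2J+1)^4 ∑_{D ≤ N², N² ≤ J D} ∑_{l ∈ un D} |..| ≤ 2 (2J+1)^4 (δ/C) P` (`N² ≤ K P` and `N² ≤ J D → P ≤ J D`, a larger set of `D`).  Total: `exp 2 · exp (12 J²) · 2 (2J+1)^4 (δ/C) P = δ P ≤ δ N²`.
-/

open Finset

namespace Pool.Agent.Lib.MP_d57abb_nt.KT

open Pool.Agent.Lib.MP_d57abb_nt

theorem good_pairs (K J : ℕ) (hK : 1 ≤ K) (δ : ℝ) (hδ : 0 < δ) : ∃ w₀ : ℕ, ∀ w : ℕ, w₀ ≤ w → ∃ N₀ : ℕ, ∀ N : ℕ, N₀ ≤ N →
    ∀ P : ℕ, P ≤ N ^ 2 → N ^ 2 ≤ K * P →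
    ∑ q ∈ (box N ×ˢ box N).filter (fun q => N ^ 2 ≤ J * (dt q.1 q.2).natAbs),
      |TT (primorial w) P N (J * N) q.1 q.2| ≤ δ * (N : ℝ) ^ 2 := by
  set C : ℝ := Real.exp 2 * Real.exp (3 * (4 * (J : ℝ) ^ 2)) * (2 * (2 * (J : ℝ) + 1) ^ 4) with hC
  have hCpos : 0 < C := by positivity
  obtain ⟨w₀, hw₀⟩ := main_bound K J (δ / C) (by positivity)
  refine ⟨w₀, fun w hw => ?_⟩
  obtain ⟨P₀, hP₀⟩ := hw₀ w hw
  refine ⟨K * P₀ + 1, fun N hN P hP1 hP2 => ?_⟩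
  have hN0 : 0 < N := by omega
  have hNN : N ≤ N ^ 2 := by nlinarith
  have hPP : P₀ ≤ P := by
    by_contra hcon
    have h1 : K * P ≤ K * P₀ := Nat.mul_le_mul_left K (by omega)
    omega
  have hP0 : 0 < P := by
    rcases Nat.eq_zero_or_pos P with h | h
    · rw [h, Nat.mul_zero] at hP2
      omega
    · exact h
  set F := (box N ×ˢ box N).filter (fun q => N ^ 2 ≤ J * (dt q.1 q.2).natAbs) with hF
  have hmem : ∀ q ∈ F, q.1 ∈ box N ∧ q.2 ∈ box N ∧ N ^ 2 ≤ J * (dt q.1 q.2).natAbs := by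
    intro q hq
    rw [hF, Finset.mem_filter, Finset.mem_product] at hq
    exact ⟨hq.1.1, hq.1.2, hq.2⟩
  set B : ℝ := 2 * (2 * (J : ℝ) + 1) ^ 4 * (δ / C * P) with hB
  have hBB : ∀ j k : ℕ, ∑ q ∈ F, |∑ p ∈ Sq P (dt q.1 q.2).natAbs (lam q.1 q.2),
      fN (primorial w) P p.1 * fN (primorial w) P p.2 * (((p.1 : ℝ) / P) ^ j * ((p.2 : ℝ) / P) ^ k)| ≤ B := by
    intro j k
    have h1 := mult_bound N J hN0 F hmem
      (fun D l => |∑ p ∈ Sq P D l, gi (primorial w) P j p.1 * gi (primorial w) P k p.2|) (fun D l => abs_nonneg _)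
    have h2 : ∑ q ∈ F, |∑ p ∈ Sq P (dt q.1 q.2).natAbs (lam q.1 q.2),
      fN (primorial w) P p.1 * fN (primorial w) P p.2 * (((p.1 : ℝ) / P) ^ j * ((p.2 : ℝ) / P) ^ k)| =
        ∑ q ∈ F, |∑ p ∈ Sq P (dt q.1 q.2).natAbs (lam q.1 q.2),
          gi (primorial w) P j p.1 * gi (primorial w) P k p.2| := by
      refine Finset.sum_congr rfl (fun q _ => ?_)
      refine congrArg abs (Finset.sum_congr rfl (fun p _ => ?_))
      unfold gi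
      ring
    rw [h2]
    refine h1.trans ?_
    rw [hB]
    refine mul_le_mul_of_nonneg_left ?_ (by positivity)
    refine le_trans (Finset.sum_le_sum_of_subset_of_nonneg ?_ ?_) (hP₀ P hPP j k)
    · intro D hD
      rw [Finset.mem_filter, Finset.mem_Icc] at hD ⊢
      exact ⟨⟨hD.1.1, hD.1.2.trans hP2⟩, hP1.trans hD.2⟩
    · intro D _ _
      exact Finset.sum_nonneg (fun l _ => abs_nonneg _)
  have hT := taylor_sep F (fun q => Sq P (dt q.1 q.2).natAbs (lam q.1 q.2))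
    (fun _ p => fN (primorial w) P p.1 * fN (primorial w) P p.2) (fun p => (p.1 : ℝ) / P) (fun p => (p.2 : ℝ) / P)
    (fun q => ca P N q.1 q.2) (fun q => cb P N q.1 q.2) (fun q => cc P N q.1 q.2) (4 * (J : ℝ) ^ 2) B
    (by positivity) (fun q hq => ca_le P N J hN0 hP1 q.1 q.2 (hmem q hq).1 (hmem q hq).2.1 (hmem q hq).2.2)
    (fun q hq => cb_le P N J hN0 hP1 q.1 q.2 (hmem q hq).1 (hmem q hq).2.1 (hmem q hq).2.2)
    (fun q hq => cc_le P N J hN0 hP1 q.1 q.2 (hmem q hq).1 (hmem q hq).2.1 (hmem q hq).2.2) hBB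
  have e1 : ∀ q ∈ F, |TT (primorial w) P N (J * N) q.1 q.2| = Real.exp 2 *
      |∑ p ∈ Sq P (dt q.1 q.2).natAbs (lam q.1 q.2), fN (primorial w) P p.1 * fN (primorial w) P p.2 *
        Real.exp (ca P N q.1 q.2 * ((p.1 : ℝ) / P) ^ 2 + cb P N q.1 q.2 * ((p.2 : ℝ) / P) ^ 2 +
          cc P N q.1 q.2 * (((p.1 : ℝ) / P) * ((p.2 : ℝ) / P)))| := by
    intro q hq
    rw [TT_eq (primorial w) P N J hN0 hP0 hP1 q.1 q.2 (hmem q hq).1 (hmem q hq).2.1 (hmem q hq).2.2, abs_mul,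
      abs_of_pos (Real.exp_pos 2)]
  rw [Finset.sum_congr rfl e1, ← Finset.mul_sum]
  have h3 : Real.exp 2 * (Real.exp (3 * (4 * (J : ℝ) ^ 2)) * B) = δ * P := by
    have : Real.exp 2 * (Real.exp (3 * (4 * (J : ℝ) ^ 2)) * B) = C * (δ / C * P) := by
      rw [hB, hC]
      ring
    rw [this, ← mul_assoc, mul_div_cancel₀ _ hCpos.ne']
  have h4 : (P : ℝ) ≤ (N : ℝ) ^ 2 := by exact_mod_cast hP1
  calc Real.exp 2 * _ ≤ Real.exp 2 * (Real.exp (3 * (4 * (J : ℝ) ^ 2)) * B) :=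
        mul_le_mul_of_nonneg_left hT (Real.exp_pos 2).le
    _ = δ * P := h3
    _ ≤ δ * (N : ℝ) ^ 2 := mul_le_mul_of_nonneg_left h4 hδ.le

end Pool.Agent.Lib.MP_d57abb_nt.KT
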