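import Mathlib
import Pool.Agent.Lib.MP_d57abb_nt.KT.BadS
import Pool.Agent.Lib.MP_d57abb_nt.KT.Good
import Pool.Agent.Lib.MP_d57abb_nt.KT.CW

/-!
# JOB Kernel: the kernel theorem

`C₃` from `bad_pairs K`.  Choose `J ≥ 1` with `C₃/J ≤ ε²/8`, then `w₀` from `good_pairs K J (ε²/8)` (and `w₀ ≥ 5`), `W = primorial w` (`> 0`, divisible by 5), `N₀` the maximum of the two `N₀`s and `1`.
`cs`: Cauchy-Schwarz: `‖∑_{s ∈ box} ∑_{t ∈ box} A s B t f(dt s t)‖² ≤ #box ∑_{s ∈ box} ‖∑_t B t f(dt s t)‖² ≤ (N+1)² ∑_{s ∈ Bx (J N)} Ph N s ‖∑_{t ∈ box} B t f(dt s t)‖²` (`‖A s‖ ≤ 1`, `Ph_ge`, `box_sub`, `N ≤ J N`, `#box ≤ (N+1)²`).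
Expand the square: `‖∑_t B t f‖² = re ∑_{t,t'} B t conj (B t') f(dt s t) f(dt s t')`; the pairs `(t, t')` that are bad (`|dt (ix t) (ix t')| ≤ 4 J`) contribute at most `∑_s Ph N s ∑_{bad} |f(dt s t)| |f(dt s t')| ≤ (ε²/8) N²`
(`bad_pairs`); the others are in the set of `good_pairs` (`geo`), and exchanging the sums they contribute at most `∑_{good} |TT W P N (J N) t t'| ≤ (ε²/8) N²`.  Total `≤ (N+1)² (ε²/4) N² ≤ 4 N² (ε²/4) N² = (ε N²)²`.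
-/

open Finset

namespace Pool.Agent.Lib.MP_d57abb_nt.KT

open Pool.Agent.Lib.MP_d57abb_nt

theorem card_box_le (N : ℕ) : ((box N).card : ℝ) ≤ ((N : ℝ) + 1) ^ 2 := by
  have h1 : (box N).card ≤ ((Icc (0 : ℤ) N) ×ˢ (Icc (0 : ℤ) N)).card := Finset.card_filter_le _ _
  rw [Finset.card_product, Int.card_Icc] at h1
  have h2 : ((N : ℤ) + 1 - 0).toNat = N + 1 := by omega
  rw [h2] at h1
  have h3 : ((box N).card : ℝ) ≤ (((N + 1) * (N + 1) : ℕ) : ℝ) := by exact_mod_cast h1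
  refine h3.trans (le_of_eq ?_)
  push_cast
  ring

/-- expansion of the square and splitting of the pairs of columns -/
theorem expand (N : ℕ) (F : ℤ × ℤ → ℤ × ℤ → ℝ) (S T : Finset (ℤ × ℤ)) (B : ℤ × ℤ → ℂ) (hB : ∀ v, ‖B v‖ ≤ 1)
    (bd : (ℤ × ℤ) × (ℤ × ℤ) → Prop) [DecidablePred bd] :
    ∑ s ∈ S, Ph N s * ‖∑ t ∈ T, B t * ((F s t : ℝ) : ℂ)‖ ^ 2 ≤
      ∑ s ∈ S, Ph N s * ∑ q ∈ (T ×ˢ T).filter bd, |F s q.1| * |F s q.2| +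
        ∑ q ∈ (T ×ˢ T).filter (fun q => ¬ bd q), |∑ s ∈ S, Ph N s * (F s q.1 * F s q.2)| := by
  have hPh : ∀ s, 0 ≤ Ph N s := fun s => (Real.exp_pos _).le
  have hsq : ∀ s, ((‖∑ t ∈ T, B t * ((F s t : ℝ) : ℂ)‖ ^ 2 : ℝ) : ℂ) =
      ∑ q ∈ T ×ˢ T, B q.1 * (starRingEnd ℂ) (B q.2) * (((F s q.1 * F s q.2 : ℝ)) : ℂ) := by
    intro s
    rw [Complex.ofReal_pow, ← Complex.mul_conj', map_sum, Finset.sum_mul_sum, ← Finset.sum_product']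
    refine Finset.sum_congr rfl fun q _ => ?_
    rw [map_mul, Complex.conj_ofReal, Complex.ofReal_mul]
    ring
  have hX : ((∑ s ∈ S, Ph N s * ‖∑ t ∈ T, B t * ((F s t : ℝ) : ℂ)‖ ^ 2 : ℝ) : ℂ) =
      ∑ s ∈ S, ((Ph N s : ℝ) : ℂ) * ∑ q ∈ (T ×ˢ T).filter bd,
          B q.1 * (starRingEnd ℂ) (B q.2) * (((F s q.1 * F s q.2 : ℝ)) : ℂ) +
        ∑ q ∈ (T ×ˢ T).filter (fun q => ¬ bd q), B q.1 * (starRingEnd ℂ) (B q.2) *
          ((∑ s ∈ S, Ph N s * (F s q.1 * F s q.2) : ℝ) : ℂ) := by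
    rw [Complex.ofReal_sum]
    have h1 : ∀ s ∈ S, ((Ph N s * ‖∑ t ∈ T, B t * ((F s t : ℝ) : ℂ)‖ ^ 2 : ℝ) : ℂ) =
        ((Ph N s : ℝ) : ℂ) * ∑ q ∈ (T ×ˢ T).filter bd,
          B q.1 * (starRingEnd ℂ) (B q.2) * (((F s q.1 * F s q.2 : ℝ)) : ℂ) +
        ((Ph N s : ℝ) : ℂ) * ∑ q ∈ (T ×ˢ T).filter (fun q => ¬ bd q),
          B q.1 * (starRingEnd ℂ) (B q.2) * (((F s q.1 * F s q.2 : ℝ)) : ℂ) := by
      intro s _
      rw [Complex.ofReal_mul, hsq s, ← mul_add, Finset.sum_filter_add_sum_filter_not]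
    rw [Finset.sum_congr rfl h1, Finset.sum_add_distrib]
    congr 1
    simp only [Finset.mul_sum]
    rw [Finset.sum_comm]
    refine Finset.sum_congr rfl fun q _ => ?_
    rw [Complex.ofReal_sum, Finset.mul_sum]
    refine Finset.sum_congr rfl fun s _ => ?_
    push_cast
    ring
  have hc : ∀ q : (ℤ × ℤ) × (ℤ × ℤ), ‖B q.1 * (starRingEnd ℂ) (B q.2)‖ ≤ 1 := by
    intro q
    rw [norm_mul, RCLike.norm_conj]
    exact mul_le_one₀ (hB _) (norm_nonneg _) (hB _)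
  have hnn : 0 ≤ ∑ s ∈ S, Ph N s * ‖∑ t ∈ T, B t * ((F s t : ℝ) : ℂ)‖ ^ 2 :=
    Finset.sum_nonneg fun s _ => mul_nonneg (hPh s) (sq_nonneg _)
  calc ∑ s ∈ S, Ph N s * ‖∑ t ∈ T, B t * ((F s t : ℝ) : ℂ)‖ ^ 2
      = ‖((∑ s ∈ S, Ph N s * ‖∑ t ∈ T, B t * ((F s t : ℝ) : ℂ)‖ ^ 2 : ℝ) : ℂ)‖ := by
        rw [Complex.norm_real, Real.norm_of_nonneg hnn]
    _ ≤ ‖∑ s ∈ S, ((Ph N s : ℝ) : ℂ) * ∑ q ∈ (T ×ˢ T).filter bd,
          B q.1 * (starRingEnd ℂ) (B q.2) * (((F s q.1 * F s q.2 : ℝ)) : ℂ)‖ +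
        ‖∑ q ∈ (T ×ˢ T).filter (fun q => ¬ bd q), B q.1 * (starRingEnd ℂ) (B q.2) *
          ((∑ s ∈ S, Ph N s * (F s q.1 * F s q.2) : ℝ) : ℂ)‖ := by
        rw [hX]
        exact norm_add_le _ _
    _ ≤ _ := by
        refine add_le_add ?_ ?_
        · refine (norm_sum_le _ _).trans (Finset.sum_le_sum fun s _ => ?_)
          rw [norm_mul, Complex.norm_real, Real.norm_of_nonneg (hPh s)]
          refine mul_le_mul_of_nonneg_left ?_ (hPh s)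
          refine (norm_sum_le _ _).trans (Finset.sum_le_sum fun q _ => ?_)
          rw [norm_mul, Complex.norm_real, Real.norm_eq_abs, abs_mul]
          exact (mul_le_mul_of_nonneg_right (hc q) (by positivity)).trans (le_of_eq (one_mul _))
        · refine (norm_sum_le _ _).trans (Finset.sum_le_sum fun q _ => ?_)
          rw [norm_mul, Complex.norm_real, Real.norm_eq_abs]
          exact (mul_le_mul_of_nonneg_right (hc q) (abs_nonneg _)).trans (le_of_eq (one_mul _))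

/-- Cauchy-Schwarz in the rows -/
theorem cs (N R : ℕ) (hR : N ≤ R) (F : ℤ × ℤ → ℤ × ℤ → ℝ) (A B : ℤ × ℤ → ℂ) (hA : ∀ v, ‖A v‖ ≤ 1) :
    ‖∑ s ∈ box N, ∑ t ∈ box N, A s * B t * ((F s t : ℝ) : ℂ)‖ ^ 2 ≤
      ((N : ℝ) + 1) ^ 2 * ∑ s ∈ Bx R, Ph N s * ‖∑ t ∈ box N, B t * ((F s t : ℝ) : ℂ)‖ ^ 2 := by
  have hPh : ∀ s, 0 ≤ Ph N s := fun s => (Real.exp_pos _).le
  have h1 : ‖∑ s ∈ box N, ∑ t ∈ box N, A s * B t * ((F s t : ℝ) : ℂ)‖ ≤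
      ∑ s ∈ box N, ‖∑ t ∈ box N, B t * ((F s t : ℝ) : ℂ)‖ := by
    refine (norm_sum_le _ _).trans (Finset.sum_le_sum fun s _ => ?_)
    have h2 : ∑ t ∈ box N, A s * B t * ((F s t : ℝ) : ℂ) = A s * ∑ t ∈ box N, B t * ((F s t : ℝ) : ℂ) := by
      rw [Finset.mul_sum]
      exact Finset.sum_congr rfl fun t _ => mul_assoc _ _ _
    rw [h2, norm_mul]
    exact (mul_le_mul_of_nonneg_right (hA s) (norm_nonneg _)).trans (le_of_eq (one_mul _))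
  calc ‖∑ s ∈ box N, ∑ t ∈ box N, A s * B t * ((F s t : ℝ) : ℂ)‖ ^ 2
      ≤ (∑ s ∈ box N, ‖∑ t ∈ box N, B t * ((F s t : ℝ) : ℂ)‖) ^ 2 :=
        pow_le_pow_left₀ (norm_nonneg _) h1 2
    _ ≤ ((box N).card : ℝ) * ∑ s ∈ box N, ‖∑ t ∈ box N, B t * ((F s t : ℝ) : ℂ)‖ ^ 2 :=
        sq_sum_le_card_mul_sum_sq
    _ ≤ ((N : ℝ) + 1) ^ 2 * ∑ s ∈ Bx R, Ph N s * ‖∑ t ∈ box N, B t * ((F s t : ℝ) : ℂ)‖ ^ 2 := by
        refine mul_le_mul (card_box_le N) ?_ (Finset.sum_nonneg fun _ _ => sq_nonneg _) (by positivity)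
        calc ∑ s ∈ box N, ‖∑ t ∈ box N, B t * ((F s t : ℝ) : ℂ)‖ ^ 2
            ≤ ∑ s ∈ box N, Ph N s * ‖∑ t ∈ box N, B t * ((F s t : ℝ) : ℂ)‖ ^ 2 := by
              refine Finset.sum_le_sum fun s hs => ?_
              exact le_mul_of_one_le_left (sq_nonneg _) (Ph_ge N s hs)
          _ ≤ _ := Finset.sum_le_sum_of_subset_of_nonneg (box_sub N R hR)
              (fun s _ _ => mul_nonneg (hPh s) (sq_nonneg _))

theorem kernel (K : ℕ) (hK : 1 ≤ K) (ε : ℝ) (hε : 0 < ε) : ∃ w₀ : ℕ, ∀ w : ℕ, w₀ ≤ w → ∃ N₀ : ℕ, ∀ N : ℕ, N₀ ≤ N →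
    ∀ P : ℕ, P ≤ N ^ 2 → N ^ 2 ≤ K * P → ∀ A B : ℤ × ℤ → ℂ, (∀ v, ‖A v‖ ≤ 1) → (∀ v, ‖B v‖ ≤ 1) →
    ‖∑ s ∈ box N, ∑ t ∈ box N, A s * B t * ((ff (primorial w) P (dt s t) : ℝ) : ℂ)‖ ≤ ε * (N : ℝ) ^ 2 := by
  classical
  obtain ⟨C₃, hC₃, hbad⟩ := bad_pairs K hK
  obtain ⟨J, hJ⟩ := exists_nat_ge (8 * C₃ / ε ^ 2)
  have hJ0 : (0 : ℝ) < J := lt_of_lt_of_le (by positivity) hJ
  have hJ1 : 1 ≤ J := by
    have h : 0 < J := by exact_mod_cast hJ0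
    exact h
  obtain ⟨w₀, hw₀⟩ := good_pairs K J hK (ε ^ 2 / 8) (by positivity)
  refine ⟨max w₀ 5, fun w hw => ?_⟩
  obtain ⟨N₁, hN₁⟩ := hw₀ w (le_trans (le_max_left _ _) hw)
  have hW : 0 < primorial w := primorial_pos w
  have h5 : 5 ∣ primorial w := five_dvd_primorial w (le_trans (le_max_right _ _) hw)
  obtain ⟨N₂, hN₂⟩ := hbad J hJ1 (primorial w) hW h5
  refine ⟨max (max N₁ N₂) 1, fun N hN P hP1 hP2 A B hA hB => ?_⟩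
  have hNa : N₁ ≤ N := le_trans (le_trans (le_max_left _ _) (le_max_left _ _)) hN
  have hNb : N₂ ≤ N := le_trans (le_trans (le_max_right _ _) (le_max_left _ _)) hN
  have hNc : 1 ≤ N := le_trans (le_max_right _ _) hN
  have hNr : (1 : ℝ) ≤ N := by exact_mod_cast hNc
  have good := hN₁ N hNa P hP1 hP2
  have bad := hN₂ N hNb P hP1 hP2
  have hC : C₃ * (N : ℝ) ^ 2 / J ≤ ε ^ 2 / 8 * (N : ℝ) ^ 2 := by
    rw [div_le_iff₀ hJ0]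
    have h1 : 8 * C₃ ≤ J * ε ^ 2 := by rwa [div_le_iff₀ (by positivity)] at hJ
    have h2 : (0 : ℝ) ≤ (N : ℝ) ^ 2 := by positivity
    nlinarith
  have hR : N ≤ J * N := Nat.le_mul_of_pos_left N hJ1
  have h1 := cs N (J * N) hR (fun s t => ff (primorial w) P (dt s t)) A B hA
  have h2 := expand N (fun s t => ff (primorial w) P (dt s t)) (Bx (J * N)) (box N) B hB
    (fun q => (dt (ix (N / J + 1) q.1) (ix (N / J + 1) q.2)).natAbs ≤ 4 * J)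
  have h3 : ∑ q ∈ (box N ×ˢ box N).filter (fun q => ¬ (dt (ix (N / J + 1) q.1) (ix (N / J + 1) q.2)).natAbs ≤ 4 * J),
      |∑ s ∈ Bx (J * N), Ph N s * (ff (primorial w) P (dt s q.1) * ff (primorial w) P (dt s q.2))| ≤
      ε ^ 2 / 8 * (N : ℝ) ^ 2 := by
    refine le_trans ?_ good
    refine Finset.sum_le_sum_of_subset_of_nonneg ?_ (fun _ _ _ => abs_nonneg _)
    intro q hq
    rw [Finset.mem_filter] at hq ⊢
    refine ⟨hq.1, ?_⟩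
    rw [Finset.mem_product] at hq
    exact geo N J hJ1 q.1 q.2 hq.1.1 hq.1.2 hq.2
  have h4 : ‖∑ s ∈ box N, ∑ t ∈ box N, A s * B t * ((ff (primorial w) P (dt s t) : ℝ) : ℂ)‖ ^ 2 ≤
      (ε * (N : ℝ) ^ 2) ^ 2 := by
    refine h1.trans ?_
    calc ((N : ℝ) + 1) ^ 2 * ∑ s ∈ Bx (J * N), Ph N s *
          ‖∑ t ∈ box N, B t * ((ff (primorial w) P (dt s t) : ℝ) : ℂ)‖ ^ 2
        ≤ ((N : ℝ) + 1) ^ 2 * (ε ^ 2 / 8 * (N : ℝ) ^ 2 + ε ^ 2 / 8 * (N : ℝ) ^ 2) := by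
          refine mul_le_mul_of_nonneg_left ?_ (by positivity)
          exact h2.trans (add_le_add (bad.trans hC) h3)
      _ ≤ (2 * (N : ℝ)) ^ 2 * (ε ^ 2 / 8 * (N : ℝ) ^ 2 + ε ^ 2 / 8 * (N : ℝ) ^ 2) := by
          refine mul_le_mul_of_nonneg_right ?_ (by positivity)
          exact pow_le_pow_left₀ (by positivity) (by linarith) 2
      _ = (ε * (N : ℝ) ^ 2) ^ 2 := by ring
  exact (pow_le_pow_iff_left₀ (norm_nonneg _) (by positivity) two_ne_zero).1 h4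

end Pool.Agent.Lib.MP_d57abb_nt.KT
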